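import Pool.Agent.N138.SU.Stm5

set_option autoImplicit false
set_option linter.unusedSectionVars false
set_option linter.unusedVariables false

/-! # W5: the orders of the poles of the twisted zeta functions of plane curves (helper767) -/

namespace Pool.Agent.N138.SU.W5

open Pool.Agent.W574.SM Pool.Agent.Y230.RE Pool.Agent.Y230.PL Polynomial
open Pool.Agent.Y230.PT Pool.Agent.Y465.TH Pool.Agent.N138.SU

variable {p : ℕ} [Fact p.Prime]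

attribute [local instance] msK bsK

variable (χ : UC p) {T0 : ℂ} {M : ℕ}

/-! ### The leaves -/

theorem Ix_reg1 (hT0 : T0 ≠ 0) (a n : ℕ) (hn : 1 ≤ n) (b : ℚ_[p]) (k : ℕ) :
    Reg p T0 1 (fun s => Ix χ s a n b k) := by
  rcases lt_or_ge (qr p ^ k) ‖b‖ with hb | hb
  · exact (Ix_far χ hT0 a n b k hb).mono (Nat.zero_le 1)
  · have h0 : b ∈ bl (0 : ℚ_[p]) k := by
      rw [mem_bl, sub_zero]
      exact hb
    by_cases ht : ∀ u : ℚ_[p], ‖u‖ = 1 → χ.X u ^ a = 1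
    · refine (reg_J1 (p := p) hT0 a n k hn).congr fun s hs => ?_
      rw [Ix_ball χ s a n k h0, Ix_triv χ hs a n k ht]
    · refine Reg.zero.congr fun s hs => ?_
      rw [Ix_ball χ s a n k h0, Ix_nontriv χ s a n k ht]

/-- the order of the pole of a pair -/
def Rkx (χ : UC p) (T0 : ℂ) (M a0 n0 a1 n1 : ℕ) : Prop :=
  M = 2 ∨ (M = 1 ∧ (¬ Cr χ T0 a0 n0 ∨ ¬ Cr χ T0 a1 n1)) ∨
    (M = 0 ∧ ¬ Cr χ T0 a0 n0 ∧ ¬ Cr χ T0 a1 n1)

variable {χ}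

theorem Rkx.reg (hT0 : T0 ≠ 0) {a0 n0 a1 n1 : ℕ} (h : Rkx χ T0 M a0 n0 a1 n1)
    (hn0 : 1 ≤ n0) (hn1 : 1 ≤ n1) (b0 b1 : ℚ_[p]) (k0 k1 : ℕ) :
    Reg p T0 M (fun s => Ix χ s a0 n0 b0 k0 * Ix χ s a1 n1 b1 k1) := by
  rcases h with rfl | ⟨rfl, h2 | h2⟩ | ⟨rfl, h2, h3⟩
  · have e0 := Ix_reg1 χ (T0 := T0) hT0 a0 n0 hn0 b0 k0
    have e1 := Ix_reg1 χ (T0 := T0) hT0 a1 n1 hn1 b1 k1
    have e := e0.mul e1
    exact e
  · have e0 := Ix_reg χ (T0 := T0) hT0 a0 n0 hn0 h2 b0 k0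
    have e1 := Ix_reg1 χ (T0 := T0) hT0 a1 n1 hn1 b1 k1
    have e := e0.mul0 e1
    exact e
  · have e0 := Ix_reg1 χ (T0 := T0) hT0 a0 n0 hn0 b0 k0
    have e1 := Ix_reg χ (T0 := T0) hT0 a1 n1 hn1 h2 b1 k1
    have e := e1.mul0 e0
    exact e.congr fun s _ => mul_comm _ _
  · have e0 := Ix_reg χ (T0 := T0) hT0 a0 n0 hn0 h2 b0 k0
    have e1 := Ix_reg χ (T0 := T0) hT0 a1 n1 hn1 h3 b1 k1
    have e := e0.mul0 e1
    exact e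

theorem Rkx.mn (hT0 : T0 ≠ 0) {a0 n0 a1 n1 : ℕ} (h : Rkx χ T0 M a0 n0 a1 n1)
    (hn0 : 1 ≤ n0) (hn1 : 1 ≤ n1) (β : ℚ_[p]) (hβ : β ≠ 0)
    {C : Set (ℚ_[p] × ℚ_[p])} (hC : CO C) : Reg p T0 M (Zx (Mx χ β a0 n0 a1 n1) C) := by
  refine reg_boxes (addF_Zx (okx_M χ β a0 n0 a1 n1)) 0 hC fun y k => ?_
  refine ((reg_om χ hT0 β hβ).mul0 (h.reg hT0 hn0 hn1 y.1 y.2 (k + 0) k)).congr fun s _ => ?_
  rw [Mx_box]

variable (χ)

theorem LM_unitx (hT0 : T0 ≠ 0) (g : Fin 1 → A ℚ_[p])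
    (hj : MvPolynomial.constantCoeff (g 0) ≠ 0) {a0 n0 a1 n1 : ℕ} (hn0 : 1 ≤ n0) (hn1 : 1 ≤ n1)
    (hR : Rkx χ T0 M a0 n0 a1 n1) : LReg T0 M (Zx (Hx χ g a0 n0 a1 n1)) (0, 0) := by
  obtain ⟨U, hU, h0U, hU2⟩ := Hx_unit χ g hj a0 n0 a1 n1
  refine (LReg.of_all (0, 0) (fun C hC => hR.mn hT0 hn0 hn1
    (MvPolynomial.constantCoeff (g 0)) hj hC)).congr hU h0U
    fun C hC hCU s hs => (hU2 C hC hCU s).symm

theorem LM_curveVx (hT0 : T0 ≠ 0) (g : Fin 1 → A ℚ_[p]) (m : ℕ) (h : A ℚ_[p])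
    (k : Fin 1 → A ℚ_[p]) (hg : ∀ j, g j = h ^ m * k j) (h0 : MvPolynomial.constantCoeff h = 0)
    (h1 : MvPolynomial.constantCoeff (MvPolynomial.pderiv 1 h) ≠ 0)
    (hj : MvPolynomial.constantCoeff (k 0) ≠ 0) {a0 n0 : ℕ} (hn0 : 1 ≤ n0)
    (hR : Rkx χ T0 M a0 n0 m 1) : LReg T0 M (Zx (Hx χ g a0 n0 0 1)) (0, 0) := by
  obtain ⟨κ, U, B, hU, h0U, hO, hbox⟩ := Hx_curve χ g m h k hg h0 h1 hj a0 n0
  have hne : (r0 (g 0)).coeff m ≠ 0 := by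
    obtain ⟨j, hj⟩ := hO.2
    rwa [Subsingleton.elim j 0] at hj
  have hreg : Reg p T0 0 (fun s => om χ s ((r0 (g 0)).coeff m)) := reg_om χ hT0 _ hne
  refine LReg.of_boxes (addF_Zx (okx_H χ _ _ _ _ _)) κ hU h0U fun y l hy => ?_
  refine (hreg.mul0 (hR.reg hT0 hn0 le_rfl y.1 (B y) (l + κ) l)).congr fun s hs => ?_
  rw [(hbox y l hy).1 s hs]

theorem LM_curveUx (hT0 : T0 ≠ 0) (g : Fin 1 → A ℚ_[p]) (m : ℕ) (h : A ℚ_[p])
    (k : Fin 1 → A ℚ_[p]) (hg : ∀ j, g j = h ^ m * k j) (h0 : MvPolynomial.constantCoeff h = 0)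
    (h1 : MvPolynomial.constantCoeff (MvPolynomial.pderiv 0 h) ≠ 0)
    (hj : MvPolynomial.constantCoeff (k 0) ≠ 0) {a1 n1 : ℕ} (hn1 : 1 ≤ n1)
    (hR : Rkx χ T0 M a1 n1 m 1) : LReg T0 M (Zx (Hx χ g 0 1 a1 n1)) (0, 0) := by
  have h2 := LM_curveVx χ hT0 (M := M) (fun j => Y230.PT.sw (g j)) m (Y230.PT.sw h)
    (fun j => Y230.PT.sw (k j))
    (fun i => by simp only [hg, map_mul, map_pow]) (by rw [Y230.PT.cc_sw, h0])
    (by rw [Y230.PT.pderiv_sw, Y230.PT.cc_sw]; exact h1) (by rw [Y230.PT.cc_sw]; exact hj) hn1 hR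
  exact lreg_swap (x := (0, 0)) (fun C hC s _ => Zx_Hx_sw χ g 0 1 a1 n1 hC s) h2

/-- **Regularity from the orders at the leaves.** -/
theorem main_MX (hT0 : T0 ≠ 0) (M : ℕ)
    (Cx : (Fin 1 → A ℚ_[p]) → Bool → Bool → ℕ → ℕ → ℕ → ℕ → Prop) (hCx : Closed Cx)
    (hunit : ∀ (g : Fin 1 → A ℚ_[p]) (d0 d1 : Bool) (a0 n0 a1 n1 : ℕ), Cx g d0 d1 a0 n0 a1 n1 →
      ∀ j, MvPolynomial.constantCoeff (g j) ≠ 0 → Rkx χ T0 M a0 n0 a1 n1)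
    (hV : ∀ (g : Fin 1 → A ℚ_[p]) (d0 : Bool) (a0 n0 m : ℕ), 1 ≤ m → Cx g d0 false a0 n0 0 1 →
      ∀ (h : A ℚ_[p]) (κ : Fin 1 → A ℚ_[p]), (∀ j, g j = h ^ m * κ j) →
      MvPolynomial.constantCoeff h = 0 → MvPolynomial.constantCoeff (MvPolynomial.pderiv 1 h) ≠ 0 →
      ∀ j, MvPolynomial.constantCoeff (κ j) ≠ 0 → Rkx χ T0 M a0 n0 m 1)
    (hU : ∀ (g : Fin 1 → A ℚ_[p]) (d1 : Bool) (a1 n1 m : ℕ), 1 ≤ m → Cx g false d1 0 1 a1 n1 →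
      ∀ (h : A ℚ_[p]) (κ : Fin 1 → A ℚ_[p]), (∀ j, g j = h ^ m * κ j) →
      MvPolynomial.constantCoeff h = 0 → MvPolynomial.constantCoeff (MvPolynomial.pderiv 0 h) ≠ 0 →
      ∀ j, MvPolynomial.constantCoeff (κ j) ≠ 0 → Rkx χ T0 M a1 n1 m 1)
    {g : Fin 1 → A ℚ_[p]} {d0 d1 : Bool} (hT : KT g d0 d1) : ∀ a0 n0 a1 n1 : ℕ,
    Cx g d0 d1 a0 n0 a1 n1 → LReg T0 M (Zx (Hx χ g a0 n0 a1 n1)) (0, 0) := by
  induction hT with
  | unit g d0 d1 j hj =>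
    intro a0 n0 a1 n1 hc
    obtain ⟨hn0, hn1⟩ := hCx.pos _ _ _ _ _ _ _ hc
    have hj0 := hj
    rw [Subsingleton.elim j 0] at hj0
    exact LM_unitx χ hT0 g hj0 hn0 hn1 (hunit _ _ _ _ _ _ _ hc j hj)
  | curveV g d0 m hm h κ hg h0 h1 j hj =>
    intro a0 n0 a1 n1 hc
    obtain ⟨hn0, hn1⟩ := hCx.pos _ _ _ _ _ _ _ hc
    obtain ⟨rfl, rfl⟩ := hCx.ty1 _ _ _ _ _ _ hc
    have hj0 := hj
    rw [Subsingleton.elim j 0] at hj0
    exact LM_curveVx χ hT0 g m h κ hg h0 h1 hj0 hn0 (hV g d0 a0 n0 m hm hc h κ hg h0 h1 j hj)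
  | curveU g d1 m hm h κ hg h0 h1 j hj =>
    intro a0 n0 a1 n1 hc
    obtain ⟨hn0, hn1⟩ := hCx.pos _ _ _ _ _ _ _ hc
    obtain ⟨rfl, rfl⟩ := hCx.ty0 _ _ _ _ _ _ hc
    have hj0 := hj
    rw [Subsingleton.elim j 0] at hj0
    exact LM_curveUx χ hT0 g m h κ hg h0 h1 hj0 hn1 (hU g d1 a1 n1 m hm hc h κ hg h0 h1 j hj)
  | blowup g d0 d1 m hm gc gI hgc hgI hne h0 hcc hI ih0 ihc ihI =>
    intro a0 n0 a1 n1 hc
    obtain ⟨hn0, hn1⟩ := hCx.pos _ _ _ _ _ _ _ hc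
    obtain ⟨c0, cc, cI⟩ := hCx.child g d0 d1 a0 n0 a1 n1 m gc gI hm hgc hgI hne hc
    have e1 : G1 (Hx χ g a0 n0 a1 n1) = Hx χ (gc 0) (a0 + a1 + m) (n0 + n1) a1 n1 := by
      funext s x
      exact Hx_c1 χ g (gc 0) m (hgc 0) a0 n0 a1 n1 hn0 hn1 s x
    have e2 : G2 (Hx χ g a0 n0 a1 n1) = Hx χ gI a0 n0 (a0 + a1 + m) (n0 + n1) := by
      funext s x
      exact Hx_c2 χ g gI m hgI a0 n0 a1 n1 hn0 hn1 s x
    refine LReg.blow (F1 := Zx (G1 (Hx χ g a0 n0 a1 n1))) (F2 := Zx (G2 (Hx χ g a0 n0 a1 n1)))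
      (addF_Zx (okx_H χ g a0 n0 a1 n1).G1)
      (fun L C hC s hs => Zx_blow L (okx_H χ g a0 n0 a1 n1) hC hs) ?_ ?_
    · intro c
      rw [e1]
      by_cases hc0 : c = 0
      · subst hc0
        exact ih0 _ _ _ _ c0
      · obtain ⟨V, hV, h0V, hV2⟩ := cst_add_near χ c hc0
        have h5 := lreg_chartx χ hT0 (M := M) c hc0 a1 n1
          (Hx χ (gc 0) (a0 + a1 + m) (n0 + n1) a1 n1) (Hx χ (gc c) (a0 + a1 + m) (n0 + n1) 0 1)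
          (fun _ _ => 1) (fun _ _ => 1) False hV h0V
          (fun x hx s _ => Hx_shift χ (gc 0) (gc c) c
            (fun j => ch_shift (hgc 0 j) (hgc c j)) _ _ _ _ s x (hV2 x hx))
          (fun h => h.elim) (by
            refine (ihc c hc0 _ _ _ _ (cc c hc0)).congr isOpen_univ trivial fun C _ _ s _ => ?_
            rw [crr_false not_false, sub_zero])
        refine h5.congr isOpen_univ trivial fun C _ _ s _ => ?_
        rw [crr_false not_false, sub_zero]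
    · rw [e2]
      exact ihI _ _ _ _ cI

/-! ### The order of the pole at a point -/

theorem local_MX (φ : ℚ_[p] →+* ℂ) (f : Fin 1 → A ℚ_[p]) (b : ℂ[X]) (hb0 : b ≠ 0)
    (hb : IsFunctionalEq (fun j => mp φ (f j)) b) (hT0 : T0 ≠ 0)
    (P : Fin 2 → ℚ_[p]) (hne : ∃ j, f j ≠ 0) :
    LReg T0 (b.rootMultiplicity ((rr p T0 : ℝ) : ℂ)) (Zx (Hx χ (nd f P) 0 1 0 1)) (0, 0) := by
  set r : ℂ := ((rr p T0 : ℝ) : ℂ) with hrdef
  have hgne := tr_ne_zero f P hne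
  have hT : KT (nd f P) false false := exists_KT (nd f P) false false hgne (by simp) (by simp)
  have htc : TC (nd f P) false false 0 1 0 1 := ⟨le_rfl, le_rfl, fun _ => ⟨rfl, rfl⟩,
    fun _ => ⟨rfl, rfl⟩⟩
  by_cases hr : b.eval r = 0
  swap
  · have := local_xC χ φ f b hb hT0 hr P hne
    exact this.mono (Nat.zero_le _)
  have h1 : 1 ≤ b.rootMultiplicity r := (rootMultiplicity_pos hb0).2 hr
  by_cases h2 : 2 ≤ b.rootMultiplicity r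
  · refine LReg.mono (M := 2) ?_ h2
    exact main_MX χ hT0 2 TC closed_TC (fun _ _ _ _ _ _ _ _ _ _ => Or.inl rfl)
      (fun _ _ _ _ _ _ _ _ _ _ _ _ _ _ => Or.inl rfl)
      (fun _ _ _ _ _ _ _ _ _ _ _ _ _ _ => Or.inl rfl) hT 0 1 0 1 htc
  · have h3 : b.rootMultiplicity r = 1 := by omega
    rw [h3]
    have hcr : ∀ a n : ℕ, Cr χ T0 a n → (n : ℂ) + (a : ℂ) * r = 0 := fun a n h => by
      rw [mul_comm]
      exact crit_r hT0 a n h.1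
    have hDZ : ¬ DZ r (fun j => mp φ (nd f P j)) 0 1 0 1 := by
      rintro ⟨Λ, hΛ, hz⟩
      have h4 : (fun j => mp φ (nd f P j)) = fun j => W574.SM.translate (fun i => φ (P i))
          (mp φ (f j)) := by
        funext j
        exact mp_tr φ P (f j)
      rw [h4] at hΛ
      have h5 := zc_root (fun j => mp φ (f j)) b hb (fun i => φ (P i)) r hΛ hz
      have h6 := (le_rootMultiplicity_iff hb0).2 h5
      omega
    refine main_MX χ hT0 1 (DC φ r) (closed_DC φ r) ?_ ?_ ?_ hT 0 1 0 1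
      ⟨htc, hDZ, hgne, by simp, by simp⟩
    · intro g d0 d1 a0 n0 a1 n1 hc j hj
      refine Or.inr (Or.inl ⟨rfl, ?_⟩)
      rw [← not_and_or]
      rintro ⟨h5, h6⟩
      exact hc.2.1 ⟨_, LT.unit _ a0 n0 a1 n1 j (by
        rw [mp_cc]
        exact fun h => hj ((map_eq_zero φ).1 h)), _, rfl, hcr _ _ h5, hcr _ _ h6⟩
    · intro g d0 a0 n0 m hm hc h κ hg h0 h1 j hj
      refine Or.inr (Or.inl ⟨rfl, ?_⟩)
      rw [← not_and_or]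
      rintro ⟨h5, h6⟩
      exact hc.2.1 ⟨_, LT.curveV _ a0 n0 m hm (mp φ h) (fun j => mp φ (κ j)) (fun i => by
        rw [hg, mp_mul, mp_pow]) (by rw [mp_cc, h0, map_zero]) (by
        rw [mp_pderiv, mp_cc]
        exact fun h => h1 ((map_eq_zero φ).1 h)) j (by
        rw [mp_cc]
        exact fun h => hj ((map_eq_zero φ).1 h)), _, rfl, hcr _ _ h5, hcr _ _ h6⟩
    · intro g d1 a1 n1 m hm hc h κ hg h0 h1 j hj
      refine Or.inr (Or.inl ⟨rfl, ?_⟩)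
      rw [← not_and_or]
      rintro ⟨h5, h6⟩
      exact hc.2.1 ⟨_, LT.curveU _ a1 n1 m hm (mp φ h) (fun j => mp φ (κ j)) (fun i => by
        rw [hg, mp_mul, mp_pow]) (by rw [mp_cc, h0, map_zero]) (by
        rw [mp_pderiv, mp_cc]
        exact fun h => h1 ((map_eq_zero φ).1 h)) j (by
        rw [mp_cc]
        exact fun h => hj ((map_eq_zero φ).1 h)), _, rfl, hcr _ _ h5, hcr _ _ h6⟩

/-! ### The points with `|T0| = p` -/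

/-- the class of the pairs with coprime `n0`, `n1` -/
def CP (g : Fin 1 → A ℚ_[p]) (d0 d1 : Bool) (a0 n0 a1 n1 : ℕ) : Prop :=
  TC g d0 d1 a0 n0 a1 n1 ∧ Nat.Coprime n0 n1

theorem closed_CP : Closed (CP (p := p)) where
  pos _ _ _ _ _ _ _ h := ⟨h.1.1, h.1.2.1⟩
  ty0 _ _ _ _ _ _ h := h.1.2.2.1 rfl
  ty1 _ _ _ _ _ _ h := h.1.2.2.2 rfl
  child g d0 d1 a0 n0 a1 n1 m gc gI hm hgc hgI hne h := by
    obtain ⟨t0, tc, tI⟩ := closed_TC.child g d0 d1 a0 n0 a1 n1 m gc gI hm hgc hgI hne h.1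
    refine ⟨⟨t0, ?_⟩, fun c hc => ⟨tc c hc, Nat.coprime_one_right _⟩, ⟨tI, ?_⟩⟩
    · rw [Nat.coprime_add_self_left]
      exact h.2
    · rw [Nat.coprime_self_add_right]
      exact h.2

variable {χ}

theorem cr_eq (hT : ‖T0‖ = p) {a n : ℕ} (h : Cr χ T0 a n) : a = n := crit_eq hT h.1

theorem not_both (hχ : ¬ χ.IsTr) (hT : ‖T0‖ = p) {a0 n0 a1 n1 : ℕ} (hc : Nat.Coprime n0 n1)
    (h0 : Cr χ T0 a0 n0) (h1 : Cr χ T0 a1 n1) : False := by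
  apply hχ
  intro u hu
  have e0 := h0.2 u hu
  have e1 := h1.2 u hu
  rw [cr_eq hT h0] at e0
  rw [cr_eq hT h1] at e1
  have h2 : χ.X u ^ Nat.gcd n0 n1 = 1 := pow_gcd_eq_one.2 ⟨e0, e1⟩
  rwa [Nat.Coprime.gcd_eq_one hc, pow_one] at h2

variable (χ)

theorem local_1X (hχ : ¬ χ.IsTr) (hT : ‖T0‖ = p) (f : Fin 1 → A ℚ_[p])
    (P : Fin 2 → ℚ_[p]) (hne : ∃ j, f j ≠ 0) :
    LReg T0 1 (Zx (Hx χ (nd f P) 0 1 0 1)) (0, 0) := by
  have hgne := tr_ne_zero f P hne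
  have hTT : KT (nd f P) false false := exists_KT (nd f P) false false hgne (by simp) (by simp)
  have htc : TC (nd f P) false false 0 1 0 1 := ⟨le_rfl, le_rfl, fun _ => ⟨rfl, rfl⟩,
    fun _ => ⟨rfl, rfl⟩⟩
  refine main_MX χ (ne0_of hT) 1 CP closed_CP ?_ ?_ ?_ hTT 0 1 0 1 ⟨htc, Nat.coprime_one_right _⟩
  · intro g d0 d1 a0 n0 a1 n1 hc j hj
    refine Or.inr (Or.inl ⟨rfl, ?_⟩)
    rw [← not_and_or]
    rintro ⟨h5, h6⟩
    exact not_both hχ hT hc.2 h5 h6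
  · intro g d0 a0 n0 m hm hc h κ hg h0 h1 j hj
    refine Or.inr (Or.inl ⟨rfl, ?_⟩)
    rw [← not_and_or]
    rintro ⟨h5, h6⟩
    exact not_both hχ hT (Nat.coprime_one_right _) h5 h6
  · intro g d1 a1 n1 m hm hc h κ hg h0 h1 j hj
    refine Or.inr (Or.inl ⟨rfl, ?_⟩)
    rw [← not_and_or]
    rintro ⟨h5, h6⟩
    exact not_both hχ hT (Nat.coprime_one_right _) h5 h6

theorem t : StW5 := by
  intro p _ χ hχ φ f hne b hb0 hb T0 hT1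
  have hT0 : T0 ≠ 0 := by
    rintro rfl
    rw [norm_zero] at hT1
    exact absurd hT1 (by norm_num)
  refine ⟨?_, fun hT => ?_⟩
  · exact LReg.glue (addF_Zx (okx_H χ f 0 1 0 1)) CO_ub fun x _ => lregx_pt χ f x
      (local_MX χ φ f b hb0 hb hT0 ![x.1, x.2] hne)
  · exact LReg.glue (addF_Zx (okx_H χ f 0 1 0 1)) CO_ub fun x _ => lregx_pt χ f x
      (local_1X χ hχ hT f ![x.1, x.2] hne)

end Pool.Agent.N138.SU.W5
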