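import Pool.Agent.N138.SU.Cls1

set_option autoImplicit false
set_option linter.unusedSectionVars false
set_option linter.unusedVariables false

/-! # The weights: roots, or roots with multiplicities -/

namespace Pool.Agent.N138.SU

open MeasureTheory Pool.Agent.W574.SM
open Pool.Agent.Y230.PT Pool.Agent.Y230.PS Pool.Agent.Y230.TH
open Pool.Agent.W427.SMC (msZ bsZ mu)

variable {p : ℕ} [Fact p.Prime]

attribute [local instance] msK bsK msZ bsZ

/-- the weight of a root of multiplicity `k` -/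
structure IsW (w : ℕ → ℕ∞) : Prop where
  zero : w 0 = 0
  mono : Monotone w
  one : 1 ≤ w 1
  add : ∀ k l, w k + w l ≤ w (k + l)
  had : ∀ a b k l : ℕ, 1 ≤ a → 1 ≤ b → (a : ℕ∞) ≤ w k → (b : ℕ∞) ≤ w l →
    ((a + b - 1 : ℕ) : ℕ∞) ≤ w (k + l - 1)

/-- the orders of the poles are bounded by the multiplicities -/
def w1 (k : ℕ) : ℕ∞ := k

/-- the poles are roots -/
noncomputable def w2 (k : ℕ) : ℕ∞ := if k = 0 then 0 else ⊤

theorem isW_1 : IsW w1 where
  zero := rfl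
  mono k l h := by
    unfold w1
    exact_mod_cast h
  one := le_rfl
  add k l := by
    unfold w1
    push_cast
    exact le_rfl
  had a b k l ha hb h1 h2 := by
    unfold w1 at *
    have h3 : a ≤ k := by exact_mod_cast h1
    have h4 : b ≤ l := by exact_mod_cast h2
    exact_mod_cast (by omega : a + b - 1 ≤ k + l - 1)

theorem isW_2 : IsW w2 where
  zero := by unfold w2; rw [if_pos rfl]
  mono k l h := by
    unfold w2
    split_ifs with h1 h2
    · exact le_rfl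
    · exact bot_le
    · omega
    · exact le_rfl
  one := by
    unfold w2
    rw [if_neg one_ne_zero]
    exact le_top
  add k l := by
    unfold w2
    by_cases hk : k = 0
    · by_cases hl : l = 0
      · rw [if_pos hk, if_pos hl, zero_add]
        exact bot_le
      · rw [if_neg (by omega : ¬ k + l = 0)]
        exact le_top
    · rw [if_neg (by omega : ¬ k + l = 0)]
      exact le_top
  had a b k l ha hb h1 h2 := by
    unfold w2 at *
    have h3 : k ≠ 0 := by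
      rintro rfl
      rw [if_pos rfl] at h1
      have h4 : (a : ℕ∞) = 0 := le_antisymm h1 bot_le
      have h5 : a = 0 := by exact_mod_cast h4
      omega
    have h3 : l ≠ 0 := by
      rintro rfl
      rw [if_pos rfl] at h2
      have h4 : (b : ℕ∞) = 0 := le_antisymm h2 bot_le
      have h5 : b = 0 := by exact_mod_cast h4
      omega
    rw [if_neg (by omega)]
    exact le_top

theorem IsW.pos {w : ℕ → ℕ∞} (hw : IsW w) {a k : ℕ} (ha : 1 ≤ a) (h : (a : ℕ∞) ≤ w k) : 1 ≤ k := by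
  by_contra hk
  have : k = 0 := by omega
  rw [this, hw.zero] at h
  have h4 : (a : ℕ∞) = 0 := le_antisymm h bot_le
  have h5 : a = 0 := by exact_mod_cast h4
  omega

/-- a finite lower bound of a supremum is attained -/
theorem exists_of_le_iSup {ι : Sort*} (x : ι → ℕ∞) (a : ℕ) (ha : 1 ≤ a) (h : (a : ℕ∞) ≤ ⨆ i, x i) :
    ∃ i, (a : ℕ∞) ≤ x i := by
  by_contra hn
  push Not at hn
  have h1 : ⨆ i, x i ≤ ((a - 1 : ℕ) : ℕ∞) := iSup_le fun i => by
    have h2 := hn i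
    obtain ⟨n, hn'⟩ := ENat.ne_top_iff_exists.1 (ne_top_of_lt h2)
    rw [← hn'] at h2 ⊢
    have h3 : n < a := by exact_mod_cast h2
    exact_mod_cast (by omega : n ≤ a - 1)
  have h2 := h.trans h1
  have h3 : a ≤ a - 1 := by exact_mod_cast h2
  omega

/-- the multiplicities of a hypersurface, reduced at `-1` -/
noncomputable def mW (w : ℕ → ℕ∞) (p : ℕ) (A : FamQ) (T : ℂ) : ℕ∞ := rG p (fun _ k => w k) A T

/-- the multiplicities of an ideal -/
noncomputable def mI (w : ℕ → ℕ∞) (p : ℕ) (A : FamQ) (T : ℂ) : ℕ∞ :=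
  ⨆ k : {k : ℕ // FK A ((rr p T : ℝ) : ℂ) k}, w k

/-- the weights of the zeta function of a hypersurface -/
noncomputable def wH (w : ℕ → ℕ∞) (p : ℕ) (T : ℂ) (k : ℕ) : ℕ∞ := w k + (dp p T : ℕ)

theorem wH_1 : wH w1 p = wM p := by
  funext T k
  unfold wH w1 wM
  push_cast
  rfl

theorem wH_2 : wH w2 p = wR p := by
  funext T k
  unfold wH w2 wR
  split_ifs
  · rw [zero_add]
  · rw [top_add]

theorem mI_1 (A : FamQ) (T : ℂ) : mI w1 p A T = mM p A T := by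
  classical
  refine le_antisymm (iSup_le fun k => ?_) ?_
  · exact le_mM.2 (fun b hb => k.2 b hb)
  · by_contra hn
    rw [not_le] at hn
    obtain ⟨n, hn'⟩ := ENat.ne_top_iff_exists.1 (ne_top_of_lt hn)
    have h1 : ((n + 1 : ℕ) : ℕ∞) ≤ mM p A T := by
      have h2 := Order.add_one_le_of_lt hn
      rw [← hn'] at h2
      exact_mod_cast h2
    have h2 : FK A ((rr p T : ℝ) : ℂ) (n + 1) := fun b hb => le_mM.1 h1 b hb
    have h3 : ((n + 1 : ℕ) : ℕ∞) ≤ mI w1 p A T :=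
      le_iSup (fun k : {k : ℕ // FK A ((rr p T : ℝ) : ℂ) k} => w1 k) ⟨n + 1, h2⟩
    rw [← hn'] at h3
    have h4 : n + 1 ≤ n := by exact_mod_cast h3
    omega

theorem mI_2 (A : FamQ) (T : ℂ) : mI w2 p A T = mR p A T := by
  by_cases h : Pool.Agent.W574.RO.Forced A.toC ((rr p T : ℝ) : ℂ)
  · rw [mR_top h, eq_top_iff]
    refine le_trans ?_ (le_iSup (fun k : {k : ℕ // FK A ((rr p T : ℝ) : ℂ) k} => w2 k)
      ⟨1, forced_FK h⟩)
    change ⊤ ≤ w2 1
    unfold w2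
    rw [if_neg one_ne_zero]
  · rw [mR_zero h]
    refine le_antisymm (iSup_le fun k => ?_) bot_le
    unfold w2
    rw [if_pos]
    by_contra hk
    exact h (FK_forced (by omega) k.2)

variable {w : ℕ → ℕ∞}

theorem le_mW {A : FamQ} {T : ℂ} {k : ℕ}
    (h : FK A ((rr p T : ℝ) : ℂ) (k + dl ((rr p T : ℝ) : ℂ))) : w k ≤ mW w p A T :=
  le_rG (w := fun _ k => w k) h

theorem le_mI {A : FamQ} {T : ℂ} {k : ℕ} (h : FK A ((rr p T : ℝ) : ℂ) k) : w k ≤ mI w p A T :=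
  le_iSup (fun k : {k : ℕ // FK A ((rr p T : ℝ) : ℂ) k} => w k) ⟨k, h⟩

theorem mW_FK (hw : IsW w) {A : FamQ} {T : ℂ} {a : ℕ} (ha : 1 ≤ a) (h : (a : ℕ∞) ≤ mW w p A T) :
    ∃ k, 1 ≤ k ∧ (a : ℕ∞) ≤ w k ∧ FK A ((rr p T : ℝ) : ℂ) (k + dl ((rr p T : ℝ) : ℂ)) := by
  obtain ⟨k, hk⟩ := exists_of_le_iSup _ a ha h
  exact ⟨k, hw.pos ha hk, hk, k.2⟩

theorem mI_FK (hw : IsW w) {A : FamQ} {T : ℂ} {a : ℕ} (ha : 1 ≤ a) (h : (a : ℕ∞) ≤ mI w p A T) :
    ∃ k, 1 ≤ k ∧ (a : ℕ∞) ≤ w k ∧ FK A ((rr p T : ℝ) : ℂ) k := by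
  obtain ⟨k, hk⟩ := exists_of_le_iSup _ a ha h
  exact ⟨k, hw.pos ha hk, hk, k.2⟩

theorem rH_ne {A : FamQ} {T : ℂ} (hT : T ≠ (p : ℂ)) : rG p (wH w p) A T = mW w p A T := by
  unfold mW rG wH
  rw [dp_eq, if_neg hT]
  simp

theorem rH_le {A : FamQ} {T : ℂ} : rG p (wH w p) A T ≤ mW w p A T + (dp p T : ℕ) :=
  iSup_le fun k => by
    unfold wH
    exact add_le_add_left (le_mW k.2) _


section Vol

variable {V : Type} [Fintype V] {F : MvPolynomial V ℚ} {K : ℕ} {φ : (V → ℤ_[p]) → ℤ_[p]}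

theorem Dw_of_FR (h : IsV F K φ)
    (hF : FR p (rG p (wH w p) (hyp F)) (Pool.Agent.Y230.PS.FF ((hyp F).toP p))) :
    (fun e : ℕ => (p : ℂ) * Uo (Measure.pi fun _ : V => mu p) φ (e + 1) -
      Uo (Measure.pi fun _ : V => mu p) φ e) ∈ EP (Pool.Agent.Y230.PS.tr (mW w p (hyp F))) := by
  have hp0 : (p : ℂ) ≠ 0 := by exact_mod_cast (Fact.out : p.Prime).ne_zero
  have h1 : FR p (rG p (wH w p) (hyp F)) (Pool.Agent.Y230.PS.FZ (Measure.pi fun _ : V => mu p)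
      (fun y => ‖φ y‖)) := by
    rw [h.FZ]
    exact (FR_scaleF (fun _ : Fin 1 => MvPolynomial.map (algebraMap ℚ ℚ_[p]) F) K).2 hF
  have h2 := Vc_mem _ _ (continuous_norm.measurable.comp h.meas) (fun x => val_norm (φ x)) h1
  have h3 := EP_op _ (p : ℂ) _ h2
  have h4 : (fun e : ℕ => (p : ℂ) * Uo (Measure.pi fun _ : V => mu p) φ (e + 1) -
      Uo (Measure.pi fun _ : V => mu p) φ e) =
      (p : ℂ) • op (p : ℂ)⁻¹ (Vc (Measure.pi fun _ : V => mu p) (fun y => ‖φ y‖) p) := by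
    funext e
    rw [Pi.smul_apply, op_apply, ← Uo_Vc, ← Uo_Vc, smul_eq_mul, mul_sub, ← mul_assoc,
      mul_inv_cancel₀ hp0, one_mul]
  rw [h4]
  refine Submodule.smul_mem _ _ (EP_mono (fun T hT => ?_) h3)
  by_cases hT1 : ‖T‖ ≤ 1
  · have e0 : Pool.Agent.Y230.PS.tr (rG p (wH w p) (hyp F)) T = 0 := by
      unfold Pool.Agent.Y230.PS.tr
      rw [if_pos hT1]
    rw [e0]
    simp
  · unfold Pool.Agent.Y230.PS.tr
    simp only [if_neg hT1]
    split_ifs with hTp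
    · refine tsub_le_iff_right.2 (rH_le.trans ?_)
      rw [dp_eq, if_pos hTp]
      simp
    · rw [rH_ne hTp]

theorem FRw_of_D (h : IsV F K φ) (h1 : FK (hyp F) (-1) 1)
    (hD : (fun e : ℕ => (p : ℂ) * Uo (Measure.pi fun _ : V => mu p) φ (e + 1) -
      Uo (Measure.pi fun _ : V => mu p) φ e) ∈ EP (Pool.Agent.Y230.PS.tr (mW w p (hyp F)))) :
    FR p (rG p (wH w p) (hyp F)) (Pool.Agent.Y230.PS.FF ((hyp F).toP p)) := by
  have hp0 : (p : ℂ) ≠ 0 := by exact_mod_cast (Fact.out : p.Prime).ne_zero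
  have hp1 : 1 < ‖(p : ℂ)‖ := by
    rw [Complex.norm_natCast]
    exact_mod_cast (Fact.out : p.Prime).one_lt
  have h4 : op (p : ℂ)⁻¹ (Vc (Measure.pi fun _ : V => mu p) (fun y => ‖φ y‖) p) =
      (p : ℂ)⁻¹ • (fun e : ℕ => (p : ℂ) * Uo (Measure.pi fun _ : V => mu p) φ (e + 1) -
      Uo (Measure.pi fun _ : V => mu p) φ e) := by
    funext e
    rw [Pi.smul_apply, op_apply, ← Uo_Vc, ← Uo_Vc, smul_eq_mul, mul_sub, ← mul_assoc,
      inv_mul_cancel₀ hp0, one_mul]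
  have h5 := Submodule.smul_mem _ ((p : ℂ)⁻¹) hD
  rw [← h4] at h5
  have h6 := EP_of_op _ (p : ℂ) hp0 _ h5
  have h7 : Vc (Measure.pi fun _ : V => mu p) (fun y => ‖φ y‖) p ∈
      EP (Pool.Agent.Y230.PS.tr (rG p (wH w p) (hyp F))) := by
    refine EP_mono (fun T hT => ?_) h6
    by_cases hT1 : ‖T‖ ≤ 1
    · have hne : T ≠ (p : ℂ) := by
        rintro rfl
        exact absurd hp1 (not_lt.2 hT1)
      unfold Pool.Agent.Y230.PS.tr
      rw [if_pos hT1, if_neg hne, add_zero, if_pos hT1]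
    · unfold Pool.Agent.Y230.PS.tr
      rw [if_neg hT1, if_neg hT1]
      split_ifs with hTp
      · have hr : ((rr p T : ℝ) : ℂ) = -1 := by
          rw [hTp, rr_self]
          push_cast
          rfl
        have h8 : FK (hyp F) ((rr p T : ℝ) : ℂ) (0 + dl ((rr p T : ℝ) : ℂ)) := by
          rw [dl_eq, if_pos hr, hr, zero_add]
          exact h1
        have : Nonempty {k : ℕ // FK (hyp F) ((rr p T : ℝ) : ℂ) (k + dl ((rr p T : ℝ) : ℂ))} :=
          ⟨⟨0, h8⟩⟩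
        unfold mW rG wH
        rw [dp_eq, if_pos hTp, ENat.iSup_add]
        simp
      · rw [rH_ne hTp, add_zero]
  have h8 := FR_of_Vc (Measure.pi fun _ : V => mu p) (fun y => ‖φ y‖)
    (continuous_norm.measurable.comp h.meas) (fun x => val_norm (φ x)) h7
  rw [h.FZ] at h8
  exact (FR_scaleF (fun _ : Fin 1 => MvPolynomial.map (algebraMap ℚ ℚ_[p]) F) K).1 h8

end Vol

section XP

variable {V : Type} [Fintype V]

/-- the exponential sums of `F` are controlled by the roots -/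
def XW (w : ℕ → ℕ∞) (p : ℕ) [Fact p.Prime] {V : Type} [Fintype V] (F : MvPolynomial V ℚ) : Prop :=
  ∀ (K : ℕ) (φ : (V → ℤ_[p]) → ℤ_[p]), IsV F K φ → ∀ χ : UC p,
    (fun e : ℕ => Eh (Measure.pi fun _ : V => mu p) φ χ e) ∈
      EP (Pool.Agent.Y230.PS.tr (mW w p (hyp F)))

theorem XW_of {F : MvPolynomial V ℚ} (K0 : ℕ) (φ0 : (V → ℤ_[p]) → ℤ_[p]) (h0 : IsV F K0 φ0)
    (h : ∀ χ : UC p, (fun e : ℕ => Eh (Measure.pi fun _ : V => mu p) φ0 χ e) ∈
      EP (Pool.Agent.Y230.PS.tr (mW w p (hyp F)))) : XW w p F := by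
  intro K φ hφ χ
  have e1 : (fun y => (p : ℤ_[p]) ^ K0 * φ y) = fun y => (p : ℤ_[p]) ^ K * φ0 y := by
    funext y
    apply inc_inj
    rw [inc_mul, inc_mul, inc_p, inc_p, hφ, h0]
    ring
  have h1 : (fun e : ℕ => Eh (Measure.pi fun _ : V => mu p)
      (fun y => (p : ℤ_[p]) ^ K0 * φ y) χ e) ∈ EP (Pool.Agent.Y230.PS.tr (mW w p (hyp F))) := by
    rw [e1]
    refine B1.EP_of_shift _ K _ ?_
    refine (congrArg (· ∈ EP (Pool.Agent.Y230.PS.tr (mW w p (hyp F))))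
      (funext fun e => ?_)).mp (h χ)
    exact (Eh_scale _ φ0 K χ e).symm
  have h2 := EP_shift _ K0 _ h1
  refine (congrArg (· ∈ EP (Pool.Agent.Y230.PS.tr (mW w p (hyp F))))
    (funext fun e => ?_)).mp h2
  exact Eh_scale _ φ K0 χ e

theorem FR_of_XW {F : MvPolynomial V ℚ} (h1 : FK (hyp F) (-1) 1) (h : XW w p F) :
    FR p (rG p (wH w p) (hyp F)) (Pool.Agent.Y230.PS.FF ((hyp F).toP p)) := by
  obtain ⟨K, φ, hφ⟩ := exists_IsV (p := p) F
  exact FRw_of_D hφ h1 (D_of_Eh _ φ hφ.meas _ (h K φ hφ))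

/-- the plane curves; `H` is the bound for the twisted zeta functions -/
theorem XW_curve (g : MvPolynomial (Fin 2) ℚ)
    (h0 : FR p (rG p (wH w p) (hyp g)) (Pool.Agent.Y230.PS.FF ((hyp g).toP p)))
    (H : ∀ χ : UC p, ¬ χ.IsTr → ∀ (K : ℕ) (φ : (Fin 2 → ℤ_[p]) → ℤ_[p]), IsV g K φ →
      FR p (mW w p (hyp g)) (FX (Measure.pi fun _ : Fin 2 => mu p) φ χ)) : XW w p g := by
  intro K φ hφ χ
  refine stB1 p _ φ hφ.meas _ (Dw_of_FR hφ h0) (fun χ hχ => ?_) χ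
  exact Vx_mem _ φ χ hφ.meas (H χ hχ K φ hφ)

end XP

end Pool.Agent.N138.SU
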