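import Pool.Agent.N138.SU.Zx

set_option autoImplicit false
set_option linter.unusedSectionVars false
set_option linter.unusedVariables false

/-! # Twisted integrals over balls of `ℚ_p` -/

namespace Pool.Agent.N138.SU

open MeasureTheory Set Pool.Agent.W427.SMC Pool.Agent.Y230.PT
open scoped ENNReal
open Pool.Agent.Y230.RE

variable {p : ℕ} [Fact p.Prime]

attribute [local instance] msK bsK

/-- the balls generate the Borel sets -/
theorem balls_gen : (msK p) = MeasurableSpace.generateFrom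
    {S : Set ℚ_[p] | ∃ (c : ℚ_[p]) (j : ℕ), S = bl c j} := by
  have hB : TopologicalSpace.IsTopologicalBasis
      {S : Set ℚ_[p] | ∃ (c : ℚ_[p]) (j : ℕ), S = bl c j} := by
    refine TopologicalSpace.isTopologicalBasis_of_isOpen_of_nhds ?_ ?_
    · rintro S ⟨c, j, rfl⟩
      exact bl_open c j
    · intro a U ha hU
      obtain ⟨ε, hε, hε2⟩ := Metric.isOpen_iff.1 hU a ha
      obtain ⟨j, hj⟩ := exists_pow_lt_of_lt_one hε (qr_lt_one (p := p))
      refine ⟨bl a j, ⟨a, j, rfl⟩, ?_, ?_⟩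
      · rw [mem_bl, sub_self, norm_zero]
        exact pow_nonneg qr_pos.le _
      · exact (Metric.closedBall_subset_ball hj).trans hε2
  exact hB.borel_eq_generateFrom

theorem self_mem_bl (b : ℚ_[p]) (k : ℕ) : b ∈ bl b k := by
  rw [mem_bl, sub_self, norm_zero]
  exact pow_nonneg qr_pos.le _

theorem bl_mono (b : ℚ_[p]) {j k : ℕ} (h : j ≤ k) : bl b k ⊆ bl b j :=
  Metric.closedBall_subset_closedBall (pow_le_pow_of_le_one qr_pos.le qr_lt_one.le h)

theorem bl_inter {b v : ℚ_[p]} {j k : ℕ} (hv : v ∈ bl b k) :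
    bl v j ∩ bl b k = bl v (max j k) := by
  rw [← bl_eq (self_mem_bl v k) hv]
  rcases le_total j k with h | h
  · rw [max_eq_right h]
    exact Set.inter_eq_self_of_subset_right (bl_mono v h)
  · rw [max_eq_left h]
    exact Set.inter_eq_self_of_subset_left (bl_mono v h)

/-- isometries preserve the measure -/
theorem isom_map (b : ℚ_[p]) (k : ℕ) (φ : ℚ_[p] → ℚ_[p]) (hm : Measurable φ)
    (hφ : ∀ v ∈ bl b k, ∀ v' ∈ bl b k, ‖φ v - φ v'‖ = ‖v - v'‖) :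
    Measure.map φ ((Y230.PT.nu p).restrict (bl b k)) = (Y230.PT.nu p).restrict (bl (φ b) k) := by
  have hbb := self_mem_bl b k
  have him : ∀ v ∈ bl b k, φ v ∈ bl (φ b) k := by
    intro v hv
    rw [mem_bl, hφ v hv b hbb]
    exact (mem_bl _ _ _).1 hv
  have hsurj : ∀ w ∈ bl (φ b) k, ∃ v ∈ bl b k, φ v = w := by
    intro w hw
    have : CompactSpace (bl b k) := isCompact_iff_compactSpace.1 (bl_cpt b k)
    have hmem : ∀ v : bl b k, φ v.1 - φ b + b ∈ bl b k := by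
      intro v
      rw [mem_bl, add_sub_cancel_right]
      exact (mem_bl _ _ _).1 (him v.1 v.2)
    have hw' : w - φ b + b ∈ bl b k := by
      rw [mem_bl, add_sub_cancel_right]
      exact (mem_bl _ _ _).1 hw
    obtain ⟨⟨t0, htb⟩, ht0⟩ := isom_surj (fun v : bl b k => (⟨φ v.1 - φ b + b, hmem v⟩ : bl b k))
      (by
        refine Isometry.of_dist_eq fun v v' => ?_
        rw [Subtype.dist_eq, Subtype.dist_eq, dist_eq_norm, dist_eq_norm,
          add_sub_add_right_eq_sub, sub_sub_sub_cancel_right]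
        exact hφ v.1 v.2 v'.1 v'.2) ⟨w - φ b + b, hw'⟩
    refine ⟨t0, htb, ?_⟩
    have := congrArg Subtype.val ht0
    simpa using this
  have hf1 : IsFiniteMeasure ((Y230.PT.nu p).restrict (bl b k)) :=
    ⟨by rw [Measure.restrict_apply_univ]; exact lt_top_iff_ne_top.2 (nu_bl_ne_top b k)⟩
  have hf2 : IsFiniteMeasure (Measure.map φ ((Y230.PT.nu p).restrict (bl b k))) :=
    Measure.isFiniteMeasure_map _ _
  refine ext_of_generate_finite {S : Set ℚ_[p] | ∃ (c : ℚ_[p]) (j : ℕ), S = bl c j} balls_gen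
    ?_ ?_ ?_
  · rintro S ⟨c, j, rfl⟩ T ⟨c', j', rfl⟩ ⟨x, hx, hx'⟩
    refine ⟨x, max j j', ?_⟩
    rw [bl_eq hx (self_mem_bl x j), ← bl_inter hx']
  · rintro S ⟨c, j, rfl⟩
    rw [Measure.map_apply hm (bl_meas c j), Measure.restrict_apply ((bl_meas c j).preimage hm),
      Measure.restrict_apply (bl_meas c j)]
    by_cases hne : (bl c j ∩ bl (φ b) k).Nonempty
    · obtain ⟨w, hw, hw'⟩ := hne
      obtain ⟨v, hv, rfl⟩ := hsurj w hw'
      have e1 : φ ⁻¹' (bl c j) ∩ bl b k = bl v (max j k) := by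
        rw [← bl_inter hv]
        ext x
        refine and_congr_left fun hx => ?_
        rw [Set.mem_preimage, bl_eq hw (self_mem_bl (φ v) j), mem_bl, mem_bl, hφ x hx v hv]
      rw [e1, bl_eq hw (self_mem_bl (φ v) j), bl_inter hw', nu_bl, nu_bl]
    · rw [Set.not_nonempty_iff_eq_empty] at hne
      rw [hne]
      have : φ ⁻¹' (bl c j) ∩ bl b k = ∅ := by
        rw [Set.eq_empty_iff_forall_notMem]
        rintro x ⟨hx1, hx2⟩
        have : φ x ∈ bl c j ∩ bl (φ b) k := ⟨hx1, him x hx2⟩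
        rw [hne] at this
        exact this
      rw [this]
  · rw [Measure.map_apply hm MeasurableSet.univ, Set.preimage_univ, Measure.restrict_apply_univ,
      Measure.restrict_apply_univ, nu_bl, nu_bl]

theorem isom_int (b : ℚ_[p]) (k : ℕ) (φ : ℚ_[p] → ℚ_[p]) (hm : Measurable φ)
    (hφ : ∀ v ∈ bl b k, ∀ v' ∈ bl b k, ‖φ v - φ v'‖ = ‖v - v'‖) (G : ℚ_[p] → ℂ)
    (hG : Measurable G) : ∫ v in bl b k, G (φ v) ∂(Y230.PT.nu p) = ∫ v in bl (φ b) k, G v ∂(Y230.PT.nu p) := by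
  rw [← isom_map b k φ hm hφ, integral_map hm.aemeasurable hG.aestronglyMeasurable]

variable (χ : UC p)

/-- the twisted integrals over balls -/
noncomputable def Ix (χ : UC p) (s : ℝ) (a n : ℕ) (b : ℚ_[p]) (k : ℕ) : ℂ :=
  ∫ x in bl b k, wx χ s a n x ∂(Y230.PT.nu p)

theorem Ix_ball (s : ℝ) (a n : ℕ) {b b' : ℚ_[p]} (k : ℕ) (h : b' ∈ bl b k) :
    Ix χ s a n b' k = Ix χ s a n b k := by
  unfold Ix
  rw [bl_eq (self_mem_bl b' k) h]

theorem norm_far {b x : ℚ_[p]} {k : ℕ} (hb : qr p ^ k < ‖b‖) (hx : x ∈ bl b k) : ‖x‖ = ‖b‖ := by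
  rw [mem_bl] at hx
  have h2 : ‖x - b‖ < ‖b‖ := hx.trans_lt hb
  have h3 : x = (x - b) + b := by ring
  rw [h3, Padic.add_eq_max_of_ne h2.ne, max_eq_right h2.le]

variable {T0 : ℂ}

theorem Ix_far (hT0 : T0 ≠ 0) (a n : ℕ) (b : ℚ_[p]) (k : ℕ) (hb : qr p ^ k < ‖b‖) :
    Reg p T0 0 (fun s => Ix χ s a n b k) := by
  have hb0 : b ≠ 0 := by
    rintro rfl
    rw [norm_zero] at hb
    exact absurd hb (not_lt.2 (pow_nonneg qr_pos.le _))
  refine ((reg_w hT0 a n b hb0).mul0 (Reg.const (∫ x in bl b k, χ.X x ^ a ∂(Y230.PT.nu p)))).congr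
    fun s _ => ?_
  unfold Ix
  rw [← integral_const_mul]
  refine setIntegral_congr_fun (bl_meas _ _) fun x hx => ?_
  have h := norm_far hb hx
  change _ = wx χ s a n x
  unfold wx om nx w
  rw [h, ENNReal.toReal_mul, ENNReal.toReal_pow, ENNReal.toReal_pow, N_toReal, N_toReal,
    Real.rpow_one]
  push_cast
  ring

/-- the trivial case -/
theorem Ix_triv {s : ℝ} (hs : 0 ≤ s) (a n k : ℕ) (h : ∀ u : ℚ_[p], ‖u‖ = 1 → χ.X u ^ a = 1) :
    Ix χ s a n 0 k = ((J (p := p) s a n k).toReal : ℂ) := by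
  unfold Ix J
  have h1 : ∫ x in bl (0 : ℚ_[p]) k, (w s a n x).toReal ∂(Y230.PT.nu p) =
      (∫⁻ x in bl (0 : ℚ_[p]) k, w s a n x ∂(Y230.PT.nu p)).toReal :=
    integral_toReal (w_meas s a n).aemeasurable
      (Filter.Eventually.of_forall fun x => lt_top_iff_ne_top.2 (w_ne_top _ _ _ _))
  rw [← h1, ← integral_complex_ofReal]
  refine integral_congr_ae ?_
  have h2 : ∀ᵐ x ∂((Y230.PT.nu p).restrict (bl (0 : ℚ_[p]) k)), x ≠ (0 : ℚ_[p]) :=
    ae_restrict_of_ae ae_ne_zero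
  filter_upwards [h2] with x hx
  obtain ⟨m, u, hu, hxu, -⟩ := exists_unit x hx
  have h3 := X_of_unit χ x m u hxu
  unfold wx om nx w
  rw [h3, mul_pow, h u hu, one_mul, ENNReal.toReal_mul, ENNReal.toReal_pow, ENNReal.toReal_pow,
    N_toReal, N_toReal, Real.rpow_one]
  push_cast
  rfl

/-- the nontrivial case -/
theorem Ix_nontriv (s : ℝ) (a n k : ℕ) (h : ¬ ∀ u : ℚ_[p], ‖u‖ = 1 → χ.X u ^ a = 1) :
    Ix χ s a n 0 k = 0 := by
  push Not at h
  obtain ⟨u, hu, hne⟩ := h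
  have h1 := isom_int (0 : ℚ_[p]) k (fun v => u * v) (measurable_const_mul u) (fun v _ v' _ => by
    rw [← mul_sub, norm_mul, hu, one_mul]) (wx χ s a n) (wx_meas χ s a n)
  rw [mul_zero] at h1
  have h2 : ∀ v, wx χ s a n (u * v) = χ.X u ^ a * wx χ s a n v := by
    intro v
    rw [wx_mul]
    congr 1
    unfold wx om nx
    rw [hu, Real.one_rpow]
    simp
  simp only [h2] at h1
  rw [integral_const_mul] at h1
  have h3 : (χ.X u ^ a - 1) * Ix χ s a n 0 k = 0 := by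
    unfold Ix
    linear_combination h1
  exact (mul_eq_zero.1 h3).resolve_left (sub_ne_zero.2 hne)

theorem Ix_reg (hT0 : T0 ≠ 0) (a n : ℕ) (hn : 1 ≤ n) (h : ¬ Cr χ T0 a n)
    (b : ℚ_[p]) (k : ℕ) : Reg p T0 0 (fun s => Ix χ s a n b k) := by
  rcases lt_or_ge (qr p ^ k) ‖b‖ with hb | hb
  · exact Ix_far χ hT0 a n b k hb
  · have h0 : b ∈ bl (0 : ℚ_[p]) k := by
      rw [mem_bl, sub_zero]
      exact hb
    by_cases ht : ∀ u : ℚ_[p], ‖u‖ = 1 → χ.X u ^ a = 1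
    · refine (reg_J (p := p) (T0 := T0) a n k hn (fun h' => h ⟨h', ht⟩)).congr fun s hs => ?_
      rw [Ix_ball χ s a n k h0, Ix_triv χ hs a n k ht]
    · refine Reg.zero.congr fun s hs => ?_
      rw [Ix_ball χ s a n k h0, Ix_nontriv χ s a n k ht]

/-- the product formula -/
theorem bx_prod (f g : ℚ_[p] → ℂ) (κ : ℕ) (y : ℚ_[p] × ℚ_[p]) (k : ℕ) :
    ∫ x in bx κ y k, f x.1 * g x.2 ∂(nu2 p) =
      (∫ u in bl y.1 (k + κ), f u ∂(Y230.PT.nu p)) * ∫ v in bl y.2 k, g v ∂(Y230.PT.nu p) := by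
  rw [bx, nu2]
  exact setIntegral_prod_mul f g _ _

/-- the integral over a box near a smooth curve -/
theorem curve_boxx (h : A ℚ_[p]) {s : ℝ} (hs : 0 ≤ s) (a0 n0 m : ℕ) (ε : ℝ) (κ : ℕ)
    (hv : ∀ u v v' : ℚ_[p], ‖u‖ < ε → ‖v‖ < ε → ‖v'‖ < ε →
        ‖ev (u, v) h - ev (u, v') h‖ = ‖v - v'‖)
    (hu : ∀ u u' v : ℚ_[p], ‖u‖ < ε → ‖u'‖ < ε → ‖v‖ < ε →
        ‖ev (u, v) h - ev (u', v) h‖ * qr p ^ κ ≤ ‖u - u'‖) (y : ℚ_[p] × ℚ_[p]) (k : ℕ)
    (hy : bx κ y k ⊆ Metric.ball 0 ε ×ˢ Metric.ball 0 ε) :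
    ∫ x in bx κ y k, wx χ s a0 n0 x.1 * wx χ s m 1 (ev x h) ∂(nu2 p) =
      Ix χ s a0 n0 y.1 (k + κ) * Ix χ s m 1 (ev y h) k := by
  have hmem : ∀ u ∈ bl y.1 (k + κ), ∀ v ∈ bl y.2 k, ‖u‖ < ε ∧ ‖v‖ < ε := by
    intro u hu v hv
    have := hy (show (u, v) ∈ bx κ y k from ⟨hu, hv⟩)
    rw [Set.mem_prod, Metric.mem_ball, Metric.mem_ball, dist_zero_right, dist_zero_right] at this
    exact this
  have hy1 := self_mem_bl y.1 (k + κ)
  have hy2 := self_mem_bl y.2 k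
  have hok : Okx (fun s (x : ℚ_[p] × ℚ_[p]) => wx χ s a0 n0 x.1 * wx χ s m 1 (ev x h)) :=
    (okx_wx χ (fun x => x.1) continuous_fst a0 n0).mul (okx_wx χ _ (ev_cont h) m 1)
  have hint := hok.fin (CO_bx κ y k) hs
  have e : ∫ x in bx κ y k, wx χ s a0 n0 x.1 * wx χ s m 1 (ev x h) ∂(nu2 p) =
      ∫ u in bl y.1 (k + κ), ∫ v in bl y.2 k, wx χ s a0 n0 u * wx χ s m 1 (ev (u, v) h) ∂(Y230.PT.nu p)
        ∂(Y230.PT.nu p) := by
    rw [bx, nu2] at hint ⊢
    exact setIntegral_prod _ hint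
  rw [e]
  have h1 : ∀ u ∈ bl y.1 (k + κ),
      ∫ v in bl y.2 k, wx χ s a0 n0 u * wx χ s m 1 (ev (u, v) h) ∂(Y230.PT.nu p) =
      wx χ s a0 n0 u * Ix χ s m 1 (ev y h) k := by
    intro u hu'
    rw [integral_const_mul]
    congr 1
    rw [isom_int y.2 k (fun v => ev (u, v) h)
      ((ev_cont h).comp (by fun_prop : Continuous fun v : ℚ_[p] => (u, v))).measurable
      (fun v hv1 v' hv2 =>
        hv u v v' (hmem u hu' v hv1).1 (hmem u hu' v hv1).2 (hmem u hu' v' hv2).2)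
      (wx χ s m 1) (wx_meas χ s m 1)]
    refine Ix_ball χ s m 1 k ?_
    rw [mem_bl]
    have h2 := hu u y.1 y.2 (hmem u hu' _ hy2).1 (hmem _ hy1 _ hy2).1 (hmem _ hy1 _ hy2).2
    have h3 := (mem_bl _ _ _).1 hu'
    rw [pow_add] at h3
    exact le_of_mul_le_mul_right (h2.trans h3) (pow_pos qr_pos κ)
  rw [setIntegral_congr_fun (bl_meas _ _) h1, integral_mul_const]
  rfl

end Pool.Agent.N138.SU
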