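import Pool.Agent.N138.SU.Stm

set_option autoImplicit false
set_option linter.unusedSectionVars false

/-! # Adding `a t ^ N` -/

namespace Pool.Agent.N138.SU.B2

open MeasureTheory Polynomial
open Pool.Agent.W427.SMC
open Pool.Agent.N138.SU
open Pool.Agent.Y230.PS (EP ser rat_EP had coeff_ser)

attribute [local instance] msZ bsZ

variable {p : ℕ} [Fact p.Prime]

theorem psi_add (e : ℕ) (x y : ℤ_[p]) : psi p e (x + y) = psi p e x * psi p e y := by
  unfold psi
  rw [map_add, AddChar.map_add_eq_mul]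

theorem toZ_loc (e : ℕ) {x y : ℤ_[p]} (h : ‖x - y‖ ≤ ((p : ℝ)⁻¹) ^ e) :
    PadicInt.toZModPow e x = PadicInt.toZModPow e y := by
  have h1 : x - y ∈ RingHom.ker (PadicInt.toZModPow e : ℤ_[p] →+* ZMod (p ^ e)) := by
    rw [PadicInt.ker_toZModPow, ← PadicInt.norm_le_pow_iff_mem_span_pow]
    rw [inv_pow] at h
    rw [zpow_neg, zpow_natCast]
    exact h
  rw [RingHom.mem_ker, map_sub, sub_eq_zero] at h1
  exact h1

theorem Es_loc {Y : Type} [MeasurableSpace Y] (ν : Measure Y) (φ : Y → ℤ_[p]) (e : ℕ)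
    {u v : ℤ_[p]} (h : ‖v - u‖ ≤ ((p : ℝ)⁻¹) ^ e) : Es ν φ e v = Es ν φ e u := by
  unfold Es
  congr 1
  funext y
  have h1 : PadicInt.toZModPow e (v * φ y) = PadicInt.toZModPow e (u * φ y) := by
    rw [map_mul, map_mul, toZ_loc e h]
  unfold psi
  rw [h1]

theorem p_inv_pos : (0 : ℝ) < (p : ℝ)⁻¹ := by
  have : (0 : ℝ) < p := by exact_mod_cast (Fact.out : p.Prime).pos
  positivity

theorem Es_cont {Y : Type} [MeasurableSpace Y] (ν : Measure Y) (φ : Y → ℤ_[p]) (e : ℕ) :
    Continuous (fun u : ℤ_[p] => Es ν φ e u) := by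
  rw [continuous_iff_continuousAt]
  intro u
  refine (continuousAt_const (y := Es ν φ e u)).congr ?_
  have h1 : Metric.ball u (((p : ℝ)⁻¹) ^ e) ∈ nhds u :=
    Metric.ball_mem_nhds _ (pow_pos p_inv_pos _)
  filter_upwards [h1] with v hv
  rw [Metric.mem_ball, dist_eq_norm] at hv
  exact (Es_loc ν φ e hv.le).symm

theorem X_cont (χ : UC p) : ContinuousOn (fun u : ℤ_[p] => χ.X (u : ℚ_[p])) (un p) := by
  intro u hu
  have hu' : ‖(u : ℚ_[p])‖ = 1 := by
    rw [PadicInt.padic_norm_e_of_padicInt]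
    exact hu
  have hu0 : (u : ℚ_[p]) ≠ 0 := by
    intro h
    rw [h, norm_zero] at hu'
    exact zero_ne_one hu'
  refine (continuousAt_const (y := χ.X (u : ℚ_[p]))).congr ?_ |>.continuousWithinAt
  have h1 : Metric.ball u (((p : ℝ)⁻¹) ^ χ.c) ∈ nhds u :=
    Metric.ball_mem_nhds _ (pow_pos p_inv_pos _)
  filter_upwards [h1] with v hv
  rw [Metric.mem_ball, dist_eq_norm] at hv
  have h2 : χ.X ((v : ℚ_[p]) / u) = 1 := by
    refine χ.tr _ ?_
    have h3 : (v : ℚ_[p]) / u - 1 = (((v - u : ℤ_[p]) : ℚ_[p])) / u := by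
      rw [PadicInt.coe_sub]
      field_simp
    rw [h3, norm_div, hu', div_one, PadicInt.padic_norm_e_of_padicInt]
    exact hv.le
  have h4 : (v : ℚ_[p]) = (v : ℚ_[p]) / u * u := by field_simp
  rw [h4, map_mul, h2, one_mul]

theorem un_compact : IsCompact (un p) := by
  refine IsClosed.isCompact ?_
  exact isClosed_eq continuous_norm continuous_const

theorem un_meas : MeasurableSet (un p) :=
  (isClosed_eq continuous_norm continuous_const).measurableSet

/-- the quotient of two characters -/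
noncomputable def qt (χ χ' : UC p) : UC p where
  X :=
    { toFun := fun x => χ.X x * (starRingEnd ℂ) (χ'.X x)
      map_zero' := by rw [map_zero, zero_mul]
      map_one' := by rw [map_one, map_one, map_one, mul_one]
      map_mul' := fun x y => by
        rw [map_mul, map_mul, map_mul]
        ring }
  one := by
    change χ.X (p : ℚ_[p]) * (starRingEnd ℂ) (χ'.X (p : ℚ_[p])) = 1
    rw [χ.one, χ'.one, map_one, mul_one]
  c := max χ.c χ'.c
  hc := le_trans χ.hc (le_max_left _ _)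
  tr := fun x hx => by
    have hp1 : (p : ℝ)⁻¹ ≤ 1 := by
      have : (1 : ℝ) ≤ p := by exact_mod_cast (Fact.out : p.Prime).one_lt.le
      exact inv_le_one_of_one_le₀ this
    change χ.X x * (starRingEnd ℂ) (χ'.X x) = 1
    rw [χ.tr x (hx.trans (pow_le_pow_of_le_one p_inv_pos.le hp1 (le_max_left _ _))),
      χ'.tr x (hx.trans (pow_le_pow_of_le_one p_inv_pos.le hp1 (le_max_right _ _))), map_one,
      mul_one]

theorem qt_apply (χ χ' : UC p) (x : ℚ_[p]) :
    (qt χ χ').X x = χ.X x * (starRingEnd ℂ) (χ'.X x) := rfl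

theorem Es_prod {Y : Type} [MeasurableSpace Y] (ν : Measure Y) [IsProbabilityMeasure ν]
    (φ : Y → ℤ_[p]) (g : ℤ_[p] → ℤ_[p]) (e : ℕ) (u : ℤ_[p]) :
    Es (ν.prod (mu p)) (fun y : Y × ℤ_[p] => φ y.1 + g y.2) e u =
      Es ν φ e u * Es (mu p) g e u := by
  unfold Es
  rw [← integral_prod_mul]
  congr 1
  funext y
  rw [mul_add, psi_add]

/-- the sequence of the components of `a t ^ N` -/
theorem d_EP (hc : StB2c) (a : ℤ_[p]) (ha : a ≠ 0) (N : ℕ) (hN : 1 ≤ N) (χ : UC p) :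
    (fun e : ℕ => Eh (mu p) (fun t : ℤ_[p] => a * t ^ N) χ e) ∈
      EP (fun T => if T ^ N = (p : ℂ) then 1 else 0) := by
  classical
  obtain ⟨e0, he0⟩ := hc p a ha N hN
  obtain ⟨d, hd⟩ : ∃ d : ℕ → ℂ, d = fun e : ℕ => Eh (mu p) (fun t : ℤ_[p] => a * t ^ N) χ e :=
    ⟨_, rfl⟩
  rw [← hd]
  have hpC : (p : ℂ) ≠ 0 := by exact_mod_cast (Fact.out : p.Prime).ne_zero
  have hrec : ∀ e, e0 ≤ e → (p : ℂ) * d (e + N) = d e := by
    intro e he
    rw [hd]
    unfold Eh
    rw [← integral_const_mul]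
    refine setIntegral_congr_fun un_meas fun u hu => ?_
    rw [← he0 e u he hu]
    ring
  have hdeg : ((C (p : ℂ) - X ^ N : ℂ[X])).natDegree = N := by
    have h1 : (C (p : ℂ) - X ^ N : ℂ[X]) = -(X ^ N - C (p : ℂ)) := by ring
    rw [h1, natDegree_neg, natDegree_X_pow_sub_C]
  have hD : (C (p : ℂ) - X ^ N : ℂ[X]) ≠ 0 := by
    intro h
    rw [h, natDegree_zero] at hdeg
    omega
  refine rat_EP _ (C (p : ℂ) - X ^ N) hD d (PowerSeries.trunc (e0 + N)
    (((C (p : ℂ) - X ^ N : ℂ[X]) : PowerSeries ℂ) * ser d)) ?_ ?_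
  · ext n
    rw [Polynomial.coeff_coe, PowerSeries.coeff_trunc]
    split_ifs with h
    · rfl
    · obtain ⟨k, rfl⟩ : ∃ k, n = k + N := ⟨n - N, by omega⟩
      rw [Polynomial.coe_sub, Polynomial.coe_C, Polynomial.coe_pow, Polynomial.coe_X, sub_mul,
        map_sub, PowerSeries.coeff_C_mul, PowerSeries.coeff_X_pow_mul, coeff_ser, coeff_ser,
        hrec k (by omega), sub_self]
  · intro T hT
    have heval : eval T (C (p : ℂ) - X ^ N : ℂ[X]) = p - T ^ N := by simp
    by_cases h : T ^ N = (p : ℂ)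
    · rw [if_pos h]
      have h1 : (C (p : ℂ) - X ^ N : ℂ[X]).rootMultiplicity T ≤ 1 := by
        by_contra hlt
        push Not at hlt
        have h2 := (one_lt_rootMultiplicity_iff_isRoot hD).1 hlt
        have h3 := h2.2
        rw [IsRoot] at h3
        simp only [derivative_sub, derivative_C, derivative_X_pow, zero_sub, eval_neg, eval_mul,
          eval_C, eval_pow, eval_X, neg_eq_zero, mul_eq_zero, Nat.cast_eq_zero] at h3
        rcases h3 with h3 | h3
        · omega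
        · exact pow_ne_zero _ hT h3
      exact_mod_cast h1
    · rw [if_neg h]
      have h1 : (C (p : ℂ) - X ^ N : ℂ[X]).rootMultiplicity T = 0 := by
        apply rootMultiplicity_eq_zero
        rw [IsRoot, heval]
        intro h0
        exact h (sub_eq_zero.1 h0).symm
      rw [h1]
      simp

theorem t (ha : StB2a) (hb : StB2b) (hc : StB2c) : StB2 := by
  intro p _ Y _ ν _ φ hφ a ha0 N hN m m' hm hE χ
  obtain ⟨C, hC1, hC⟩ := hb p a ha0 N hN
  obtain ⟨S, hS⟩ := ha p C hC1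
  have hp1 : (p : ℂ) - 1 ≠ 0 := by
    have h2 : (1 : ℝ) < p := by exact_mod_cast (Fact.out : p.Prime).one_lt
    intro h
    have h3 : ((p : ℝ) : ℂ) = ((1 : ℝ) : ℂ) := by
      push_cast
      exact sub_eq_zero.1 h
    rw [Complex.ofReal_inj] at h3
    linarith
  have key : ∀ e : ℕ, ((p : ℂ) - 1) *
      Eh (ν.prod (mu p)) (fun y : Y × ℤ_[p] => φ y.1 + a * y.2 ^ N) χ e =
      (p : ℂ) * ∑ χ' ∈ S, Eh ν φ (qt χ χ') e * Eh (mu p) (fun t : ℤ_[p] => a * t ^ N) χ' e := by
    intro e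
    have h1 : ∀ u : ℤ_[p], ‖u‖ = 1 → ((p : ℂ) - 1) *
        Es (mu p) (fun t => a * t ^ N) e u = (p : ℂ) * ∑ χ' ∈ S, χ'.X (u : ℚ_[p]) *
          Eh (mu p) (fun t : ℤ_[p] => a * t ^ N) χ' e :=
      hS (fun u => Es (mu p) (fun t => a * t ^ N) e u) fun u v _ hv => hC e u v hv
    have h2 : ((p : ℂ) - 1) *
        Eh (ν.prod (mu p)) (fun y : Y × ℤ_[p] => φ y.1 + a * y.2 ^ N) χ e =
        ∫ u in un p, ∑ χ' ∈ S, (p : ℂ) * Eh (mu p) (fun t : ℤ_[p] => a * t ^ N) χ' e *
          ((starRingEnd ℂ) ((qt χ χ').X (u : ℚ_[p])) * Es ν φ e u) ∂(mu p) := by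
      unfold Eh
      rw [← integral_const_mul]
      refine setIntegral_congr_fun un_meas fun u hu => ?_
      rw [Es_prod ν φ (fun t => a * t ^ N) e u]
      calc ((p : ℂ) - 1) * ((starRingEnd ℂ) (χ.X (u : ℚ_[p])) *
            (Es ν φ e u * Es (mu p) (fun t => a * t ^ N) e u)) =
            (starRingEnd ℂ) (χ.X (u : ℚ_[p])) * Es ν φ e u *
              (((p : ℂ) - 1) * Es (mu p) (fun t => a * t ^ N) e u) := by ring
        _ = (starRingEnd ℂ) (χ.X (u : ℚ_[p])) * Es ν φ e u *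
              ((p : ℂ) * ∑ χ' ∈ S, χ'.X (u : ℚ_[p]) *
                Eh (mu p) (fun t : ℤ_[p] => a * t ^ N) χ' e) := by rw [h1 u hu]
        _ = _ := by
            rw [Finset.mul_sum, Finset.mul_sum]
            refine Finset.sum_congr rfl fun χ' _ => ?_
            rw [qt_apply, map_mul, Complex.conj_conj]
            unfold Eh
            ring
    rw [h2, integral_finsetSum, Finset.mul_sum]
    · refine Finset.sum_congr rfl fun χ' _ => ?_
      rw [integral_const_mul]
      unfold Eh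
      ring
    · intro χ' _
      refine Integrable.const_mul ?_ _
      refine ContinuousOn.integrableOn_compact un_compact ?_
      exact (Complex.continuous_conj.comp_continuousOn (X_cont (qt χ χ'))).mul
        (Es_cont ν φ e).continuousOn
  have hseq : (fun e : ℕ => Eh (ν.prod (mu p)) (fun y : Y × ℤ_[p] => φ y.1 + a * y.2 ^ N) χ e) =
      ((p : ℂ) / ((p : ℂ) - 1)) • ∑ χ' ∈ S, (fun e : ℕ => Eh ν φ (qt χ χ') e) *
        (fun e : ℕ => Eh (mu p) (fun t : ℤ_[p] => a * t ^ N) χ' e) := by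
    funext e
    rw [Pi.smul_apply, Finset.sum_apply, smul_eq_mul, div_mul_eq_mul_div, eq_div_iff hp1, mul_comm,
      key e]
    rfl
  rw [hseq]
  refine Submodule.smul_mem _ _ (Submodule.sum_mem _ fun χ' _ => ?_)
  refine had m (fun T => if T ^ N = (p : ℂ) then 1 else 0) m' ?_ _ _ (hE (qt χ χ'))
    (d_EP hc a ha0 N hN χ')
  intro T1 T2 hT1 hT2 a' b' ha' hb' ham hbm
  by_cases h : T2 ^ N = (p : ℂ)
  · rw [if_pos h] at hbm
    have hb1 : b' = 1 := by
      have : b' ≤ 1 := by exact_mod_cast hbm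
      omega
    subst hb1
    rw [Nat.add_sub_cancel]
    exact ham.trans (hm T1 T2 hT1 h)
  · rw [if_neg h] at hbm
    have : b' ≤ 0 := by exact_mod_cast hbm
    omega

end Pool.Agent.N138.SU.B2
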