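import Pool.Agent.N138.SU.Stm

set_option autoImplicit false

/-! # Job B2a: expansion of locally constant functions on the units in characters modulo `p ^ C` -/

namespace Pool.Agent.N138.SU.B2A

open MeasureTheory
open Pool.Agent.W427.SMC
open Pool.Agent.N138.SU

attribute [local instance] msZ bsZ

section

variable (p : ℕ) [Fact p.Prime]

/-- truncation to `ℤ_p` -/
noncomputable def zp (x : ℚ_[p]) : ℤ_[p] :=
  if h : ‖x‖ ≤ 1 then (show ℤ_[p] from ⟨x, h⟩) else 0

variable {p}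

theorem zp_coe {x : ℚ_[p]} (h : ‖x‖ ≤ 1) : ((zp p x : ℤ_[p]) : ℚ_[p]) = x := by
  have h1 : zp p x = (show ℤ_[p] from ⟨x, h⟩) := dif_pos h
  rw [h1]

theorem zp_int (x : ℤ_[p]) : zp p (x : ℚ_[p]) = x := Subtype.ext (zp_coe x.2)

theorem zp_mul {x y : ℚ_[p]} (hx : ‖x‖ ≤ 1) (hy : ‖y‖ ≤ 1) :
    zp p (x * y) = zp p x * zp p y := by
  apply Subtype.ext
  rw [PadicInt.coe_mul, zp_coe hx, zp_coe hy, zp_coe]
  rw [norm_mul]
  exact mul_le_one₀ hx (norm_nonneg _) hy

variable (p)

/-- angular component -/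
noncomputable def ac (x : ℚ_[p]) : ℚ_[p] := x * (p : ℚ_[p]) ^ (-x.valuation)

variable {p}

theorem p_ne : (p : ℚ_[p]) ≠ 0 := by
  exact_mod_cast (Fact.out : p.Prime).ne_zero

theorem norm_ac {x : ℚ_[p]} (hx : x ≠ 0) : ‖ac p x‖ = 1 := by
  have hp : (p : ℝ) ≠ 0 := by exact_mod_cast (Fact.out : p.Prime).ne_zero
  unfold ac
  rw [norm_mul, norm_zpow, Padic.norm_eq_zpow_neg_valuation hx, Padic.norm_p, inv_zpow,
    ← zpow_neg, ← zpow_add₀ hp]
  simp

theorem ac_mul {x y : ℚ_[p]} (hx : x ≠ 0) (hy : y ≠ 0) : ac p (x * y) = ac p x * ac p y := by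
  unfold ac
  rw [Padic.valuation_mul hx hy, neg_add, zpow_add₀ p_ne]
  ring

theorem ac_unit {x : ℚ_[p]} (hx : ‖x‖ = 1) : ac p x = x := by
  have hx0 : x ≠ 0 := by
    rintro rfl
    rw [norm_zero] at hx
    exact zero_ne_one hx
  have h1 := Padic.norm_eq_zpow_neg_valuation hx0
  rw [hx] at h1
  have hp : (1 : ℝ) < p := by exact_mod_cast (Fact.out : p.Prime).one_lt
  have h2 : x.valuation = 0 := by
    have h3 : (p : ℝ) ^ (0 : ℤ) = (p : ℝ) ^ (-x.valuation) := by rw [zpow_zero]; exact h1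
    have h4 := zpow_right_injective₀ (by linarith) hp.ne' h3
    omega
  unfold ac
  rw [h2, neg_zero, zpow_zero, mul_one]

theorem ac_p : ac p (p : ℚ_[p]) = 1 := by
  unfold ac
  rw [Padic.valuation_p, zpow_neg, zpow_one, mul_inv_cancel₀ p_ne]

theorem ac_zero : ac p (0 : ℚ_[p]) = 0 := by
  unfold ac; rw [zero_mul]

theorem tz_eq (C : ℕ) (x y : ℤ_[p]) :
    PadicInt.toZModPow C x = PadicInt.toZModPow C y ↔ ‖x - y‖ ≤ ((p : ℝ)⁻¹) ^ C := by
  rw [← sub_eq_zero, ← map_sub, ← RingHom.mem_ker, PadicInt.ker_toZModPow,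
    ← PadicInt.norm_le_pow_iff_mem_span_pow, zpow_neg, zpow_natCast, inv_pow]

theorem nz (C : ℕ) : NeZero (p ^ C) := ⟨pow_ne_zero C (Fact.out : p.Prime).ne_zero⟩

theorem nontriv {C : ℕ} (hC : 1 ≤ C) : Nontrivial (ZMod (p ^ C)) := by
  have : Fact (1 < p ^ C) := ⟨Nat.one_lt_pow (by omega) (Fact.out : p.Prime).one_lt⟩
  exact ZMod.nontrivial _

theorem isUnit_iff {C : ℕ} (hC : 1 ≤ C) (x : ℤ_[p]) :
    IsUnit (PadicInt.toZModPow C x) ↔ ‖x‖ = 1 := by
  have := nontriv (p := p) hC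
  constructor
  · intro h
    by_contra h1
    have h2 : ‖x‖ < 1 := lt_of_le_of_ne x.2 h1
    rw [PadicInt.norm_lt_one_iff_dvd] at h2
    obtain ⟨y, rfl⟩ := h2
    have h3 : (PadicInt.toZModPow C ((p : ℤ_[p]) * y)) ^ C = 0 := by
      rw [map_mul, map_natCast, mul_pow, ← Nat.cast_pow, ZMod.natCast_self, zero_mul]
    exact (h.pow C).ne_zero h3
  · intro h
    exact (PadicInt.isUnit_iff.2 h).map _

/-- the character of `ℚ_p` attached to a Dirichlet character modulo `p ^ C` -/
noncomputable def mk (C : ℕ) (hC : 1 ≤ C) (ψ : DirichletCharacter ℂ (p ^ C)) : UC p where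
  X :=
    { toFun := fun t => ψ (PadicInt.toZModPow C (zp p (ac p t)))
      map_zero' := by
        have := nontriv (p := p) hC
        rw [ac_zero, show zp p (0 : ℚ_[p]) = 0 from zp_int 0, map_zero, MulChar.map_zero]
      map_one' := by
        rw [ac_unit (by simp), show zp p (1 : ℚ_[p]) = 1 from zp_int 1, map_one, map_one]
      map_mul' := by
        intro x y
        have := nontriv (p := p) hC
        by_cases hx : x = 0
        · rw [hx, zero_mul, ac_zero, show zp p (0 : ℚ_[p]) = 0 from zp_int 0, map_zero,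
            MulChar.map_zero, zero_mul]
        by_cases hy : y = 0
        · rw [hy, mul_zero, ac_zero, show zp p (0 : ℚ_[p]) = 0 from zp_int 0, map_zero,
            MulChar.map_zero, mul_zero]
        rw [ac_mul hx hy, zp_mul (norm_ac hx).le (norm_ac hy).le, map_mul, map_mul] }
  one := by
    show ψ (PadicInt.toZModPow C (zp p (ac p (p : ℚ_[p])))) = 1
    rw [ac_p, show zp p (1 : ℚ_[p]) = 1 from zp_int 1, map_one, map_one]
  c := C
  hc := hC
  tr := by
    intro x hx
    have h1 : ‖x - 1‖ < 1 := by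
      refine hx.trans_lt (pow_lt_one₀ (by positivity) ?_ (by omega))
      exact inv_lt_one_of_one_lt₀ (by exact_mod_cast (Fact.out : p.Prime).one_lt)
    have h2 : ‖x‖ = 1 := by
      have h3 := Padic.add_eq_max_of_ne (q := x - 1) (r := 1) (by rw [norm_one]; exact h1.ne)
      rw [sub_add_cancel, norm_one, max_eq_right h1.le] at h3
      exact h3
    show ψ (PadicInt.toZModPow C (zp p (ac p x))) = 1
    rw [ac_unit h2]
    have h4 : PadicInt.toZModPow C (zp p x) = PadicInt.toZModPow C 1 := by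
      rw [tz_eq, PadicInt.norm_def, PadicInt.coe_sub, zp_coe h2.le, PadicInt.coe_one]
      exact hx
    rw [h4, map_one, map_one]

theorem mk_unit {C : ℕ} (hC : 1 ≤ C) (ψ : DirichletCharacter ℂ (p ^ C)) {u : ℤ_[p]}
    (hu : ‖u‖ = 1) : (mk C hC ψ).X (u : ℚ_[p]) = ψ (PadicInt.toZModPow C u) := by
  show ψ (PadicInt.toZModPow C (zp p (ac p (u : ℚ_[p])))) = _
  rw [ac_unit (by rwa [← PadicInt.norm_def]), zp_int]

theorem mk_inj {C : ℕ} (hC : 1 ≤ C) : Function.Injective (mk (p := p) C hC) := by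
  have := nz (p := p) C
  intro ψ ψ' h
  apply MulChar.ext
  intro a
  have h1 : PadicInt.toZModPow C (((a : ZMod (p ^ C)).val : ℤ_[p])) = (a : ZMod (p ^ C)) := by
    rw [map_natCast, ZMod.natCast_zmod_val]
  have h2 : ‖(((a : ZMod (p ^ C)).val : ℤ_[p]))‖ = 1 := by
    rw [← isUnit_iff hC, h1]; exact a.isUnit
  have h3 := mk_unit hC ψ h2
  have h4 := mk_unit hC ψ' h2
  rw [h1] at h3 h4
  rw [← h3, ← h4, h]

theorem tz_meas (C : ℕ) :
    letI : MeasurableSpace (ZMod (p ^ C)) := ⊤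
    Measurable (fun v : ℤ_[p] => PadicInt.toZModPow C v) := by
  let _ : MeasurableSpace (ZMod (p ^ C)) := ⊤
  have := nz (p := p) C
  refine measurable_to_countable' fun b => ?_
  have h1 : (fun v : ℤ_[p] => PadicInt.toZModPow C v) ⁻¹' {b} =
      {v : ℤ_[p] | ‖v - ((b.val : ℕ) : ℤ_[p])‖ ≤ ((p : ℝ)⁻¹) ^ C} := by
    ext v
    rw [Set.mem_preimage, Set.mem_singleton_iff, Set.mem_ofPred_eq, ← tz_eq, map_natCast,
      ZMod.natCast_zmod_val]
  rw [h1]
  exact (isClosed_le (by fun_prop) continuous_const).measurableSet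

theorem mu_class (C : ℕ) (b : ZMod (p ^ C)) :
    mu p {v : ℤ_[p] | PadicInt.toZModPow C v = b} = ((p : ENNReal)⁻¹) ^ C := by
  classical
  let _ : MeasurableSpace (ZMod (p ^ C)) := ⊤
  have := nz (p := p) C
  have hm : MeasurableSet {v : ℤ_[p] | PadicInt.toZModPow C v = b} :=
    tz_meas C (MeasurableSet.singleton b)
  rw [← lintegral_indicator_one hm, lintegral_sm p C _ (measurable_one.indicator hm), sm,
    Finset.sum_eq_single b]
  · have h1 : ∀ z : ℤ_[p], ({v : ℤ_[p] | PadicInt.toZModPow C v = b}).indicator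
        (1 : ℤ_[p] → ENNReal) ((b.val : ℤ_[p]) + (p : ℤ_[p]) ^ C * z) = 1 := by
      intro z
      apply Set.indicator_of_mem
      rw [Set.mem_ofPred_eq, map_add, map_mul, map_pow, map_natCast, map_natCast,
        ZMod.natCast_zmod_val, ← Nat.cast_pow, ZMod.natCast_self, zero_mul, add_zero]
    rw [lintegral_congr h1, lintegral_one, measure_univ, mul_one]
  · intro w _ hw
    have h1 : ∀ z : ℤ_[p], ({v : ℤ_[p] | PadicInt.toZModPow C v = b}).indicator
        (1 : ℤ_[p] → ENNReal) ((w.val : ℤ_[p]) + (p : ℤ_[p]) ^ C * z) = 0 := by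
      intro z
      apply Set.indicator_of_notMem
      rw [Set.mem_ofPred_eq, map_add, map_mul, map_pow, map_natCast, map_natCast,
        ZMod.natCast_zmod_val, ← Nat.cast_pow, ZMod.natCast_self, zero_mul, add_zero]
      exact hw
    rw [lintegral_congr h1, lintegral_zero, mul_zero]
  · intro h; exact absurd (Finset.mem_univ b) h

theorem int_class (C : ℕ) (g : ZMod (p ^ C) → ℂ) :
    haveI := nz (p := p) C
    ∫ v, g (PadicInt.toZModPow C v) ∂(mu p) = ((p : ℂ)⁻¹) ^ C * ∑ b, g b := by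
  let _ : MeasurableSpace (ZMod (p ^ C)) := ⊤
  have := nz (p := p) C
  have hsm : Measurable g := measurable_from_top
  rw [← integral_map (tz_meas C).aemeasurable hsm.aestronglyMeasurable]
  have hfin : IsFiniteMeasure ((mu p).map fun v : ℤ_[p] => PadicInt.toZModPow C v) := by
    infer_instance
  rw [integral_fintype Integrable.of_finite, Finset.mul_sum]
  refine Finset.sum_congr rfl fun b _ => ?_
  rw [measureReal_def, Measure.map_apply (tz_meas C) (MeasurableSet.singleton b)]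
  have h1 : (fun v : ℤ_[p] => PadicInt.toZModPow C v) ⁻¹' {b} =
    {v : ℤ_[p] | PadicInt.toZModPow C v = b} := rfl
  rw [h1, mu_class, ENNReal.toReal_pow, ENNReal.toReal_inv, ENNReal.toReal_natCast,
    Complex.real_smul]
  push_cast
  rfl

end

/-- Job B2a -/
theorem t : StB2a := by
  classical
  intro p _ C hC
  have hnz := nz (p := p) C
  have hnt := nontriv (p := p) hC
  refine ⟨Finset.univ.map ⟨mk C hC, mk_inj hC⟩, ?_⟩
  intro h hh u hu
  set a : ZMod (p ^ C) := PadicInt.toZModPow C u with ha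
  have hau : IsUnit a := (isUnit_iff hC u).2 hu
  -- the representative of a class
  have hh2 : ∀ v w : ℤ_[p], ‖v‖ = 1 → PadicInt.toZModPow C v = PadicInt.toZModPow C w →
      h v = h w := by
    intro v w hv hvw
    have hw : ‖w‖ = 1 := by
      rw [← isUnit_iff hC, ← hvw, isUnit_iff hC]; exact hv
    obtain ⟨v', hv'⟩ := PadicInt.isUnit_iff.2 hv
    have e1 : w = v * ((v'⁻¹ : (ℤ_[p])ˣ) * w) := by
      rw [← mul_assoc, ← hv', Units.mul_inv, one_mul]
    have e2 : ‖((v'⁻¹ : (ℤ_[p])ˣ) : ℤ_[p]) * w - 1‖ ≤ ((p : ℝ)⁻¹) ^ C := by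
      rw [← tz_eq, map_mul, ← hvw, ← map_mul, ← hv', Units.inv_mul]
    rw [e1, hh v _ hv e2]
  have hint : ∀ ψ : DirichletCharacter ℂ (p ^ C),
      ∫ v in un p, (starRingEnd ℂ) ((mk C hC ψ).X (v : ℚ_[p])) * h v ∂(mu p) =
      ((p : ℂ)⁻¹) ^ C * ∑ b : ZMod (p ^ C),
        (starRingEnd ℂ) (ψ b) * h ((b.val : ℕ) : ℤ_[p]) := by
    intro ψ
    have hum : MeasurableSet (un p) :=
      (isClosed_eq continuous_norm continuous_const).measurableSet
    rw [← integral_indicator hum, ← int_class]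
    refine integral_congr_ae (Filter.Eventually.of_forall fun v => ?_)
    simp only
    by_cases hv : ‖v‖ = 1
    · rw [Set.indicator_of_mem (show v ∈ un p from hv), mk_unit hC ψ hv]
      congr 1
      apply hh2 v _ hv
      rw [map_natCast, ZMod.natCast_zmod_val]
    · rw [Set.indicator_of_notMem (show v ∉ un p from hv),
        MulChar.map_nonunit ψ (fun h1 => hv ((isUnit_iff hC v).1 h1)), map_zero, zero_mul]
  rw [Finset.sum_map]
  simp only [Function.Embedding.coeFn_mk]
  have hsum : ∑ ψ : DirichletCharacter ℂ (p ^ C), (mk C hC ψ).X (u : ℚ_[p]) *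
      ∫ v in un p, (starRingEnd ℂ) ((mk C hC ψ).X (v : ℚ_[p])) * h v ∂(mu p) =
      ((p : ℂ)⁻¹) ^ C * ((p ^ C).totient * h u) := by
    calc _ = ∑ ψ : DirichletCharacter ℂ (p ^ C), ψ a * (((p : ℂ)⁻¹) ^ C * ∑ b : ZMod (p ^ C),
          (starRingEnd ℂ) (ψ b) * h ((b.val : ℕ) : ℤ_[p])) := by
          refine Finset.sum_congr rfl fun ψ _ => ?_
          rw [hint ψ, mk_unit hC ψ hu]
      _ = ((p : ℂ)⁻¹) ^ C * ∑ b : ZMod (p ^ C), h ((b.val : ℕ) : ℤ_[p]) *
          ∑ ψ : DirichletCharacter ℂ (p ^ C), ψ a * (starRingEnd ℂ) (ψ b) := by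
          simp only [Finset.mul_sum]
          rw [Finset.sum_comm]
          refine Finset.sum_congr rfl fun b _ => Finset.sum_congr rfl fun ψ _ => ?_
          ring
      _ = ((p : ℂ)⁻¹) ^ C * ∑ b : ZMod (p ^ C), h ((b.val : ℕ) : ℤ_[p]) *
          (if b = a then ((p ^ C).totient : ℂ) else 0) := by
          congr 1
          refine Finset.sum_congr rfl fun b _ => ?_
          congr 1
          by_cases hb : IsUnit b
          · rw [← DirichletCharacter.sum_char_inv_mul_char_eq ℂ hb a]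
            refine Finset.sum_congr rfl fun ψ _ => ?_
            obtain ⟨b', rfl⟩ := hb
            rw [mul_comm]
            congr 1
            have h1 := MulChar.star_apply' ψ (b' : ZMod (p ^ C))
            rw [← starRingEnd_apply] at h1
            rw [h1, MulChar.inv_apply, Ring.inverse_unit, ZMod.inv_coe_unit]
          · have h1 : b ≠ a := fun h2 => hb (h2 ▸ hau)
            rw [if_neg h1]
            refine Finset.sum_eq_zero fun ψ _ => ?_
            rw [MulChar.map_nonunit ψ hb, map_zero, mul_zero]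
      _ = ((p : ℂ)⁻¹) ^ C * ((p ^ C).totient * h u) := by
          congr 1
          rw [Finset.sum_eq_single a]
          · rw [if_pos rfl, mul_comm]
            congr 1
            symm
            apply hh2 u _ hu
            rw [map_natCast, ZMod.natCast_zmod_val]
          · intro b _ hb
            rw [if_neg hb, mul_zero]
          · intro h1; exact absurd (Finset.mem_univ a) h1
  rw [hsum]
  have hp0 : (p : ℂ) ≠ 0 := by exact_mod_cast (Fact.out : p.Prime).ne_zero
  have hp1 : 1 ≤ p := (Fact.out : p.Prime).one_lt.le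
  obtain ⟨C', rfl⟩ : ∃ C', C = C' + 1 := ⟨C - 1, by omega⟩
  rw [Nat.totient_prime_pow (Fact.out : p.Prime) (Nat.succ_pos C'), Nat.succ_sub_one]
  push_cast [hp1]
  have e1 : (p : ℂ) * (((p : ℂ)⁻¹) ^ (C' + 1) * (p : ℂ) ^ C') = 1 := by
    rw [pow_succ, inv_pow]
    have h1 : (p : ℂ) ^ C' ≠ 0 := pow_ne_zero _ hp0
    field_simp
  calc ((p : ℂ) - 1) * h u = ((p : ℂ) * (((p : ℂ)⁻¹) ^ (C' + 1) * (p : ℂ) ^ C')) *
        (((p : ℂ) - 1) * h u) := by rw [e1, one_mul]
    _ = _ := by ring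

end Pool.Agent.N138.SU.B2A
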