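import Pool.Agent.N138.SU.Stm

set_option autoImplicit false

/-! # The exponential sums of `a t ^ N` as functions of the unit `u` -/

namespace Pool.Agent.N138.SU.B2B

open MeasureTheory Pool.Agent.N138.SU
open Pool.Agent.W427.SMC

attribute [local instance] msZ bsZ

variable (p : ℕ) [Fact p.Prime]

/-- `N`-th roots of numbers near `1` -/
theorem root (N : ℕ) (hN : 1 ≤ N) : ∃ C : ℕ, 1 ≤ C ∧ ∀ v : ℤ_[p], ‖v - 1‖ ≤ ((p : ℝ)⁻¹) ^ C →
    ∃ w : ℤ_[p]ˣ, (w : ℤ_[p]) ^ N = v := by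
  have hp1 : (1 : ℝ) < p := by exact_mod_cast (Fact.out : p.Prime).one_lt
  have hN0 : (0 : ℝ) < ‖(N : ℤ_[p])‖ := by
    rw [norm_pos_iff]
    exact_mod_cast (by omega : N ≠ 0)
  have hinv : (p : ℝ)⁻¹ < 1 := inv_lt_one_of_one_lt₀ hp1
  obtain ⟨C, hC⟩ := exists_pow_lt_of_lt_one (show 0 < ‖(N : ℤ_[p])‖ ^ 2 by positivity) hinv
  refine ⟨C + 1, by omega, fun v hv => ?_⟩
  have hv' : ‖v - 1‖ < ‖(N : ℤ_[p])‖ ^ 2 := by
    refine lt_of_le_of_lt (hv.trans ?_) hC
    exact pow_le_pow_of_le_one (by positivity) hinv.le (by omega)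
  let F : Polynomial ℤ_[p] := Polynomial.X ^ N - Polynomial.C v
  have h1 : F.aeval (1 : ℤ_[p]) = 1 - v := by
    simp [F]
  have h2 : F.derivative.aeval (1 : ℤ_[p]) = N := by
    simp [F, Polynomial.derivative_X_pow]
  have hnorm : ‖F.aeval (1 : ℤ_[p])‖ < ‖F.derivative.aeval (1 : ℤ_[p])‖ ^ 2 := by
    rw [h1, h2, norm_sub_rev]
    exact hv'
  obtain ⟨z, hz1, hz2, -⟩ := hensels_lemma hnorm
  rw [h2] at hz2
  have hz3 : ‖z - 1‖ < 1 := lt_of_lt_of_le hz2 (PadicInt.norm_le_one _)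
  have hzu : IsUnit z := by
    rw [PadicInt.isUnit_iff]
    refine le_antisymm (PadicInt.norm_le_one z) ?_
    by_contra hlt
    push Not at hlt
    have h3 := PadicInt.nonarchimedean (z - 1) (-z)
    have h4 : z - 1 + -z = -1 := by ring
    rw [h4, norm_neg, norm_one, norm_neg] at h3
    have := max_lt hz3 hlt
    linarith
  obtain ⟨w, rfl⟩ := hzu
  refine ⟨w, ?_⟩
  have : F.aeval (w : ℤ_[p]) = (w : ℤ_[p]) ^ N - v := by
    simp [F]
  rw [this] at hz1
  exact sub_eq_zero.1 hz1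

/-- multiplication by a unit -/
noncomputable def hom (w : ℤ_[p]ˣ) : ℤ_[p] ≃ₜ ℤ_[p] where
  toEquiv := w.mulLeft
  continuous_toFun := continuous_const.mul continuous_id
  continuous_invFun := continuous_const.mul continuous_id

theorem hom_apply (w : ℤ_[p]ˣ) (t : ℤ_[p]) : hom p w t = w * t := rfl

theorem mp (w : ℤ_[p]ˣ) : MeasurePreserving (hom p w) (mu p) (mu p) := by
  have hm : Measurable (hom p w) := (hom p w).continuous.measurable
  refine ⟨hm, ?_⟩
  have hpr : IsProbabilityMeasure ((mu p).map (hom p w)) :=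
    Measure.isProbabilityMeasure_map hm.aemeasurable
  have hinv : ((mu p).map (hom p w)).IsAddLeftInvariant := by
    refine ⟨fun t => ?_⟩
    refine Measure.ext_of_lintegral _ fun g hg => ?_
    have hg' : Measurable fun a => g (t + a) := hg.comp (measurable_const_add t)
    rw [lintegral_map hg (measurable_const_add t), lintegral_map hg' hm, lintegral_map hg hm]
    rw [← lintegral_add_left_eq_self (μ := mu p) (fun z => g (hom p w z))
      ((w⁻¹ : ℤ_[p]ˣ) * t)]
    refine lintegral_congr fun z => ?_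
    show g (t + hom p w z) = g (hom p w ((w⁻¹ : ℤ_[p]ˣ) * t + z))
    congr 1
    rw [hom_apply, hom_apply, mul_add, Units.mul_inv_cancel_left]
  exact mu_unique p _

theorem t : StB2b := by
  intro p _ a _ N hN
  obtain ⟨C, hC, h⟩ := root p N hN
  refine ⟨C, hC, fun e u v hv => ?_⟩
  obtain ⟨w, hw⟩ := h v hv
  unfold Es
  symm
  rw [← (mp p w).integral_comp (hom p w).measurableEmbedding]
  refine integral_congr_ae (Filter.Eventually.of_forall fun y => ?_)
  show psi p e (u * (a * (hom p w y) ^ N)) = psi p e (u * v * (a * y ^ N))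
  congr 1
  rw [hom_apply, ← hw]
  ring

end Pool.Agent.N138.SU.B2B

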