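import Pool.Agent.N138.SU.Stm

set_option autoImplicit false

/-! # Project SU: the recursion of the exponential sums of `a t ^ N` (StB2c) -/

namespace Pool.Agent.N138.SU.B2C

open MeasureTheory
open Pool.Agent.W427.SMC
open Pool.Agent.N138.SU
open scoped ENNReal

attribute [local instance] msZ bsZ

variable {p : ℕ} [hp : Fact p.Prime]

lemma psi_add (e : ℕ) (x y : ℤ_[p]) : psi p e (x + y) = psi p e x * psi p e y := by
  unfold psi
  rw [map_add, AddChar.map_add_eq_mul]

lemma zmod_zero {e : ℕ} {x : ℤ_[p]} : PadicInt.toZModPow e x = 0 ↔ (p : ℤ_[p]) ^ e ∣ x := by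
  rw [← RingHom.mem_ker, PadicInt.ker_toZModPow, Ideal.mem_span_singleton]

lemma psi_one {e : ℕ} {x : ℤ_[p]} (h : (p : ℤ_[p]) ^ e ∣ x) : psi p e x = 1 := by
  unfold psi
  rw [zmod_zero.2 h, AddChar.map_zero_eq_one]

lemma psi_one_iff {e : ℕ} {x : ℤ_[p]} : psi p e x = 1 ↔ (p : ℤ_[p]) ^ e ∣ x := by
  refine ⟨fun h => ?_, psi_one⟩
  rw [← zmod_zero]
  unfold psi at h
  have : NeZero (p ^ e) := ⟨pow_ne_zero e (Fact.out : p.Prime).ne_zero⟩
  apply ZMod.injective_stdAddChar
  rw [AddChar.map_zero_eq_one]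
  exact h

lemma psi_congr {e : ℕ} {x y : ℤ_[p]} (h : (p : ℤ_[p]) ^ e ∣ x - y) : psi p e x = psi p e y := by
  have e1 : x = (x - y) + y := by ring
  rw [e1, psi_add, psi_one h, one_mul]

lemma psi_mul (e n : ℕ) (X : ℤ_[p]) : psi p e (n * X) = psi p e X ^ n := by
  induction n with
  | zero => rw [Nat.cast_zero, zero_mul, pow_zero, psi_one (dvd_zero _)]
  | succ w ih => rw [Nat.cast_succ, add_mul, one_mul, psi_add, ih, pow_succ]

lemma psi_nat (e n : ℕ) : psi p e (n : ℤ_[p]) =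
    Complex.exp (2 * Real.pi * Complex.I * n / (p : ℂ) ^ e) := by
  unfold psi
  have : NeZero (p ^ e) := ⟨pow_ne_zero e (Fact.out : p.Prime).ne_zero⟩
  have h := ZMod.stdAddChar_coe (N := p ^ e) (n : ℤ)
  rw [map_natCast]
  push_cast at h
  exact h

lemma psi_pow (e N : ℕ) (x : ℤ_[p]) : psi p (e + N) ((p : ℤ_[p]) ^ N * x) = psi p e x := by
  obtain ⟨n, hn⟩ : ∃ n : ℕ, (p : ℤ_[p]) ^ (e + N) ∣ x - n :=
    ⟨x.appr (e + N), by rw [← Ideal.mem_span_singleton]; exact PadicInt.appr_spec _ _⟩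
  have h1 : psi p (e + N) ((p : ℤ_[p]) ^ N * x) = psi p (e + N) ((p ^ N * n : ℕ) : ℤ_[p]) := by
    apply psi_congr
    push_cast
    rw [← mul_sub]
    exact hn.mul_left _
  have h2 : psi p e x = psi p e (n : ℤ_[p]) :=
    psi_congr ((pow_dvd_pow _ (Nat.le_add_right e N)).trans hn)
  rw [h1, h2, psi_nat, psi_nat]
  congr 1
  have hp0 : (p : ℂ) ≠ 0 := by exact_mod_cast (Fact.out : p.Prime).ne_zero
  push_cast
  rw [pow_add]
  field_simp

lemma continuous_psi (e : ℕ) : Continuous (psi p e) := by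
  rw [continuous_iff_continuousAt]
  intro x
  have h : ∀ᶠ y in nhds x, psi p e x = psi p e y := by
    have h1 : Metric.ball x ((p : ℝ) ^ (-(e : ℤ))) ∈ nhds x := by
      apply Metric.ball_mem_nhds
      have : (0 : ℝ) < p := by exact_mod_cast (Fact.out : p.Prime).pos
      positivity
    filter_upwards [h1] with y hy
    rw [mem_ball_iff_norm] at hy
    have h2 := (PadicInt.norm_le_pow_iff_mem_span_pow (y - x) e).1 hy.le
    rw [Ideal.mem_span_singleton] at h2
    exact (psi_congr h2).symm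
  exact continuousAt_const.congr h

lemma norm_psi (e : ℕ) (x : ℤ_[p]) : ‖psi p e x‖ = 1 := by
  have : NeZero (p ^ e) := ⟨pow_ne_zero e (Fact.out : p.Prime).ne_zero⟩
  unfold psi
  rw [ZMod.stdAddChar_apply, Circle.norm_coe]

/-- the part of the measure on the multiples of `p` -/
lemma restrict_p : (mu p).restrict {z : ℤ_[p] | (p : ℤ_[p]) ∣ z} =
    ((p : ℝ≥0∞)⁻¹) • (mu p).map (fun z => (p : ℤ_[p]) * z) := by
  have hm : Measurable (fun z : ℤ_[p] => (p : ℤ_[p]) * z) :=
    (continuous_const.mul continuous_id).measurable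
  have hA : MeasurableSet {z : ℤ_[p] | (p : ℤ_[p]) ∣ z} := by
    have : {z : ℤ_[p] | (p : ℤ_[p]) ∣ z} = {z : ℤ_[p] | ‖z‖ < 1} := by
      ext z
      exact PadicInt.norm_lt_one_iff_dvd z |>.symm
    rw [this]
    exact (isOpen_lt continuous_norm continuous_const).measurableSet
  refine Measure.ext fun s hs => ?_
  rw [Measure.restrict_apply hs, Measure.smul_apply, Measure.map_apply hm hs, smul_eq_mul]
  obtain ⟨B, hB⟩ : ∃ B : Set ℤ_[p], B = s ∩ {z : ℤ_[p] | (p : ℤ_[p]) ∣ z} := ⟨_, rfl⟩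
  have hBm : MeasurableSet B := by rw [hB]; exact hs.inter hA
  rw [← hB, ← lintegral_indicator_one hBm]
  have h1 := one_step p 1 le_rfl (B.indicator 1) (measurable_one.indicator hBm)
  rw [h1]
  have h2 : ∑' w : ℕ, wt p 1 (0, w) * ∫⁻ z, B.indicator 1 (ph p 1 (0, w) z) ∂(mu p) = 0 := by
    rw [ENNReal.tsum_eq_zero]
    intro w
    unfold wt
    split_ifs with hw
    · have h3 : ∀ z : ℤ_[p], B.indicator (1 : ℤ_[p] → ℝ≥0∞) (ph p 1 (0, w) z) = 0 := by
        intro z
        apply Set.indicator_of_notMem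
        rw [hB]
        rintro ⟨-, h4⟩
        rw [Set.mem_ofPred_eq] at h4
        unfold ph at h4
        rw [pow_zero, one_mul, pow_one] at h4
        have h5 : (p : ℤ_[p]) ∣ (w : ℤ_[p]) := (dvd_add_left (dvd_mul_right _ _)).1 h4
        exact hw.2 ((p_dvd_natCast p w).1 h5)
      simp only [h3, lintegral_zero, mul_zero]
    · rw [zero_mul]
  rw [h2, zero_add]
  congr 1
  have h3 : ∀ z : ℤ_[p], B.indicator (1 : ℤ_[p] → ℝ≥0∞) ((p : ℤ_[p]) * z) =
      ((fun z => (p : ℤ_[p]) * z) ⁻¹' s).indicator 1 z := by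
    intro z
    by_cases hz : (p : ℤ_[p]) * z ∈ s
    · rw [Set.indicator_of_mem (by rw [hB]; exact ⟨hz, dvd_mul_right _ _⟩),
        Set.indicator_of_mem (by exact hz)]
      rfl
    · rw [Set.indicator_of_notMem (by rw [hB]; exact fun h => hz h.1),
        Set.indicator_of_notMem (by exact hz)]
  simp only [h3]
  rw [lintegral_indicator_one (hm hs)]

/-- units and multiples of `p` -/
lemma un_compl : (un p)ᶜ = {z : ℤ_[p] | (p : ℤ_[p]) ∣ z} := by
  ext z
  rw [Set.mem_compl_iff, Set.mem_ofPred_eq, ← PadicInt.norm_lt_one_iff_dvd]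
  unfold un
  rw [Set.mem_ofPred_eq]
  exact ⟨fun h => lt_of_le_of_ne (PadicInt.norm_le_one z) h, fun h => h.ne⟩

lemma meas_un : MeasurableSet (un p) :=
  (isClosed_eq continuous_norm continuous_const).measurableSet

lemma integrable_of {f : ℤ_[p] → ℂ} (hf : Continuous f) (h1 : ∀ t, ‖f t‖ ≤ 1) :
    Integrable f (mu p) :=
  Integrable.of_bound hf.aestronglyMeasurable 1 (Filter.Eventually.of_forall h1)

/-- the integral over the multiples of `p` -/
lemma part_p {f : ℤ_[p] → ℂ} (hf : Continuous f) :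
    (p : ℂ) * ∫ t in (un p)ᶜ, f t ∂(mu p) = ∫ t, f ((p : ℤ_[p]) * t) ∂(mu p) := by
  have hm : Measurable (fun z : ℤ_[p] => (p : ℤ_[p]) * z) :=
    (continuous_const.mul continuous_id).measurable
  have hp0 : (p : ℂ) ≠ 0 := by exact_mod_cast (Fact.out : p.Prime).ne_zero
  rw [un_compl, restrict_p, integral_smul_measure, integral_map hm.aemeasurable
    hf.aestronglyMeasurable, ENNReal.toReal_inv, ENNReal.toReal_natCast, Complex.real_smul]
  push_cast
  rw [mul_inv_cancel_left₀ hp0]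

/-- the integral over the units vanishes -/
lemma part_un {a : ℤ_[p]} {N α ν E : ℕ} {a' N' : ℤ_[p]} (ha' : ‖a'‖ = 1) (hN' : ‖N'‖ = 1)
    (ha : a = a' * (p : ℤ_[p]) ^ α) (hN : (N : ℤ_[p]) = N' * (p : ℤ_[p]) ^ ν)
    (hE : 2 + α + 2 * ν ≤ E) {u : ℤ_[p]} (hu : ‖u‖ = 1) :
    ∫ t in un p, psi p E (u * (a * t ^ N)) ∂(mu p) = 0 := by
  obtain ⟨j, hj⟩ : ∃ j, j = E - 1 - α - ν := ⟨_, rfl⟩
  obtain ⟨F, hF⟩ : ∃ F : ℤ_[p] → ℂ, F = (un p).indicator (fun t => psi p E (u * (a * t ^ N))) :=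
    ⟨_, rfl⟩
  have hfc : Continuous fun t : ℤ_[p] => psi p E (u * (a * t ^ N)) :=
    (continuous_psi E).comp (continuous_const.mul (continuous_const.mul (continuous_pow N)))
  rw [← integral_indicator meas_un, ← hF]
  have hint : Integrable F (mu p) := by
    rw [hF]
    exact (integrable_of hfc fun t => (norm_psi _ _).le).indicator meas_un
  have hpn : ‖(p : ℤ_[p])‖ < 1 := by
    rw [PadicInt.norm_lt_one_iff_dvd]
  have hunit : ∀ (w : ℕ) (t : ℤ_[p]), (p : ℤ_[p]) ^ j * w + t ∈ un p ↔ t ∈ un p := by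
    intro w t
    have h1 : (p : ℤ_[p]) ∣ (p : ℤ_[p]) ^ j * w := by
      obtain ⟨i, hi⟩ : ∃ i, j = i + 1 := ⟨j - 1, by omega⟩
      rw [hi, pow_succ']
      exact ⟨(p : ℤ_[p]) ^ i * w, by ring⟩
    rw [← not_iff_not, ← Set.mem_compl_iff, ← Set.mem_compl_iff, un_compl, Set.mem_ofPred_eq,
      Set.mem_ofPred_eq]
    exact dvd_add_right h1
  -- the sum over the translates
  have hsum : ∀ t : ℤ_[p], ∑ w ∈ Finset.range p, F ((p : ℤ_[p]) ^ j * w + t) = 0 := by
    intro t
    by_cases ht : t ∈ un p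
    · obtain ⟨ζ, hζ⟩ : ∃ ζ : ℂ, ζ = psi p E (u * (a * (N * t ^ (N - 1))) * (p : ℤ_[p]) ^ j) :=
        ⟨_, rfl⟩
      have hterm : ∀ w ∈ Finset.range p, F ((p : ℤ_[p]) ^ j * w + t) =
          psi p E (u * (a * t ^ N)) * ζ ^ w := by
        intro w _
        rw [hF, Set.indicator_of_mem ((hunit w t).2 ht)]
        have h1 : psi p E (u * (a * (t ^ N + N * t ^ (N - 1) * ((p : ℤ_[p]) ^ j * w)))) =
            psi p E (u * (a * t ^ N)) * ζ ^ w := by
          have e1 : u * (a * (t ^ N + N * t ^ (N - 1) * ((p : ℤ_[p]) ^ j * w))) =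
              u * (a * t ^ N) + w * (u * (a * (N * t ^ (N - 1))) * (p : ℤ_[p]) ^ j) := by ring
          rw [e1, psi_add, hζ, psi_mul]
        rw [← h1]
        apply psi_congr
        obtain ⟨k, hk⟩ := Polynomial.binomExpansion (Polynomial.X ^ N : Polynomial ℤ_[p]) t
          ((p : ℤ_[p]) ^ j * w)
        rw [Polynomial.eval_pow, Polynomial.eval_X, Polynomial.derivative_X_pow,
          Polynomial.eval_mul, Polynomial.eval_pow, Polynomial.eval_X, Polynomial.eval_pow,
          Polynomial.eval_X, Polynomial.eval_C] at hk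
        have e2 : u * (a * ((p : ℤ_[p]) ^ j * w + t) ^ N) -
            u * (a * (t ^ N + N * t ^ (N - 1) * ((p : ℤ_[p]) ^ j * w))) =
            (p : ℤ_[p]) ^ (2 * j + α) * (u * a' * k * w ^ 2) := by
          rw [add_comm ((p : ℤ_[p]) ^ j * w) t, hk, ha, pow_add, pow_mul']
          ring
        rw [e2]
        exact (pow_dvd_pow _ (by omega)).mul_right _
      rw [Finset.sum_congr rfl hterm, ← Finset.mul_sum]
      have htn : ‖t‖ = 1 := ht
      have hval : u * (a * (N * t ^ (N - 1))) * (p : ℤ_[p]) ^ j =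
          (u * a' * N' * t ^ (N - 1)) * (p : ℤ_[p]) ^ (E - 1) := by
        have : E - 1 = α + ν + j := by omega
        rw [this, ha, hN, pow_add, pow_add]
        ring
      have hx : ‖u * a' * N' * t ^ (N - 1)‖ = 1 := by
        rw [norm_mul, norm_mul, norm_mul, norm_pow, hu, ha', hN', htn, one_pow]
        norm_num
      have hE1 : E = (E - 1) + 1 := by omega
      have hζ1 : ζ ≠ 1 := by
        rw [hζ, hval]
        intro h1
        rw [psi_one_iff] at h1
        obtain ⟨y, hy⟩ := h1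
        have hp0 : (p : ℤ_[p]) ^ (E - 1) ≠ 0 :=
          pow_ne_zero _ (by exact_mod_cast (Fact.out : p.Prime).ne_zero)
        have h2 : u * a' * N' * t ^ (N - 1) = (p : ℤ_[p]) * y := by
          apply mul_right_cancel₀ hp0
          rw [hy]
          nth_rewrite 1 [hE1]
          rw [pow_succ]
          ring
        have h3 : ‖u * a' * N' * t ^ (N - 1)‖ < 1 := by
          rw [PadicInt.norm_lt_one_iff_dvd, h2]
          exact dvd_mul_right _ _
        rw [hx] at h3
        exact lt_irrefl _ h3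
      have hζp : ζ ^ p = 1 := by
        rw [hζ, ← psi_mul, hval]
        apply psi_one
        refine ⟨u * a' * N' * t ^ (N - 1), ?_⟩
        nth_rewrite 2 [hE1]
        rw [pow_succ]
        ring
      have hgeom : ∑ w ∈ Finset.range p, ζ ^ w = 0 := by
        have h1 := geom_sum_mul ζ p
        rw [hζp, sub_self] at h1
        exact (mul_eq_zero.1 h1).resolve_right (sub_ne_zero.2 hζ1)
      rw [hgeom, mul_zero]
    · apply Finset.sum_eq_zero
      intro w _
      rw [hF]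
      exact Set.indicator_of_notMem (fun h => ht ((hunit w t).1 h)) _
  have hi : ∀ w ∈ Finset.range p, Integrable (fun t => F ((p : ℤ_[p]) ^ j * w + t)) (mu p) :=
    fun w _ => hint.comp_add_left _
  have htot : ∑ w ∈ Finset.range p, ∫ t, F ((p : ℤ_[p]) ^ j * w + t) ∂(mu p) = 0 := by
    rw [← integral_finsetSum _ hi]
    simp only [hsum, integral_zero]
  have hcon : ∀ w ∈ Finset.range p, ∫ t, F ((p : ℤ_[p]) ^ j * w + t) ∂(mu p) =
      ∫ t, F t ∂(mu p) := fun w _ => integral_add_left_eq_self F _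
  rw [Finset.sum_congr rfl hcon, Finset.sum_const, Finset.card_range, nsmul_eq_mul] at htot
  have hp0 : (p : ℂ) ≠ 0 := by exact_mod_cast (Fact.out : p.Prime).ne_zero
  exact (mul_eq_zero.1 htot).resolve_left hp0

/-- **B2C** -/
theorem t : StB2c := by
  intro p hp a ha N hN
  have hNz : (N : ℤ_[p]) ≠ 0 := by
    have : N ≠ 0 := by omega
    exact_mod_cast this
  obtain ⟨α, a', ha', hav⟩ : ∃ (α : ℕ) (a' : ℤ_[p]), ‖a'‖ = 1 ∧ a = a' * (p : ℤ_[p]) ^ α :=
    ⟨a.valuation, PadicInt.unitCoeff ha, PadicInt.norm_units _, PadicInt.unitCoeff_spec ha⟩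
  obtain ⟨ν, N', hN', hNv⟩ : ∃ (ν : ℕ) (N' : ℤ_[p]), ‖N'‖ = 1 ∧
      (N : ℤ_[p]) = N' * (p : ℤ_[p]) ^ ν :=
    ⟨(N : ℤ_[p]).valuation, PadicInt.unitCoeff hNz, PadicInt.norm_units _,
      PadicInt.unitCoeff_spec hNz⟩
  refine ⟨2 + α + 2 * ν, ?_⟩
  intro e u he hu
  have hfc : Continuous fun t : ℤ_[p] => psi p (e + N) (u * (a * t ^ N)) :=
    (continuous_psi (e + N)).comp
      (continuous_const.mul (continuous_const.mul (continuous_pow N)))
  have hint : Integrable (fun t : ℤ_[p] => psi p (e + N) (u * (a * t ^ N))) (mu p) :=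
    integrable_of hfc fun t => (norm_psi _ _).le
  have h1 : ∫ t in un p, psi p (e + N) (u * (a * t ^ N)) ∂(mu p) = 0 :=
    part_un ha' hN' hav hNv (by omega) hu
  have h3 := integral_add_compl meas_un hint
  rw [h1, zero_add] at h3
  have h4 := part_p hfc
  rw [h3] at h4
  have h5 : ∀ t : ℤ_[p], psi p (e + N) (u * (a * ((p : ℤ_[p]) * t) ^ N)) =
      psi p e (u * (a * t ^ N)) := by
    intro t
    rw [← psi_pow e N]
    congr 1
    ring
  simp only [h5] at h4
  exact h4

end Pool.Agent.N138.SU.B2C
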