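import Pool.Agent.N138.SU.Stm

set_option autoImplicit false
set_option linter.all false

/-! # Job B3: adding `∑ y_j ρ_j` -/

namespace Pool.Agent.N138.SU.B3

open MeasureTheory
open Pool.Agent.W427.SMC
open Pool.Agent.N138.SU

attribute [local instance] msZ bsZ

variable {p : ℕ} [Fact p.Prime]

theorem psi_add (e : ℕ) (x y : ℤ_[p]) : psi p e (x + y) = psi p e x * psi p e y := by
  haveI : NeZero (p ^ e) := ⟨pow_ne_zero e (Fact.out : p.Prime).ne_zero⟩
  unfold psi
  rw [map_add, AddChar.map_add_eq_mul]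

theorem psi_zero (e : ℕ) : psi p e 0 = 1 := by
  unfold psi
  rw [map_zero, AddChar.map_zero_eq_one]

theorem toZ_iff (e : ℕ) (x : ℤ_[p]) :
    PadicInt.toZModPow e x = 0 ↔ ‖x‖ ≤ ((p : ℝ)⁻¹) ^ e := by
  rw [← RingHom.mem_ker, PadicInt.ker_toZModPow, ← PadicInt.norm_le_pow_iff_mem_span_pow,
    zpow_neg, zpow_natCast, inv_pow]

theorem psi_iff (e : ℕ) (x : ℤ_[p]) : psi p e x = 1 ↔ ‖x‖ ≤ ((p : ℝ)⁻¹) ^ e := by
  haveI : NeZero (p ^ e) := ⟨pow_ne_zero e (Fact.out : p.Prime).ne_zero⟩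
  rw [← toZ_iff]
  unfold psi
  constructor
  · intro h
    apply ZMod.injective_stdAddChar
    rw [h, AddChar.map_zero_eq_one]
  · intro h
    rw [h, AddChar.map_zero_eq_one]

theorem psi_norm (e : ℕ) (x : ℤ_[p]) : ‖psi p e x‖ = 1 := by
  haveI : NeZero (p ^ e) := ⟨pow_ne_zero e (Fact.out : p.Prime).ne_zero⟩
  unfold psi
  exact AddChar.norm_apply _ _

theorem psi_cont (e : ℕ) : Continuous (psi p e) := by
  have h : IsLocallyConstant (psi p e) := by
    rw [IsLocallyConstant.iff_eventually_eq]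
    intro x
    have hp : (0 : ℝ) < ((p : ℝ)⁻¹) ^ e := by
      have : (0 : ℝ) < p := by exact_mod_cast (Fact.out : p.Prime).pos
      positivity
    filter_upwards [Metric.ball_mem_nhds x hp] with y hy
    rw [Metric.mem_ball, dist_eq_norm] at hy
    have h1 : psi p e (y - x) = 1 := (psi_iff e _).mpr hy.le
    have h2 : y = (y - x) + x := by ring
    rw [h2, psi_add, h1, one_mul]
  exact h.continuous

theorem psi_meas (e : ℕ) : Measurable (psi p e) := (psi_cont e).measurable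

theorem psi_sum {ι : Type} (s : Finset ι) (e : ℕ) (f : ι → ℤ_[p]) :
    psi p e (∑ j ∈ s, f j) = ∏ j ∈ s, psi p e (f j) := by
  classical
  induction s using Finset.induction_on with
  | empty => simp [psi_zero]
  | insert a s ha ih => rw [Finset.sum_insert ha, Finset.prod_insert ha, psi_add, ih]

open Classical in
/-- the integral of a character -/
theorem int_char (e : ℕ) (r : ℤ_[p]) :
    ∫ t, psi p e (t * r) ∂(mu p) = if ‖r‖ ≤ ((p : ℝ)⁻¹) ^ e then 1 else 0 := by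
  split_ifs with h
  · have h1 : ∀ t : ℤ_[p], psi p e (t * r) = 1 := by
      intro t
      rw [psi_iff, norm_mul]
      calc ‖t‖ * ‖r‖ ≤ 1 * ‖r‖ := mul_le_mul_of_nonneg_right (PadicInt.norm_le_one t) (norm_nonneg _)
        _ ≤ _ := by rw [one_mul]; exact h
    simp [h1]
  · have h1 : psi p e r ≠ 1 := fun h' => h ((psi_iff e r).mp h')
    have h2 : ∫ t, psi p e ((1 + t) * r) ∂(mu p) = ∫ t, psi p e (t * r) ∂(mu p) :=
      integral_add_left_eq_self (μ := mu p) (fun t => psi p e (t * r)) 1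
    have h3 : ∀ t : ℤ_[p], psi p e ((1 + t) * r) = psi p e r * psi p e (t * r) := by
      intro t
      rw [← psi_add]
      congr 1
      ring
    simp only [h3] at h2
    rw [integral_const_mul] at h2
    have h4 : (psi p e r - 1) * ∫ t, psi p e (t * r) ∂(mu p) = 0 := by
      linear_combination h2
    rcases mul_eq_zero.mp h4 with h5 | h5
    · exact absurd (sub_eq_zero.mp h5) h1
    · exact h5

instance : MeasurableMul₂ ℤ_[p] := ⟨(continuous_fst.mul continuous_snd).measurable⟩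

theorem integral_indicator_one_aux {Y' : Type} [MeasurableSpace Y'] {ν' : Measure Y'}
    [IsProbabilityMeasure ν'] {s : Set Y'} (hs : MeasurableSet s) :
    ∫ y, s.indicator (fun _ => (1 : ℂ)) y ∂ν' = ((ν' s).toReal : ℂ) := by
  rw [integral_indicator hs, setIntegral_const]
  simp [Measure.real]

open Classical in
/-- the exponential sum of `∑ y_j ρ_j` -/
theorem Es_rho {Y' ι : Type} [MeasurableSpace Y'] [Fintype ι] (ν' : Measure Y')
    [IsProbabilityMeasure ν'] (ρ : Y' → ι → ℤ_[p]) (hρ : Measurable ρ) (e : ℕ) (u : ℤ_[p])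
    (hu : ‖u‖ = 1) :
    ∫ w : (ι → ℤ_[p]) × Y', psi p e (u * ∑ j, w.1 j * ρ w.2 j)
      ∂((Measure.pi fun _ : ι => mu p).prod ν') =
      ((ν' {y | ∀ j, ‖ρ y j‖ ≤ ((p : ℝ)⁻¹) ^ e}).toReal : ℂ) := by
  have hρj : ∀ j, Measurable (fun y => ρ y j) := fun j => (measurable_pi_apply j).comp hρ
  have hm : Measurable (fun w : (ι → ℤ_[p]) × Y' => psi p e (u * ∑ j, w.1 j * ρ w.2 j)) := by
    refine (psi_meas e).comp (Measurable.const_mul (Finset.measurable_sum _ fun j _ => ?_) u)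
    exact ((measurable_pi_apply j).comp measurable_fst).mul ((hρj j).comp measurable_snd)
  have hint : Integrable (fun w : (ι → ℤ_[p]) × Y' => psi p e (u * ∑ j, w.1 j * ρ w.2 j))
      ((Measure.pi fun _ : ι => mu p).prod ν') := by
    refine Integrable.of_bound hm.aestronglyMeasurable 1 (Filter.Eventually.of_forall fun w => ?_)
    rw [psi_norm]
  rw [integral_prod_symm _ hint]
  have hset : MeasurableSet {y : Y' | ∀ j, ‖ρ y j‖ ≤ ((p : ℝ)⁻¹) ^ e} := by
    have : {y : Y' | ∀ j, ‖ρ y j‖ ≤ ((p : ℝ)⁻¹) ^ e} =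
        ⋂ j, {y : Y' | ‖ρ y j‖ ≤ ((p : ℝ)⁻¹) ^ e} := by
      ext y; simp
    rw [this]
    exact MeasurableSet.iInter fun j =>
      measurableSet_le (continuous_norm.measurable.comp (hρj j)) measurable_const
  have hin : ∀ y : Y', ∫ x : ι → ℤ_[p], psi p e (u * ∑ j, x j * ρ y j)
      ∂(Measure.pi fun _ : ι => mu p) =
      ({y : Y' | ∀ j, ‖ρ y j‖ ≤ ((p : ℝ)⁻¹) ^ e}.indicator (fun _ => (1 : ℂ))) y := by
    intro y
    have h1 : ∀ x : ι → ℤ_[p], psi p e (u * ∑ j, x j * ρ y j) =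
        ∏ j, (fun (j : ι) (t : ℤ_[p]) => psi p e (t * (u * ρ y j))) j (x j) := by
      intro x
      rw [Finset.mul_sum, psi_sum]
      refine Finset.prod_congr rfl fun j _ => ?_
      show _ = psi p e (x j * (u * ρ y j))
      congr 1
      ring
    simp only [h1]
    rw [integral_fintype_prod_eq_prod (𝕜 := ℂ) (μ := fun _ : ι => mu p)
      (fun (j : ι) (t : ℤ_[p]) => psi p e (t * (u * ρ y j)))]
    have h2 : ∀ j, ∫ t : ℤ_[p], psi p e (t * (u * ρ y j)) ∂(mu p) =
        if ‖ρ y j‖ ≤ ((p : ℝ)⁻¹) ^ e then 1 else 0 := by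
      intro j
      rw [int_char, norm_mul, hu, one_mul]
    rw [Finset.prod_congr rfl fun j _ => h2 j]
    by_cases h : ∀ j, ‖ρ y j‖ ≤ ((p : ℝ)⁻¹) ^ e
    · rw [Set.indicator_of_mem (show y ∈ {y : Y' | ∀ j, ‖ρ y j‖ ≤ ((p : ℝ)⁻¹) ^ e} from h)]
      exact Finset.prod_eq_one fun j _ => if_pos (h j)
    · rw [Set.indicator_of_notMem (show y ∉ {y : Y' | ∀ j, ‖ρ y j‖ ≤ ((p : ℝ)⁻¹) ^ e} from h)]
      push Not at h
      obtain ⟨j, hj⟩ := h
      exact Finset.prod_eq_zero (Finset.mem_univ j) (if_neg (not_le.mpr hj))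
  simp only [hin]
  rw [integral_indicator_one_aux hset]

theorem t : StB3 := by
  intro p _ Y Y' ι _ _ _ _ _ ν ν' _ _ φ ρ hφ hρ χ e
  have hEs : ∀ u : ℤ_[p], ‖u‖ = 1 →
      Es (ν.prod ((Measure.pi fun _ : ι => mu p).prod ν'))
        (fun y : Y × ((ι → ℤ_[p]) × Y') => φ y.1 + ∑ j, y.2.1 j * ρ y.2.2 j) e u =
      Es ν φ e u * ((ν' {y | ∀ j, ‖ρ y j‖ ≤ ((p : ℝ)⁻¹) ^ e}).toReal : ℂ) := by
    intro u hu
    rw [← Es_rho ν' ρ hρ e u hu]
    unfold Es
    rw [← integral_prod_mul]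
    refine integral_congr_ae (Filter.Eventually.of_forall fun y => ?_)
    show psi p e (u * (φ y.1 + ∑ j, y.2.1 j * ρ y.2.2 j)) =
      psi p e (u * φ y.1) * psi p e (u * ∑ j, y.2.1 j * ρ y.2.2 j)
    rw [← psi_add, mul_add]
  have hun : MeasurableSet (un p) := by
    have : un p = {u : ℤ_[p] | ‖u‖ = 1} := rfl
    rw [this]
    exact (isClosed_eq continuous_norm continuous_const).measurableSet
  unfold Eh
  rw [← integral_const_mul]
  refine setIntegral_congr_fun hun fun u hu => ?_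
  show (starRingEnd ℂ) (χ.X (u : ℚ_[p])) * Es _ _ e u = _
  rw [hEs u hu]
  ring

end Pool.Agent.N138.SU.B3
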