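import Pool.Agent.N138.SU.Stm3
import Pool.Agent.N138.SU.B2B
import Pool.Agent.N138.SU.B2C
import Pool.Agent.N138.SU.B3

set_option autoImplicit false

/-! # Job W1: the exponential sums of a weighted homogeneous polynomial with an isolated
singularity -/

namespace Pool.Agent.N138.SU.W1

open MeasureTheory
open Pool.Agent.W427.SMC
open Pool.Agent.N138.SU
open scoped ENNReal

attribute [local instance] msZ bsZ

variable {p : ℕ} [hp : Fact p.Prime]

/-! ### Taylor formula -/

theorem taylor {R τ : Type} [CommRing R] [Fintype τ] (G : MvPolynomial τ R) (y z : τ → R) (q : R)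
    (hz : ∀ i, q ∣ z i) :
    q ^ 2 ∣ MvPolynomial.eval (fun i => y i + z i) G - MvPolynomial.eval y G -
      ∑ i, z i * MvPolynomial.eval y (MvPolynomial.pderiv i G) := by
  classical
  induction G using MvPolynomial.induction_on with
  | C a => simp
  | add f g hf hg =>
    obtain ⟨a, ha⟩ := hf
    obtain ⟨b, hb⟩ := hg
    refine ⟨a + b, ?_⟩
    have e1 : ∀ i, z i * MvPolynomial.eval y (MvPolynomial.pderiv i (f + g)) =
        z i * MvPolynomial.eval y (MvPolynomial.pderiv i f) +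
        z i * MvPolynomial.eval y (MvPolynomial.pderiv i g) := by
      intro i
      rw [map_add, map_add, mul_add]
    rw [Finset.sum_congr rfl fun i _ => e1 i, Finset.sum_add_distrib, mul_add, ← ha, ← hb,
      map_add, map_add]
    ring
  | mul_X f i hf =>
    obtain ⟨a, ha⟩ := hf
    have hs : q ∣ ∑ j, z j * MvPolynomial.eval y (MvPolynomial.pderiv j f) :=
      Finset.dvd_sum fun j _ => (hz j).mul_right _
    obtain ⟨b, hb⟩ := hs
    obtain ⟨c, hc⟩ := hz i
    have e1 : ∀ j, z j * MvPolynomial.eval y (MvPolynomial.pderiv j (f * MvPolynomial.X i)) =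
        y i * (z j * MvPolynomial.eval y (MvPolynomial.pderiv j f)) +
        (if j = i then z j * MvPolynomial.eval y f else 0) := by
      intro j
      rw [MvPolynomial.pderiv_mul, map_add, map_mul, map_mul, MvPolynomial.eval_X]
      by_cases h : j = i
      · subst h
        rw [MvPolynomial.pderiv_X_self, map_one, if_pos rfl]
        ring
      · rw [MvPolynomial.pderiv_X_of_ne (Ne.symm h), map_zero, if_neg h]
        ring
    rw [Finset.sum_congr rfl fun j _ => e1 j, Finset.sum_add_distrib, ← Finset.mul_sum,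
      Finset.sum_ite_eq' Finset.univ i, if_pos (Finset.mem_univ i)]
    simp only [map_mul, MvPolynomial.eval_X]
    refine ⟨a * y i + a * (z i) + b * c, ?_⟩
    have h1 : MvPolynomial.eval (fun i => y i + z i) f = MvPolynomial.eval y f + q * b + q ^ 2 * a := by
      rw [← ha, ← hb]; ring
    rw [h1, hb, hc]
    ring

/-! ### Measures -/

theorem meas_dvd (w : ℕ) : MeasurableSet {z : ℤ_[p] | (p : ℤ_[p]) ^ w ∣ z} := by
  have : {z : ℤ_[p] | (p : ℤ_[p]) ^ w ∣ z} = {z : ℤ_[p] | ‖z‖ ≤ ((p : ℝ)⁻¹) ^ w} := by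
    ext z
    rw [Set.mem_ofPred_eq, Set.mem_ofPred_eq, ← B3.toZ_iff, B2C.zmod_zero]
  rw [this]
  exact (isClosed_le continuous_norm continuous_const).measurableSet

theorem meas_mul (a : ℤ_[p]) : Measurable (fun z : ℤ_[p] => a * z) :=
  (continuous_const.mul continuous_id).measurable

theorem map_pow (w : ℕ) : (mu p).map (fun z => (p : ℤ_[p]) ^ w * z) =
    ((p : ℝ≥0∞) ^ w) • (mu p).restrict {z : ℤ_[p] | (p : ℤ_[p]) ^ w ∣ z} := by
  have hp0 : (p : ℝ≥0∞) ≠ 0 := by exact_mod_cast (Fact.out : p.Prime).ne_zero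
  have hp1 : (p : ℝ≥0∞) ≠ ⊤ := ENNReal.natCast_ne_top p
  have h1 : (mu p).map (fun z => (p : ℤ_[p]) * z) =
      (p : ℝ≥0∞) • (mu p).restrict {z : ℤ_[p] | (p : ℤ_[p]) ∣ z} := by
    rw [B2C.restrict_p, smul_smul, ENNReal.mul_inv_cancel hp0 hp1, one_smul]
  induction w with
  | zero =>
    simp
  | succ w ih =>
    have e1 : (fun z : ℤ_[p] => (p : ℤ_[p]) ^ (w + 1) * z) =
        (fun z => (p : ℤ_[p]) * z) ∘ (fun z => (p : ℤ_[p]) ^ w * z) := by
      funext z
      show _ = (p : ℤ_[p]) * ((p : ℤ_[p]) ^ w * z)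
      ring
    have e2 : {z : ℤ_[p] | (p : ℤ_[p]) ^ w ∣ z} =
        (fun z => (p : ℤ_[p]) * z) ⁻¹' {z : ℤ_[p] | (p : ℤ_[p]) ^ (w + 1) ∣ z} := by
      ext z
      rw [Set.mem_preimage, Set.mem_ofPred_eq, Set.mem_ofPred_eq, pow_succ']
      exact (mul_dvd_mul_iff_left (by exact_mod_cast (Fact.out : p.Prime).ne_zero)).symm
    rw [e1, ← Measure.map_map (meas_mul _) (meas_mul _), ih, Measure.map_smul, e2,
      ← Measure.restrict_map (meas_mul _) (meas_dvd _), h1, Measure.restrict_smul,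
      Measure.restrict_restrict (meas_dvd _), smul_smul, pow_succ (p : ℝ≥0∞) w]
    congr 2
    ext z
    constructor
    · exact fun h => h.1
    · exact fun h => ⟨h, (dvd_pow_self _ (Nat.succ_ne_zero w)).trans h⟩

section pi

variable {τ : Type} [Fintype τ]

/-- the set `A` -/
def As (p : ℕ) [Fact p.Prime] (w : τ → ℕ) : Set (τ → ℤ_[p]) := {y | ∀ i, (p : ℤ_[p]) ^ w i ∣ y i}

omit [Fintype τ] in
theorem As_pi (w : τ → ℕ) : As p w = Set.pi Set.univ fun i => {z : ℤ_[p] | (p : ℤ_[p]) ^ w i ∣ z} := by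
  ext y
  simp [As]

theorem meas_As (w : τ → ℕ) : MeasurableSet (As p w) := by
  rw [As_pi]
  exact MeasurableSet.univ_pi fun i => meas_dvd _

theorem map_pi (w : τ → ℕ) :
    (Measure.pi fun _ : τ => mu p).map (fun y i => (p : ℤ_[p]) ^ w i * y i) =
    ((p : ℝ≥0∞) ^ (∑ i, w i)) • (Measure.pi fun _ : τ => mu p).restrict (As p w) := by
  have hp1 : (p : ℝ≥0∞) ≠ ⊤ := ENNReal.natCast_ne_top p
  have hF : Measurable (fun (y : τ → ℤ_[p]) i => (p : ℤ_[p]) ^ w i * y i) :=
    measurable_pi_lambda _ fun i => (meas_mul _).comp (measurable_pi_apply i)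
  have hfin : IsFiniteMeasure (((p : ℝ≥0∞) ^ (∑ i, w i)) •
      (Measure.pi fun _ : τ => mu p).restrict (As p w)) := by
    exact Measure.smul_finite _ (ENNReal.pow_ne_top hp1)
  rw [Measure.pi_map_pi (μ := fun _ : τ => mu p) (f := fun i z => (p : ℤ_[p]) ^ w i * z)
    (fun i => (meas_mul _).aemeasurable)]
  refine Measure.pi_eq fun s hs => ?_
  rw [Measure.smul_apply, Measure.restrict_apply (MeasurableSet.univ_pi hs), As_pi,
    ← Set.pi_inter_distrib, Measure.pi_pi, smul_eq_mul]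
  have : ∀ i, (mu p).map (fun z => (p : ℤ_[p]) ^ w i * z) (s i) =
      (p : ℝ≥0∞) ^ (w i) * mu p (s i ∩ {z : ℤ_[p] | (p : ℤ_[p]) ^ w i ∣ z}) := by
    intro i
    rw [map_pow, Measure.smul_apply, Measure.restrict_apply (hs i), smul_eq_mul]
  rw [Finset.prod_congr rfl fun i _ => this i, Finset.prod_mul_distrib, Finset.prod_pow_eq_pow_sum]

end pi

section main

variable {τ : Type} [Fintype τ]

omit [Fintype τ] in
theorem cont_eval (G : MvPolynomial τ ℤ_[p]) : Continuous fun y : τ → ℤ_[p] => MvPolynomial.eval y G :=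
  MvPolynomial.continuous_eval G

omit [Fintype τ] in
theorem eval_hom (G : MvPolynomial τ ℤ_[p]) (w : τ → ℕ) (D : ℕ) (hG : G.IsWeightedHomogeneous w D)
    (a : ℤ_[p]) (y : τ → ℤ_[p]) :
    MvPolynomial.eval (fun i => a ^ w i * y i) G = a ^ D * MvPolynomial.eval y G := by
  rw [MvPolynomial.eval_eq, MvPolynomial.eval_eq, Finset.mul_sum]
  refine Finset.sum_congr rfl fun d hd => ?_
  have h1 := hG (MvPolynomial.mem_support_iff.1 hd)
  rw [Finset.prod_congr rfl fun i _ => mul_pow (a ^ w i) (y i) (d i), Finset.prod_mul_distrib]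
  have h2 : ∏ i ∈ d.support, (a ^ w i) ^ d i = a ^ D := by
    rw [← h1, Finsupp.weight_apply, Finsupp.sum, ← Finset.prod_pow_eq_pow_sum]
    refine Finset.prod_congr rfl fun i _ => ?_
    rw [← pow_mul, smul_eq_mul, mul_comm]
  rw [h2]
  ring

theorem mp_pi (w : ℤ_[p]ˣ) (k : τ → ℕ) :
    MeasurePreserving (fun (y : τ → ℤ_[p]) i => ((w ^ k i : ℤ_[p]ˣ) : ℤ_[p]) * y i)
      (Measure.pi fun _ : τ => mu p) (Measure.pi fun _ : τ => mu p) :=
  measurePreserving_pi _ _ fun i => B2B.mp p (w ^ k i)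

/-- (1) local constancy -/
theorem loc (G : MvPolynomial τ ℤ_[p]) (w : τ → ℕ) (D : ℕ) (hD : 0 < D)
    (hG : G.IsWeightedHomogeneous w D) :
    ∃ C : ℕ, 1 ≤ C ∧ ∀ (e : ℕ) (u v : ℤ_[p]), ‖v - 1‖ ≤ ((p : ℝ)⁻¹) ^ C →
    Es (Measure.pi fun _ : τ => mu p) (fun y => MvPolynomial.eval y G) e (u * v) =
      Es (Measure.pi fun _ : τ => mu p) (fun y => MvPolynomial.eval y G) e u := by
  obtain ⟨C, hC, h⟩ := B2B.root p D hD
  refine ⟨C, hC, fun e u v hv => ?_⟩
  obtain ⟨a, ha⟩ := h v hv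
  have hf : Continuous fun y : τ → ℤ_[p] => psi p e (u * MvPolynomial.eval y G) :=
    (B2C.continuous_psi e).comp (continuous_const.mul (cont_eval G))
  have hm := mp_pi (p := p) a w
  unfold Es
  symm
  have h1 := integral_map (μ := Measure.pi fun _ : τ => mu p) hm.measurable.aemeasurable
    (f := fun y : τ → ℤ_[p] => psi p e (u * MvPolynomial.eval y G)) hf.aestronglyMeasurable
  rw [hm.map_eq] at h1
  rw [h1]
  refine integral_congr_ae (Filter.Eventually.of_forall fun y => ?_)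
  show psi p e (u * MvPolynomial.eval (fun i => ((a ^ w i : ℤ_[p]ˣ) : ℤ_[p]) * y i) G) =
    psi p e (u * v * MvPolynomial.eval y G)
  congr 1
  have h2 := eval_hom G w D hG (a : ℤ_[p]) y
  simp only [Units.val_pow_eq_pow_val]
  rw [h2, ha]
  ring

/-- the part over `A` -/
theorem part_A (G : MvPolynomial τ ℤ_[p]) (w : τ → ℕ) (D : ℕ)
    (hG : G.IsWeightedHomogeneous w D) (e : ℕ) (u : ℤ_[p]) :
    (p : ℂ) ^ (∑ i, w i) * ∫ y in As p w, psi p (e + D) (u * MvPolynomial.eval y G)
      ∂(Measure.pi fun _ : τ => mu p) =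
      Es (Measure.pi fun _ : τ => mu p) (fun y => MvPolynomial.eval y G) e u := by
  have hf : Continuous fun y : τ → ℤ_[p] => psi p (e + D) (u * MvPolynomial.eval y G) :=
    (B2C.continuous_psi _).comp (continuous_const.mul (cont_eval G))
  have hF : Measurable (fun (y : τ → ℤ_[p]) i => (p : ℤ_[p]) ^ w i * y i) :=
    measurable_pi_lambda _ fun i => (meas_mul _).comp (measurable_pi_apply i)
  have h1 := integral_map (μ := Measure.pi fun _ : τ => mu p) hF.aemeasurable
    (f := fun y : τ → ℤ_[p] => psi p (e + D) (u * MvPolynomial.eval y G)) hf.aestronglyMeasurable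
  rw [map_pi, integral_smul_measure, ENNReal.toReal_pow, ENNReal.toReal_natCast,
    Complex.real_smul] at h1
  push_cast at h1
  rw [h1]
  unfold Es
  refine integral_congr_ae (Filter.Eventually.of_forall fun y => ?_)
  show psi p (e + D) (u * MvPolynomial.eval (fun i => (p : ℤ_[p]) ^ w i * y i) G) =
    psi p e (u * MvPolynomial.eval y G)
  rw [eval_hom G w D hG, ← B2C.psi_pow e D]
  congr 1
  ring

/-- the gradient is bounded from below outside `A` -/
theorem grad (G : MvPolynomial τ ℤ_[p]) (w : τ → ℕ)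
    (hz : ∀ z : τ → ℚ_[p], (∀ i, MvPolynomial.eval₂ PadicInt.Coe.ringHom z
      (MvPolynomial.pderiv i G) = 0) → z = 0) :
    ∃ c : ℕ, ∀ y : τ → ℤ_[p], y ∉ As p w → ∃ i, ((p : ℝ)⁻¹) ^ c <
      ‖MvPolynomial.eval y (MvPolynomial.pderiv i G)‖ := by
  have hp1 : (1 : ℝ) < p := by exact_mod_cast (Fact.out : p.Prime).one_lt
  have hinv : (p : ℝ)⁻¹ < 1 := inv_lt_one_of_one_lt₀ hp1
  have hcl : IsCompact (As p w)ᶜ := by
    refine IsClosed.isCompact ?_
    rw [isClosed_compl_iff, As_pi]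
    refine isOpen_set_pi Set.finite_univ fun i _ => ?_
    have : {z : ℤ_[p] | (p : ℤ_[p]) ^ w i ∣ z} =
        {z : ℤ_[p] | ‖z‖ < ((p : ℝ)⁻¹) ^ w i * p} := by
      ext z
      rw [Set.mem_ofPred_eq, Set.mem_ofPred_eq, ← B2C.zmod_zero, B3.toZ_iff]
      constructor
      · intro h
        have hpos : (0 : ℝ) < ((p : ℝ)⁻¹) ^ w i := by positivity
        nlinarith
      · intro h
        have h2 := (PadicInt.norm_le_pow_iff_norm_lt_pow_add_one z (-(w i : ℤ))).2
        rw [zpow_neg, zpow_natCast, ← inv_pow, zpow_add₀ (by positivity), zpow_one, zpow_neg,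
          zpow_natCast, ← inv_pow] at h2
        exact h2 h
    rw [this]
    exact isOpen_lt continuous_norm continuous_const
  rcases (As p w)ᶜ.eq_empty_or_nonempty with h0 | h0
  · refine ⟨0, fun y hy => ?_⟩
    have : y ∈ (As p w)ᶜ := hy
    rw [h0] at this
    exact absurd this (Set.notMem_empty y)
  · have hc : Continuous fun y : τ → ℤ_[p] =>
        ∑ i, ‖MvPolynomial.eval y (MvPolynomial.pderiv i G)‖ :=
      continuous_finsetSum _ fun i _ => (cont_eval _).norm
    obtain ⟨y0, hy0, hmin⟩ := hcl.exists_isMinOn h0 hc.continuousOn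
    have hpos : 0 < ∑ i, ‖MvPolynomial.eval y0 (MvPolynomial.pderiv i G)‖ := by
      by_contra hle
      have h1 : ∑ i, ‖MvPolynomial.eval y0 (MvPolynomial.pderiv i G)‖ = 0 :=
        le_antisymm (not_lt.1 hle) (Finset.sum_nonneg fun i _ => norm_nonneg _)
      rw [Finset.sum_eq_zero_iff_of_nonneg fun i _ => norm_nonneg _] at h1
      have h2 := hz (fun i => ((y0 i : ℤ_[p]) : ℚ_[p])) fun i => ?_
      · apply hy0
        intro i
        have h3 : ((y0 i : ℤ_[p]) : ℚ_[p]) = 0 := congrFun h2 i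
        have h4 : y0 i = 0 := Subtype.ext h3
        rw [h4]
        exact dvd_zero _
      · have h3 := norm_eq_zero.1 (h1 i (Finset.mem_univ i))
        have h4 : MvPolynomial.eval₂ PadicInt.Coe.ringHom (fun i => ((y0 i : ℤ_[p]) : ℚ_[p]))
            (MvPolynomial.pderiv i G) =
            PadicInt.Coe.ringHom (MvPolynomial.eval y0 (MvPolynomial.pderiv i G)) := by
          rw [MvPolynomial.eval, MvPolynomial.coe_eval₂Hom, MvPolynomial.hom_eval₂]
          rfl
        rw [h4, h3, map_zero]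
    obtain ⟨m, hm⟩ : ∃ m : ℕ, m = Fintype.card τ := ⟨_, rfl⟩
    obtain ⟨c, hc2⟩ := exists_pow_lt_of_lt_one
      (show 0 < (∑ i, ‖MvPolynomial.eval y0 (MvPolynomial.pderiv i G)‖) / (m + 1) by positivity) hinv
    refine ⟨c, fun y hy => ?_⟩
    by_contra hno
    push Not at hno
    have h1 : ∑ i, ‖MvPolynomial.eval y0 (MvPolynomial.pderiv i G)‖ ≤
        ∑ i, ‖MvPolynomial.eval y (MvPolynomial.pderiv i G)‖ := hmin hy
    have h2 : ∑ i, ‖MvPolynomial.eval y (MvPolynomial.pderiv i G)‖ ≤ m * ((p : ℝ)⁻¹) ^ c := by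
      refine (Finset.sum_le_sum fun i _ => hno i).trans ?_
      rw [Finset.sum_const, Finset.card_univ, nsmul_eq_mul, hm]
    rw [lt_div_iff₀ (by positivity)] at hc2
    have h3 : (0 : ℝ) < ((p : ℝ)⁻¹) ^ c := by positivity
    nlinarith

/-- the part outside `A` vanishes -/
theorem part_U (G : MvPolynomial τ ℤ_[p]) (w : τ → ℕ) (c E k : ℕ)
    (hc : ∀ y : τ → ℤ_[p], y ∉ As p w → ∃ i, ((p : ℝ)⁻¹) ^ c <
      ‖MvPolynomial.eval y (MvPolynomial.pderiv i G)‖)
    (hk : E ≤ 2 * k) (hkc : k + c ≤ E) (hw : ∀ i, w i ≤ k) (u : ℤ_[p]) (hu : ‖u‖ = 1) :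
    ∫ y in (As p w)ᶜ, psi p E (u * MvPolynomial.eval y G) ∂(Measure.pi fun _ : τ => mu p) = 0 := by
  classical
  have hf : Continuous fun y : τ → ℤ_[p] => psi p E (u * MvPolynomial.eval y G) :=
    (B2C.continuous_psi _).comp (continuous_const.mul (cont_eval G))
  have hAm : MeasurableSet (As p w)ᶜ := (meas_As w).compl
  rw [← integral_indicator hAm]
  obtain ⟨F, hF⟩ : ∃ F : (τ → ℤ_[p]) → ℂ,
      F = (As p w)ᶜ.indicator (fun y => psi p E (u * MvPolynomial.eval y G)) := ⟨_, rfl⟩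
  rw [← hF]
  have hFm : Measurable F := by
    rw [hF]
    exact hf.measurable.indicator hAm
  have hFb : ∀ y, ‖F y‖ ≤ 1 := by
    intro y
    rw [hF]
    by_cases hy : y ∈ (As p w)ᶜ
    · rw [Set.indicator_of_mem hy, B2C.norm_psi]
    · rw [Set.indicator_of_notMem hy]
      simp
  -- the average over the translates
  have hadd : Measurable fun r : (τ → ℤ_[p]) × (τ → ℤ_[p]) =>
      (fun i => (p : ℤ_[p]) ^ k * r.1 i + r.2 i : τ → ℤ_[p]) := by
    refine measurable_pi_lambda _ fun i => ?_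
    have h1 : Measurable fun r : (τ → ℤ_[p]) × (τ → ℤ_[p]) => (p : ℤ_[p]) ^ k * r.1 i :=
      (meas_mul _).comp ((measurable_pi_apply i).comp measurable_fst)
    have h2 : Measurable fun r : (τ → ℤ_[p]) × (τ → ℤ_[p]) => r.2 i :=
      (measurable_pi_apply i).comp measurable_snd
    exact h1.add h2
  have hint : Integrable (fun r : (τ → ℤ_[p]) × (τ → ℤ_[p]) =>
      F (fun i => (p : ℤ_[p]) ^ k * r.1 i + r.2 i))
      ((Measure.pi fun _ : τ => mu p).prod (Measure.pi fun _ : τ => mu p)) :=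
    Integrable.of_bound (hFm.comp hadd).aestronglyMeasurable 1
      (Filter.Eventually.of_forall fun r => hFb _)
  have h1 : ∫ s : τ → ℤ_[p], ∫ y : τ → ℤ_[p], F (fun i => (p : ℤ_[p]) ^ k * s i + y i)
      ∂(Measure.pi fun _ : τ => mu p) ∂(Measure.pi fun _ : τ => mu p) =
      ∫ y, F y ∂(Measure.pi fun _ : τ => mu p) := by
    have h2 : ∀ s : τ → ℤ_[p], ∫ y : τ → ℤ_[p], F (fun i => (p : ℤ_[p]) ^ k * s i + y i)
        ∂(Measure.pi fun _ : τ => mu p) = ∫ y, F y ∂(Measure.pi fun _ : τ => mu p) := by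
      intro s
      exact integral_add_left_eq_self (μ := Measure.pi fun _ : τ => mu p) F
        (fun i => (p : ℤ_[p]) ^ k * s i)
    simp only [h2]
    simp
  rw [← h1, integral_integral_swap hint]
  have h3 : ∀ y : τ → ℤ_[p], ∫ s : τ → ℤ_[p], F (fun i => (p : ℤ_[p]) ^ k * s i + y i)
      ∂(Measure.pi fun _ : τ => mu p) = 0 := by
    intro y
    have hinv : ∀ s : τ → ℤ_[p], (fun i => (p : ℤ_[p]) ^ k * s i + y i) ∈ As p w ↔ y ∈ As p w := by
      intro s
      refine forall_congr' fun i => ?_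
      exact dvd_add_right ((pow_dvd_pow _ (hw i)).mul_right _)
    by_cases hy : y ∈ As p w
    · have : ∀ s : τ → ℤ_[p], F (fun i => (p : ℤ_[p]) ^ k * s i + y i) = 0 := by
        intro s
        rw [hF]
        exact Set.indicator_of_notMem (show (fun i => (p : ℤ_[p]) ^ k * s i + y i) ∉ (As p w)ᶜ from
          fun h => h ((hinv s).2 hy)) _
      simp only [this]
      simp
    · have h4 : ∀ s : τ → ℤ_[p], F (fun i => (p : ℤ_[p]) ^ k * s i + y i) =
          psi p E (u * MvPolynomial.eval y G) * ∏ i, (fun (i : τ) (t : ℤ_[p]) =>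
            psi p E (t * ((p : ℤ_[p]) ^ k * (u * MvPolynomial.eval y
              (MvPolynomial.pderiv i G))))) i (s i) := by
        intro s
        rw [hF, Set.indicator_of_mem (show (fun i => (p : ℤ_[p]) ^ k * s i + y i) ∈ (As p w)ᶜ from
          fun h => hy ((hinv s).1 h)), ← B3.psi_sum, ← B2C.psi_add]
        apply B2C.psi_congr
        obtain ⟨a, ha⟩ := taylor G y (fun i => (p : ℤ_[p]) ^ k * s i) ((p : ℤ_[p]) ^ k)
          (fun i => dvd_mul_right _ _)
        have e1 : (fun i => y i + (p : ℤ_[p]) ^ k * s i) =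
            (fun i => (p : ℤ_[p]) ^ k * s i + y i) := by
          funext i
          ring
        rw [e1] at ha
        have e2 : u * MvPolynomial.eval (fun i => (p : ℤ_[p]) ^ k * s i + y i) G -
            (u * MvPolynomial.eval y G + ∑ i, s i * ((p : ℤ_[p]) ^ k *
              (u * MvPolynomial.eval y (MvPolynomial.pderiv i G)))) =
            u * (MvPolynomial.eval (fun i => (p : ℤ_[p]) ^ k * s i + y i) G -
              MvPolynomial.eval y G -
              ∑ i, (p : ℤ_[p]) ^ k * s i * MvPolynomial.eval y (MvPolynomial.pderiv i G)) := by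
          rw [mul_sub, mul_sub, Finset.mul_sum, sub_add_eq_sub_sub]
          congr 1
          refine Finset.sum_congr rfl fun i _ => ?_
          ring
        rw [e2, ha, ← pow_mul]
        exact ((pow_dvd_pow _ (by omega)).mul_right _).mul_left _
      simp only [h4]
      rw [integral_const_mul, integral_fintype_prod_eq_prod (𝕜 := ℂ) (μ := fun _ : τ => mu p)
        (fun (i : τ) (t : ℤ_[p]) => psi p E (t * ((p : ℤ_[p]) ^ k * (u * MvPolynomial.eval y
              (MvPolynomial.pderiv i G)))))]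
      obtain ⟨i, hi⟩ := hc y hy
      rw [Finset.prod_eq_zero (Finset.mem_univ i), mul_zero]
      rw [B3.int_char, if_neg]
      rw [not_le, norm_mul, norm_mul, hu, one_mul, norm_pow, PadicInt.norm_p]
      have hp1 : (1 : ℝ) < p := by exact_mod_cast (Fact.out : p.Prime).one_lt
      have hinv' : (p : ℝ)⁻¹ < 1 := inv_lt_one_of_one_lt₀ hp1
      calc ((p : ℝ)⁻¹) ^ E ≤ ((p : ℝ)⁻¹) ^ (k + c) :=
            pow_le_pow_of_le_one (by positivity) hinv'.le hkc
        _ = ((p : ℝ)⁻¹) ^ k * ((p : ℝ)⁻¹) ^ c := pow_add _ _ _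
        _ < _ := mul_lt_mul_of_pos_left hi (by positivity)
  simp only [h3]
  simp

theorem main (G : MvPolynomial τ ℤ_[p]) (w : τ → ℕ) (D : ℕ) (hG : G.IsWeightedHomogeneous w D)
    (hz : ∀ z : τ → ℚ_[p], (∀ i, MvPolynomial.eval₂ PadicInt.Coe.ringHom z
      (MvPolynomial.pderiv i G) = 0) → z = 0) :
    ∃ e0 : ℕ, ∀ (e : ℕ) (u : ℤ_[p]), e0 ≤ e → ‖u‖ = 1 →
    (p : ℂ) ^ (∑ i, w i) * Es (Measure.pi fun _ : τ => mu p) (fun y => MvPolynomial.eval y G)
      (e + D) u = Es (Measure.pi fun _ : τ => mu p) (fun y => MvPolynomial.eval y G) e u := by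
  obtain ⟨c, hc⟩ := grad G w hz
  refine ⟨2 * (c + ∑ i, w i) + 2, fun e u he hu => ?_⟩
  have hf : Continuous fun y : τ → ℤ_[p] => psi p (e + D) (u * MvPolynomial.eval y G) :=
    (B2C.continuous_psi _).comp (continuous_const.mul (cont_eval G))
  have hint : Integrable (fun y : τ → ℤ_[p] => psi p (e + D) (u * MvPolynomial.eval y G))
      (Measure.pi fun _ : τ => mu p) :=
    Integrable.of_bound hf.aestronglyMeasurable 1
      (Filter.Eventually.of_forall fun y => (B2C.norm_psi _ _).le)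
  have hU := part_U G w c (e + D) ((e + D + 1) / 2) hc (by omega) (by omega)
    (fun i => by
      have := Finset.single_le_sum (f := w) (fun i _ => Nat.zero_le _) (Finset.mem_univ i)
      omega) u hu
  have h3 := integral_add_compl (meas_As w) hint
  rw [hU, add_zero] at h3
  rw [← part_A G w D hG e u, h3]
  rfl

end main

theorem t : StW1 := by
  intro p _ τ _ G w D _ hD hG hz
  exact ⟨loc G w D hD hG, main G w D hG hz⟩

end Pool.Agent.N138.SU.W1
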