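import Pool.Agent.N138.SU.Stm3
import Pool.Agent.N138.SU.B2
import Pool.Agent.N138.SU.B2A

set_option autoImplicit false
set_option linter.unusedSectionVars false

/-! # Adding a function whose exponential sums satisfy a recursion

Written by helper803; the proof is the one of `B2.lean`.
-/

namespace Pool.Agent.N138.SU.W2

open MeasureTheory Polynomial
open Pool.Agent.W427.SMC
open Pool.Agent.N138.SU
open Pool.Agent.N138.SU.B2 (psi_add Es_cont X_cont un_compact un_meas qt qt_apply)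
open Pool.Agent.Y230.PS (EP ser rat_EP had coeff_ser)

attribute [local instance] msZ bsZ

variable {p : ℕ} [Fact p.Prime]

theorem Es_prod {Y Y' : Type} [MeasurableSpace Y] [MeasurableSpace Y'] (ν : Measure Y)
    (ν' : Measure Y') [IsProbabilityMeasure ν] [IsProbabilityMeasure ν']
    (φ : Y → ℤ_[p]) (ρ : Y' → ℤ_[p]) (e : ℕ) (u : ℤ_[p]) :
    Es (ν.prod ν') (fun y : Y × Y' => φ y.1 + ρ y.2) e u =
      Es ν φ e u * Es ν' ρ e u := by
  unfold Es
  rw [← integral_prod_mul]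
  congr 1
  funext y
  rw [mul_add, psi_add]

/-- the sequence of the components of `ρ` -/
theorem d_EP {Y' : Type} [MeasurableSpace Y'] (ν' : Measure Y') (ρ : Y' → ℤ_[p])
    (D W e0 : ℕ) (hD1 : 1 ≤ D)
    (he0 : ∀ (e : ℕ) (u : ℤ_[p]), e0 ≤ e → ‖u‖ = 1 →
      (p : ℂ) ^ W * Es ν' ρ (e + D) u = Es ν' ρ e u) (χ : UC p) :
    (fun e : ℕ => Eh ν' ρ χ e) ∈
      EP (fun T => if T ^ D = (p : ℂ) ^ W then 1 else 0) := by
  classical
  obtain ⟨d, hd⟩ : ∃ d : ℕ → ℂ, d = fun e : ℕ => Eh ν' ρ χ e := ⟨_, rfl⟩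
  rw [← hd]
  have hpC : (p : ℂ) ≠ 0 := by exact_mod_cast (Fact.out : p.Prime).ne_zero
  have hrec : ∀ e, e0 ≤ e → (p : ℂ) ^ W * d (e + D) = d e := by
    intro e he
    rw [hd]
    unfold Eh
    rw [← integral_const_mul]
    refine setIntegral_congr_fun un_meas fun u hu => ?_
    rw [← he0 e u he hu]
    ring
  have hdeg : ((C ((p : ℂ) ^ W) - X ^ D : ℂ[X])).natDegree = D := by
    have h1 : (C ((p : ℂ) ^ W) - X ^ D : ℂ[X]) = -(X ^ D - C ((p : ℂ) ^ W)) := by ring
    rw [h1, natDegree_neg, natDegree_X_pow_sub_C]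
  have hD : (C ((p : ℂ) ^ W) - X ^ D : ℂ[X]) ≠ 0 := by
    intro h
    rw [h, natDegree_zero] at hdeg
    omega
  refine rat_EP _ (C ((p : ℂ) ^ W) - X ^ D) hD d (PowerSeries.trunc (e0 + D)
    (((C ((p : ℂ) ^ W) - X ^ D : ℂ[X]) : PowerSeries ℂ) * ser d)) ?_ ?_
  · ext n
    rw [Polynomial.coeff_coe, PowerSeries.coeff_trunc]
    split_ifs with h
    · rfl
    · obtain ⟨k, rfl⟩ : ∃ k, n = k + D := ⟨n - D, by omega⟩
      rw [Polynomial.coe_sub, Polynomial.coe_C, Polynomial.coe_pow, Polynomial.coe_X, sub_mul,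
        map_sub, PowerSeries.coeff_C_mul, PowerSeries.coeff_X_pow_mul, coeff_ser, coeff_ser,
        hrec k (by omega), sub_self]
  · intro T hT
    have heval : eval T (C ((p : ℂ) ^ W) - X ^ D : ℂ[X]) = (p : ℂ) ^ W - T ^ D := by simp
    by_cases h : T ^ D = (p : ℂ) ^ W
    · rw [if_pos h]
      have h1 : (C ((p : ℂ) ^ W) - X ^ D : ℂ[X]).rootMultiplicity T ≤ 1 := by
        by_contra hlt
        push Not at hlt
        have h2 := (one_lt_rootMultiplicity_iff_isRoot hD).1 hlt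
        have h3 := h2.2
        rw [IsRoot] at h3
        simp only [derivative_sub, derivative_C, derivative_X_pow, zero_sub, eval_neg, eval_mul,
          eval_C, eval_pow, eval_X, neg_eq_zero, mul_eq_zero, Nat.cast_eq_zero] at h3
        rcases h3 with h3 | h3
        · omega
        · exact pow_ne_zero _ hT h3
      exact_mod_cast h1
    · rw [if_neg h]
      have h1 : (C ((p : ℂ) ^ W) - X ^ D : ℂ[X]).rootMultiplicity T = 0 := by
        apply rootMultiplicity_eq_zero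
        rw [IsRoot, heval]
        intro h0
        exact h (sub_eq_zero.1 h0).symm
      rw [h1]
      simp

theorem t : StW2 := by
  intro p _ Y Y' _ _ ν ν' _ _ φ ρ hφ hρ C D W e0 hC1 hD1 hC he0 m m' hm hE χ
  obtain ⟨S, hS⟩ := Pool.Agent.N138.SU.B2A.t p C hC1
  have hp1 : (p : ℂ) - 1 ≠ 0 := by
    have h2 : (1 : ℝ) < p := by exact_mod_cast (Fact.out : p.Prime).one_lt
    intro h
    have h3 : ((p : ℝ) : ℂ) = ((1 : ℝ) : ℂ) := by
      push_cast
      exact sub_eq_zero.1 h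
    rw [Complex.ofReal_inj] at h3
    linarith
  have key : ∀ e : ℕ, ((p : ℂ) - 1) *
      Eh (ν.prod ν') (fun y : Y × Y' => φ y.1 + ρ y.2) χ e =
      (p : ℂ) * ∑ χ' ∈ S, Eh ν φ (qt χ χ') e * Eh ν' ρ χ' e := by
    intro e
    have h1 : ∀ u : ℤ_[p], ‖u‖ = 1 → ((p : ℂ) - 1) *
        Es ν' ρ e u = (p : ℂ) * ∑ χ' ∈ S, χ'.X (u : ℚ_[p]) * Eh ν' ρ χ' e :=
      hS (fun u => Es ν' ρ e u) fun u v _ hv => hC e u v hv
    have h2 : ((p : ℂ) - 1) *
        Eh (ν.prod ν') (fun y : Y × Y' => φ y.1 + ρ y.2) χ e =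
        ∫ u in un p, ∑ χ' ∈ S, (p : ℂ) * Eh ν' ρ χ' e *
          ((starRingEnd ℂ) ((qt χ χ').X (u : ℚ_[p])) * Es ν φ e u) ∂(mu p) := by
      unfold Eh
      rw [← integral_const_mul]
      refine setIntegral_congr_fun un_meas fun u hu => ?_
      rw [Es_prod ν ν' φ ρ e u]
      calc ((p : ℂ) - 1) * ((starRingEnd ℂ) (χ.X (u : ℚ_[p])) *
            (Es ν φ e u * Es ν' ρ e u)) =
            (starRingEnd ℂ) (χ.X (u : ℚ_[p])) * Es ν φ e u *
              (((p : ℂ) - 1) * Es ν' ρ e u) := by ring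
        _ = (starRingEnd ℂ) (χ.X (u : ℚ_[p])) * Es ν φ e u *
              ((p : ℂ) * ∑ χ' ∈ S, χ'.X (u : ℚ_[p]) * Eh ν' ρ χ' e) := by rw [h1 u hu]
        _ = _ := by
            rw [Finset.mul_sum, Finset.mul_sum]
            refine Finset.sum_congr rfl fun χ' _ => ?_
            rw [qt_apply, map_mul, Complex.conj_conj]
            unfold Eh
            ring
    rw [h2, integral_finsetSum, Finset.mul_sum]
    · refine Finset.sum_congr rfl fun χ' _ => ?_
      rw [integral_const_mul]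
      unfold Eh
      ring
    · intro χ' _
      refine Integrable.const_mul ?_ _
      refine ContinuousOn.integrableOn_compact un_compact ?_
      exact (Complex.continuous_conj.comp_continuousOn (X_cont (qt χ χ'))).mul
        (Es_cont ν φ e).continuousOn
  have hseq : (fun e : ℕ => Eh (ν.prod ν') (fun y : Y × Y' => φ y.1 + ρ y.2) χ e) =
      ((p : ℂ) / ((p : ℂ) - 1)) • ∑ χ' ∈ S, (fun e : ℕ => Eh ν φ (qt χ χ') e) *
        (fun e : ℕ => Eh ν' ρ χ' e) := by
    funext e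
    rw [Pi.smul_apply, Finset.sum_apply, smul_eq_mul, div_mul_eq_mul_div, eq_div_iff hp1, mul_comm,
      key e]
    rfl
  rw [hseq]
  refine Submodule.smul_mem _ _ (Submodule.sum_mem _ fun χ' _ => ?_)
  refine had m (fun T => if T ^ D = (p : ℂ) ^ W then 1 else 0) m' ?_ _ _ (hE (qt χ χ'))
    (d_EP ν' ρ D W e0 hD1 he0 χ')
  intro T1 T2 hT1 hT2 a' b' ha' hb' ham hbm
  by_cases h : T2 ^ D = (p : ℂ) ^ W
  · rw [if_pos h] at hbm
    have hb1 : b' = 1 := by
      have : b' ≤ 1 := by exact_mod_cast hbm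
      omega
    subst hb1
    rw [Nat.add_sub_cancel]
    exact ham.trans (hm T1 T2 hT1 h)
  · rw [if_neg h] at hbm
    have : b' ≤ 0 := by exact_mod_cast hbm
    omega

end Pool.Agent.N138.SU.W2
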