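import Pool.Agent.N138.SU.Stm3
import Mathlib.LinearAlgebra.ExteriorAlgebra.Basis
import Mathlib.RingTheory.Nullstellensatz

/-!
# Job W4a: exactness of the Koszul complex in degree 1

The Koszul complex is the exterior algebra with the contraction by the functional
`c ↦ ∑ c_i f_i` (written by helper521).
-/

set_option autoImplicit false

namespace Pool.Agent.N138.SU.W4a

open Module

/-! ### Koszul complexes -/

section general

variable {R : Type*} [CommRing R] {M : Type*} [AddCommGroup M] [Module R M]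

/-- the differential -/
noncomputable def dd (D : Module.Dual R M) : ExteriorAlgebra R M →ₗ[R] ExteriorAlgebra R M :=
  CliffordAlgebra.contractLeft (Q := (0 : QuadraticForm R M)) D

theorem dd_mul (D : Module.Dual R M) (a : M) (x : ExteriorAlgebra R M) :
    dd D (ExteriorAlgebra.ι R a * x) = D a • x - ExteriorAlgebra.ι R a * dd D x :=
  CliffordAlgebra.contractLeft_ι_mul D a x

theorem dd_dd (D : Module.Dual R M) (x : ExteriorAlgebra R M) : dd D (dd D x) = 0 :=
  CliffordAlgebra.contractLeft_contractLeft D x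

theorem dd_map (D : Module.Dual R M) (r : R) :
    dd D (algebraMap R (ExteriorAlgebra R M) r) = 0 :=
  CliffordAlgebra.contractLeft_algebraMap (0 : QuadraticForm R M) D r

theorem dd_ι (D : Module.Dual R M) (a : M) :
    dd D (ExteriorAlgebra.ι R a) = algebraMap R (ExteriorAlgebra R M) (D a) :=
  CliffordAlgebra.contractLeft_ι (0 : QuadraticForm R M) D a

/-- membership in `I E` by coordinates -/
theorem mem_top_iff {N : Type*} [AddCommGroup N] [Module R N] {ι' : Type*} (B : Basis ι' R N)
    (I : Ideal R) (x : N) : x ∈ (I • ⊤ : Submodule R N) ↔ ∀ s, B.repr x s ∈ I := by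
  constructor
  · intro h s
    have h1 : B.coord s x ∈ (I • (⊤ : Submodule R N)).map (B.coord s) :=
      Submodule.mem_map_of_mem h
    rw [Submodule.map_smul''] at h1
    have h2 : (I • (⊤ : Submodule R N).map (B.coord s)) ≤ I := by
      rw [Submodule.smul_le]
      intro r hr y _
      rw [smul_eq_mul]
      exact I.mul_mem_right y hr
    exact h2 h1
  · intro h
    rw [← B.linearCombination_repr x, Finsupp.linearCombination_apply, Finsupp.sum]
    exact Submodule.sum_mem _ fun s _ => Submodule.smul_mem_smul (h s) trivial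

theorem map_top {N N' : Type*} [AddCommGroup N] [Module R N] [AddCommGroup N'] [Module R N']
    (T : N →ₗ[R] N') {I : Ideal R} {x : N} (h : x ∈ (I • ⊤ : Submodule R N)) :
    T x ∈ (I • ⊤ : Submodule R N') := by
  have h1 : T x ∈ (I • (⊤ : Submodule R N)).map T := Submodule.mem_map_of_mem h
  rw [Submodule.map_smul''] at h1
  exact (smul_mono_right I le_top : I • (⊤ : Submodule R N).map T ≤ I • ⊤) h1

theorem main {ι' : Type*} (B : Basis ι' R (ExteriorAlgebra R M)) (D : Module.Dual R M) (n : ℕ)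
    (a : ℕ → R) (c : ℕ → M) (hc : ∀ j < n, D (c j) = a j) (I : ℕ → Ideal R)
    (hI : ∀ j < n, I (j + 1) = I j ⊔ Ideal.span {a j})
    (hreg : ∀ j < n, ∀ x, a j * x ∈ I j → x ∈ I j)
    (hzero : ∀ m, n < m → ∀ k ∈ ⋀[R]^m M, k = 0) :
    ∀ t j : ℕ, j + t = n → ∀ m, j + 1 ≤ m → ∀ k ∈ ⋀[R]^m M,
      dd D k ∈ (I j • ⊤ : Submodule R (ExteriorAlgebra R M)) →
      ∃ q, k - dd D q ∈ (I j • ⊤ : Submodule R (ExteriorAlgebra R M)) := by
  intro t
  induction t with
  | zero =>
    intro j hj m hm k hk _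
    refine ⟨0, ?_⟩
    rw [hzero m (by omega) k hk]
    simp
  | succ t ih =>
    intro j hj m hm k hk hdk
    have hjn : j < n := by omega
    have hle : I j ≤ I (j + 1) := by rw [hI j hjn]; exact le_sup_left
    have ha : a j ∈ I (j + 1) := by
      rw [hI j hjn]
      exact Ideal.mem_sup_right (Ideal.mem_span_singleton_self _)
    have hk1 : ExteriorAlgebra.ι R (c j) * k ∈ ⋀[R]^(m + 1) M := by
      unfold ExteriorAlgebra.exteriorPower at hk ⊢
      rw [pow_succ']
      exact Submodule.mul_mem_mul (LinearMap.mem_range_self _ _) hk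
    have hθ : ∀ {J : Ideal R} {x : ExteriorAlgebra R M},
        x ∈ (J • ⊤ : Submodule R (ExteriorAlgebra R M)) →
        ExteriorAlgebra.ι R (c j) * x ∈ (J • ⊤ : Submodule R (ExteriorAlgebra R M)) :=
      fun h => map_top (LinearMap.mulLeft R (ExteriorAlgebra.ι R (c j))) h
    have h1 : dd D (ExteriorAlgebra.ι R (c j) * k) ∈
        (I (j + 1) • ⊤ : Submodule R (ExteriorAlgebra R M)) := by
      rw [dd_mul, hc j hjn]
      exact Submodule.sub_mem _ (Submodule.smul_mem_smul ha trivial)
        (Submodule.smul_mono_left hle (hθ hdk))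
    obtain ⟨q, hq⟩ := ih (j + 1) (by omega) (m + 1) (by omega) _ hk1 h1
    rw [hI j hjn, Submodule.sup_smul, Submodule.mem_sup] at hq
    obtain ⟨y, hy, z, hz, hyz⟩ := hq
    rw [Submodule.ideal_span_singleton_smul, Submodule.mem_smul_pointwise_iff_exists] at hz
    obtain ⟨l, -, rfl⟩ := hz
    refine ⟨l, ?_⟩
    have h2 : a j • (k - dd D l) = ExteriorAlgebra.ι R (c j) * dd D k + dd D y := by
      have h3 := congrArg (dd D) hyz
      rw [map_add, map_sub, dd_dd, dd_mul, hc j hjn, map_smul] at h3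
      rw [smul_sub]
      have h4 : dd D y + a j • dd D l = a j • k - ExteriorAlgebra.ι R (c j) * dd D k - 0 := h3
      rw [sub_zero] at h4
      rw [sub_eq_iff_eq_add]
      have h5 : a j • k = dd D y + a j • dd D l + ExteriorAlgebra.ι R (c j) * dd D k := by
        rw [h4]
        abel
      rw [h5]
      abel
    have h6 : a j • (k - dd D l) ∈ (I j • ⊤ : Submodule R (ExteriorAlgebra R M)) := by
      rw [h2]
      exact Submodule.add_mem _ (hθ hdk) (map_top (dd D) hy)
    rw [mem_top_iff B] at h6 ⊢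
    intro s
    have h7 := h6 s
    rw [map_smul, Finsupp.smul_apply, smul_eq_mul] at h7
    exact hreg j hjn _ h7

end general

/-! ### The component in degree 1 -/

section degree_one

variable {R : Type*} [CommRing R] {τ : Type*}

/-- the degree one part, one coordinate -/
noncomputable def T (i : τ) : ExteriorAlgebra R (τ → R) →ₐ[R] TrivSqZeroExt R R :=
  ExteriorAlgebra.lift R ⟨(TrivSqZeroExt.inrHom R R).comp (LinearMap.proj i), fun m => by
    simp⟩

theorem T_ι (i : τ) (m : τ → R) :
    T i (ExteriorAlgebra.ι R m) = TrivSqZeroExt.inr (m i) := by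
  unfold T
  rw [ExteriorAlgebra.lift_ι_apply]
  rfl

theorem T_mul_fst (i : τ) (m : τ → R) (x : ExteriorAlgebra R (τ → R)) :
    (T i (ExteriorAlgebra.ι R m * x)).fst = 0 := by
  rw [map_mul, T_ι, TrivSqZeroExt.fst_mul, TrivSqZeroExt.fst_inr, zero_mul]

theorem T_mul_snd (i : τ) (m : τ → R) (x : ExteriorAlgebra R (τ → R)) :
    (T i (ExteriorAlgebra.ι R m * x)).snd = m i * (T i x).fst := by
  rw [map_mul, T_ι, TrivSqZeroExt.snd_mul, TrivSqZeroExt.fst_inr, TrivSqZeroExt.snd_inr]
  simp

theorem T_fst (i j : τ) (x : ExteriorAlgebra R (τ → R)) : (T i x).fst = (T j x).fst := by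
  have h : (TrivSqZeroExt.fstHom R R R).comp (T i) = (TrivSqZeroExt.fstHom R R R).comp (T j) := by
    apply ExteriorAlgebra.hom_ext
    ext m
    simp [T_ι]
  exact DFunLike.congr_fun h x

variable [Fintype τ]

/-- the functional of `f` -/
noncomputable def F (f : τ → R) : Module.Dual R (τ → R) where
  toFun c := ∑ i, c i * f i
  map_add' x y := by simp [add_mul, Finset.sum_add_distrib]
  map_smul' r x := by simp [Finset.mul_sum, mul_assoc]

theorem F_apply (f c : τ → R) : F f c = ∑ i, c i * f i := rfl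

theorem fst_dd (f : τ → R) (i : τ) (x : ExteriorAlgebra R (τ → R)) :
    (T i (dd (F f) x)).fst = ∑ j, (T j x).snd * f j := by
  induction x using CliffordAlgebra.left_induction with
  | algebraMap r =>
    have h1 : ∀ j : τ, T j (algebraMap R (ExteriorAlgebra R (τ → R)) r) =
        algebraMap R (TrivSqZeroExt R R) r := fun j => AlgHom.commutes _ _
    have h2 := dd_map (F f) r
    simp only [h2, map_zero, TrivSqZeroExt.fst_zero]
    symm
    refine Finset.sum_eq_zero fun j _ => ?_
    rw [h1 j]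
    simp [TrivSqZeroExt.algebraMap_eq_inl]
  | add x y hx hy =>
    simp only [map_add, TrivSqZeroExt.fst_add, TrivSqZeroExt.snd_add, hx, hy, add_mul,
      Finset.sum_add_distrib]
  | ι_mul x m _ =>
    have h1 := dd_mul (F f) m x
    have h2 : ∀ j : τ, (T j (ExteriorAlgebra.ι R m * x)).snd = m j * (T i x).fst := fun j => by
      rw [T_mul_snd, T_fst j i]
    change (T i (dd (F f) (ExteriorAlgebra.ι R m * x))).fst =
      ∑ j, (T j (ExteriorAlgebra.ι R m * x)).snd * f j
    rw [h1, map_sub, TrivSqZeroExt.fst_sub, T_mul_fst, sub_zero, map_smul, TrivSqZeroExt.fst_smul,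
      smul_eq_mul, F_apply, Finset.sum_mul]
    refine Finset.sum_congr rfl fun j _ => ?_
    rw [h2 j]
    ring

theorem snd_dd (f : τ → R) (x : ExteriorAlgebra R (τ → R)) :
    ∃ a : τ → τ → R, (∀ i j, a i j = - a j i) ∧
      ∀ i, (T i (dd (F f) x)).snd = ∑ j, f j * a i j := by
  induction x using CliffordAlgebra.left_induction with
  | algebraMap r =>
    refine ⟨fun _ _ => 0, by simp, fun i => ?_⟩
    have h2 := dd_map (F f) r
    simp only [h2, map_zero, TrivSqZeroExt.snd_zero]
    simp
  | add x y hx hy =>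
    obtain ⟨a, ha, ha'⟩ := hx
    obtain ⟨b, hb, hb'⟩ := hy
    refine ⟨fun i j => a i j + b i j, fun i j => ?_, fun i => ?_⟩
    · show a i j + b i j = -(a j i + b j i)
      rw [ha i j, hb i j]
      ring
    · simp only [map_add, TrivSqZeroExt.snd_add, ha' i, hb' i, mul_add, Finset.sum_add_distrib]
  | ι_mul x m _ =>
    refine ⟨fun i j => m j * (T i x).snd - (T j x).snd * m i, fun i j => by ring, fun i => ?_⟩
    have h1 := dd_mul (F f) m x
    change (T i (dd (F f) (ExteriorAlgebra.ι R m * x))).snd = _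
    rw [h1, map_sub, TrivSqZeroExt.snd_sub, T_mul_snd, map_smul, TrivSqZeroExt.snd_smul,
      smul_eq_mul, F_apply, fst_dd, Finset.sum_mul, Finset.mul_sum, ← Finset.sum_sub_distrib]
    refine Finset.sum_congr rfl fun j _ => ?_
    ring

end degree_one

/-! ### Powers of the variables -/

section poly

open MvPolynomial

variable {τ : Type*} [Fintype τ]

theorem exists_pow (f : τ → MvPolynomial τ ℂ) (hf : ∀ z : τ → ℂ, (∀ i, eval z (f i) = 0) → z = 0) :
    ∃ N : ℕ, ∀ i, (X i : MvPolynomial τ ℂ) ^ N ∈ Ideal.span (Set.range f) := by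
  have h : ∀ i, ∃ N : ℕ, (X i : MvPolynomial τ ℂ) ^ N ∈ Ideal.span (Set.range f) := by
    intro i
    have h1 : (X i : MvPolynomial τ ℂ) ∈ (Ideal.span (Set.range f)).radical := by
      rw [← MvPolynomial.vanishingIdeal_zeroLocus_eq_radical (K := ℂ), mem_vanishingIdeal_iff]
      intro z hz
      rw [mem_zeroLocus_iff] at hz
      have h2 : z = 0 := hf z fun j => by
        have := hz (f j) (Ideal.subset_span ⟨j, rfl⟩)
        rwa [MvPolynomial.aeval_eq_eval] at this
      rw [aeval_X, h2]
      rfl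
    exact h1
  choose N hN using h
  refine ⟨∑ i, N i, fun i => ?_⟩
  have h2 : N i ≤ ∑ j, N j := Finset.single_le_sum (fun _ _ => Nat.zero_le _) (Finset.mem_univ i)
  rw [← Nat.sub_add_cancel h2, pow_add]
  exact Ideal.mul_mem_left _ _ (hN i)

omit [Fintype τ] in
theorem mon_reg (N : ℕ) (S : Set τ) (i : τ) (hi : i ∉ S) (x : MvPolynomial τ ℂ)
    (hx : (X i : MvPolynomial τ ℂ) ^ N * x ∈
      Ideal.span ((fun j => (X j : MvPolynomial τ ℂ) ^ N) '' S)) :
    x ∈ Ideal.span ((fun j => (X j : MvPolynomial τ ℂ) ^ N) '' S) := by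
  classical
  have himg : ((fun j => (X j : MvPolynomial τ ℂ) ^ N) '' S) =
      (fun s => monomial s (1 : ℂ)) '' ((fun j => Finsupp.single j N) '' S) := by
    rw [Set.image_image]
    refine Set.image_congr fun j _ => ?_
    rw [X_pow_eq_monomial]
  rw [himg, mem_ideal_span_monomial_image] at hx ⊢
  intro u hu
  have hu' : Finsupp.single i N + u ∈ ((X i : MvPolynomial τ ℂ) ^ N * x).support := by
    rw [MvPolynomial.mem_support_iff, X_pow_eq_monomial, coeff_monomial_mul, one_mul]
    exact MvPolynomial.mem_support_iff.1 hu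
  obtain ⟨s, ⟨j, hj, rfl⟩, hs⟩ := hx _ hu'
  refine ⟨_, ⟨j, hj, rfl⟩, ?_⟩
  have hij : j ≠ i := fun h => hi (h ▸ hj)
  rw [Finsupp.single_le_iff] at hs ⊢
  simpa [Finsupp.single_apply, hij.symm] using hs

end poly

open MvPolynomial

theorem ext_zero {R : Type*} [CommRing R] {τ : Type*} [Fintype τ] [LinearOrder τ] {m : ℕ}
    (hm : Fintype.card τ < m) (k : ExteriorAlgebra R (τ → R)) (hk : k ∈ ⋀[R]^m (τ → R)) :
    k = 0 := by
  have B := (Pi.basisFun R τ).exteriorPower m
  have : IsEmpty (Set.powersetCard τ m) := by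
    refine ⟨fun s => ?_⟩
    have h1 := Set.powersetCard.card_eq s
    have h2 := Finset.card_le_univ (s : Finset τ)
    omega
  have h : (⟨k, hk⟩ : ⋀[R]^m (τ → R)) = 0 := B.ext_elem fun s => isEmptyElim s
  exact congrArg Subtype.val h

theorem t : StW4a := by
  classical
  intro τ _ f hf h hh
  obtain ⟨N, hN⟩ := exists_pow f hf
  let _ : LinearOrder τ := linearOrderOfSTO WellOrderingRel
  have h1 : ∀ i, ∃ c : τ → MvPolynomial τ ℂ, F f c = (X i : MvPolynomial τ ℂ) ^ N := by
    intro i
    obtain ⟨c, hc⟩ := Ideal.mem_span_range_iff_exists_fun.1 (hN i)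
    exact ⟨c, hc⟩
  choose c hc using h1
  set n := Fintype.card τ with hn
  let e : τ ≃ Fin n := Fintype.equivFin τ
  let S : ℕ → Set τ := fun j => {i | (e i : ℕ) < j}
  let I : ℕ → Ideal (MvPolynomial τ ℂ) := fun j =>
    Ideal.span ((fun i => (X i : MvPolynomial τ ℂ) ^ N) '' S j)
  let a : ℕ → MvPolynomial τ ℂ := fun j => if hj : j < n then X (e.symm ⟨j, hj⟩) ^ N else 0
  let c' : ℕ → τ → MvPolynomial τ ℂ := fun j => if hj : j < n then c (e.symm ⟨j, hj⟩) else 0
  have B := (Pi.basisFun (MvPolynomial τ ℂ) τ).ExteriorAlgebra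
  have key := main B (F f) n a c' ?_ I ?_ ?_ ?_ n 0 (by omega) 1 le_rfl
    (ExteriorAlgebra.ι (MvPolynomial τ ℂ) h) ?_ ?_
  · obtain ⟨q, hq⟩ := key
    have hI0 : I 0 = ⊥ := by
      have : S 0 = ∅ := by
        ext i
        simp [S]
      simp only [I, this, Set.image_empty, Ideal.span_empty]
    rw [hI0, Submodule.bot_smul, Submodule.mem_bot, sub_eq_zero] at hq
    obtain ⟨b, hb1, hb2⟩ := snd_dd f q
    refine ⟨b, hb1, fun i => ?_⟩
    rw [← hb2 i, ← hq, T_ι, TrivSqZeroExt.snd_inr]
  · intro j hj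
    simp only [c', a, hj, dif_pos]
    exact hc _
  · intro j hj
    have hS : S (j + 1) = S j ∪ {e.symm ⟨j, hj⟩} := by
      ext i
      simp only [S, Set.mem_ofPred_eq, Set.mem_union, Set.mem_singleton_iff]
      rw [Nat.lt_succ_iff, le_iff_lt_or_eq, e.eq_symm_apply, Fin.ext_iff]
    simp only [I, hS, a, hj, dif_pos]
    rw [Set.image_union, Set.image_singleton, Ideal.span_union]
  · intro j hj x hx
    simp only [a, hj, dif_pos] at hx
    refine mon_reg N (S j) (e.symm ⟨j, hj⟩) ?_ x hx
    simp [S]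
  · intro m hm k hk
    exact ext_zero hm k hk
  · unfold ExteriorAlgebra.exteriorPower
    rw [pow_one]
    exact LinearMap.mem_range_self _ _
  · rw [dd_ι]
    have h2 : F f h = 0 := by
      rw [F_apply, ← hh]
      exact Finset.sum_congr rfl fun i _ => mul_comm _ _
    rw [h2, map_zero]
    exact Submodule.zero_mem _

end Pool.Agent.N138.SU.W4a
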