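import Pool.Agent.N138.SU.Stm3

set_option autoImplicit false

/-!
# Job W4b: the functional `L` (helper559)

For a weighted homogeneous polynomial `G` with an isolated singularity there is a linear functional
`L` on polynomials with `L (∂_i h) = L (∂_i G h)` and `L 1 = 1` (the integral of `h exp (-G)`).
-/

namespace Pool.Agent.N138.SU.W4b

open MvPolynomial

section core

variable {τ : Type} (w : τ → ℕ)

/-- all monomials have weight less than `N` -/
def LT (N : ℕ) (f : MvPolynomial τ ℂ) : Prop := ∀ m : τ →₀ ℕ, N ≤ Finsupp.weight w m → coeff m f = 0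

variable {w}

theorem LT.mono {N N' : ℕ} (h : N ≤ N') {f : MvPolynomial τ ℂ} (hf : LT w N f) : LT w N' f :=
  fun m hm => hf m (h.trans hm)

theorem LT.sub {N : ℕ} {f g : MvPolynomial τ ℂ} (hf : LT w N f) (hg : LT w N g) :
    LT w N (f - g) := fun m hm => by rw [coeff_sub, hf m hm, hg m hm, sub_zero]

theorem LT.sum {ι : Type} (s : Finset ι) {N : ℕ} {f : ι → MvPolynomial τ ℂ}
    (hf : ∀ i ∈ s, LT w N (f i)) : LT w N (∑ i ∈ s, f i) := fun m hm => by
  rw [coeff_sum]
  exact Finset.sum_eq_zero fun i hi => hf i hi m hm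

theorem LT.pd {N : ℕ} {i : τ} {f : MvPolynomial τ ℂ} (hf : LT w (N + w i) f) :
    LT w N (pderiv i f) := fun m hm => by
  rw [coeff_pderiv, hf _ ?_, zero_mul]
  rw [map_add, Finsupp.weight_single, one_smul]
  exact Nat.add_le_add_right hm _

theorem LT.of_hom {N : ℕ} {f : MvPolynomial τ ℂ} (hf : f.IsWeightedHomogeneous w N) :
    LT w (N + 1) f := fun m hm => by
  by_contra h
  have := hf h
  omega

theorem LT.top {N : ℕ} {f : MvPolynomial τ ℂ} (hf : LT w (N + 1) f) :
    LT w N (f - weightedHomogeneousComponent w N f) := fun m hm => by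
  rw [coeff_sub, coeff_weightedHomogeneousComponent]
  split_ifs with h
  · rw [sub_self]
  · rw [hf m (by omega), sub_zero]

theorem LT.comp {N n : ℕ} {f : MvPolynomial τ ℂ} (hf : LT w N f) (hn : N ≤ n) :
    weightedHomogeneousComponent w n f = 0 := by
  ext m
  rw [coeff_weightedHomogeneousComponent, coeff_zero]
  split_ifs with h
  · exact hf m (by omega)
  · rfl

theorem LT.zero {f : MvPolynomial τ ℂ} (hf : LT w 0 f) : f = 0 := by
  ext m
  exact hf m (Nat.zero_le _)

theorem LT.exists (f : MvPolynomial τ ℂ) : ∃ N, LT w N f := by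
  refine ⟨weightedTotalDegree w f + 1, fun m hm => ?_⟩
  by_contra h
  have := le_weightedTotalDegree w (mem_support_iff.2 h)
  omega

/-- the component of a product with a homogeneous polynomial -/
theorem comp_mul {d n : ℕ} {f : MvPolynomial τ ℂ} (hf : f.IsWeightedHomogeneous w d)
    (g : MvPolynomial τ ℂ) : weightedHomogeneousComponent w (d + n) (f * g) =
      f * weightedHomogeneousComponent w n g := by
  induction g using MvPolynomial.induction_on' with
  | add p q hp hq => rw [mul_add, map_add, map_add, mul_add, hp, hq]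
  | monomial m a =>
    have h1 : (monomial m a : MvPolynomial τ ℂ).IsWeightedHomogeneous w (Finsupp.weight w m) :=
      isWeightedHomogeneous_monomial w m a rfl
    have h2 := hf.mul h1
    by_cases h : n = Finsupp.weight w m
    · subst h
      rw [h1.weightedHomogeneousComponent_same, h2.weightedHomogeneousComponent_same]
    · rw [h1.weightedHomogeneousComponent_ne _ h, h2.weightedHomogeneousComponent_ne _ (by omega),
        mul_zero]

theorem comp_mul_lt {d n : ℕ} {f : MvPolynomial τ ℂ} (hf : f.IsWeightedHomogeneous w d)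
    (hn : n < d) (g : MvPolynomial τ ℂ) : weightedHomogeneousComponent w n (f * g) = 0 := by
  induction g using MvPolynomial.induction_on' with
  | add p q hp hq => rw [mul_add, map_add, hp, hq, add_zero]
  | monomial m a =>
    have h1 : (monomial m a : MvPolynomial τ ℂ).IsWeightedHomogeneous w (Finsupp.weight w m) :=
      isWeightedHomogeneous_monomial w m a rfl
    exact (hf.mul h1).weightedHomogeneousComponent_ne _ (by omega)

/-- the partial derivatives of `G` -/
theorem pd_hom {G : MvPolynomial τ ℂ} {D : ℕ} (hG : G.IsWeightedHomogeneous w D) (i : τ) :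
    (w i ≤ D ∧ (pderiv i G).IsWeightedHomogeneous w (D - w i)) ∨ pderiv i G = 0 := by
  have key : ∀ m : τ →₀ ℕ, coeff m (pderiv i G) ≠ 0 → Finsupp.weight w m + w i = D := by
    intro m hm
    rw [coeff_pderiv] at hm
    have h1 := hG (left_ne_zero_of_mul hm)
    rw [map_add, Finsupp.weight_single, one_smul] at h1
    exact h1
  by_cases h : pderiv i G = 0
  · exact Or.inr h
  · left
    obtain ⟨m, hm⟩ := ne_zero_iff.1 h
    have h1 := key m hm
    refine ⟨by omega, fun m' hm' => ?_⟩
    have := key m' hm'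
    omega

/-- the components of `∂_i G * g` -/
theorem comp_pd {G : MvPolynomial τ ℂ} {D : ℕ} (hG : G.IsWeightedHomogeneous w D) {i : τ}
    {N M : ℕ} (h : N + w i = M + D) (g : MvPolynomial τ ℂ) :
    weightedHomogeneousComponent w N (pderiv i G * g) =
      pderiv i G * weightedHomogeneousComponent w M g := by
  rcases pd_hom hG i with ⟨h1, h2⟩ | h1
  · have h3 : N = (D - w i) + M := by omega
    rw [h3, comp_mul h2]
  · rw [h1, zero_mul, zero_mul, map_zero]

theorem comp_pd_lt {G : MvPolynomial τ ℂ} {D : ℕ} (hG : G.IsWeightedHomogeneous w D) {i : τ}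
    {N : ℕ} (h : N + w i < D) (g : MvPolynomial τ ℂ) :
    weightedHomogeneousComponent w N (pderiv i G * g) = 0 := by
  rcases pd_hom hG i with ⟨h1, h2⟩ | h1
  · exact comp_mul_lt h2 (by omega) g
  · rw [h1, zero_mul, map_zero]

theorem pd_comm (i j : τ) (f : MvPolynomial τ ℂ) :
    pderiv i (pderiv j f) = pderiv j (pderiv i f) := by
  classical
  ext m
  rw [coeff_pderiv, coeff_pderiv, coeff_pderiv, coeff_pderiv]
  by_cases h : i = j
  · subst h; rfl
  · simp only [Finsupp.add_apply, Finsupp.single_apply, h, Ne.symm h, if_false, add_zero]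
    rw [add_right_comm]
    ring

variable [Fintype τ]

/-- the operator `T` -/
noncomputable def TT (G : MvPolynomial τ ℂ) : (τ → MvPolynomial τ ℂ) →ₗ[ℂ] MvPolynomial τ ℂ :=
  ∑ i, ((pderiv i).toLinearMap - LinearMap.mulLeft ℂ (pderiv i G)) ∘ₗ LinearMap.proj i

theorem TT_apply (G : MvPolynomial τ ℂ) (h : τ → MvPolynomial τ ℂ) :
    TT G h = ∑ i, (pderiv i (h i) - pderiv i G * h i) := by
  simp [TT]

theorem sum_anti {b : τ → τ → MvPolynomial τ ℂ} (hb : ∀ i j, b i j = - b j i) :
    ∑ i, ∑ j, b i j = 0 := by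
  have h1 : ∑ i, ∑ j, b i j = - ∑ i, ∑ j, b i j := by
    conv_lhs => rw [Finset.sum_comm]
    rw [← Finset.sum_neg_distrib]
    refine Finset.sum_congr rfl fun i _ => ?_
    rw [← Finset.sum_neg_distrib]
    exact Finset.sum_congr rfl fun j _ => hb j i
  have h2 : (2 : MvPolynomial τ ℂ) * ∑ i, ∑ j, b i j = 0 := by
    rw [two_mul]
    nth_rewrite 2 [h1]
    rw [add_neg_cancel]
  exact (mul_eq_zero.1 h2).resolve_left two_ne_zero

/-- the step -/
theorem step (ha : StW4a) {G : MvPolynomial τ ℂ} {D : ℕ} (hD : 0 < D)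
    (hG : G.IsWeightedHomogeneous w D)
    (hz : ∀ z : τ → ℂ, (∀ i, eval z (pderiv i G) = 0) → z = 0) {K : ℕ}
    {h : τ → MvPolynomial τ ℂ} (hK : ∀ i, LT w (w i + (K + 1)) (h i)) (h1 : TT G h = 1) :
    ∃ h' : τ → MvPolynomial τ ℂ, (∀ i, LT w (w i + K) (h' i)) ∧ TT G h' = 1 := by
  classical
  set t : τ → MvPolynomial τ ℂ := fun i => weightedHomogeneousComponent w (w i + K) (h i) with ht
  have e1 : ∑ i, pderiv i G * t i = 0 := by
    have h2 := congrArg (weightedHomogeneousComponent w (K + D)) h1
    rw [TT_apply, map_sum, (isWeightedHomogeneous_one ℂ w).weightedHomogeneousComponent_ne _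
      (by omega)] at h2
    have h3 : ∀ i, weightedHomogeneousComponent w (K + D) (pderiv i (h i) - pderiv i G * h i) =
        -(pderiv i G * t i) := by
      intro i
      have h4 : LT w (K + 1) (pderiv i (h i)) := LT.pd ((hK i).mono (by omega))
      rw [map_sub, h4.comp (by omega), zero_sub, comp_pd hG (M := w i + K) (by omega)]
    rw [Finset.sum_congr rfl fun i _ => h3 i, Finset.sum_neg_distrib, neg_eq_zero] at h2
    exact h2
  obtain ⟨a, a1, a2⟩ := ha (fun i => pderiv i G) hz t e1
  set b : τ → τ → MvPolynomial τ ℂ := fun i j =>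
    if D ≤ w i + K + w j then weightedHomogeneousComponent w (w i + K + w j - D) (a i j) else 0
    with hb
  have b1 : ∀ i j, b i j = - b j i := by
    intro i j
    simp only [hb]
    have e : w i + K + w j = w j + K + w i := by omega
    rw [e]
    split_ifs with h5
    · rw [a1 i j, map_neg]
    · rw [neg_zero]
  have b2 : ∀ i, t i = ∑ j, pderiv j G * b i j := by
    intro i
    have h6 : weightedHomogeneousComponent w (w i + K) (t i) = t i :=
      (weightedHomogeneousComponent_isWeightedHomogeneous _ _).weightedHomogeneousComponent_same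
    rw [← h6, a2 i, map_sum]
    refine Finset.sum_congr rfl fun j _ => ?_
    simp only [hb]
    split_ifs with h5
    · exact comp_pd hG (by omega) _
    · rw [mul_zero]
      exact comp_pd_lt hG (by omega) _
  set c : τ → MvPolynomial τ ℂ := fun j => ∑ i, pderiv i (b i j) with hc
  have c1 : ∀ j, LT w (w j + K) (c j) := by
    intro j
    refine LT.sum _ fun i _ => LT.pd ?_
    simp only [hb]
    split_ifs with h5
    · exact (LT.of_hom (weightedHomogeneousComponent_isWeightedHomogeneous _ _)).mono (by omega)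
    · intro m _
      exact coeff_zero m
  have c2 : ∑ j, pderiv j (c j) = 0 := by
    have : ∀ j, pderiv j (c j) = ∑ i, pderiv j (pderiv i (b i j)) := fun j => map_sum _ _ _
    rw [Finset.sum_congr rfl fun j _ => this j]
    refine sum_anti (b := fun j i => pderiv j (pderiv i (b i j))) fun i j => ?_
    rw [b1 j i, map_neg, map_neg, pd_comm]
  have c3 : ∑ i, pderiv i (t i) = ∑ j, pderiv j G * c j := by
    have h7 : ∀ i, pderiv i (t i) = ∑ j, (pderiv i (pderiv j G) * b i j +
        pderiv j G * pderiv i (b i j)) := by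
      intro i
      rw [b2 i, map_sum]
      refine Finset.sum_congr rfl fun j _ => ?_
      rw [pderiv_mul]
    rw [Finset.sum_congr rfl fun i _ => h7 i]
    simp only [Finset.sum_add_distrib]
    rw [sum_anti (b := fun i j => pderiv i (pderiv j G) * b i j), zero_add, Finset.sum_comm]
    · refine Finset.sum_congr rfl fun j _ => ?_
      rw [hc, Finset.mul_sum]
    · intro i j
      rw [b1 i j, pd_comm, mul_neg]
  refine ⟨fun j => h j - t j - c j, fun j => (LT.top ((hK j).mono (by omega))).sub (c1 j), ?_⟩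
  have h8 : TT G (fun j => h j - t j - c j) = TT G h - ∑ i, pderiv i (t i) +
      ∑ i, pderiv i G * t i - ∑ j, pderiv j (c j) + ∑ j, pderiv j G * c j := by
    rw [TT_apply, TT_apply, ← Finset.sum_sub_distrib, ← Finset.sum_add_distrib,
      ← Finset.sum_sub_distrib, ← Finset.sum_add_distrib]
    refine Finset.sum_congr rfl fun j _ => ?_
    rw [map_sub, map_sub]
    ring
  rw [h8, c3, e1, c2, h1]
  ring

theorem not_one (ha : StW4a) {G : MvPolynomial τ ℂ} {D : ℕ} (hD : 0 < D)
    (hG : G.IsWeightedHomogeneous w D) (h0 : ∀ i, constantCoeff (pderiv i G) = 0)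
    (hz : ∀ z : τ → ℂ, (∀ i, eval z (pderiv i G) = 0) → z = 0) :
    ∀ (K : ℕ) (h : τ → MvPolynomial τ ℂ), (∀ i, LT w (w i + K) (h i)) → TT G h ≠ 1 := by
  intro K
  induction K with
  | zero =>
    intro h hK h1
    have h2 : ∀ i, pderiv i (h i) = 0 := fun i => LT.zero (LT.pd ((hK i).mono (by omega)))
    rw [TT_apply] at h1
    have h3 := congrArg constantCoeff h1
    rw [map_sum, map_one] at h3
    have h4 : ∀ i, constantCoeff (pderiv i (h i) - pderiv i G * h i) = 0 := by
      intro i
      rw [h2 i, map_sub, map_mul, h0 i, map_zero]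
      ring
    rw [Finset.sum_congr rfl fun i _ => h4 i, Finset.sum_const_zero] at h3
    exact zero_ne_one h3
  | succ K ih =>
    intro h hK h1
    obtain ⟨h', k1, k2⟩ := step ha hD hG hz hK h1
    exact ih h' k1 k2

end core

theorem t (ha : StW4a) : StW4b := by
  intro τ _ G w D hw hD hG h0 hz
  classical
  have h1 : (1 : MvPolynomial τ ℂ) ∉ LinearMap.range (TT G) := by
    rintro ⟨h, hh⟩
    choose N hN using fun i => LT.exists (w := w) (h i)
    refine not_one ha hD hG h0 hz (∑ i, N i) h (fun i => (hN i).mono ?_) hh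
    exact (Finset.single_le_sum (fun j _ => Nat.zero_le (N j)) (Finset.mem_univ i)).trans
      (Nat.le_add_left _ _)
  obtain ⟨L, l1, l2⟩ := Submodule.exists_le_ker_of_notMem h1
  refine ⟨(L 1)⁻¹ • L, fun i h => ?_, ?_⟩
  · have h2 : L (TT G (Pi.single i h)) = 0 := l2 ⟨_, rfl⟩
    rw [TT_apply, Finset.sum_eq_single i, Pi.single_eq_same, map_sub, sub_eq_zero] at h2
    · rw [LinearMap.smul_apply, LinearMap.smul_apply, h2]
    · intro j _ hj
      rw [Pi.single_eq_of_ne hj, map_zero, mul_zero, sub_zero]
    · intro hi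
      exact absurd (Finset.mem_univ i) hi
  · rw [LinearMap.smul_apply, smul_eq_mul, inv_mul_cancel₀ l1]

end Pool.Agent.N138.SU.W4b
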