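import Pool.Agent.N138.SU.Main
import Pool.Agent.N138.SU.W1
import Pool.Agent.N138.SU.W2
import Pool.Agent.N138.SU.W4a
import Pool.Agent.N138.SU.W4b
import Pool.Agent.N138.SU.W5

set_option autoImplicit false
set_option linter.unusedSectionVars false
set_option linter.unusedVariables false

/-! # The zeta functions and the Poincare series of the class -/

namespace Pool.Agent.N138.SU

open MeasureTheory MvPolynomial Pool.Agent.W427.SMC Pool.Agent.Y230.PT Pool.Agent.Y230.PS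
open Pool.Agent.Y230.TH Pool.Agent.R852.PP
open scoped ENNReal
open Pool.Agent.Y230.RE Pool.Agent.W574.SM Pool.Agent.W574.RO Pool.Agent.W574.CN

attribute [local instance] msZ bsZ

variable {p : ℕ} [Fact p.Prime] {V : Type} [Fintype V]

theorem cl_core_2 (h3 : StW3) (F : MvPolynomial V ℚ) (hF : Cl false .ideal (hyp F)) :
    ∃ D P : Polynomial ℂ, D ≠ 0 ∧ (∀ s : ℝ, 0 ≤ s →
      D.eval ((tr' p s : ℝ) : ℂ) * ((∫⁻ x : V → ℤ_[p], N p s (eval₂ (algebraMap ℚ ℚ_[p])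
        (fun i => inc p (x i)) F) ∂(Measure.pi fun _ : V => mu p)).toReal : ℂ) =
          P.eval ((tr' p s : ℝ) : ℂ)) ∧
      ∀ T0, T0 ≠ 0 → (D.rootMultiplicity T0 : ℕ∞) ≤
        Pool.Agent.Y230.PS.tr (mR p (hyp F)) T0 := by
  obtain ⟨h1, h2, _⟩ := cl_main_2 (p := p) W1.t W2.t h3 (W4b.t W4a.t) Kd.ideal (hyp F) hF
  rw [if_pos rfl] at h2
  obtain ⟨D, P, hD, h3, h4⟩ := (h2.mono fun T _ => le_of_eq (mI_2 _ T)).rat
  refine ⟨D, P, hD, fun s hs => ?_, h4⟩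
  rw [← FF_hyp]
  exact h3 s hs

theorem cl_core_1 (h3 : StW3) (F : MvPolynomial V ℚ) (hF : Cl true .ideal (hyp F)) :
    ∃ D P : Polynomial ℂ, D ≠ 0 ∧ (∀ s : ℝ, 0 ≤ s →
      D.eval ((tr' p s : ℝ) : ℂ) * ((∫⁻ x : V → ℤ_[p], N p s (eval₂ (algebraMap ℚ ℚ_[p])
        (fun i => inc p (x i)) F) ∂(Measure.pi fun _ : V => mu p)).toReal : ℂ) =
          P.eval ((tr' p s : ℝ) : ℂ)) ∧
      ∀ T0, T0 ≠ 0 → (D.rootMultiplicity T0 : ℕ∞) ≤
        Pool.Agent.Y230.PS.tr (mM p (hyp F)) T0 := by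
  obtain ⟨h1, h2, _⟩ := cl_main_1 (p := p) W1.t W2.t h3 (W4b.t W4a.t) W5.t Kd.ideal (hyp F) hF
  rw [if_pos rfl] at h2
  obtain ⟨D, P, hD, h3, h4⟩ := (h2.mono fun T _ => le_of_eq (mI_1 _ T)).rat
  refine ⟨D, P, hD, fun s hs => ?_, h4⟩
  rw [← FF_hyp]
  exact h3 s hs

theorem cl_core_Z2 (h3 : StW3) (F : MvPolynomial V ℤ)
    (hF : Cl false .ideal (hyp (map (Int.castRingHom ℚ) F))) :
    ∃ D P : Polynomial ℂ, D ≠ 0 ∧ (∀ s : ℝ, 0 ≤ s →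
      D.eval ((tr' p s : ℝ) : ℂ) * ((∫⁻ x : V → ℤ_[p], tau p s (aeval x F)
        ∂(Measure.pi fun _ : V => mu p)).toReal : ℂ) = P.eval ((tr' p s : ℝ) : ℂ)) ∧
      ∀ T0, T0 ≠ 0 → (D.rootMultiplicity T0 : ℕ∞) ≤
        Pool.Agent.Y230.PS.tr (mR p (hyp (map (Int.castRingHom ℚ) F))) T0 := by
  obtain ⟨D, P, hD, h2, h3⟩ := cl_core_2 (p := p) h3 _ hF
  refine ⟨D, P, hD, fun s hs => ?_, h3⟩
  rw [← h2 s hs]
  simp only [tau_N]

theorem cl_core_Z1 (h3 : StW3) (F : MvPolynomial V ℤ)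
    (hF : Cl true .ideal (hyp (map (Int.castRingHom ℚ) F))) :
    ∃ D P : Polynomial ℂ, D ≠ 0 ∧ (∀ s : ℝ, 0 ≤ s →
      D.eval ((tr' p s : ℝ) : ℂ) * ((∫⁻ x : V → ℤ_[p], tau p s (aeval x F)
        ∂(Measure.pi fun _ : V => mu p)).toReal : ℂ) = P.eval ((tr' p s : ℝ) : ℂ)) ∧
      ∀ T0, T0 ≠ 0 → (D.rootMultiplicity T0 : ℕ∞) ≤
        Pool.Agent.Y230.PS.tr (mM p (hyp (map (Int.castRingHom ℚ) F))) T0 := by
  obtain ⟨D, P, hD, h2, h3⟩ := cl_core_1 (p := p) h3 _ hF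
  refine ⟨D, P, hD, fun s hs => ?_, h3⟩
  rw [← h2 s hs]
  simp only [tau_N]

/-- the poles of the Poincare series -/
theorem cl_poin (h3 : StW3) (F : MvPolynomial V ℤ)
    (hF : Cl false .ideal (hyp (map (Int.castRingHom ℚ) F)))
    (b : Polynomial ℂ) (hb : Pool.Agent.H628R4.TP.IsBFunction (map (Int.castRingHom ℂ) F) b) :
    ∃ Φ : RatFunc ℂ, ((Φ.denom : Polynomial ℂ) : PowerSeries ℂ) * poincare p F =
        ((Φ.num : Polynomial ℂ) : PowerSeries ℂ) ∧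
      ∀ T₀ : ℂ, Φ.denom.eval T₀ = 0 → b.eval ((-Real.log ‖T₀‖ / Real.log p : ℝ) : ℂ) = 0 := by
  obtain ⟨D, P, hD0, h1, h2⟩ := cl_core_Z2 (p := p) h3 F hF
  obtain ⟨Φ, h3, h4, h5⟩ := poincare_of p _ D P hD0 h1
  refine ⟨Φ, h3, fun T hT0 => ?_⟩
  have hd : Φ.denom ≠ 0 := Φ.denom_ne_zero
  have h6 : Φ.denom.rootMultiplicity T ≠ 0 := by
    rw [Ne, Polynomial.rootMultiplicity_eq_zero_iff]
    intro h
    exact hd (h hT0)
  have hT : T ≠ 0 := by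
    rintro rfl
    exact h6 h4
  refine root_of_tr (map (Int.castRingHom ℚ) F) b ?_ T (D.rootMultiplicity T) (fun h0 => ?_)
    (h2 T hT)
  · rw [map_map]
    exact hb
  · have := h5 T
    omega

/-- the orders of the poles of the zeta function -/
theorem cl_orders (h3 : StW3) (F : MvPolynomial V ℤ)
    (hF : Cl true .ideal (hyp (map (Int.castRingHom ℚ) F)))
    (b : Polynomial ℂ) (hb0 : b ≠ 0)
    (hb : Pool.Agent.H628R4.TP.IsBFunction (map (Int.castRingHom ℂ) F) b)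
    (Z : ℂ → ℂ) (hZ : MeromorphicOn Z Set.univ)
    (hZp : ∀ s : ℂ, 0 < s.re → Z s = igusaZeta p F s) (s₀ : ℂ) :
    ((-(b.rootMultiplicity (s₀.re : ℂ) : ℤ) : ℤ) : WithTop ℤ) ≤ meromorphicOrderAt Z s₀ := by
  obtain ⟨D, P, hD0, h1, h2⟩ := cl_core_Z1 (p := p) h3 F hF
  have h3 := mero_bound p D P hD0 Z hZ (fun s hs => by
    rw [pw_real, hZp s (by simpa using hs), igusaZeta_eq, h1 s hs.le]) s₀
  refine le_trans ?_ h3
  have h4 := mult_of_tr (p := p) (map (Int.castRingHom ℚ) F) b hb0 (by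
    rw [map_map]
    exact hb) _ _ (h2 (pw p s₀) (pw_ne_zero p s₀))
  have h5 : rr p (pw p s₀) = s₀.re := pw_norm p s₀
  rw [h5] at h4
  exact_mod_cast neg_le_neg (Int.ofNat_le.2 h4)

end Pool.Agent.N138.SU
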