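import Pool.Agent.N138.SU.Stm3
import Pool.Agent.N87.SU.Fin

set_option autoImplicit false

/-! # Job W3: functional equations of `F(x) + G(y)` give microlocal functional equations of
`F(x)` -/

namespace Pool.Agent.N138.SU.W3

open MvPolynomial
open Pool.Agent.W574.SM (weyl)
open Pool.Agent.Y230.TH (W kf)

section stab

variable {σ : Type} (F : MvPolynomial σ ℂ)

lemma W_op (R : Module.End ℂ (MvPolynomial σ ℂ)) (hR : R ∈ weyl σ) (v : ℕ → MvPolynomial σ ℂ)
    (hv : v ∈ W F) : (fun k => R (v k)) ∈ W F := by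
  unfold W at hv ⊢
  induction hv using Submodule.span_induction with
  | mem v hv =>
    obtain ⟨j, e, Q, he, rfl⟩ := hv
    refine Submodule.subset_span ⟨j, e, ⟨R, hR⟩ * Q, he, ?_⟩
    funext k
    rw [map_smul]
    rfl
  | zero =>
    have h0 : (fun k => R ((0 : ℕ → MvPolynomial σ ℂ) k)) = 0 := by
      funext k
      exact map_zero R
    rw [h0]
    exact Submodule.zero_mem _
  | add u v _ _ hu hv =>
    have h0 : (fun k => R ((u + v) k)) = (fun k => R (u k)) + fun k => R (v k) := by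
      funext k
      exact map_add R _ _
    rw [h0]
    exact Submodule.add_mem _ hu hv
  | smul a v _ hv =>
    have h0 : (fun k => R ((a • v) k)) = a • fun k => R (v k) := by
      funext k
      exact map_smul R _ _
    rw [h0]
    exact Submodule.smul_mem _ a hv

lemma W_k (v : ℕ → MvPolynomial σ ℂ) (hv : v ∈ W F) : (fun k : ℕ => (k : ℂ) • v k) ∈ W F := by
  unfold W at hv ⊢
  induction hv using Submodule.span_induction with
  | mem v hv =>
    obtain ⟨j, e, Q, he, rfl⟩ := hv
    refine Submodule.subset_span ⟨j + 1, e, Q, he, ?_⟩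
    funext k
    rw [smul_smul, pow_succ', mul_assoc]
  | zero =>
    have h0 : (fun k : ℕ => (k : ℂ) • ((0 : ℕ → MvPolynomial σ ℂ) k)) = 0 := by
      funext k
      exact smul_zero _
    rw [h0]
    exact Submodule.zero_mem _
  | add u v _ _ hu hv =>
    have h0 : (fun k : ℕ => (k : ℂ) • ((u + v) k)) = (fun k : ℕ => (k : ℂ) • (u k)) +
        fun k : ℕ => (k : ℂ) • (v k) := by
      funext k
      exact smul_add _ _ _
    rw [h0]
    exact Submodule.add_mem _ hu hv
  | smul a v _ hv =>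
    have h0 : (fun k : ℕ => (k : ℂ) • ((a • v) k)) = a • fun k : ℕ => (k : ℂ) • (v k) := by
      funext k
      change (k : ℂ) • (a • v k) = a • ((k : ℂ) • v k)
      rw [smul_smul, smul_smul, mul_comm]
    rw [h0]
    exact Submodule.smul_mem _ a hv

lemma W_e (e : ℕ) (he : 1 ≤ e) :
    (fun k : ℕ => ((k.factorial : ℂ) / ((k + e).factorial : ℂ)) • F ^ (k + e)) ∈ W F := by
  unfold W
  refine Submodule.subset_span ⟨0, e, 1, he, ?_⟩
  funext k
  rw [pow_zero, one_mul]
  rfl

lemma X_mem (i : σ) : LinearMap.mulLeft ℂ (X i : MvPolynomial σ ℂ) ∈ weyl σ :=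
  Algebra.subset_adjoin (Or.inl ⟨i, rfl⟩)

lemma D_mem (i : σ) : ((pderiv i : Derivation ℂ (MvPolynomial σ ℂ) (MvPolynomial σ ℂ)) :
    MvPolynomial σ ℂ →ₗ[ℂ] MvPolynomial σ ℂ) ∈ weyl σ :=
  Algebra.subset_adjoin (Or.inr ⟨i, rfl⟩)

end stab

theorem t : StW3 := by
  intro σ τ _ hn F G w D _ hD hG L hL hL1 b hb
  obtain ⟨b', hb', h⟩ := Pool.Agent.N87.SU.core F hn hD hG hL hL1 b hb
  refine ⟨b', hb', h (W F) ?_ ?_ (W_k F) (W_e F)⟩
  · intro i v hv
    exact W_op F _ (X_mem i) v hv
  · intro i v hv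
    exact W_op F _ (D_mem i) v hv

end Pool.Agent.N138.SU.W3
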