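import Pool.Agent.N316.SU.Com

set_option autoImplicit false

/-! # Job B1: the exponential sums from the integrals of the characters -/

namespace Pool.Agent.N138.SU.B1

open MeasureTheory
open Pool.Agent.W427.SMC
open Pool.Agent.N138.SU
open Pool.Agent.N316.SU
open Pool.Agent.Y230.PS (EP sft sft_apply K of_sft N0 N0_EP mem_N0)

attribute [local instance] msZ bsZ

/-! ## shifts -/

theorem EP_unshift (m : ℂ → ℕ∞) (d : ℕ → ℂ) (hd : d ∈ EP m) : ∃ c ∈ EP m, sft c = d := by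
  induction hd using Submodule.span_induction with
  | mem d h =>
    obtain ⟨T, hT, n, hn, hc⟩ := h
    refine ⟨fun e => if e = 0 then 0 else d (e - 1), ?_, ?_⟩
    · refine Submodule.subset_span ⟨T, hT, n, hn, of_sft _ _ _ ?_⟩
      have : sft (fun e => if e = 0 then 0 else d (e - 1)) = d := by
        funext e
        rw [sft_apply, if_neg (Nat.succ_ne_zero e), Nat.add_sub_cancel]
      rw [this]
      exact hc
    · funext e
      rw [sft_apply, if_neg (Nat.succ_ne_zero e), Nat.add_sub_cancel]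
  | zero => exact ⟨0, Submodule.zero_mem _, map_zero _⟩
  | add d d' _ _ h h' =>
    obtain ⟨c, hc, rfl⟩ := h
    obtain ⟨c', hc', rfl⟩ := h'
    exact ⟨c + c', Submodule.add_mem _ hc hc', map_add _ _ _⟩
  | smul a d _ h =>
    obtain ⟨c, hc, rfl⟩ := h
    exact ⟨a • c, Submodule.smul_mem _ _ hc, map_smul _ _ _⟩

theorem EP_of_sft (m : ℂ → ℕ∞) (c : ℕ → ℂ) (hc : sft c ∈ EP m) : c ∈ EP m := by
  obtain ⟨c', hc', h⟩ := EP_unshift m _ hc
  have h1 : c - c' ∈ N0 := by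
    refine ⟨1, fun e he => ?_⟩
    obtain ⟨k, rfl⟩ : ∃ k, e = k + 1 := ⟨e - 1, by omega⟩
    have h2 := congrFun h k
    rw [sft_apply, sft_apply] at h2
    rw [Pi.sub_apply, h2, sub_self]
  have h3 : c = (c - c') + c' := by rw [sub_add_cancel]
  rw [h3]
  exact Submodule.add_mem _ (N0_EP m h1) hc'

theorem EP_of_shift (m : ℂ → ℕ∞) (k : ℕ) : ∀ c : ℕ → ℂ, (fun e => c (e + k)) ∈ EP m → c ∈ EP m := by
  induction k with
  | zero => exact fun c h => h
  | succ k ih =>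
    intro c h
    refine EP_of_sft m c (ih _ ?_)
    have : (fun e => sft c (e + k)) = fun e => c (e + (k + 1)) := rfl
    rw [this]
    exact h

/-! ## Gauss sums -/

variable {p : ℕ} [Fact p.Prime]

/-- the Gauss sums -/
noncomputable def G (χ : UC p) (e : ℕ) (t : ℤ_[p]) : ℂ := ∫ u, cx χ u * psi p e (u * t) ∂(mu p)

theorem cont_int (χ : UC p) (e : ℕ) (t : ℤ_[p]) :
    Continuous fun u : ℤ_[p] => cx χ u * psi p e (u * t) :=
  (cx_cont χ).mul ((psi_cont e).comp (continuous_id.mul continuous_const))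

theorem int_cont (f : ℤ_[p] → ℂ) (hf : Continuous f) : Integrable f (mu p) :=
  hf.integrable_of_hasCompactSupport (HasCompactSupport.of_compactSpace f)

theorem G_mul (χ : UC p) (e : ℕ) (t v : ℤ_[p]) (hv : ‖v‖ = 1) :
    G χ e (t * v) = χ.X (v : ℚ_[p]) * G χ e t := by
  have h1 : G χ e t = (starRingEnd ℂ) (χ.X (v : ℚ_[p])) * G χ e (t * v) := by
    unfold G
    rw [← int_mul v hv _ (cont_int χ e t), ← integral_const_mul]
    refine integral_congr_ae (Filter.Eventually.of_forall fun u => ?_)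
    simp only
    rw [cx_mul χ u v hv, mul_assoc, show v * u * t = u * (t * v) by ring]
  rw [h1, ← mul_assoc, mul_comm (χ.X _), X_conj χ v hv, one_mul]

theorem G_congr (χ : UC p) (e : ℕ) (t t' : ℤ_[p]) (h : ‖t' - t‖ ≤ ((p : ℝ)⁻¹) ^ e) :
    G χ e t' = G χ e t := by
  unfold G
  refine integral_congr_ae (Filter.Eventually.of_forall fun u => ?_)
  simp only
  rw [psi_congr e (u * t') (u * t)]
  rw [← mul_sub, norm_mul]
  calc ‖u‖ * ‖t' - t‖ ≤ 1 * ‖t' - t‖ := by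
        gcongr
        exact PadicInt.norm_le_one _
    _ ≤ _ := by rw [one_mul]; exact h

theorem G_zero_of (χ : UC p) (e : ℕ) (t v : ℤ_[p]) (hv : ‖v‖ = 1) (hχ : χ.X (v : ℚ_[p]) ≠ 1)
    (h : ‖t‖ * ‖v - 1‖ ≤ ((p : ℝ)⁻¹) ^ e) : G χ e t = 0 := by
  have h1 := G_mul χ e t v hv
  rw [G_congr χ e t (t * v) (by
    rw [show t * v - t = t * (v - 1) by ring, norm_mul]
    exact h)] at h1
  have h2 : (χ.X (v : ℚ_[p]) - 1) * G χ e t = 0 := by
    rw [sub_mul, one_mul, ← h1, sub_self]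
  exact (mul_eq_zero.1 h2).resolve_left (sub_ne_zero.2 hχ)

/-- the sum over the residues vanishes -/
theorem sum_psi (e : ℕ) (s : ℤ_[p]) (hs : ‖s‖ = ((p : ℝ)⁻¹) ^ e) :
    ∑ w ∈ Finset.range p, psi p (e + 1) (s * w) = 0 := by
  have h1 : ∀ w : ℕ, psi p (e + 1) (s * w) = psi p (e + 1) s ^ w := by
    intro w
    rw [mul_comm, psi_nsmul]
  simp only [h1]
  have h2 : psi p (e + 1) s ≠ 1 := by
    rw [Ne, psi_eq_one_iff, hs, not_le]
    exact pow_lt_pow_right_of_lt_one₀ ppos plt (Nat.lt_succ_self e)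
  rw [geom_sum_eq h2]
  have h3 : psi p (e + 1) s ^ p = 1 := by
    rw [← psi_nsmul]
    refine psi_eq_one _ _ ?_
    rw [norm_mul, norm_p, hs, pow_succ, mul_comm]
  rw [h3, sub_self, zero_div]

/-- large arguments -/
theorem G_large (χ : UC p) (c : ℕ) (hc : 1 ≤ c)
    (hχ : ∀ x : ℤ_[p], ‖x - 1‖ ≤ ((p : ℝ)⁻¹) ^ c → χ.X (x : ℚ_[p]) = 1) (k n : ℕ) (hn : c ≤ n)
    (t : ℤ_[p]) (ht : ‖t‖ = ((p : ℝ)⁻¹) ^ k) : G χ (k + n + 1) t = 0 := by
  have h1 : ∀ w : ℕ, G χ (k + n + 1) t = ∫ u, cx χ u * psi p (k + n + 1) (u * t) *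
      psi p (k + n + 1) (u * t * (p : ℤ_[p]) ^ n * w) ∂(mu p) := by
    intro w
    have h2 : ‖(1 + (p : ℤ_[p]) ^ n * w) - 1‖ ≤ ((p : ℝ)⁻¹) ^ n := by
      rw [add_sub_cancel_left, norm_le_iff]
      exact dvd_mul_right _ _
    have h3 : ‖(1 + (p : ℤ_[p]) ^ n * w)‖ = 1 := norm_eq_one_of_near _ n (by omega) h2
    have h4 := G_mul χ (k + n + 1) t _ h3
    rw [hχ _ (h2.trans (pow_le_pow_of_le_one ppos.le plt.le hn)), one_mul] at h4
    rw [← h4]
    unfold G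
    refine integral_congr_ae (Filter.Eventually.of_forall fun u => ?_)
    simp only
    rw [mul_assoc, ← psi_add]
    congr 2
    ring
  have h2 : (p : ℂ) * G χ (k + n + 1) t = 0 := by
    have h3 : ∑ w ∈ Finset.range p, G χ (k + n + 1) t = (p : ℂ) * G χ (k + n + 1) t := by
      rw [Finset.sum_const, Finset.card_range, nsmul_eq_mul]
    rw [← h3]
    have h4 : ∀ w ∈ Finset.range p, G χ (k + n + 1) t = ∫ u, cx χ u * psi p (k + n + 1) (u * t) *
      psi p (k + n + 1) (u * t * (p : ℤ_[p]) ^ n * w) ∂(mu p) := fun w _ => h1 w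
    rw [Finset.sum_congr rfl h4, ← integral_finsetSum]
    · have h5 : ∀ u : ℤ_[p], ∑ w ∈ Finset.range p, cx χ u * psi p (k + n + 1) (u * t) *
          psi p (k + n + 1) (u * t * (p : ℤ_[p]) ^ n * w) = 0 := by
        intro u
        rw [← Finset.mul_sum]
        by_cases hu : ‖u‖ = 1
        · rw [sum_psi (k + n) (u * t * (p : ℤ_[p]) ^ n), mul_zero]
          rw [norm_mul, norm_mul, norm_pow, norm_p, hu, ht, one_mul, pow_add]
        · rw [cx_not χ u hu, zero_mul, zero_mul]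
      simp only [h5, integral_zero]
    · intro w _
      refine int_cont _ ?_
      refine (cont_int χ _ t).mul ((psi_cont _).comp ?_)
      exact ((continuous_id.mul continuous_const).mul continuous_const).mul continuous_const
  exact (mul_eq_zero.1 h2).resolve_left (by exact_mod_cast (Fact.out : p.Prime).ne_zero)

theorem norm_eq_pow (t : ℤ_[p]) (ht : t ≠ 0) : ∃ k : ℕ, ‖t‖ = ((p : ℝ)⁻¹) ^ k := by
  refine ⟨t.valuation, ?_⟩
  rw [PadicInt.norm_eq_zpow_neg_valuation ht, inv_pow, zpow_neg, zpow_natCast]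

theorem eq_pow_mul (t : ℤ_[p]) (k : ℕ) (ht : ‖t‖ = ((p : ℝ)⁻¹) ^ k) :
    ∃ t0 : ℤ_[p], ‖t0‖ = 1 ∧ t = (p : ℤ_[p]) ^ k * t0 := by
  obtain ⟨t0, h0⟩ := (norm_le_iff t k).1 ht.le
  refine ⟨t0, ?_, h0⟩
  rw [h0, norm_mul, norm_pow, norm_p] at ht
  have h1 : ((p : ℝ)⁻¹) ^ k ≠ 0 := (pow_pos ppos k).ne'
  exact mul_left_cancel₀ h1 (by rw [ht, mul_one])

/-- **the Gauss sums** -/
theorem G_eq (χ : UC p) (c : ℕ) (hc : 1 ≤ c)
    (hχ : ∀ x : ℤ_[p], ‖x - 1‖ ≤ ((p : ℝ)⁻¹) ^ c → χ.X (x : ℚ_[p]) = 1)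
    (v : ℤ_[p]) (hv : ‖v‖ = 1) (hv1 : ‖v - 1‖ ≤ ((p : ℝ)⁻¹) ^ (c - 1)) (hvχ : χ.X (v : ℚ_[p]) ≠ 1)
    (e : ℕ) (t : ℤ_[p]) :
    G χ (e + c) t = if ‖t‖ = ((p : ℝ)⁻¹) ^ e then χ.X (t : ℚ_[p]) * G χ c 1 else 0 := by
  split_ifs with h
  · obtain ⟨t0, h0, rfl⟩ := eq_pow_mul t e h
    rw [G_mul χ _ _ t0 h0, X_mul, PadicInt.coe_pow, PadicInt.coe_natCast, map_pow, χ.one, one_pow,
      one_mul]
    congr 1
    unfold G
    refine integral_congr_ae (Filter.Eventually.of_forall fun u => ?_)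
    simp only
    rw [mul_comm u ((p : ℤ_[p]) ^ e), add_comm e c, psi_scale, mul_one]
  · by_cases ht : t = 0
    · refine G_zero_of χ _ t v hv hvχ ?_
      rw [ht, norm_zero, zero_mul]
      exact (pow_pos ppos _).le
    · obtain ⟨k, hk⟩ := norm_eq_pow t ht
      have hke : k ≠ e := by
        rintro rfl
        exact h hk
      rcases lt_or_gt_of_ne hke with h1 | h1
      · obtain ⟨n, hn⟩ : ∃ n, e + c = k + n + 1 := ⟨e + c - k - 1, by omega⟩
        rw [hn]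
        exact G_large χ c hc hχ k n (by omega) t hk
      · refine G_zero_of χ _ t v hv hvχ ?_
        rw [hk]
        calc ((p : ℝ)⁻¹) ^ k * ‖v - 1‖ ≤ ((p : ℝ)⁻¹) ^ k * ((p : ℝ)⁻¹) ^ (c - 1) := by
              gcongr
          _ = ((p : ℝ)⁻¹) ^ (k + (c - 1)) := by rw [pow_add]
          _ ≤ _ := pow_le_pow_of_le_one ppos.le plt.le (by omega)

/-! ## Fubini -/

variable {Y : Type} [MeasurableSpace Y] (ν : Measure Y) [IsProbabilityMeasure ν] (φ : Y → ℤ_[p])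

theorem fub (hφ : Measurable φ) (χ : UC p) (e : ℕ) : Eh ν φ χ e = ∫ y, G χ e (φ y) ∂ν := by
  unfold Eh
  rw [int_un]
  have h1 : ∀ u : ℤ_[p], cx χ u * Es ν φ e u = ∫ y, cx χ u * psi p e (u * φ y) ∂ν := by
    intro u
    unfold Es
    rw [integral_const_mul]
  simp only [h1]
  unfold G
  rw [integral_integral_swap]
  have hm : Measurable (fun z : ℤ_[p] × Y => cx χ z.1 * psi p e (z.1 * φ z.2)) := by
    refine ((cx_cont χ).measurable.comp measurable_fst).mul ((psi_cont e).measurable.comp ?_)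
    exact measurable_fst.mul (hφ.comp measurable_snd)
  refine Integrable.of_bound hm.aestronglyMeasurable 1 (Filter.Eventually.of_forall fun z => ?_)
  simp only [Function.uncurry]
  rw [norm_mul, psi_norm, mul_one]
  exact cx_norm χ _

theorem t (hT : StB1t) : StB1 := by
  intro p _ Y _ ν _ φ hφ m hU hV χ
  by_cases htr : χ.IsTr
  · refine EP_of_sft m _ ?_
    have h1 : sft (fun e => Eh ν φ χ e) = (p : ℂ)⁻¹ • (fun e : ℕ => (p : ℂ) * Uo ν φ (e + 1) - Uo ν φ e) := by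
      funext e
      rw [sft_apply, Pi.smul_apply, ← hT p ν φ hφ χ htr e, smul_eq_mul, ← mul_assoc,
        inv_mul_cancel₀ (by exact_mod_cast (Fact.out : p.Prime).ne_zero), one_mul]
    rw [h1]
    exact Submodule.smul_mem _ _ hU
  · classical
    have hex : ∃ c : ℕ, 1 ≤ c ∧ ∀ x : ℤ_[p], ‖x - 1‖ ≤ ((p : ℝ)⁻¹) ^ c → χ.X (x : ℚ_[p]) = 1 :=
      ⟨χ.c, χ.hc, X_near χ⟩
    obtain ⟨hc, hχ⟩ := Nat.find_spec hex
    have hmin := fun {k : ℕ} => Nat.find_min hex (m := k)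
    set c := Nat.find hex with hcdef
    obtain ⟨v, hv, hv1, hvχ⟩ : ∃ v : ℤ_[p], ‖v‖ = 1 ∧ ‖v - 1‖ ≤ ((p : ℝ)⁻¹) ^ (c - 1) ∧
        χ.X (v : ℚ_[p]) ≠ 1 := by
      by_cases h1 : c = 1
      · unfold UC.IsTr at htr
        push Not at htr
        obtain ⟨u, hu, hu1⟩ := htr
        refine ⟨⟨u, hu.le⟩, hu, ?_, hu1⟩
        rw [h1, Nat.sub_self, pow_zero]
        exact PadicInt.norm_le_one _
      · have h2 := hmin (k := c - 1) (by omega)
        push Not at h2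
        obtain ⟨x, hx, hx1⟩ := h2 (by omega)
        exact ⟨x, norm_eq_one_of_near x (c - 1) (by omega) hx, hx, hx1⟩
    refine EP_of_shift m c _ ?_
    have h1 : (fun e => Eh ν φ χ (e + c)) = (G χ c 1) • (fun k : ℕ => Vx ν φ χ k) := by
      funext e
      rw [Pi.smul_apply, fub ν φ hφ, smul_eq_mul]
      unfold Vx
      have hms : MeasurableSet {y : Y | ‖φ y‖ = ((p : ℝ)⁻¹) ^ e} := by
        have : {y : Y | ‖φ y‖ = ((p : ℝ)⁻¹) ^ e} = (fun y => ‖φ y‖) ⁻¹' {((p : ℝ)⁻¹) ^ e} := rfl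
        rw [this]
        exact (continuous_norm.measurable.comp hφ) (measurableSet_singleton _)
      rw [← integral_indicator hms, ← integral_const_mul]
      refine integral_congr_ae (Filter.Eventually.of_forall fun y => ?_)
      simp only
      rw [G_eq χ c hc hχ v hv hv1 hvχ]
      by_cases hy : ‖φ y‖ = ((p : ℝ)⁻¹) ^ e
      · rw [if_pos hy, Set.indicator_of_mem (show y ∈ {y : Y | ‖φ y‖ = ((p : ℝ)⁻¹) ^ e} from hy),
          mul_comm]
      · rw [if_neg hy, Set.indicator_of_notMem (show y ∉ {y : Y | ‖φ y‖ = ((p : ℝ)⁻¹) ^ e} from hy),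
          mul_zero]
    rw [h1]
    exact Submodule.smul_mem _ _ (hV χ htr)

end Pool.Agent.N138.SU.B1
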