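import Pool.Agent.N138.SU.Stm

set_option autoImplicit false

/-! # The component of the trivial character of the exponential sums -/

namespace Pool.Agent.N138.SU.B1T

open MeasureTheory
open Pool.Agent.W427.SMC
open scoped ENNReal

attribute [local instance] msZ bsZ

section

variable (p : ℕ) [Fact p.Prime]

theorem psi_add (e : ℕ) (x y : ℤ_[p]) : psi p e (x + y) = psi p e x * psi p e y := by
  have : NeZero (p ^ e) := ⟨pow_ne_zero e (Fact.out : p.Prime).ne_zero⟩
  unfold psi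
  rw [map_add]
  exact AddChar.map_add_eq_mul _ _ _

theorem psi_norm (e : ℕ) (x : ℤ_[p]) : ‖psi p e x‖ = 1 := by
  have : NeZero (p ^ e) := ⟨pow_ne_zero e (Fact.out : p.Prime).ne_zero⟩
  exact AddChar.norm_apply _ _

theorem psi_eq_one_iff (e : ℕ) (x : ℤ_[p]) : psi p e x = 1 ↔ ‖x‖ ≤ ((p : ℝ)⁻¹) ^ e := by
  have : NeZero (p ^ e) := ⟨pow_ne_zero e (Fact.out : p.Prime).ne_zero⟩
  have h1 : psi p e x = 1 ↔ PadicInt.toZModPow e x = 0 := by
    unfold psi
    rw [← AddChar.map_zero_eq_one (ZMod.stdAddChar (N := p ^ e))]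
    exact ZMod.injective_stdAddChar.eq_iff
  rw [h1, ← RingHom.mem_ker, PadicInt.ker_toZModPow, ← PadicInt.norm_le_pow_iff_mem_span_pow,
    inv_pow, zpow_neg, zpow_natCast]

theorem psi_cont (e : ℕ) : Continuous (psi p e) := by
  rw [continuous_iff_continuousAt]
  intro x
  have hpos : (0 : ℝ) < ((p : ℝ)⁻¹) ^ e :=
    pow_pos (inv_pos.2 (by exact_mod_cast (Fact.out : p.Prime).pos)) _
  have h1 : psi p e =ᶠ[nhds x] fun _ => psi p e x := by
    filter_upwards [Metric.ball_mem_nhds x hpos] with y hy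
    have h2 : psi p e (y - x) = 1 := by
      rw [psi_eq_one_iff]
      rw [Metric.mem_ball, dist_eq_norm] at hy
      exact hy.le
    have h3 := psi_add p e x (y - x)
    rw [h2, mul_one, add_sub_cancel] at h3
    exact h3
  exact continuousAt_const.congr h1.symm

theorem psi_meas (e : ℕ) : Measurable (psi p e) := (psi_cont p e).measurable

theorem psi_int (e : ℕ) (t : ℤ_[p]) : Integrable (fun u : ℤ_[p] => psi p e (u * t)) (mu p) := by
  refine Integrable.of_bound (C := 1) ?_ ?_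
  · exact ((psi_cont p e).comp (continuous_id.mul continuous_const)).measurable.aestronglyMeasurable
  · exact Filter.Eventually.of_forall fun u => (psi_norm p e _).le

/-- the integral of an additive character -/
theorem J_eq (e : ℕ) (t : ℤ_[p]) : ∫ u, psi p e (u * t) ∂(mu p) =
    if ‖t‖ ≤ ((p : ℝ)⁻¹) ^ e then 1 else 0 := by
  split_ifs with h
  · have h1 : ∀ u : ℤ_[p], psi p e (u * t) = 1 := by
      intro u
      rw [psi_eq_one_iff]
      calc ‖u * t‖ = ‖u‖ * ‖t‖ := norm_mul _ _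
        _ ≤ 1 * ‖t‖ := mul_le_mul_of_nonneg_right (PadicInt.norm_le_one u) (norm_nonneg _)
        _ ≤ _ := by rw [one_mul]; exact h
    simp only [h1, integral_const, probReal_univ, one_smul]
  · have h1 : psi p e t ≠ 1 := fun h' => h ((psi_eq_one_iff p e t).1 h')
    have h2 : ∫ u, psi p e ((1 + u) * t) ∂(mu p) = ∫ u, psi p e (u * t) ∂(mu p) :=
      integral_add_left_eq_self (fun u => psi p e (u * t)) (1 : ℤ_[p])
    have h3 : ∀ u : ℤ_[p], psi p e ((1 + u) * t) = psi p e t * psi p e (u * t) := by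
      intro u
      rw [add_mul, one_mul, psi_add]
    simp only [h3] at h2
    rw [integral_const_mul] at h2
    have h4 : (psi p e t - 1) * ∫ u, psi p e (u * t) ∂(mu p) = 0 := by
      rw [sub_mul, one_mul, h2, sub_self]
    rcases mul_eq_zero.1 h4 with h5 | h5
    · exact absurd (sub_eq_zero.1 h5) h1
    · exact h5

/-- the multiples of `p` -/
def mx : Set ℤ_[p] := {z | (p : ℤ_[p]) ∣ z}

theorem mx_eq : mx p = {z : ℤ_[p] | ‖z‖ < 1} := by
  ext z; exact PadicInt.norm_lt_one_iff_dvd z |>.symm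

theorem mx_meas : MeasurableSet (mx p) := by
  rw [mx_eq]
  exact (isOpen_lt continuous_norm continuous_const).measurableSet

theorem un_eq : un p = (mx p)ᶜ := by
  rw [mx_eq]
  ext z
  simp only [un, Set.mem_ofPred_eq, Set.mem_compl_iff, not_lt]
  exact ⟨fun h => h.ge, fun h => le_antisymm (PadicInt.norm_le_one z) h⟩

theorem un_meas : MeasurableSet (un p) := by
  rw [un_eq]
  exact (mx_meas p).compl

theorem lint_mx (g : ℤ_[p] → ℝ≥0∞) (hg : Measurable g) :
    ∫⁻ z in mx p, g z ∂(mu p) = (p : ℝ≥0∞)⁻¹ * ∫⁻ z, g ((p : ℤ_[p]) * z) ∂(mu p) := by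
  classical
  rw [← lintegral_indicator (mx_meas p), lintegral_sm p 1 _ (hg.indicator (mx_meas p)), sm]
  have h1 : ∀ w : ℕ, ∫⁻ z, (mx p).indicator g ((w : ℤ_[p]) + (p : ℤ_[p]) ^ 1 * z) ∂(mu p) =
      if p ∣ w then ∫⁻ z, g ((w : ℤ_[p]) + (p : ℤ_[p]) ^ 1 * z) ∂(mu p) else 0 := by
    intro w
    have h2 : ∀ z : ℤ_[p], ((w : ℤ_[p]) + (p : ℤ_[p]) ^ 1 * z) ∈ mx p ↔ p ∣ w := by
      intro z
      rw [mx, Set.mem_ofPred_eq, ← p_dvd_natCast p w, pow_one]
      exact dvd_add_left ⟨z, by ring⟩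
    split_ifs with h
    · refine lintegral_congr fun z => ?_
      exact Set.indicator_of_mem ((h2 z).2 h) g
    · rw [lintegral_congr (g := fun _ => 0), lintegral_zero]
      intro z
      exact Set.indicator_of_notMem (fun h' => h ((h2 z).1 h')) g
  simp only [h1]
  rw [sum_val p 1 (fun w => ((p : ℝ≥0∞)⁻¹) ^ 1 *
    if p ∣ w then ∫⁻ z, g ((w : ℤ_[p]) + (p : ℤ_[p]) ^ 1 * z) ∂(mu p) else 0)]
  rw [Finset.sum_eq_single 0]
  · simp
  · intro w hw hw0
    rw [if_neg, mul_zero]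
    intro h
    rw [pow_one, Finset.mem_range] at hw
    exact absurd (Nat.le_of_dvd (by omega) h) (by omega)
  · intro h
    exact absurd (Finset.mem_range.2 (pow_pos (Fact.out : p.Prime).pos _)) h

/-- the Haar measure of the multiples of `p` -/
theorem restrict_mx : (mu p).restrict (mx p) =
    (p : ℝ≥0∞)⁻¹ • (mu p).map (fun z => (p : ℤ_[p]) * z) := by
  have hm : Measurable (fun z : ℤ_[p] => (p : ℤ_[p]) * z) :=
    (continuous_const.mul continuous_id).measurable
  refine Measure.ext_of_lintegral _ fun g hg => ?_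
  rw [lint_mx p g hg, lintegral_smul_measure, lintegral_map hg hm, smul_eq_mul]

theorem int_mx (f : ℤ_[p] → ℂ) (hf : Continuous f) :
    ∫ z in mx p, f z ∂(mu p) = (p : ℂ)⁻¹ * ∫ z, f ((p : ℤ_[p]) * z) ∂(mu p) := by
  have hm : Measurable (fun z : ℤ_[p] => (p : ℤ_[p]) * z) :=
    (continuous_const.mul continuous_id).measurable
  rw [restrict_mx, integral_smul_measure, integral_map hm.aemeasurable
    hf.measurable.aestronglyMeasurable, ENNReal.toReal_inv, ENNReal.toReal_natCast,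
    Complex.real_smul, Complex.ofReal_inv, Complex.ofReal_natCast]

/-- the integral of an additive character over the units -/
theorem I_eq (e : ℕ) (t : ℤ_[p]) : ∫ u in un p, psi p (e + 1) (u * t) ∂(mu p) =
    (if ‖t‖ ≤ ((p : ℝ)⁻¹) ^ (e + 1) then 1 else 0) -
      (p : ℂ)⁻¹ * (if ‖t‖ ≤ ((p : ℝ)⁻¹) ^ e then 1 else 0) := by
  have h1 := integral_add_compl (mx_meas p) (psi_int p (e + 1) t)
  rw [← un_eq] at h1
  rw [← J_eq p (e + 1) t, ← h1, int_mx p (fun u => psi p (e + 1) (u * t))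
    ((psi_cont p (e + 1)).comp (continuous_id.mul continuous_const))]
  have h2 : ∀ z : ℤ_[p], psi p (e + 1) ((p : ℤ_[p]) * z * t) =
      psi p (e + 1) (z * ((p : ℤ_[p]) * t)) := by
    intro z
    congr 1
    ring
  have h3 : (‖(p : ℤ_[p]) * t‖ ≤ ((p : ℝ)⁻¹) ^ (e + 1)) ↔ ‖t‖ ≤ ((p : ℝ)⁻¹) ^ e := by
    rw [norm_mul, PadicInt.norm_p, pow_succ']
    exact mul_le_mul_iff_right₀ (inv_pos.2 (by exact_mod_cast (Fact.out : p.Prime).pos))
  simp only [h2]
  rw [J_eq p (e + 1) ((p : ℤ_[p]) * t)]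
  simp only [h3]
  ring

end

theorem t : StB1t := by
  intro p _ Y _ ν _ φ hφ χ hχ e
  have hp0 : (p : ℂ) ≠ 0 := by exact_mod_cast (Fact.out : p.Prime).ne_zero
  have h1 : Eh ν φ χ (e + 1) = ∫ u in un p, ∫ y, psi p (e + 1) (u * φ y) ∂ν ∂(mu p) := by
    unfold Eh
    refine setIntegral_congr_fun (un_meas p) fun u hu => ?_
    have hu' : ‖u‖ = 1 := hu
    have h2 : χ.X (u : ℚ_[p]) = 1 := hχ _ (by
      rw [← PadicInt.norm_def]
      exact hu')
    simp only [h2, map_one, one_mul, Es]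
  have hm : Measurable (fun z : ℤ_[p] × Y => psi p (e + 1) (z.1 * φ z.2)) :=
    (psi_meas p (e + 1)).comp (measurable_fst.mul (hφ.comp measurable_snd))
  have h2 : Integrable (Function.uncurry fun (u : ℤ_[p]) (y : Y) => psi p (e + 1) (u * φ y))
      (((mu p).restrict (un p)).prod ν) := by
    refine Integrable.of_bound (C := 1) hm.aestronglyMeasurable ?_
    exact Filter.Eventually.of_forall fun z => (psi_norm p (e + 1) _).le
  rw [h1, integral_integral_swap h2]
  simp only [I_eq p e]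
  have hA : ∀ k : ℕ, MeasurableSet {y | ‖φ y‖ ≤ ((p : ℝ)⁻¹) ^ k} := fun k =>
    measurableSet_le (measurable_norm.comp hφ) measurable_const
  have h3 : ∀ k : ℕ, (fun y => (if ‖φ y‖ ≤ ((p : ℝ)⁻¹) ^ k then (1 : ℂ) else 0)) =
      {y | ‖φ y‖ ≤ ((p : ℝ)⁻¹) ^ k}.indicator (fun _ => (1 : ℂ)) := by
    intro k
    funext y
    rw [Set.indicator_apply]
    rfl
  have h4 : ∀ k : ℕ, ∫ y, (if ‖φ y‖ ≤ ((p : ℝ)⁻¹) ^ k then (1 : ℂ) else 0) ∂ν = Uo ν φ k := by
    intro k
    rw [h3, integral_indicator (hA k), setIntegral_const, Uo]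
    simp [Measure.real]
  have h5 : ∀ k : ℕ, Integrable (fun y => (if ‖φ y‖ ≤ ((p : ℝ)⁻¹) ^ k then (1 : ℂ) else 0)) ν := by
    intro k
    rw [h3]
    exact (integrable_const _).indicator (hA k)
  rw [integral_sub (h5 _) ((h5 _).const_mul _), integral_const_mul, h4, h4]
  field_simp

end Pool.Agent.N138.SU.B1T
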