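import Pool.Agent.N138.SU.Stm2

set_option autoImplicit false

/-! # Job EP: the Cauchy product of exponential polynomials (helper773) -/

namespace Pool.Agent.N138.SU.EP

open Polynomial Pool.Agent.Y230.PS

theorem ser_cauchy (c d : ℕ → ℂ) :
    ser (fun k : ℕ => ∑ i ∈ Finset.range (k + 1), c i * d (k - i)) = ser c * ser d := by
  ext e
  rw [coeff_ser, PowerSeries.coeff_mul]
  simp only [coeff_ser]
  rw [Finset.Nat.sum_antidiagonal_eq_sum_range_succ (fun i j => c i * d j)]

theorem t : StEP := by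
  intro m1 m2 m3 c d hm hc hd
  obtain ⟨D1, P1, h1, e1, r1⟩ := EP_rat m1 c hc
  obtain ⟨D2, P2, h2, e2, r2⟩ := EP_rat m2 d hd
  refine rat_EP m3 (D1 * D2) (mul_ne_zero h1 h2) _ (P1 * P2) ?_ ?_
  · rw [ser_cauchy, Polynomial.coe_mul, Polynomial.coe_mul, ← e1, ← e2]
    ring
  · intro T hT
    rw [rootMultiplicity_mul (mul_ne_zero h1 h2)]
    push_cast
    exact (add_le_add (r1 T hT) (r2 T hT)).trans (hm T hT)

end Pool.Agent.N138.SU.EP
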