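import Pool.Agent.N138.SU.Stm2
import Pool.Agent.N138.SU.B1

set_option autoImplicit false

/-! # Job G: the Gauss sum does not vanish -/

namespace Pool.Agent.N138.SU.G

open MeasureTheory
open Pool.Agent.W427.SMC
open Pool.Agent.N138.SU
open Pool.Agent.N316.SU
open Pool.Agent.N138.SU.B1

attribute [local instance] msZ bsZ

variable {p : ℕ} [Fact p.Prime]

/-- the sum over the residues -/
theorem sum_res (c : ℕ) (x : ℤ_[p]) : ∑ t ∈ Finset.range (p ^ c), psi p c (x * t) =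
    if ‖x‖ ≤ ((p : ℝ)⁻¹) ^ c then (p : ℂ) ^ c else 0 := by
  have h1 : ∀ t : ℕ, psi p c (x * t) = psi p c x ^ t := by
    intro t
    rw [mul_comm, psi_nsmul]
  simp only [h1]
  split_ifs with h
  · rw [psi_eq_one c x h]
    simp
  · have h2 : psi p c x ≠ 1 := by
      rw [Ne, psi_eq_one_iff]
      exact h
    rw [geom_sum_eq h2]
    have h3 : psi p c x ^ (p ^ c) = 1 := by
      rw [← psi_nsmul]
      refine psi_eq_one _ _ ?_
      rw [norm_le_iff, Nat.cast_pow]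
      exact dvd_mul_right _ _
    rw [h3, sub_self, zero_div]

/-- the ball around `1` -/
def bl (p : ℕ) [Fact p.Prime] (c : ℕ) : Set ℤ_[p] := {u | ‖u - 1‖ ≤ ((p : ℝ)⁻¹) ^ c}

theorem bl_meas (c : ℕ) : MeasurableSet (bl p c) :=
  (isClosed_le (continuous_id.sub continuous_const).norm continuous_const).measurableSet

theorem bl_pos (c : ℕ) : 0 < (mu p) (bl p c) := by
  have h1 : Metric.ball (1 : ℤ_[p]) (((p : ℝ)⁻¹) ^ c) ⊆ bl p c := by
    intro u hu
    rw [Metric.mem_ball, dist_eq_norm] at hu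
    exact hu.le
  exact (Metric.measure_ball_pos (mu p) (1 : ℤ_[p]) (pow_pos ppos c)).trans_le (measure_mono h1)

/-- **the Gauss sum does not vanish** -/
theorem G_ne (χ : UC p) (c : ℕ) (hc : 1 ≤ c)
    (hχ : ∀ x : ℤ_[p], ‖x - 1‖ ≤ ((p : ℝ)⁻¹) ^ c → χ.X (x : ℚ_[p]) = 1)
    (v : ℤ_[p]) (hv : ‖v‖ = 1) (hv1 : ‖v - 1‖ ≤ ((p : ℝ)⁻¹) ^ (c - 1))
    (hvχ : χ.X (v : ℚ_[p]) ≠ 1) : G χ c 1 ≠ 0 := by
  intro h0
  have h1 : ∀ t : ℤ_[p], G χ c t = 0 := by
    intro t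
    have h2 := G_eq χ c hc hχ v hv hv1 hvχ 0 t
    rw [zero_add, h0, mul_zero, ite_self] at h2
    exact h2
  have h2 : ∑ t ∈ Finset.range (p ^ c), psi p c (-(t : ℤ_[p])) * G χ c t = 0 := by
    refine Finset.sum_eq_zero fun t _ => ?_
    rw [h1, mul_zero]
  have h3 : ∑ t ∈ Finset.range (p ^ c), psi p c (-(t : ℤ_[p])) * G χ c t =
      ∫ u, (bl p c).indicator (fun _ => (p : ℂ) ^ c) u ∂(mu p) := by
    have h4 : ∀ t ∈ Finset.range (p ^ c), psi p c (-(t : ℤ_[p])) * G χ c t =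
        ∫ u, psi p c (-(t : ℤ_[p])) * (cx χ u * psi p c (u * t)) ∂(mu p) := by
      intro t _
      unfold G
      rw [integral_const_mul]
    rw [Finset.sum_congr rfl h4, ← integral_finsetSum]
    · refine integral_congr_ae (Filter.Eventually.of_forall fun u => ?_)
      have h5 : ∑ t ∈ Finset.range (p ^ c), psi p c (-(t : ℤ_[p])) *
          (cx χ u * psi p c (u * t)) =
          cx χ u * ∑ t ∈ Finset.range (p ^ c), psi p c ((u - 1) * t) := by
        rw [Finset.mul_sum]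
        refine Finset.sum_congr rfl fun t _ => ?_
        rw [show (u - 1) * (t : ℤ_[p]) = -(t : ℤ_[p]) + u * t by ring, psi_add]
        ring
      simp only
      rw [h5, sum_res]
      by_cases hu : ‖u - 1‖ ≤ ((p : ℝ)⁻¹) ^ c
      · rw [if_pos hu, Set.indicator_of_mem (show u ∈ bl p c from hu),
          cx_unit χ u (norm_eq_one_of_near u c hc hu), hχ u hu, map_one, one_mul]
      · rw [if_neg hu, Set.indicator_of_notMem (show u ∉ bl p c from hu), mul_zero]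
    · intro t _
      exact int_cont _ (continuous_const.mul (cont_int χ c t))
  rw [h2, integral_indicator (bl_meas c), setIntegral_const] at h3
  have h6 : (mu p).real (bl p c) ≠ 0 := by
    rw [Measure.real, Ne, ENNReal.toReal_eq_zero_iff, not_or]
    exact ⟨(bl_pos c).ne', measure_ne_top _ _⟩
  have h7 : (p : ℂ) ^ c ≠ 0 := pow_ne_zero c (by exact_mod_cast (Fact.out : p.Prime).ne_zero)
  exact smul_ne_zero h6 h7 h3.symm

theorem t : StG := by
  intro p _ χ htr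
  classical
  have hex : ∃ c : ℕ, 1 ≤ c ∧ ∀ x : ℤ_[p], ‖x - 1‖ ≤ ((p : ℝ)⁻¹) ^ c → χ.X (x : ℚ_[p]) = 1 :=
    ⟨χ.c, χ.hc, X_near χ⟩
  obtain ⟨hc, hχ⟩ := Nat.find_spec hex
  have hmin := fun {k : ℕ} => Nat.find_min hex (m := k)
  set c := Nat.find hex with hcdef
  obtain ⟨v, hv, hv1, hvχ⟩ : ∃ v : ℤ_[p], ‖v‖ = 1 ∧ ‖v - 1‖ ≤ ((p : ℝ)⁻¹) ^ (c - 1) ∧
      χ.X (v : ℚ_[p]) ≠ 1 := by
    by_cases h1 : c = 1
    · unfold UC.IsTr at htr
      push Not at htr
      obtain ⟨u, hu, hu1⟩ := htr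
      refine ⟨⟨u, hu.le⟩, hu, ?_, hu1⟩
      rw [h1, Nat.sub_self, pow_zero]
      exact PadicInt.norm_le_one _
    · have h2 := hmin (k := c - 1) (by omega)
      push Not at h2
      obtain ⟨x, hx, hx1⟩ := h2 (by omega)
      exact ⟨x, norm_eq_one_of_near x (c - 1) (by omega) hx, hx, hx1⟩
  refine ⟨c, G χ c 1, G_ne χ c hc hχ v hv hv1 hvχ, ?_⟩
  intro Y _ ν _ φ hφ e
  rw [fub ν φ hφ]
  unfold Vx
  have hms : MeasurableSet {y : Y | ‖φ y‖ = ((p : ℝ)⁻¹) ^ e} := by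
    have : {y : Y | ‖φ y‖ = ((p : ℝ)⁻¹) ^ e} = (fun y => ‖φ y‖) ⁻¹' {((p : ℝ)⁻¹) ^ e} := rfl
    rw [this]
    exact (continuous_norm.measurable.comp hφ) (measurableSet_singleton _)
  rw [← integral_indicator hms, ← integral_const_mul]
  refine integral_congr_ae (Filter.Eventually.of_forall fun y => ?_)
  simp only
  rw [G_eq χ c hc hχ v hv hv1 hvχ]
  by_cases hy : ‖φ y‖ = ((p : ℝ)⁻¹) ^ e
  · rw [if_pos hy, Set.indicator_of_mem (show y ∈ {y : Y | ‖φ y‖ = ((p : ℝ)⁻¹) ^ e} from hy),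
      mul_comm]
  · rw [if_neg hy, Set.indicator_of_notMem (show y ∉ {y : Y | ‖φ y‖ = ((p : ℝ)⁻¹) ^ e} from hy),
      mul_zero]

end Pool.Agent.N138.SU.G

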