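import Pool.Agent.N138.SU.Stm2
import Pool.Agent.N316.SU.Com

set_option autoImplicit false

/-! # Job VP: the twisted integrals of a product in disjoint sets of variables (helper773) -/

namespace Pool.Agent.N138.SU.VP

open MeasureTheory
open Pool.Agent.W427.SMC
open Pool.Agent.N316.SU

attribute [local instance] msZ bsZ

variable {p : ℕ} [Fact p.Prime]

theorem X_close (χ : UC p) {x y : ℤ_[p]} (hx : x ≠ 0) (h : ‖y - x‖ ≤ ‖x‖ * ((p : ℝ)⁻¹) ^ χ.c) :
    χ.X (y : ℚ_[p]) = χ.X (x : ℚ_[p]) := by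
  have hx' : (x : ℚ_[p]) ≠ 0 := by
    intro h0
    exact hx (PadicInt.coe_eq_zero.1 h0)
  have e : (y : ℚ_[p]) = x * (1 + (y - x) / x) := by field_simp; ring
  rw [e, map_mul, χ.tr (1 + ((y : ℚ_[p]) - x) / x), mul_one]
  rw [add_sub_cancel_left, norm_div, div_le_iff₀ (norm_pos_iff.2 hx'), mul_comm]
  exact_mod_cast h

theorem norm_X_le (χ : UC p) (x : ℤ_[p]) : ‖χ.X (x : ℚ_[p])‖ ≤ 1 := by
  by_cases hx : x = 0
  · rw [hx, PadicInt.coe_zero, map_zero, norm_zero]; exact zero_le_one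
  · have h1 := PadicInt.unitCoeff_spec hx
    have h2 : (x : ℚ_[p]) = ((PadicInt.unitCoeff hx : ℤ_[p]) : ℚ_[p]) * (p : ℚ_[p]) ^ x.valuation := by
      have := congrArg (fun z : ℤ_[p] => (z : ℚ_[p])) h1
      simpa using this
    rw [h2, map_mul, map_pow, χ.one, one_pow, mul_one]
    exact (X_norm χ _ (PadicInt.isUnit_iff.1 (PadicInt.unitCoeff hx).isUnit)).le

theorem X_meas (χ : UC p) : Measurable fun x : ℤ_[p] => χ.X (x : ℚ_[p]) := by
  refine measurable_of_continuousOn_compl_singleton 0 ?_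
  intro x hx
  refine ContinuousAt.continuousWithinAt ?_
  have hx' : x ≠ 0 := hx
  have hr : 0 < ‖x‖ * ((p : ℝ)⁻¹) ^ χ.c := mul_pos (norm_pos_iff.2 hx') (pow_pos ppos _)
  refine ContinuousAt.congr (f := fun _ => χ.X (x : ℚ_[p])) continuousAt_const ?_
  filter_upwards [Metric.ball_mem_nhds x hr] with y hy
  rw [Metric.mem_ball, dist_eq_norm] at hy
  exact (X_close χ hx' hy.le).symm

theorem meas_set {Y : Type} [MeasurableSpace Y] {φ : Y → ℤ_[p]} (hφ : Measurable φ) (i : ℕ) :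
    MeasurableSet {y | ‖φ y‖ = ((p : ℝ)⁻¹) ^ i} :=
  measurableSet_eq_fun (continuous_norm.measurable.comp hφ) measurable_const

/-- the norms of the factors -/
theorem split (a b : ℤ_[p]) (k : ℕ) :
    ‖a * b‖ = ((p : ℝ)⁻¹) ^ k ↔ ∃ i ∈ Finset.range (k + 1), ‖a‖ = ((p : ℝ)⁻¹) ^ i ∧
      ‖b‖ = ((p : ℝ)⁻¹) ^ (k - i) := by
  constructor
  · intro h
    have hk : (0 : ℝ) < ((p : ℝ)⁻¹) ^ k := pow_pos ppos _
    have ha : a ≠ 0 := by
      rintro rfl
      rw [zero_mul, norm_zero] at h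
      exact hk.ne h
    have hb : b ≠ 0 := by
      rintro rfl
      rw [mul_zero, norm_zero] at h
      exact hk.ne h
    have h1 : ∀ c : ℤ_[p], c ≠ 0 → ‖c‖ = ((p : ℝ)⁻¹) ^ c.valuation := by
      intro c hc
      rw [PadicInt.norm_eq_zpow_neg_valuation hc, zpow_neg, zpow_natCast, inv_pow]
    rw [norm_mul, h1 a ha, h1 b hb, ← pow_add] at h
    have h2 : a.valuation + b.valuation = k :=
      (pow_right_injective₀ ppos plt.ne) h
    refine ⟨a.valuation, Finset.mem_range.2 (by omega), h1 a ha, ?_⟩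
    rw [h1 b hb]
    congr 1
    omega
  · rintro ⟨i, hi, ha, hb⟩
    rw [norm_mul, ha, hb, ← pow_add]
    congr 1
    have := Finset.mem_range.1 hi
    omega

theorem t : StVP := by
  intro p _ Y Y' _ _ ν ν' _ _ φ ρ hφ hρ χ k
  set A : ℕ → Set Y := fun i => {y | ‖φ y‖ = ((p : ℝ)⁻¹) ^ i} with hA
  set B : ℕ → Set Y' := fun i => {y | ‖ρ y‖ = ((p : ℝ)⁻¹) ^ i} with hB
  have hset : {y : Y × Y' | ‖φ y.1 * ρ y.2‖ = ((p : ℝ)⁻¹) ^ k} =
      ⋃ i ∈ Finset.range (k + 1), A i ×ˢ B (k - i) := by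
    ext y
    simp only [Set.mem_iUnion, Set.mem_prod]
    rw [show (y ∈ {y : Y × Y' | ‖φ y.1 * ρ y.2‖ = ((p : ℝ)⁻¹) ^ k}) ↔
      ‖φ y.1 * ρ y.2‖ = ((p : ℝ)⁻¹) ^ k from Iff.rfl, split]
    constructor
    · rintro ⟨i, hi, h1, h2⟩
      exact ⟨i, hi, h1, h2⟩
    · rintro ⟨i, hi, h1, h2⟩
      exact ⟨i, hi, h1, h2⟩
  have hf : ∀ y : Y × Y', χ.X ((φ y.1 * ρ y.2 : ℤ_[p]) : ℚ_[p]) =
      χ.X (φ y.1 : ℚ_[p]) * χ.X (ρ y.2 : ℚ_[p]) := by
    intro y
    rw [PadicInt.coe_mul, map_mul]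
  have hint : Integrable (fun y : Y × Y' => χ.X (φ y.1 : ℚ_[p]) * χ.X (ρ y.2 : ℚ_[p]))
      (ν.prod ν') := by
    refine Integrable.mono' (integrable_const (1 : ℝ)) ?_ ?_
    · exact (((X_meas χ).comp (hφ.comp measurable_fst)).mul
        ((X_meas χ).comp (hρ.comp measurable_snd))).aestronglyMeasurable
    · refine Filter.Eventually.of_forall fun y => ?_
      rw [norm_mul]
      exact mul_le_one₀ (norm_X_le χ _) (norm_nonneg _) (norm_X_le χ _)
  unfold Vx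
  simp only [hf]
  rw [hset, integral_biUnion_finset (Finset.range (k + 1))
    (fun i _ => (meas_set hφ i).prod (meas_set hρ (k - i)))]
  · refine Finset.sum_congr rfl fun i _ => ?_
    exact setIntegral_prod_mul (fun y => χ.X (φ y : ℚ_[p])) (fun y => χ.X (ρ y : ℚ_[p])) _ _
  · intro i _ j _ hij
    rw [Function.onFun, Set.disjoint_left]
    rintro y ⟨h1, -⟩ ⟨h2, -⟩
    have h3 : ((p : ℝ)⁻¹) ^ i = ((p : ℝ)⁻¹) ^ j := (show ‖φ y.1‖ = _ from h1).symm.trans h2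
    exact hij ((pow_right_injective₀ ppos plt.ne) h3)
  · intro i _
    exact hint.integrableOn

end Pool.Agent.N138.SU.VP
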