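import Pool.Agent.N138.SU.Stm
import Pool.Agent.Y21.TH.JobA
import Pool.Agent.W574.HS.Rep
import Pool.Agent.W574.HS.Minus
import Pool.Agent.W574.RO.Equiv

set_option autoImplicit false
set_option linter.unusedSectionVars false

/-! # Functional equations of `g(x) + c y ^ N` (exact Thom-Sebastiani property, M. Saito) -/

namespace Pool.Agent.N138.SU.C

open MvPolynomial
open Pool.Agent.W574.SM Pool.Agent.W574.HS Pool.Agent.W574.RO
open Pool.Agent.Y230.TH (kf kd W)
open Pool.Agent.H628R4.TP (IsBFunction weylS)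

variable {τ : Type}

/-- renaming the variables by a bijection -/
theorem bfunction_equiv {σ σ' : Type} (e : σ ≃ σ') (F : MvPolynomial σ ℂ) (b : Polynomial ℂ)
    (h : IsBFunction (rename e F) b) : IsBFunction F b := by
  classical
  obtain ⟨P, hP⟩ := h
  choose R0 hR0 using fun m : ℕ => weyl_conj e (P m).1 (P m).2
  obtain ⟨R, hR⟩ : ∃ R : ℕ → weylS σ, ∀ m p,
      (R m : Module.End ℂ (MvPolynomial σ ℂ)) p =
        rename e.symm ((P m : Module.End ℂ (MvPolynomial σ' ℂ)) (rename e p)) :=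
    ⟨fun m => ⟨(R0 m).1, (R0 m).2⟩, fun m p => hR0 m p⟩
  refine ⟨Finsupp.onFinset P.support (fun m => if m ∈ P.support then R m else 0) (fun m hm => by
        by_contra h
        exact hm (if_neg h)), fun s => ?_⟩
  have h1 := congrArg (rename e.symm) (hP s)
  have hre : ∀ p : MvPolynomial σ ℂ, rename e.symm (rename e p) = p := fun p => by
    rw [rename_rename]; simp
  rw [map_mul, map_pow, rename_C, hre, Finsupp.sum, map_sum] at h1
  rw [h1, Finsupp.onFinset_sum]
  · refine Finset.sum_congr rfl fun m hm => ?_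
    rw [map_smul, if_pos hm, ← map_pow]
    congr 1
    exact (hR m _).symm
  · intro m
    simp

/-- `g(x) + c y ^ N` with the variable `y` on the left -/
noncomputable def FF (g : MvPolynomial τ ℂ) (c : ℂ) (N : ℕ) : MvPolynomial (Unit ⊕ τ) ℂ :=
  rename Sum.inr g + C c * X (Sum.inl ()) ^ N

theorem isB_FF (g : MvPolynomial τ ℂ) (c : ℂ) (N : ℕ) (b : Polynomial ℂ)
    (h : IsBFunction (rename Sum.inl g + C c * X (Sum.inr ()) ^ N : MvPolynomial (τ ⊕ Unit) ℂ) b) :
    IsBFunction (FF g c N) b := by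
  refine bfunction_equiv (Equiv.sumComm Unit τ) _ b ?_
  have h1 : rename (Equiv.sumComm Unit τ) (FF g c N) =
      (rename Sum.inl g + C c * X (Sum.inr ()) ^ N : MvPolynomial (τ ⊕ Unit) ℂ) := by
    rw [FF, map_add, map_mul, map_pow, rename_C, rename_X, rename_rename]
    rfl
  rwa [h1]

theorem hat_mono (p : MvPolynomial τ ℂ) (m : ℕ) : ∀ α : Unit →₀ ℕ,
    hat (X (Sum.inl ()) ^ m * rename Sum.inr p : MvPolynomial (Unit ⊕ τ) ℂ) α =
      if α () = m then (m.factorial : ℂ) • p else 0 := by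
  induction m with
  | zero =>
    intro α
    rw [pow_zero, one_mul, ← mul_one (rename Sum.inr p), hat_r, hat_one]
    have h1 : α = 0 ↔ α () = 0 := by
      constructor
      · intro h; rw [h]; rfl
      · intro h; ext; exact h
    by_cases h : α () = 0
    · rw [if_pos h, if_pos (h1.2 h)]; simp
    · rw [if_neg h, if_neg fun h' => h (h1.1 h')]; simp
  | succ m ih =>
    intro α
    rw [pow_succ', mul_assoc, hat_Xl, ih]
    have h1 : (α - Finsupp.single () 1 : Unit →₀ ℕ) () = α () - 1 := by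
      rw [Finsupp.tsub_apply, Finsupp.single_eq_same]
    rw [h1]
    by_cases h : α () = m + 1
    · rw [if_pos h, if_pos (by omega), smul_smul, h, Nat.factorial_succ]
      push_cast
      rfl
    · rw [if_neg h]
      by_cases h2 : α () - 1 = m
      · have h3 : α () = 0 := by omega
        rw [h3]; simp
      · rw [if_neg h2, smul_zero]

theorem FF_pow (g : MvPolynomial τ ℂ) (c : ℂ) (N s : ℕ) :
    FF g c N ^ s = ∑ k ∈ Finset.range (s + 1), C ((s.choose k : ℂ) * c ^ k) *
      (X (Sum.inl ()) ^ (N * k) * rename Sum.inr (g ^ (s - k))) := by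
  rw [FF, add_comm, add_pow]
  refine Finset.sum_congr rfl fun k _ => ?_
  rw [map_mul, map_pow, map_pow, mul_pow, pow_mul, map_natCast]
  ring

theorem hat_FF (g : MvPolynomial τ ℂ) (c : ℂ) {N : ℕ} (hN : 1 ≤ N) (s K : ℕ) (α : Unit →₀ ℕ)
    (hα : α () = N * K) : hat (FF g c N ^ s) α =
      ((s.choose K : ℂ) * c ^ K * ((N * K).factorial : ℂ)) • g ^ (s - K) := by
  rw [FF_pow, hat_sum]
  have h1 : ∀ k ∈ Finset.range (s + 1), hat (C ((s.choose k : ℂ) * c ^ k) *
      (X (Sum.inl ()) ^ (N * k) * rename Sum.inr (g ^ (s - k)))) α =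
      if K = k then ((s.choose K : ℂ) * c ^ K * ((N * K).factorial : ℂ)) • g ^ (s - K) else 0 := by
    intro k _
    rw [hat_C_mul, hat_mono, hα]
    by_cases h : K = k
    · subst h
      rw [if_pos rfl, if_pos rfl, smul_smul]
    · rw [if_neg h, if_neg fun h' => h (Nat.eq_of_mul_eq_mul_left hN h'), smul_zero]
  rw [Finset.sum_congr rfl h1, Finset.sum_ite_eq]
  by_cases h : K ≤ s
  · rw [if_pos (Finset.mem_range.2 (by omega))]
  · rw [if_neg (by rw [Finset.mem_range]; omega), Nat.choose_eq_zero_of_lt (by omega)]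
    simp

theorem hat_FF0 (g : MvPolynomial τ ℂ) (c : ℂ) {N : ℕ} (s : ℕ) (α : Unit →₀ ℕ)
    (hα : ¬ N ∣ α ()) : hat (FF g c N ^ s) α = 0 := by
  rw [FF_pow, hat_sum]
  refine Finset.sum_eq_zero fun k _ => ?_
  rw [hat_C_mul, hat_mono, if_neg fun h => hα ⟨k, h⟩, smul_zero]

/-- the polynomial in one variable over the polynomials in `x` -/
noncomputable def keep : MvPolynomial (Unit ⊕ τ) ℂ →ₐ[ℂ] Polynomial (MvPolynomial τ ℂ) :=
  aeval (Sum.elim (fun _ => (Polynomial.X : Polynomial (MvPolynomial τ ℂ)))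
    (fun i => Polynomial.C (X i)))

theorem keep_inr (q : MvPolynomial τ ℂ) :
    keep (rename Sum.inr q : MvPolynomial (Unit ⊕ τ) ℂ) = Polynomial.C q := by
  induction q using MvPolynomial.induction_on with
  | C a =>
    rw [rename_C]
    unfold keep
    rw [aeval_C]
    rfl
  | add p q hp hq => rw [map_add, map_add, hp, hq, map_add]
  | mul_X p i hp =>
    rw [map_mul, map_mul, hp, rename_X, map_mul]
    congr 1
    unfold keep
    rw [aeval_X]
    rfl

theorem FF_ne (g : MvPolynomial τ ℂ) {c : ℂ} (hc : c ≠ 0) {N : ℕ} (hN : 1 ≤ N) :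
    FF g c N ≠ 0 ∧ ¬ FF g c N ∣ 1 := by
  have h0 : keep (FF g c N) = Polynomial.C g + Polynomial.C (C c) * Polynomial.X ^ N := by
    rw [FF, map_add, keep_inr, map_mul, map_pow]
    congr 2
    · unfold keep
      rw [aeval_C]
      rfl
    · unfold keep
      rw [aeval_X, Sum.elim_inl]
  have hc' : (C c : MvPolynomial τ ℂ) ≠ 0 := fun h => hc (C_eq_zero.mp h)
  have h1 : (keep (FF g c N)).natDegree = N := by
    rw [h0, Polynomial.natDegree_C_add, Polynomial.natDegree_C_mul_X_pow N _ hc']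
  constructor
  · intro h
    rw [h, map_zero, Polynomial.natDegree_zero] at h1
    omega
  · intro h
    have h2 : IsUnit (keep (FF g c N)) := (isUnit_of_dvd_one h).map _
    rw [Polynomial.natDegree_eq_zero_of_isUnit h2] at h1
    omega

/-- the polynomial `(N (k + d))! k! / ((N k)! (k + d)!)` of `k` -/
noncomputable def Ap (N : ℕ) : ℕ → Polynomial ℂ
  | 0 => 1
  | d + 1 => Ap N d * (Polynomial.C (N : ℂ) * ∏ i ∈ Finset.range (N - 1),
      (Polynomial.C (N : ℂ) * (Polynomial.X + Polynomial.C (d : ℂ)) + Polynomial.C ((i + 1 : ℕ) : ℂ)))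

theorem Ap_eval {N : ℕ} (hN : 1 ≤ N) (d k : ℕ) :
    ((N * (k + d)).factorial : ℂ) * (k.factorial : ℂ) =
      ((N * k).factorial : ℂ) * ((k + d).factorial : ℂ) * (Ap N d).eval (k : ℂ) := by
  induction d with
  | zero =>
    rw [Ap, Polynomial.eval_one]
    simp
  | succ d ih =>
    obtain ⟨M, rfl⟩ : ∃ M, N = M + 1 := ⟨N - 1, by omega⟩
    have h1 : (M + 1) * (k + (d + 1)) = (M + 1) * (k + d) + (M + 1) := by ring
    have h2 : ((((M + 1) * (k + (d + 1))).factorial : ℕ) : ℂ) =
        (((M + 1) * (k + d)).factorial : ℂ) *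
          ((∏ i ∈ Finset.range M, (((M + 1 : ℕ) : ℂ) * ((k : ℂ) + d) + ((i + 1 : ℕ) : ℂ))) *
            (((M + 1 : ℕ) : ℂ) * ((k : ℂ) + d + 1))) := by
      rw [h1, ← Nat.factorial_mul_ascFactorial, Nat.ascFactorial_eq_prod_range,
        Finset.prod_range_succ]
      push_cast
      congr 1
      congr 1
      · refine Finset.prod_congr rfl fun i _ => ?_
        ring
      · ring
    have h3 : (((k + (d + 1)).factorial : ℕ) : ℂ) = ((k : ℂ) + d + 1) * ((k + d).factorial : ℂ) := by
      rw [← add_assoc, Nat.factorial_succ]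
      push_cast
      ring
    have h4 : (Ap (M + 1) (d + 1)).eval (k : ℂ) = (Ap (M + 1) d).eval (k : ℂ) *
        (((M + 1 : ℕ) : ℂ) * ∏ i ∈ Finset.range M,
          (((M + 1 : ℕ) : ℂ) * ((k : ℂ) + d) + ((i + 1 : ℕ) : ℂ))) := by
      rw [Ap, Polynomial.eval_mul, Polynomial.eval_mul, Polynomial.eval_C, Polynomial.eval_prod,
        Nat.add_sub_cancel]
      congr 2
      refine Finset.prod_congr rfl fun i _ => ?_
      rw [Polynomial.eval_add, Polynomial.eval_mul, Polynomial.eval_C, Polynomial.eval_add,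
        Polynomial.eval_X, Polynomial.eval_C, Polynomial.eval_C]
    rw [h2, h3, h4]
    linear_combination ((∏ i ∈ Finset.range M,
      (((M + 1 : ℕ) : ℂ) * ((k : ℂ) + d) + ((i + 1 : ℕ) : ℂ))) *
            (((M + 1 : ℕ) : ℂ) * ((k : ℂ) + d + 1))) * ih

theorem Ap_root {N : ℕ} (hN : 2 ≤ N) (d : ℕ) : (Ap N (d + 1)).eval (-(1 / (N : ℂ))) = 0 := by
  have hN0 : (N : ℂ) ≠ 0 := by exact_mod_cast (by omega : N ≠ 0)
  induction d with
  | zero =>
    rw [Ap, Polynomial.eval_mul, Polynomial.eval_mul, Polynomial.eval_prod,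
      Finset.prod_eq_zero (i := 0) (Finset.mem_range.2 (by omega))]
    · simp
    · rw [Polynomial.eval_add, Polynomial.eval_mul, Polynomial.eval_C, Polynomial.eval_add,
        Polynomial.eval_X, Polynomial.eval_C, Polynomial.eval_C]
      push_cast
      field_simp
      ring
  | succ d ih =>
    rw [Ap, Polynomial.eval_mul, ih, zero_mul]

/-- the coefficients as polynomials of `k` -/
noncomputable def T (N : ℕ) (d : ℤ) : Polynomial ℂ :=
  if 0 < d then Ap N d.toNat else descPochhammer ℂ (-d).toNat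

theorem coef {N : ℕ} (hN : 1 ≤ N) (k : ℕ) (d : ℤ) (h : 0 ≤ (k : ℤ) + d) :
    (((N * k).descFactorial (-((N : ℤ) * d)).toNat : ℕ) : ℂ) *
      ((N * ((k : ℤ) + d).toNat).factorial : ℂ) * (k.factorial : ℂ) =
      ((N * k).factorial : ℂ) * ((((k : ℤ) + d).toNat.factorial : ℕ) : ℂ) *
        (T N d).eval (k : ℂ) := by
  by_cases hd : 0 < d
  · obtain ⟨e, rfl⟩ : ∃ e : ℕ, d = e := ⟨d.toNat, by omega⟩
    have h1 : (-((N : ℤ) * (e : ℤ))).toNat = 0 := by
      have : 0 ≤ (N : ℤ) * (e : ℤ) := by positivity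
      omega
    have h2 : ((k : ℤ) + (e : ℤ)).toNat = k + e := by omega
    rw [h1, h2, Nat.descFactorial_zero, T, if_pos hd, Int.toNat_natCast]
    have := Ap_eval hN e k
    push_cast
    linear_combination this
  · obtain ⟨e, rfl⟩ : ∃ e : ℕ, d = -(e : ℤ) := ⟨(-d).toNat, by omega⟩
    obtain ⟨K, hK⟩ : ∃ K : ℕ, k = K + e := ⟨k - e, by omega⟩
    have h1 : (-((N : ℤ) * (-(e : ℤ)))).toNat = N * e := by
      have : -((N : ℤ) * (-(e : ℤ))) = ((N * e : ℕ) : ℤ) := by push_cast; ring
      rw [this, Int.toNat_natCast]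
    have h2 : ((k : ℤ) + (-(e : ℤ))).toNat = K := by omega
    have h3 : (-(-(e : ℤ))).toNat = e := by omega
    rw [h1, h2, T, if_neg hd, h3, descPochhammer_eval_eq_descFactorial]
    have h4 := Nat.factorial_mul_descFactorial (n := N * k) (k := N * e)
      (Nat.mul_le_mul_left N (by omega))
    have h5 : N * k - N * e = N * K := by
      rw [← Nat.mul_sub]
      congr 1
      omega
    rw [h5] at h4
    have h6 := Nat.factorial_mul_descFactorial (n := k) (k := e) (by omega)
    have h7 : k - e = K := by omega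
    rw [h7] at h6
    have h8 := congrArg (Nat.cast : ℕ → ℂ) h4
    have h9 := congrArg (Nat.cast : ℕ → ℂ) h6
    push_cast at h8 h9
    linear_combination (k.factorial : ℂ) * h8 - ((N * k).factorial : ℂ) * h9

/-- the term of the functional equation -/
theorem term (g : MvPolynomial τ ℂ) {c : ℂ} (hc : c ≠ 0) {N : ℕ} (hN : 1 ≤ N) (σ k : ℕ) (d : ℤ)
    (e : Unit → ℤ) (he : e () = N * d) (α : Unit →₀ ℕ) (hα : α () = N * k)
    (Q : MvPolynomial τ ℂ →ₗ[ℂ] MvPolynomial τ ℂ) :
    (fall e α : ℂ) • Q (hat (FF g c N ^ (σ + k + 1)) (sh α e)) =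
      (((σ + k).choose k : ℂ) * c ^ k * ((N * k).factorial : ℂ) * ((σ : ℂ) + k + 1)) •
        ((c ^ d * (T N d).eval (k : ℂ) * kd σ d) • Q (g ^ ((σ : ℤ) + 1 - d).toNat)) := by
  have hfall : fall e α = (N * k).descFactorial (-((N : ℤ) * d)).toNat := by
    unfold fall
    rw [Fintype.prod_unique]
    change (α ()).descFactorial (-e ()).toNat = _
    rw [hα, he]
  have hsh : sh α e () = (((N * k : ℕ) : ℤ) + N * d).toNat := by
    rw [sh_apply, hα, he]
  rw [hfall]
  by_cases h : 0 ≤ (k : ℤ) + d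
  · have hsh2 : sh α e () = N * ((k : ℤ) + d).toNat := by
      rw [hsh]
      have h1 : (((N * k : ℕ) : ℤ) + N * d) = ((N * ((k : ℤ) + d).toNat : ℕ) : ℤ) := by
        push_cast
        rw [Int.toNat_of_nonneg h]
        ring
      rw [h1, Int.toNat_natCast]
    rw [hat_FF g c hN _ _ _ hsh2, map_smul, smul_smul, smul_smul]
    set K := ((k : ℤ) + d).toNat with hK
    have hKz : (K : ℤ) = k + d := Int.toNat_of_nonneg h
    unfold kd
    by_cases h1 : (σ : ℤ) + 1 < d
    · rw [if_pos h1, Nat.choose_eq_zero_of_lt (show σ + k + 1 < K by omega)]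
      simp
    · rw [if_neg h1]
      have h2 : σ + k + 1 - K = ((σ : ℤ) + 1 - d).toNat := by omega
      rw [h2]
      set L := ((σ : ℤ) + 1 - d).toNat with hL
      congr 1
      have hKL : σ + k + 1 = K + L := by omega
      have h3 : ((σ + k + 1).choose K : ℂ) =
          ((σ + k + 1).factorial : ℂ) / ((K.factorial : ℂ) * (L.factorial : ℂ)) := by
        rw [hKL]
        exact Nat.cast_add_choose ℂ
      have h4 : ((σ + k).choose k : ℂ) =
          ((σ + k).factorial : ℂ) / ((k.factorial : ℂ) * (σ.factorial : ℂ)) := by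
        rw [add_comm σ k]
        exact Nat.cast_add_choose ℂ
      have h5 := coef hN k d h
      rw [← hK] at h5
      have h6 : (((σ + k + 1).factorial : ℕ) : ℂ) = ((σ : ℂ) + k + 1) * ((σ + k).factorial : ℂ) := by
        rw [Nat.factorial_succ]
        push_cast
        ring
      have h7 : c ^ K = c ^ k * c ^ d := by
        rw [← zpow_natCast, ← zpow_natCast, ← zpow_add₀ hc, hKz]
      rw [h3, h4, h6, h7]
      have hk0 : (k.factorial : ℂ) ≠ 0 := by exact_mod_cast Nat.factorial_ne_zero _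
      have hK0 : (K.factorial : ℂ) ≠ 0 := by exact_mod_cast Nat.factorial_ne_zero _
      have hL0 : (L.factorial : ℂ) ≠ 0 := by exact_mod_cast Nat.factorial_ne_zero _
      have hσ0 : (σ.factorial : ℂ) ≠ 0 := by exact_mod_cast Nat.factorial_ne_zero _
      field_simp
      linear_combination (((σ : ℂ) + k + 1) * ((σ + k).factorial : ℂ)) * h5
  · have h1 : (N * k).descFactorial (-((N : ℤ) * d)).toNat = 0 := by
      rw [Nat.descFactorial_eq_zero_iff_lt]
      obtain ⟨e', rfl⟩ : ∃ e : ℕ, d = -(e : ℤ) := ⟨(-d).toNat, by omega⟩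
      have h2 : (-((N : ℤ) * (-(e' : ℤ)))).toNat = N * e' := by
        have : -((N : ℤ) * (-(e' : ℤ))) = ((N * e' : ℕ) : ℤ) := by push_cast; ring
        rw [this, Int.toNat_natCast]
      rw [h2]
      exact Nat.mul_lt_mul_of_pos_left (by omega) hN
    have h2 : (T N d).eval (k : ℂ) = 0 := by
      rw [T, if_neg (by omega), descPochhammer_eval_eq_descFactorial,
        Nat.descFactorial_eq_zero_iff_lt.2 (by omega), Nat.cast_zero]
    rw [h1, h2]
    simp

/-- the terms with a shift which is not divisible by `N` -/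
theorem term0 (g : MvPolynomial τ ℂ) (c : ℂ) {N : ℕ} (s k : ℕ)
    (e : Unit → ℤ) (he : ¬ (N : ℤ) ∣ e ()) (α : Unit →₀ ℕ) (hα : α () = N * k)
    (Q : MvPolynomial τ ℂ →ₗ[ℂ] MvPolynomial τ ℂ) :
    (fall e α : ℂ) • Q (hat (FF g c N ^ s) (sh α e)) = 0 := by
  by_cases h : 0 ≤ (α () : ℤ) + e ()
  · rw [hat_FF0, map_zero, smul_zero]
    intro h1
    apply he
    have h2 : ((sh α e () : ℕ) : ℤ) = α () + e () := by
      rw [sh_apply, Int.toNat_of_nonneg h]
    have h3 : (N : ℤ) ∣ (α () : ℤ) + e () := by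
      rw [← h2]
      exact_mod_cast h1
    have h4 : (N : ℤ) ∣ (α () : ℤ) := ⟨k, by rw [hα]; push_cast; ring⟩
    exact (dvd_add_right h4).mp h3
  · have h1 : fall e α = 0 := by
      refine Finset.prod_eq_zero (Finset.mem_univ ()) ?_
      rw [Nat.descFactorial_eq_zero_iff_lt]
      omega
    rw [h1]
    simp

/-- a vector of polynomials which vanishes at the natural numbers -/
theorem vanish {κ : Type} (s : Finset κ) (p : κ → Polynomial ℂ) (v : κ → MvPolynomial τ ℂ)
    (h : ∀ k : ℕ, ∑ i ∈ s, (p i).eval (k : ℂ) • v i = 0) (z : ℂ) :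
    ∑ i ∈ s, (p i).eval z • v i = 0 := by
  set G : Polynomial (MvPolynomial τ ℂ) := ∑ i ∈ s, (p i).map C * Polynomial.C (v i) with hG
  have h1 : ∀ w : ℂ, G.eval (C w) = ∑ i ∈ s, (p i).eval w • v i := by
    intro w
    rw [hG, Polynomial.eval_finsetSum]
    refine Finset.sum_congr rfl fun i _ => ?_
    rw [Polynomial.eval_mul, Polynomial.eval_C, Polynomial.eval_map, Polynomial.eval₂_at_apply,
      C_mul']
  have h2 : G = 0 := by
    apply Polynomial.eq_zero_of_infinite_isRoot
    refine Set.Infinite.mono ?_ (Set.infinite_range_of_injective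
      (f := fun n : ℕ => (C (n : ℂ) : MvPolynomial τ ℂ)) ?_)
    · rintro _ ⟨n, rfl⟩
      change G.eval (C (n : ℂ)) = 0
      rw [h1, h]
    · intro a b hab
      exact Nat.cast_injective (C_injective τ ℂ hab)
  rw [← h1, h2, Polynomial.eval_zero]

/-- elements of the microlocal module -/
theorem W_poly (g : MvPolynomial τ ℂ) (r : Polynomial ℂ) {e : ℕ} (he : 1 ≤ e) (Q : weyl τ) :
    (fun k : ℕ => (r.eval (k : ℂ) * kf k e) •
      (Q : Module.End ℂ (MvPolynomial τ ℂ)) (g ^ (k + e))) ∈ W g := by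
  induction r using Polynomial.induction_on' with
  | add p q hp hq =>
    have h1 := (W g).add_mem hp hq
    convert h1 using 1
    funext k
    rw [Polynomial.eval_add, Pi.add_apply, add_mul, add_smul]
  | monomial m a =>
    have h1 : (fun k : ℕ => ((k : ℂ) ^ m * kf k e) •
        (Q : Module.End ℂ (MvPolynomial τ ℂ)) (g ^ (k + e))) ∈ W g :=
      Submodule.subset_span ⟨m, e, Q, he, rfl⟩
    have h2 := (W g).smul_mem a h1
    convert h2 using 1
    funext k
    rw [Polynomial.eval_monomial, Pi.smul_apply, smul_smul, mul_assoc]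

theorem kd_of_nonpos (σ : ℕ) {d : ℤ} (hd : d ≤ 0) : kd σ d = kf σ (1 - d).toNat := by
  unfold kd kf
  rw [if_neg (by omega)]
  congr 4
  omega

theorem t : StC := by
  intro τ g hg c hc N hN b hb0
  classical
  have hb := isB_FF g c N b hb0
  obtain ⟨hF0, hF1⟩ := FF_ne g hc (show 1 ≤ N by omega)
  have hN0 : (N : ℂ) ≠ 0 := by exact_mod_cast (by omega : N ≠ 0)
  obtain ⟨P, hP⟩ := hb
  have hm1 : b.eval (-1) = 0 := by
    refine minus_one _ 1 hF0 hF1 b P fun s => ?_
    rw [one_mul]
    exact hP s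
  obtain ⟨b', hb'⟩ : (Polynomial.X + 1 : Polynomial ℂ) ∣ b := by
    have := Polynomial.dvd_iff_isRoot.2 hm1
    rwa [Polynomial.C_neg, sub_neg_eq_add, Polynomial.C_1] at this
  refine ⟨b', hb', ?_⟩
  refine Pool.Agent.Y21.TH.tA g hg _ ?_
  choose E hE1 hE2 using fun m : ℕ => rep_weylS (σ := τ) (ι := Unit) (P m).1 (P m).2 _ rep_id
  choose κ hκ e q R hR using hE1
  -- the coefficients as polynomials of `k`
  let dd : (Σ m : P.support, κ m) → ℤ := fun i => (e i.1 i.2 ()) / (N : ℤ)
  let pp : ℕ → (Σ m : P.support, κ m) → Polynomial ℂ := fun σ i =>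
    if (N : ℤ) ∣ e i.1 i.2 () then
      (Polynomial.X + Polynomial.C (σ : ℂ)) ^ (i.1 : ℕ) *
        (aeval (fun _ : Unit => (Polynomial.C (N : ℂ) * Polynomial.X : Polynomial ℂ)) (q i.1 i.2) *
          (Polynomial.C (c ^ dd i) * T N (dd i) * Polynomial.C (kd σ (dd i))))
    else 0
  let vv : ℕ → (Σ m : P.support, κ m) → MvPolynomial τ ℂ := fun σ i =>
    (R i.1 i.2 : Module.End ℂ (MvPolynomial τ ℂ)) (g ^ ((σ : ℤ) + 1 - dd i).toNat)
  have key : ∀ σ k : ℕ, b'.eval ((σ : ℂ) + k) • g ^ σ =
      ∑ i, (pp σ i).eval (k : ℂ) • vv σ i := by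
    intro σ k
    set α : Unit →₀ ℕ := Finsupp.single () (N * k) with hα0
    have hα : α () = N * k := Finsupp.single_eq_same
    set D : ℂ := ((σ + k).choose k : ℂ) * c ^ k * ((N * k).factorial : ℂ) * ((σ : ℂ) + k + 1)
      with hD
    have hD0 : D ≠ 0 := by
      have h1 : ((σ + k).choose k : ℂ) ≠ 0 := by
        exact_mod_cast (Nat.choose_pos (by omega : k ≤ σ + k)).ne'
      have h2 : ((N * k).factorial : ℂ) ≠ 0 := by exact_mod_cast Nat.factorial_ne_zero _
      have h3 : (σ : ℂ) + k + 1 ≠ 0 := by exact_mod_cast (by omega : σ + k + 1 ≠ 0)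
      exact mul_ne_zero (mul_ne_zero (mul_ne_zero h1 (pow_ne_zero k hc)) h2) h3
    have h1 := congrArg (fun G => hat G α) (hP (σ + k))
    beta_reduce at h1
    rw [hat_C_mul, Finsupp.sum, hat_sum, hat_FF g c (by omega) _ _ _ hα] at h1
    have h2 : ∀ m ∈ P.support, hat ((((σ + k : ℕ) : ℂ) ^ m) •
        ((P m : Module.End ℂ (MvPolynomial (Unit ⊕ τ) ℂ)) (FF g c N ^ (σ + k + 1)))) α =
        ∑ i : κ m, D • ((if (N : ℤ) ∣ e m i () then
          ((k : ℂ) + σ) ^ m * (evN α (q m i) * (c ^ (e m i () / (N : ℤ)) *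
            (T N (e m i () / (N : ℤ))).eval (k : ℂ) * kd σ (e m i () / (N : ℤ)))) else 0) •
          (R m i : Module.End ℂ (MvPolynomial τ ℂ))
            (g ^ ((σ : ℤ) + 1 - e m i () / (N : ℤ)).toNat)) := by
      intro m _
      rw [hat_smul, hE2 m _ (hat (FF g c N ^ (σ + k + 1))) rfl, hR, Finset.smul_sum]
      refine Finset.sum_congr rfl fun i _ => ?_
      rw [mul_smul]
      by_cases h3 : (N : ℤ) ∣ e m i ()
      · have h4 : e m i () = N * (e m i () / (N : ℤ)) := (Int.mul_ediv_cancel' h3).symm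
        rw [term g hc (by omega) σ k _ (e m i) h4 α hα, if_pos h3, ← hD, smul_smul, smul_smul,
          smul_smul, smul_smul]
        congr 1
        push_cast
        ring
      · rw [term0 g c _ k (e m i) h3 α hα, if_neg h3]
        simp
    rw [Finset.sum_congr rfl h2] at h1
    have h3 : b.eval ((σ + k : ℕ) : ℂ) = ((σ : ℂ) + k + 1) * b'.eval ((σ : ℂ) + k) := by
      rw [hb', Polynomial.eval_mul, Polynomial.eval_add, Polynomial.eval_X, Polynomial.eval_one]
      push_cast
      ring
    have h4 : σ + k - k = σ := by omega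
    rw [h4, h3, smul_smul] at h1
    have h5 : ((σ : ℂ) + k + 1) * b'.eval ((σ : ℂ) + k) *
        (((σ + k).choose k : ℂ) * c ^ k * ((N * k).factorial : ℂ)) =
        D * b'.eval ((σ : ℂ) + k) := by
      rw [hD]; ring
    rw [h5, mul_smul] at h1
    refine smul_right_injective (MvPolynomial τ ℂ) hD0 ?_
    beta_reduce
    rw [h1, Finset.smul_sum, Fintype.sum_sigma]
    rw [← Finset.sum_coe_sort P.support]
    refine Finset.sum_congr rfl fun m _ => ?_
    refine Finset.sum_congr rfl fun i _ => ?_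
    congr 2
    change _ = Polynomial.eval (k : ℂ) (if (N : ℤ) ∣ e m i () then _ else 0)
    by_cases h6 : (N : ℤ) ∣ e m i ()
    · rw [if_pos h6, if_pos h6, Polynomial.eval_mul, Polynomial.eval_pow, Polynomial.eval_add,
        Polynomial.eval_X, Polynomial.eval_C, Polynomial.eval_mul, Polynomial.eval_mul,
        Polynomial.eval_mul, Polynomial.eval_C, Polynomial.eval_C]
      congr 2
      have h7 : Polynomial.eval (k : ℂ) (aeval
          (fun _ : Unit => (Polynomial.C (N : ℂ) * Polynomial.X : Polynomial ℂ)) (q m i)) =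
          evN α (q m i) := by
        have h8 : ∀ Q : MvPolynomial Unit ℂ, Polynomial.eval (k : ℂ) (aeval
          (fun _ : Unit => (Polynomial.C (N : ℂ) * Polynomial.X : Polynomial ℂ)) Q) =
          eval (fun j => (α j : ℂ)) Q := by
          intro Q
          induction Q using MvPolynomial.induction_on with
          | C a =>
            rw [aeval_C, eval_C]
            change Polynomial.eval (k : ℂ) (Polynomial.C a) = a
            rw [Polynomial.eval_C]
          | add p q hp hq => rw [map_add, map_add, Polynomial.eval_add, hp, hq]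
          | mul_X p i hp =>
            rw [map_mul, map_mul, Polynomial.eval_mul, hp, aeval_X, eval_X, Polynomial.eval_mul,
              Polynomial.eval_C, Polynomial.eval_X]
            have : (α i : ℂ) = (N : ℂ) * k := by
              have h9 : α i = N * k := hα
              rw [h9]; push_cast; ring
            rw [this]
        exact h8 _
      exact h7.symm
    · rw [if_neg h6, if_neg h6, Polynomial.eval_zero]
  -- continuation to `k = -1/N`
  have key2 : ∀ σ : ℕ, b'.eval ((σ : ℂ) - 1 / (N : ℂ)) • g ^ σ =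
      ∑ i, (pp σ i).eval (-(1 / (N : ℂ))) • vv σ i := by
    intro σ
    have h1 := vanish (τ := τ) (Finset.univ : Finset (Option (Σ m : P.support, κ m)))
      (fun o => Option.elim o (-(b'.comp (Polynomial.X + Polynomial.C (σ : ℂ)))) (pp σ))
      (fun o => Option.elim o (g ^ σ) (vv σ)) (fun k => by
        rw [Fintype.sum_option]
        change Polynomial.eval (k : ℂ) (-(b'.comp (Polynomial.X + Polynomial.C (σ : ℂ)))) • g ^ σ +
          ∑ i, (pp σ i).eval (k : ℂ) • vv σ i = 0
        rw [← key σ k, Polynomial.eval_neg, Polynomial.eval_comp, Polynomial.eval_add,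
          Polynomial.eval_X, Polynomial.eval_C, add_comm (k : ℂ), neg_smul, neg_add_cancel])
      (-(1 / (N : ℂ)))
    rw [Fintype.sum_option] at h1
    change Polynomial.eval (-(1 / (N : ℂ))) (-(b'.comp (Polynomial.X + Polynomial.C (σ : ℂ)))) •
      g ^ σ + ∑ i, (pp σ i).eval (-(1 / (N : ℂ))) • vv σ i = 0 at h1
    rw [Polynomial.eval_neg, Polynomial.eval_comp, Polynomial.eval_add,
          Polynomial.eval_X, Polynomial.eval_C, neg_smul, neg_add_eq_zero] at h1
    rw [← h1]
    congr 2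
    ring
  have h3 : (fun k : ℕ => (b'.comp (Polynomial.X - Polynomial.C (1 / (N : ℂ)))).eval (k : ℂ) •
      g ^ k) = ∑ i, fun σ : ℕ => (pp σ i).eval (-(1 / (N : ℂ))) • vv σ i := by
    funext σ
    rw [Finset.sum_apply, ← key2 σ, Polynomial.eval_comp, Polynomial.eval_sub, Polynomial.eval_X,
      Polynomial.eval_C]
  rw [h3]
  refine Submodule.sum_mem _ fun i _ => ?_
  by_cases h6 : (N : ℤ) ∣ e i.1 i.2 ()
  · by_cases h7 : 0 < dd i
    · have h8 : (fun σ : ℕ => (pp σ i).eval (-(1 / (N : ℂ))) • vv σ i) = 0 := by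
        funext σ
        have h9 : (pp σ i).eval (-(1 / (N : ℂ))) = 0 := by
          change Polynomial.eval _ (if (N : ℤ) ∣ e i.1 i.2 () then _ else 0) = 0
          obtain ⟨d, hd⟩ : ∃ d : ℕ, (dd i).toNat = d + 1 := ⟨(dd i).toNat - 1, by omega⟩
          rw [if_pos h6, Polynomial.eval_mul, Polynomial.eval_mul, Polynomial.eval_mul,
            Polynomial.eval_mul, T, if_pos h7, hd, Ap_root hN]
          simp
        rw [h9, zero_smul]
        rfl
      rw [h8]
      exact Submodule.zero_mem _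
    · have h8 : (fun σ : ℕ => (pp σ i).eval (-(1 / (N : ℂ))) • vv σ i) =
          fun σ : ℕ => ((((Polynomial.X + Polynomial.C (-(1 / (N : ℂ)))) ^ (i.1 : ℕ)) *
            Polynomial.C (Polynomial.eval (-(1 / (N : ℂ))) (aeval
              (fun _ : Unit => (Polynomial.C (N : ℂ) * Polynomial.X : Polynomial ℂ)) (q i.1 i.2)) *
              (c ^ dd i * (T N (dd i)).eval (-(1 / (N : ℂ)))))).eval (σ : ℂ) *
              kf σ (1 - dd i).toNat) • (R i.1 i.2 : Module.End ℂ (MvPolynomial τ ℂ))
                (g ^ (σ + (1 - dd i).toNat)) := by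
        funext σ
        have h9 : vv σ i = (R i.1 i.2 : Module.End ℂ (MvPolynomial τ ℂ))
                (g ^ (σ + (1 - dd i).toNat)) := by
          change (R i.1 i.2 : Module.End ℂ (MvPolynomial τ ℂ)) (g ^ ((σ : ℤ) + 1 - dd i).toNat) = _
          congr 2
          omega
        rw [h9]
        congr 1
        change Polynomial.eval _ (if (N : ℤ) ∣ e i.1 i.2 () then _ else 0) = _
        rw [if_pos h6, Polynomial.eval_mul, Polynomial.eval_pow, Polynomial.eval_add,
          Polynomial.eval_X, Polynomial.eval_C, Polynomial.eval_mul, Polynomial.eval_mul,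
          Polynomial.eval_mul, Polynomial.eval_C, Polynomial.eval_C, kd_of_nonpos σ (by omega),
          Polynomial.eval_mul, Polynomial.eval_pow, Polynomial.eval_add, Polynomial.eval_X,
          Polynomial.eval_C, Polynomial.eval_C]
        ring
      rw [h8]
      exact W_poly g _ (by omega) (R i.1 i.2)
  · have h8 : (fun σ : ℕ => (pp σ i).eval (-(1 / (N : ℂ))) • vv σ i) = 0 := by
      funext σ
      have h9 : (pp σ i).eval (-(1 / (N : ℂ))) = 0 := by
        change Polynomial.eval _ (if (N : ℤ) ∣ e i.1 i.2 () then _ else 0) = 0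
        rw [if_neg h6, Polynomial.eval_zero]
      rw [h9, zero_smul]
      rfl
    rw [h8]
    exact Submodule.zero_mem _

end Pool.Agent.N138.SU.C

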