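import Pool.Agent.N138.SU.Globx
import Pool.Agent.N138.SU.B1T
import Pool.Agent.N138.SU.B1
import Pool.Agent.N138.SU.B2
import Pool.Agent.N138.SU.B2A
import Pool.Agent.N138.SU.B2B
import Pool.Agent.N138.SU.B2C
import Pool.Agent.N138.SU.B3
import Pool.Agent.N138.SU.C

set_option autoImplicit false
set_option linter.unusedSectionVars false
set_option linter.unusedVariables false

/-! # The polynomials whose exponential sums are controlled by the roots -/

namespace Pool.Agent.N138.SU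

open MeasureTheory Pool.Agent.W574.SM
open Pool.Agent.Y230.PT Pool.Agent.Y230.PS Pool.Agent.Y230.TH
open Pool.Agent.W427.SMC (msZ bsZ mu)
open Pool.Agent.Y230.PT (msK bsK)

variable {p : ℕ} [Fact p.Prime]

attribute [local instance] msK bsK msZ bsZ

theorem stB1 : StB1 := B1.t B1T.t

theorem stB2 : StB2 := B2.t B2A.t B2B.t B2C.t

section Gen

variable {Y : Type} [MeasurableSpace Y] (ν : Measure Y) [IsProbabilityMeasure ν] (φ : Y → ℤ_[p])

theorem Eh_mp {Y' : Type} [MeasurableSpace Y'] (ν' : Measure Y') (Φ : Y → Y')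
    (h : MeasurePreserving Φ ν ν') (ψ : Y' → ℤ_[p]) (hψ : Measurable ψ) (χ : UC p) (e : ℕ) :
    Eh ν (fun y => ψ (Φ y)) χ e = Eh ν' ψ χ e := by
  unfold Eh
  refine integral_congr_ae (Filter.Eventually.of_forall fun u => ?_)
  beta_reduce
  congr 1
  unfold Es
  rw [← h.map_eq, integral_map h.measurable.aemeasurable]
  exact ((B3.psi_meas e).comp (measurable_const.mul hψ)).aestronglyMeasurable

theorem Eh_scale (d : ℕ) (χ : UC p) (e : ℕ) :
    Eh ν (fun y => (p : ℤ_[p]) ^ d * φ y) χ (e + d) = Eh ν φ χ e := by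
  unfold Eh
  refine integral_congr_ae (Filter.Eventually.of_forall fun u => ?_)
  beta_reduce
  congr 1
  unfold Es
  refine integral_congr_ae (Filter.Eventually.of_forall fun y => ?_)
  beta_reduce
  rw [show u * ((p : ℤ_[p]) ^ d * φ y) = (p : ℤ_[p]) ^ d * (u * φ y) by ring, B2C.psi_pow]

theorem EP_shift (m : ℂ → ℕ∞) (k : ℕ) : ∀ c : ℕ → ℂ, c ∈ EP m → (fun e => c (e + k)) ∈ EP m := by
  induction k with
  | zero => exact fun c h => h
  | succ k ih =>
    intro c h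
    have h1 := ih _ (EP_sft m c h)
    refine (congrArg (· ∈ EP m) (funext fun e => ?_)).mp h1
    rw [sft_apply]
    congr 1

/-- the trivial character -/
theorem exists_tr (p : ℕ) [Fact p.Prime] : ∃ χ : UC p, χ.IsTr := by
  classical
  refine ⟨⟨⟨⟨fun x => if x = 0 then 0 else 1, by simp⟩, by simp, fun x y => ?_⟩, ?_, 1, le_rfl,
    fun x hx => ?_⟩, fun u hu => ?_⟩
  · by_cases hx : x = 0 <;> by_cases hy : y = 0 <;> simp [hx, hy]
  · have : (p : ℚ_[p]) ≠ 0 := by exact_mod_cast (Fact.out : p.Prime).ne_zero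
    simp [this]
  · have : x ≠ 0 := by
      rintro rfl
      rw [zero_sub, norm_neg, norm_one, pow_one] at hx
      have hp1 : (p : ℝ)⁻¹ < 1 := inv_lt_one_of_one_lt₀ (by
        exact_mod_cast (Fact.out : p.Prime).one_lt)
      linarith
    simp [this]
  · have : u ≠ 0 := by
      rintro rfl
      rw [norm_zero] at hu
      exact zero_ne_one hu
    simp [this]

/-- from the exponential sums to the volumes -/
theorem D_of_Eh (hφ : Measurable φ) (m : ℂ → ℕ∞)
    (h : ∀ χ : UC p, (fun e : ℕ => Eh ν φ χ e) ∈ EP m) :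
    (fun e : ℕ => (p : ℂ) * Uo ν φ (e + 1) - Uo ν φ e) ∈ EP m := by
  obtain ⟨χ, hχ⟩ := exists_tr p
  have h1 := Submodule.smul_mem _ (p : ℂ) (EP_shift m 1 _ (h χ))
  refine (congrArg (· ∈ EP m) (funext fun e => ?_)).mp h1
  rw [Pi.smul_apply, smul_eq_mul]
  exact B1T.t p ν φ hφ χ hχ e

end Gen

section XP

variable {V : Type} [Fintype V]

/-- the exponential sums of `F` are controlled by the roots -/
def XP (p : ℕ) [Fact p.Prime] {V : Type} [Fintype V] (F : MvPolynomial V ℚ) : Prop :=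
  ∀ (K : ℕ) (φ : (V → ℤ_[p]) → ℤ_[p]), IsV F K φ → ∀ χ : UC p,
    (fun e : ℕ => Eh (Measure.pi fun _ : V => mu p) φ χ e) ∈
      EP (Pool.Agent.Y230.PS.tr (mQ p (hyp F)))

theorem inc_inj {x y : ℤ_[p]} (h : inc p x = inc p y) : x = y := (inc_emb p).injective h

theorem inc_mul (x y : ℤ_[p]) : inc p (x * y) = inc p x * inc p y := PadicInt.coe_mul x y

theorem inc_add (x y : ℤ_[p]) : inc p (x + y) = inc p x + inc p y := PadicInt.coe_add x y

theorem inc_sub (x y : ℤ_[p]) : inc p (x - y) = inc p x - inc p y := PadicInt.coe_sub x y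

theorem inc_pow (x : ℤ_[p]) (n : ℕ) : inc p (x ^ n) = inc p x ^ n := PadicInt.coe_pow x n

theorem inc_zero : inc p (0 : ℤ_[p]) = 0 := PadicInt.coe_zero

theorem inc_one : inc p (1 : ℤ_[p]) = 1 := PadicInt.coe_one

theorem inc_p (K : ℕ) : inc p ((p : ℤ_[p]) ^ K) = (p : ℚ_[p]) ^ K := by
  rw [inc_pow]
  congr 1

theorem XP_of {F : MvPolynomial V ℚ} (K0 : ℕ) (φ0 : (V → ℤ_[p]) → ℤ_[p]) (h0 : IsV F K0 φ0)
    (h : ∀ χ : UC p, (fun e : ℕ => Eh (Measure.pi fun _ : V => mu p) φ0 χ e) ∈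
      EP (Pool.Agent.Y230.PS.tr (mQ p (hyp F)))) : XP p F := by
  intro K φ hφ χ
  have e1 : (fun y => (p : ℤ_[p]) ^ K0 * φ y) = fun y => (p : ℤ_[p]) ^ K * φ0 y := by
    funext y
    apply inc_inj
    rw [inc_mul, inc_mul, inc_p, inc_p, hφ, h0]
    ring
  have h1 : (fun e : ℕ => Eh (Measure.pi fun _ : V => mu p)
      (fun y => (p : ℤ_[p]) ^ K0 * φ y) χ e) ∈ EP (Pool.Agent.Y230.PS.tr (mQ p (hyp F))) := by
    rw [e1]
    refine B1.EP_of_shift _ K _ ?_
    refine (congrArg (· ∈ EP (Pool.Agent.Y230.PS.tr (mQ p (hyp F))))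
      (funext fun e => ?_)).mp (h χ)
    exact (Eh_scale _ φ0 K χ e).symm
  have h2 := EP_shift _ K0 _ h1
  refine (congrArg (· ∈ EP (Pool.Agent.Y230.PS.tr (mQ p (hyp F))))
    (funext fun e => ?_)).mp h2
  exact Eh_scale _ φ K0 χ e

theorem exists_IsV (F : MvPolynomial V ℚ) :
    ∃ (K : ℕ) (φ : (V → ℤ_[p]) → ℤ_[p]), IsV F K φ := by
  obtain ⟨K, hK⟩ := sz_int (p := p) (fun _ : Fin 1 => MvPolynomial.map (algebraMap ℚ ℚ_[p]) F)
  have h1 : ∀ x : V → ℤ_[p], ‖(p : ℚ_[p]) ^ K * MvPolynomial.eval (fun i => inc p (x i))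
      (MvPolynomial.map (algebraMap ℚ ℚ_[p]) F)‖ ≤ 1 := by
    intro x
    have h2 := hK K le_rfl x
    have h3 : ‖(p : ℚ_[p]) ^ K * MvPolynomial.eval (fun i => inc p (x i))
        (MvPolynomial.map (algebraMap ℚ ℚ_[p]) F)‖ = ((p : ℝ)⁻¹) ^ K *
        Pool.Agent.Y230.PS.sz (fun _ : Fin 1 => MvPolynomial.map (algebraMap ℚ ℚ_[p]) F) x := by
      unfold Pool.Agent.Y230.PS.sz
      rw [norm_mul, norm_pow, Padic.norm_p]
      congr 1
      exact (pi_norm_const (ι := Fin 1) _).symm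
    rw [h3]
    rcases h2 with h2 | ⟨n, h2⟩
    · rw [h2]; exact zero_le_one
    · rw [h2]
      exact pow_le_one₀ (inv_nonneg.2 (Nat.cast_nonneg _)) (inv_le_one_of_one_le₀ (by
        exact_mod_cast (Fact.out : p.Prime).one_lt.le))
  exact ⟨K, fun x => ⟨_, h1 x⟩, fun x => rfl⟩

theorem FR_of_XP {F : MvPolynomial V ℚ} (h1 : FK (hyp F) (-1) 1) (h : XP p F) :
    FR p (rG p (wR p) (hyp F)) (Pool.Agent.Y230.PS.FF ((hyp F).toP p)) := by
  obtain ⟨K, φ, hφ⟩ := exists_IsV (p := p) F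
  exact FR_of_D hφ h1 (D_of_Eh _ φ hφ.meas _ (h K φ hφ))

/-- the plane curves -/
theorem XP_curve (g : MvPolynomial (Fin 2) ℚ) (hg : g ≠ 0) : XP p g := by
  intro K φ hφ χ
  refine stB1 p _ φ hφ.meas _ ?_ (fun χ hχ => ?_) χ
  · exact D_of_FR hφ ((isMltT_R Pool.Agent.Y465.TH.tR).curve g hg)
  · exact Vx_mem _ φ χ hφ.meas (FR_plane χ hχ g hg K φ hφ)

end XP

end Pool.Agent.N138.SU
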