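import Pool.Agent.N138.SU.Defs

set_option autoImplicit false

/-! # Statements for the products -/

namespace Pool.Agent.N138.SU

open MeasureTheory
open Pool.Agent.W427.SMC
open Pool.Agent.Y230.PS (EP)

attribute [local instance] msZ bsZ

/-- Job G: the Gauss sum does not vanish. -/
def StG : Prop := ∀ (p : ℕ) [Fact p.Prime] (χ : UC p), ¬ χ.IsTr → ∃ (c : ℕ) (G : ℂ), G ≠ 0 ∧
  ∀ {Y : Type} [MeasurableSpace Y] (ν : Measure Y) [IsProbabilityMeasure ν] (φ : Y → ℤ_[p]),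
    Measurable φ → ∀ k : ℕ, Eh ν φ χ (k + c) = G * Vx ν φ χ k

/-- Job VP: the twisted integrals of a product in disjoint sets of variables. -/
def StVP : Prop := ∀ (p : ℕ) [Fact p.Prime] {Y Y' : Type} [MeasurableSpace Y] [MeasurableSpace Y']
  (ν : Measure Y) (ν' : Measure Y') [IsProbabilityMeasure ν] [IsProbabilityMeasure ν']
  (φ : Y → ℤ_[p]) (ρ : Y' → ℤ_[p]), Measurable φ → Measurable ρ → ∀ (χ : UC p) (k : ℕ),
  Vx (ν.prod ν') (fun y : Y × Y' => φ y.1 * ρ y.2) χ k =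
    ∑ i ∈ Finset.range (k + 1), Vx ν φ χ i * Vx ν' ρ χ (k - i)

/-- Job EP: the Cauchy product of exponential polynomials. -/
def StEP : Prop := ∀ (m1 m2 m3 : ℂ → ℕ∞) (c d : ℕ → ℂ), (∀ T, T ≠ 0 → m1 T + m2 T ≤ m3 T) →
  c ∈ EP m1 → d ∈ EP m2 →
  (fun k : ℕ => ∑ i ∈ Finset.range (k + 1), c i * d (k - i)) ∈ EP m3

end Pool.Agent.N138.SU
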