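import Pool.Agent.N138.SU.Defs
import Pool.Agent.H628R4.TP.Defs
import Pool.Agent.Y230.TH.Stm

set_option autoImplicit false

/-! # Statements for `F(x) + G(y)`, `G` weighted homogeneous with an isolated singularity -/

namespace Pool.Agent.N138.SU

open MeasureTheory
open Pool.Agent.W427.SMC
open Pool.Agent.Y230.PS (EP)

attribute [local instance] msZ bsZ

/-- Job W1: the exponential sums of a weighted homogeneous polynomial with an isolated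
singularity. -/
def StW1 : Prop := ∀ (p : ℕ) [Fact p.Prime] {τ : Type} [Fintype τ] (G : MvPolynomial τ ℤ_[p])
  (w : τ → ℕ) (D : ℕ), (∀ i, 0 < w i) → 0 < D → G.IsWeightedHomogeneous w D →
  (∀ z : τ → ℚ_[p], (∀ i, MvPolynomial.eval₂ PadicInt.Coe.ringHom z (MvPolynomial.pderiv i G) = 0) →
    z = 0) →
  (∃ C : ℕ, 1 ≤ C ∧ ∀ (e : ℕ) (u v : ℤ_[p]), ‖v - 1‖ ≤ ((p : ℝ)⁻¹) ^ C →
    Es (Measure.pi fun _ : τ => mu p) (fun y => MvPolynomial.eval y G) e (u * v) =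
      Es (Measure.pi fun _ : τ => mu p) (fun y => MvPolynomial.eval y G) e u) ∧
  ∃ e0 : ℕ, ∀ (e : ℕ) (u : ℤ_[p]), e0 ≤ e → ‖u‖ = 1 →
    (p : ℂ) ^ (∑ i, w i) * Es (Measure.pi fun _ : τ => mu p) (fun y => MvPolynomial.eval y G)
      (e + D) u = Es (Measure.pi fun _ : τ => mu p) (fun y => MvPolynomial.eval y G) e u

/-- Job W2: adding a function `ρ` of further variables whose exponential sums satisfy a
recursion. -/
def StW2 : Prop := ∀ (p : ℕ) [Fact p.Prime] {Y Y' : Type} [MeasurableSpace Y] [MeasurableSpace Y']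
  (ν : Measure Y) (ν' : Measure Y') [IsProbabilityMeasure ν] [IsProbabilityMeasure ν']
  (φ : Y → ℤ_[p]) (ρ : Y' → ℤ_[p]), Measurable φ → Measurable ρ → ∀ C D W e0 : ℕ, 1 ≤ C → 1 ≤ D →
  (∀ (e : ℕ) (u v : ℤ_[p]), ‖v - 1‖ ≤ ((p : ℝ)⁻¹) ^ C → Es ν' ρ e (u * v) = Es ν' ρ e u) →
  (∀ (e : ℕ) (u : ℤ_[p]), e0 ≤ e → ‖u‖ = 1 → (p : ℂ) ^ W * Es ν' ρ (e + D) u = Es ν' ρ e u) →
  ∀ m m' : ℂ → ℕ∞, (∀ T1 T2 : ℂ, T1 ≠ 0 → T2 ^ D = (p : ℂ) ^ W → m T1 ≤ m' (T1 * T2)) →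
  (∀ χ : UC p, (fun e : ℕ => Eh ν φ χ e) ∈ EP m) →
  ∀ χ : UC p, (fun e : ℕ => Eh (ν.prod ν') (fun y : Y × Y' => φ y.1 + ρ y.2) χ e) ∈ EP m'

open MvPolynomial Pool.Agent.H628R4.TP

/-- Job W3: functional equations of `F(x) + G(y)` give microlocal functional equations of `F(x)`
(`W F` is the span of the functions `k ↦ k ^ j k! / (k + e)! Q F ^ (k + e)`, `e ≥ 1`); `L(h)` is the
integral of `h exp(-G)` over a cycle. -/
def StW3 : Prop := ∀ {σ τ : Type} [Fintype τ] [Nonempty τ] (F : MvPolynomial σ ℂ)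
  (G : MvPolynomial τ ℂ) (w : τ → ℕ) (D : ℕ), (∀ i, 0 < w i) → 0 < D →
  G.IsWeightedHomogeneous w D → ∀ L : MvPolynomial τ ℂ →ₗ[ℂ] ℂ,
  (∀ i h, L (pderiv i h) = L (pderiv i G * h)) → L 1 = 1 → ∀ b : Polynomial ℂ,
  IsBFunction (rename Sum.inl F + rename Sum.inr G : MvPolynomial (σ ⊕ τ) ℂ) b →
  ∃ b' : Polynomial ℂ, b = (Polynomial.X + 1) * b' ∧
    (fun k : ℕ => (b'.comp (Polynomial.X - Polynomial.C (((∑ i, w i : ℕ) : ℂ) / (D : ℂ)))).eval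
      (k : ℂ) • F ^ k) ∈ Pool.Agent.Y230.TH.W F

/-- Job W4a: the syzygies of `n` polynomials in `n` variables whose only common zero is the
origin are the trivial ones. -/
def StW4a : Prop := ∀ {τ : Type} [Fintype τ] (f : τ → MvPolynomial τ ℂ),
  (∀ z : τ → ℂ, (∀ i, eval z (f i) = 0) → z = 0) → ∀ h : τ → MvPolynomial τ ℂ,
  ∑ i, f i * h i = 0 → ∃ a : τ → τ → MvPolynomial τ ℂ, (∀ i j, a i j = - a j i) ∧
    ∀ i, h i = ∑ j, f j * a i j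

/-- Job W4b: the functional `L`. -/
def StW4b : Prop := ∀ {τ : Type} [Fintype τ] (G : MvPolynomial τ ℂ) (w : τ → ℕ) (D : ℕ),
  (∀ i, 0 < w i) → 0 < D → G.IsWeightedHomogeneous w D →
  (∀ i, constantCoeff (pderiv i G) = 0) →
  (∀ z : τ → ℂ, (∀ i, eval z (pderiv i G) = 0) → z = 0) →
  ∃ L : MvPolynomial τ ℂ →ₗ[ℂ] ℂ, (∀ i h, L (pderiv i h) = L (pderiv i G * h)) ∧ L 1 = 1

end Pool.Agent.N138.SU
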