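import Pool.Agent.R852.PP.Defs
import Pool.Agent.Y230.PS.Last

set_option autoImplicit false

/-! # The class of polynomials closed under Thom-Sebastiani sums, suspensions, products -/

namespace Pool.Agent.N138.SU

open MvPolynomial Pool.Agent.Y230.PS Pool.Agent.Y230.TH Pool.Agent.R852.PP

/-- `G(y)` is weighted homogeneous of degree `D > 0` with weights `w_i > 0` of the variables, and
the origin is its only critical point, over the complex numbers. For instance `G = ∑ c_i y_i ^ N_i`
with `c_i ≠ 0`, `N_i ≥ 2`, and the nonsingular forms of degree at least two. -/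
structure IsWH {τ : Type} [Fintype τ] (G : MvPolynomial τ ℚ) (w : τ → ℕ) (D : ℕ) : Prop where
  pos : ∀ i, 0 < w i
  posD : 0 < D
  hom : G.IsWeightedHomogeneous w D
  crit : ∀ i, constantCoeff (pderiv i G) = 0
  iso : ∀ z : τ → ℂ, (∀ i, aeval z (pderiv i G) = 0) → z = 0

/-- the sum `F(x) + G(y)` in disjoint sets of variables -/
noncomputable def addF {V τ : Type} (F : MvPolynomial V ℚ) (G : MvPolynomial τ ℚ) :
    MvPolynomial (V ⊕ τ) ℚ :=
  rename Sum.inl F + rename Sum.inr G

/-- the polynomial `h(x) (f_0(x) + ∑_j y_j f_j(x)) ^ a`, `x = (x_0, x_1)`, with further variables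
`y_j` -/
noncomputable def affF {κ : Type} [Fintype κ] (h : MvPolynomial (Fin 2) ℚ)
    (f : Option κ → MvPolynomial (Fin 2) ℚ) (a : ℕ) : MvPolynomial (Fin 2 ⊕ κ) ℚ :=
  rename Sum.inl h * (rename Sum.inl (f none) +
    ∑ j, X (Sum.inr j) * rename Sum.inl (f (some j))) ^ a

/-- The three kinds of families: ideals (given by generators), polynomials, and polynomials of the
class which is closed under the sums `F(x) + G(y)`. -/
inductive Kd
  | ideal
  | poly
  | susp
deriving DecidableEq

/-- The smallest classes of ideals, of polynomials, and of polynomials `F` for which the sums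
`F(x) + G(y)` may be formed, with the following properties. A polynomial `F` is the family with the
only member `F`, `hyp F`. If `strict = true` then the orders of the poles are controlled as well. -/
inductive Cl (strict : Bool) : Kd → FamQ → Prop
  /-- the nonzero polynomials in two variables -/
  | curve (F : MvPolynomial (Fin 2) ℚ) (hF : F ≠ 0) : Cl strict .susp (hyp F)
  /-- the weighted homogeneous polynomials with an isolated critical point -/
  | wh (τ : Type) [Fintype τ] [Nonempty τ] (G : MvPolynomial τ ℚ) (w : τ → ℕ) (D : ℕ)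
      (hG : IsWH G w D) : Cl strict .susp (hyp G)
  /-- the sums `F(x) + G(y)`, `G` weighted homogeneous with an isolated critical point -/
  | add (V τ : Type) [Fintype V] [Fintype τ] [Nonempty τ] (F : MvPolynomial V ℚ)
      (G : MvPolynomial τ ℚ) (w : τ → ℕ) (D : ℕ) (hG : IsWH G w D)
      (hF : Cl strict .susp (hyp F)) : Cl strict .susp (hyp (addF F G))
  /-- the polynomials `∑ y_j f_j(x)` -/
  | univ (A : FamQ) (hA : Cl strict .ideal A) : Cl strict .susp A.univ
  /-- the Thom-Sebastiani sums `∑ y_j f_j(x) + g(z)` -/
  | ts (c : Kd) (hc : c ≠ .ideal) (A : FamQ) (τ : Type) [Fintype τ] (g : MvPolynomial τ ℚ)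
      (hA : Cl strict .ideal A) (hg : Cl strict c (hyp g)) : Cl strict c (tsum A τ g)
  /-- the product of two polynomials, or two ideals, in disjoint sets of variables -/
  | mul (c : Kd) (A B : FamQ) (hA : Cl strict c A) (hB : Cl strict c B) : Cl strict c (A.mul B)
  /-- variables which do not occur may be dropped -/
  | drop (c : Kd) (hc : c ≠ .ideal) (V κ : Type) [Fintype V] [Fintype κ] (g : MvPolynomial V ℚ)
      (h : Cl strict c (hyp (rename Sum.inl g : MvPolynomial (V ⊕ κ) ℚ))) : Cl strict c (hyp g)
  /-- the variables and the generators may be indexed differently -/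
  | equiv (c : Kd) (A B : FamQ) (i : A.σ ≃ B.σ) (k : A.ι ≃ B.ι)
      (h : ∀ j, B.f (k j) = rename i (A.f j)) (hA : Cl strict c A) : Cl strict c B
  /-- the third class is contained in the second one -/
  | poly (A : FamQ) (h : Cl strict .susp A) : Cl strict .poly A
  /-- the products of powers `h(x) ∏_t (∑_j y_{t, j} f_{t, j}(x)) ^ a_t`, if the ideal
  `h ∏_t (f_{t, j})_j ^ a_t` is in the class -/
  | form (V : Type) [Fintype V] (m : ℕ) (r a : Fin m → ℕ) (hm : 0 < m) (ha : ∀ t, 0 < a t)
      (h : MvPolynomial V ℚ) (f : (t : Fin m) → Fin (r t) → MvPolynomial V ℚ)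
      (hA : Cl strict .ideal (genQ a h f)) : Cl strict .poly (formQ a h f)
  /-- a polynomial is a principal ideal -/
  | prin (A : FamQ) (h : Cl strict .poly A) : Cl strict .ideal A
  /-- the powers of a polynomial -/
  | pow (V : Type) [Fintype V] (g : MvPolynomial V ℚ) (k : ℕ) (hk : k ≠ 0)
      (h : Cl strict .poly (hyp g)) : Cl strict .ideal (hyp (g ^ k))
  /-- the sum of two ideals in disjoint sets of variables -/
  | sum (A B : FamQ) (hA : Cl strict .ideal A) (hB : Cl strict .ideal B) :
      Cl strict .ideal (A.sum B)
  /-- the ideals in `Good`, among them the nonzero ideals in two variables -/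
  | good (A : FamQ) (h : Good strict A) : Cl strict .ideal A
  /-- the monomial ideals, in any number of variables -/
  | mono (V ι : Type) [Fintype V] [Fintype ι] [Nonempty ι] (v : ι → V →₀ ℕ) :
      Cl strict .ideal ⟨V, ι, fun j => monomial (v j) 1⟩
  /-- the polynomials of degree at most one in all but two variables, their powers, times a
  polynomial in the two variables -/
  | affine (hs : strict = false) (κ : Type) [Fintype κ] (h : MvPolynomial (Fin 2) ℚ)
      (f : Option κ → MvPolynomial (Fin 2) ℚ) (a : ℕ) (hh : h ≠ 0) (hf : ∃ j, f (some j) ≠ 0)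
      (ha : 1 ≤ a) : Cl strict .ideal (hyp (affF h f a))
  /-- a polynomial `F` is in the second class if the ideal `(F)` is in the first one and `(s + 1) ^ 2`
  divides every Bernstein-Sato polynomial of `F` -/
  | up (hs : strict = false) (V : Type) [Fintype V] (F : MvPolynomial V ℚ)
      (hm : ∀ b : Polynomial ℂ, Pool.Agent.H628R4.TP.IsBFunction (map (algebraMap ℚ ℂ) F) b →
        (Polynomial.X + 1) ^ 2 ∣ b)
      (h : Cl strict .ideal (hyp F)) : Cl strict .poly (hyp F)

end Pool.Agent.N138.SU
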