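import Pool.Agent.N138.SU.Cls4
import Pool.Agent.N138.SU.Stm3
import Pool.Agent.N138.SU.Cl

set_option autoImplicit false
set_option linter.unusedSectionVars false
set_option linter.unusedVariables false

/-! # The sums `F(x) + G(y)`, `G` weighted homogeneous with an isolated singularity -/

namespace Pool.Agent.N138.SU

open MeasureTheory Pool.Agent.W574.SM
open Pool.Agent.Y230.PT Pool.Agent.Y230.PS Pool.Agent.Y230.TH
open Pool.Agent.W427.SMC (msZ bsZ mu)
open Pool.Agent.H628R4.TP (IsBFunction)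

variable {p : ℕ} [Fact p.Prime]

attribute [local instance] msK bsK msZ bsZ

section alg

variable {τ : Type} [Fintype τ] {G : MvPolynomial τ ℚ} {w : τ → ℕ} {D : ℕ}

theorem wh_map {K L : Type} [CommRing K] [CommRing L] (φ : K →+* L) (G : MvPolynomial τ K)
    (h : G.IsWeightedHomogeneous w D) : (MvPolynomial.map φ G).IsWeightedHomogeneous w D := by
  intro m hm
  apply h
  rw [MvPolynomial.coeff_map] at hm
  intro h0
  rw [h0, map_zero] at hm
  exact hm rfl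

/-- the functional -/
theorem exists_L (h4 : StW4b) (hG : IsWH G w D) : ∃ L : MvPolynomial τ ℂ →ₗ[ℂ] ℂ,
    (∀ i h, L (MvPolynomial.pderiv i h) =
      L (MvPolynomial.pderiv i (MvPolynomial.map (algebraMap ℚ ℂ) G) * h)) ∧ L 1 = 1 := by
  refine h4 (MvPolynomial.map (algebraMap ℚ ℂ) G) w D hG.pos hG.posD (wh_map _ G hG.hom)
    (fun i => ?_) (fun z hz => hG.iso z fun i => ?_)
  · rw [MvPolynomial.pderiv_map, MvPolynomial.constantCoeff_map, hG.crit, map_zero]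
  · rw [← hz i, MvPolynomial.pderiv_map, MvPolynomial.eval_map]
    rfl

theorem addF_b {V : Type} [Fintype V] (h3 : StW3) (h4 : StW4b) [Nonempty τ] (hG : IsWH G w D)
    {F : MvPolynomial V ℚ} (hF : F ≠ 0) (b : Polynomial ℂ)
    (hb : IsFunctionalEq (hyp (addF F G)).toC b) :
    ∃ b' : Polynomial ℂ, b = (Polynomial.X + 1) * b' ∧
      IsFunctionalEq (hyp F).toC ((Polynomial.X + 1) *
        b'.comp (Polynomial.X - Polynomial.C (((∑ i, w i : ℕ) : ℂ) / (D : ℂ)))) := by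
  obtain ⟨L, hL1, hL2⟩ := exists_L h4 hG
  have hF0 : MvPolynomial.map (algebraMap ℚ ℂ) F ≠ 0 := fun h0 => hF
    (MvPolynomial.map_injective _ (algebraMap ℚ ℂ).injective (by rw [map_zero]; exact h0))
  have h1 : IsBFunction (MvPolynomial.map (algebraMap ℚ ℂ) (addF F G)) b :=
    Pool.Agent.Y229.isB_of_single _ b hb
  have e : MvPolynomial.map (algebraMap ℚ ℂ) (addF F G) =
      MvPolynomial.rename Sum.inl (MvPolynomial.map (algebraMap ℚ ℂ) F) +
        MvPolynomial.rename Sum.inr (MvPolynomial.map (algebraMap ℚ ℂ) G) := by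
    unfold addF
    rw [map_add, MvPolynomial.map_rename, MvPolynomial.map_rename]
  rw [e] at h1
  obtain ⟨b', h5, h6⟩ := h3 (MvPolynomial.map (algebraMap ℚ ℂ) F)
    (MvPolynomial.map (algebraMap ℚ ℂ) G) w D hG.pos hG.posD (wh_map _ G hG.hom) L hL1 hL2 b h1
  exact ⟨b', h5, single_of_isB _ _ (Pool.Agent.Y21.TH.tA _ hF0 _ h6)⟩

theorem G_b (h3 : StW3) (h4 : StW4b) [Nonempty τ] (hG : IsWH G w D) (b : Polynomial ℂ)
    (hb : IsFunctionalEq (hyp G).toC b) :
    ∃ b' : Polynomial ℂ, b = (Polynomial.X + 1) * b' ∧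
      b'.eval (-(((∑ i, w i : ℕ) : ℂ) / (D : ℂ))) = 0 := by
  classical
  obtain ⟨L, hL1, hL2⟩ := exists_L h4 hG
  have h1 : IsBFunction (MvPolynomial.map (algebraMap ℚ ℂ) G) b :=
    Pool.Agent.Y229.isB_of_single _ b hb
  have h2 := isB_rename (κ := PUnit) _ b h1
  have h3' : IsBFunction (MvPolynomial.rename Sum.inr (MvPolynomial.map (algebraMap ℚ ℂ) G) :
      MvPolynomial (PUnit ⊕ τ) ℂ) b := by
    refine C.bfunction_equiv (Equiv.sumComm PUnit τ) _ b ?_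
    rw [MvPolynomial.rename_rename]
    exact h2
  have h4' : IsBFunction (MvPolynomial.rename Sum.inl (0 : MvPolynomial PUnit ℂ) +
      MvPolynomial.rename Sum.inr (MvPolynomial.map (algebraMap ℚ ℂ) G) :
      MvPolynomial (PUnit ⊕ τ) ℂ) b := by
    rw [map_zero, zero_add]
    exact h3'
  obtain ⟨b', h5, h6⟩ := h3 (0 : MvPolynomial PUnit ℂ)
    (MvPolynomial.map (algebraMap ℚ ℂ) G) w D hG.pos hG.posD (wh_map _ G hG.hom) L hL1 hL2 b h4'
  refine ⟨b', h5, ?_⟩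
  have h7 : ∀ v ∈ W (0 : MvPolynomial PUnit ℂ), v 0 = 0 := by
    intro v hv
    unfold W at hv
    induction hv using Submodule.span_induction with
    | mem v h =>
      obtain ⟨j, e, Q, he, rfl⟩ := h
      beta_reduce
      rw [zero_add, zero_pow (by omega), map_zero, smul_zero]
    | zero => rfl
    | add v w _ _ h h' => rw [Pi.add_apply, h, h', add_zero]
    | smul r v _ h => rw [Pi.smul_apply, h, smul_zero]
  have h8 := h7 _ h6
  beta_reduce at h8
  rw [pow_zero, Nat.cast_zero, Polynomial.eval_comp, Polynomial.eval_sub, Polynomial.eval_X,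
    Polynomial.eval_C, zero_sub, MvPolynomial.smul_eq_C_mul, mul_one, MvPolynomial.C_eq_zero] at h8
  exact h8

theorem FK_addF {V : Type} [Fintype V] (h3 : StW3) (h4 : StW4b) [Nonempty τ] (hG : IsWH G w D)
    {F : MvPolynomial V ℚ} (hF : F ≠ 0) (r : ℂ) (h : FK (hyp F) r (1 + dl r)) :
    FK (hyp (addF F G)) (r - ((∑ i, w i : ℕ) : ℂ) / (D : ℂ))
      (1 + dl (r - ((∑ i, w i : ℕ) : ℂ) / (D : ℂ))) := by
  intro b hb
  obtain ⟨b', h1, h2⟩ := addF_b h3 h4 hG hF b hb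
  rw [h1]
  exact dvd_aux r _ b' (h _ h2)

theorem FK_addF1 {V : Type} [Fintype V] (h3 : StW3) (h4 : StW4b) [Nonempty τ] (hG : IsWH G w D)
    {F : MvPolynomial V ℚ} (hF : F ≠ 0) : FK (hyp (addF F G)) (-1) 1 := by
  intro b hb
  obtain ⟨b', h1, h2⟩ := addF_b h3 h4 hG hF b hb
  rw [h1, pow_one]
  refine Dvd.dvd.mul_right ?_ _
  rw [Polynomial.C_neg, Polynomial.C_1, sub_neg_eq_add]

theorem FK_G (h3 : StW3) (h4 : StW4b) [Nonempty τ] (hG : IsWH G w D) :
    FK (hyp G) (-(((∑ i, w i : ℕ) : ℂ) / (D : ℂ)))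
      (1 + dl (-(((∑ i, w i : ℕ) : ℂ) / (D : ℂ)))) := by
  intro b hb
  obtain ⟨b', h1, h2⟩ := G_b h3 h4 hG b hb
  rw [h1]
  refine dvd_dl _ 1 b' ?_
  rw [pow_one, Polynomial.dvd_iff_isRoot]
  exact h2

theorem FK_G1 (h3 : StW3) (h4 : StW4b) [Nonempty τ] (hG : IsWH G w D) :
    FK (hyp G) (-1) 1 := by
  intro b hb
  obtain ⟨b', h1, h2⟩ := G_b h3 h4 hG b hb
  rw [h1, pow_one]
  refine Dvd.dvd.mul_right ?_ _
  rw [Polynomial.C_neg, Polynomial.C_1, sub_neg_eq_add]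

theorem rr_root (T : ℂ) (W : ℕ) (hD : 0 < D) (h : T ^ D = (p : ℂ) ^ W) :
    rr p T = - ((W : ℝ) / (D : ℝ)) := by
  have h7 := rr_powx (p := p) T D
  have h8 := rr_powx (p := p) (p : ℂ) W
  rw [h, h8, rr_self] at h7
  have hD0 : (D : ℝ) ≠ 0 := by positivity
  field_simp
  linarith

theorem norm_root (T : ℂ) (W : ℕ) (hW : 0 < W) (h : T ^ D = (p : ℂ) ^ W) : 1 < ‖T‖ := by
  have hp : (1 : ℝ) < p := by exact_mod_cast (Fact.out : p.Prime).one_lt
  by_contra hn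
  have h3 : ‖T‖ ^ D ≤ 1 := pow_le_one₀ (norm_nonneg _) (not_lt.1 hn)
  rw [← norm_pow, h, norm_pow, Complex.norm_natCast] at h3
  exact absurd h3 (not_le.2 (one_lt_pow₀ hp (by omega)))

theorem sum_w [Nonempty τ] (hG : IsWH G w D) : 0 < ∑ i, w i :=
  Finset.sum_pos (fun i _ => hG.pos i) Finset.univ_nonempty

theorem tr_addF {V : Type} [Fintype V] (h3 : StW3) (h4 : StW4b) [Nonempty τ] (hG : IsWH G w D)
    {F : MvPolynomial V ℚ} (hF : F ≠ 0) (T1 T2 : ℂ) (h1 : T1 ≠ 0)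
    (h2 : T2 ^ D = (p : ℂ) ^ (∑ i, w i)) :
    Pool.Agent.Y230.PS.tr (mQ p (hyp F)) T1 ≤
      Pool.Agent.Y230.PS.tr (mQ p (hyp (addF F G))) (T1 * T2) := by
  have hT2 : 1 < ‖T2‖ := norm_root T2 _ (sum_w hG) h2
  by_cases hT1 : ‖T1‖ ≤ 1
  · unfold Pool.Agent.Y230.PS.tr
    rw [if_pos hT1]
    exact bot_le
  · have hT1' := not_le.1 hT1
    have hT : ¬ ‖T1 * T2‖ ≤ 1 := by
      rw [norm_mul, not_le]
      exact one_lt_mul_of_lt_of_le hT1' hT2.le
    unfold Pool.Agent.Y230.PS.tr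
    rw [if_neg hT1, if_neg hT]
    by_cases hK : FK (hyp F) ((rr p T1 : ℝ) : ℂ) (1 + dl ((rr p T1 : ℝ) : ℂ))
    · have h5 := FK_addF h3 h4 hG hF _ hK
      have h6 : ((rr p T1 : ℝ) : ℂ) - ((∑ i, w i : ℕ) : ℂ) / (D : ℂ) =
          ((rr p (T1 * T2) : ℝ) : ℂ) := by
        rw [rr_mul T1 T2 hT1' hT2, rr_root T2 _ hG.posD h2]
        push_cast
        ring
      rw [h6] at h5
      rw [mQ_top h5]
      exact le_top
    · rw [mQ_zero hK]
      exact bot_le

end alg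

section mdl

/-- integral models -/
theorem exists_model {τ : Type} (G : MvPolynomial τ ℚ) : ∃ K : ℕ, ∀ K', K ≤ K' →
    ∃ Gz : MvPolynomial τ ℤ_[p], MvPolynomial.map PadicInt.Coe.ringHom Gz =
      MvPolynomial.C ((p : ℚ_[p]) ^ K') * MvPolynomial.map (algebraMap ℚ ℚ_[p]) G := by
  induction G using MvPolynomial.induction_on with
  | C a =>
    have hp : (1 : ℝ) < p := by exact_mod_cast (Fact.out : p.Prime).one_lt
    obtain ⟨K, hK⟩ := pow_unbounded_of_one_lt ‖(algebraMap ℚ ℚ_[p] a)‖ hp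
    refine ⟨K, fun K' hK' => ?_⟩
    have h1 : ‖(p : ℚ_[p]) ^ K' * algebraMap ℚ ℚ_[p] a‖ ≤ 1 := by
      rw [norm_mul, norm_pow, Padic.norm_p, inv_pow, inv_mul_le_iff₀ (by positivity), mul_one]
      exact hK.le.trans (pow_le_pow_right₀ hp.le hK')
    obtain ⟨z, hz⟩ : ∃ z : ℤ_[p], PadicInt.Coe.ringHom z = (p : ℚ_[p]) ^ K' * algebraMap ℚ ℚ_[p] a :=
      ⟨⟨_, h1⟩, rfl⟩
    refine ⟨MvPolynomial.C z, ?_⟩
    rw [MvPolynomial.map_C, MvPolynomial.map_C, ← map_mul, hz]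
  | add F G hF hG =>
    obtain ⟨K1, h1⟩ := hF
    obtain ⟨K2, h2⟩ := hG
    refine ⟨max K1 K2, fun K' hK' => ?_⟩
    obtain ⟨A, hA⟩ := h1 K' ((le_max_left _ _).trans hK')
    obtain ⟨B, hB⟩ := h2 K' ((le_max_right _ _).trans hK')
    exact ⟨A + B, by rw [map_add, map_add, hA, hB, mul_add]⟩
  | mul_X F i hF =>
    obtain ⟨K1, h1⟩ := hF
    refine ⟨K1, fun K' hK' => ?_⟩
    obtain ⟨A, hA⟩ := h1 K' hK'
    exact ⟨A * MvPolynomial.X i, by rw [map_mul, map_mul, hA, MvPolynomial.map_X,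
      MvPolynomial.map_X, mul_assoc]⟩

variable {τ : Type} [Fintype τ] {G : MvPolynomial τ ℚ} {w : τ → ℕ} {D : ℕ}

theorem model_ev {K : ℕ} {Gz : MvPolynomial τ ℤ_[p]}
    (h : MvPolynomial.map PadicInt.Coe.ringHom Gz =
      MvPolynomial.C ((p : ℚ_[p]) ^ K) * MvPolynomial.map (algebraMap ℚ ℚ_[p]) G)
    (y : τ → ℤ_[p]) : inc p (MvPolynomial.eval y Gz) = (p : ℚ_[p]) ^ K *
      MvPolynomial.eval (fun i => inc p (y i)) (MvPolynomial.map (algebraMap ℚ ℚ_[p]) G) := by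
  have h1 := congrArg (MvPolynomial.eval fun i => inc p (y i)) h
  rw [map_mul, MvPolynomial.eval_C] at h1
  rw [← h1, MvPolynomial.eval_map]
  change PadicInt.Coe.ringHom (MvPolynomial.eval y Gz) = _
  rw [MvPolynomial.eval, MvPolynomial.coe_eval₂Hom, MvPolynomial.hom_eval₂]
  rfl

/-- the exponential sums of the model -/
theorem model_W1 (h1 : StW1) (hG : IsWH G w D) {K : ℕ} {Gz : MvPolynomial τ ℤ_[p]}
    (h : MvPolynomial.map PadicInt.Coe.ringHom Gz =
      MvPolynomial.C ((p : ℚ_[p]) ^ K) * MvPolynomial.map (algebraMap ℚ ℚ_[p]) G) :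
  (∃ C : ℕ, 1 ≤ C ∧ ∀ (e : ℕ) (u v : ℤ_[p]), ‖v - 1‖ ≤ ((p : ℝ)⁻¹) ^ C →
    Es (Measure.pi fun _ : τ => mu p) (fun y => MvPolynomial.eval y Gz) e (u * v) =
      Es (Measure.pi fun _ : τ => mu p) (fun y => MvPolynomial.eval y Gz) e u) ∧
  ∃ e0 : ℕ, ∀ (e : ℕ) (u : ℤ_[p]), e0 ≤ e → ‖u‖ = 1 →
    (p : ℂ) ^ (∑ i, w i) * Es (Measure.pi fun _ : τ => mu p) (fun y => MvPolynomial.eval y Gz)
      (e + D) u = Es (Measure.pi fun _ : τ => mu p) (fun y => MvPolynomial.eval y Gz) e u := by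
  have hp0 : (p : ℚ_[p]) ≠ 0 := by exact_mod_cast (Fact.out : p.Prime).ne_zero
  refine h1 p Gz w D hG.pos hG.posD ?_ ?_
  · intro m hm
    apply hG.hom
    intro h0
    apply hm
    have h2 := congrArg (MvPolynomial.coeff m) h
    rw [MvPolynomial.coeff_map, MvPolynomial.coeff_C_mul, MvPolynomial.coeff_map, h0, map_zero,
      mul_zero] at h2
    exact inc_inj (by rw [inc_zero]; exact h2)
  · intro z hz
    obtain ⟨emb⟩ := exists_emb p
    have hemb : emb.comp (algebraMap ℚ ℚ_[p]) = algebraMap ℚ ℂ := RingHom.ext_rat _ _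
    have h3 := hG.iso (fun i => emb (z i)) fun i => ?_
    · funext i
      have h4 := congrFun h3 i
      rw [Pi.zero_apply] at h4 ⊢
      exact (map_eq_zero emb).1 h4
    · have h4 : (p : ℚ_[p]) ^ K * MvPolynomial.eval z
          (MvPolynomial.map (algebraMap ℚ ℚ_[p]) (MvPolynomial.pderiv i G)) = 0 := by
        rw [← hz i, ← MvPolynomial.eval_map, ← MvPolynomial.pderiv_map, ← MvPolynomial.pderiv_map, h,
          MvPolynomial.pderiv_C_mul, map_mul, MvPolynomial.eval_C]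
      have h5 := (mul_eq_zero.1 h4).resolve_left (pow_ne_zero _ hp0)
      have h6 := congrArg emb h5
      rw [map_zero, MvPolynomial.eval_map] at h6
      rw [← h6]
      change MvPolynomial.eval₂ (algebraMap ℚ ℂ) _ _ = _
      rw [← hemb, MvPolynomial.hom_eval₂]

end mdl

section main

variable {τ : Type} [Fintype τ] {G : MvPolynomial τ ℚ} {w : τ → ℕ} {D : ℕ}

theorem IsV.up {V : Type} [Fintype V] {F : MvPolynomial V ℚ} {K : ℕ} {φ : (V → ℤ_[p]) → ℤ_[p]}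
    (h : IsV F K φ) (d : ℕ) : IsV F (d + K) (fun x => (p : ℤ_[p]) ^ d * φ x) := by
  intro x
  rw [inc_mul, inc_p, h, pow_add, mul_assoc]

/-- **The sums `F(x) + G(y)`.** -/
theorem XP_addF (h1 : StW1) (h2 : StW2) (h3 : StW3) (h4 : StW4b) [Nonempty τ] (hG : IsWH G w D)
    {V : Type} [Fintype V] {F : MvPolynomial V ℚ} (hF : F ≠ 0) (h : XP p F) :
    XP p (addF F G) := by
  obtain ⟨K0, φ0, hφ0⟩ := exists_IsV (p := p) F
  obtain ⟨K1, hK1⟩ := exists_model (p := p) G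
  obtain ⟨Gz, hGz⟩ := hK1 (K1 + K0) (Nat.le_add_right _ _)
  have hφ1 := hφ0.up K1
  set φ1 : (V → ℤ_[p]) → ℤ_[p] := fun x => (p : ℤ_[p]) ^ K1 * φ0 x with hφ1d
  set ρ : (τ → ℤ_[p]) → ℤ_[p] := fun y => MvPolynomial.eval y Gz with hρ
  have hρm : Measurable ρ := (MvPolynomial.continuous_eval Gz).measurable
  have hφ : IsV (addF F G) (K1 + K0) (fun z => φ1 (fun i => z (Sum.inl i)) +
      ρ (fun i => z (Sum.inr i))) := by
    intro z
    beta_reduce
    rw [inc_add, hφ1, hρ, model_ev hGz, ← mul_add]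
    congr 1
    unfold addF
    rw [map_add, map_add, MvPolynomial.map_rename, MvPolynomial.map_rename,
      MvPolynomial.eval_rename, MvPolynomial.eval_rename]
    rfl
  refine XP_of (K1 + K0) _ hφ fun χ => ?_
  obtain ⟨⟨C, hC, hC1⟩, e0, he0⟩ := model_W1 h1 hG hGz
  have h5 := h2 p (Measure.pi fun _ : V => mu p) (Measure.pi fun _ : τ => mu p) φ1 ρ hφ1.meas hρm
    C D (∑ i, w i) e0 hC hG.posD hC1 he0 (Pool.Agent.Y230.PS.tr (mQ p (hyp F)))
    (Pool.Agent.Y230.PS.tr (mQ p (hyp (addF F G))))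
    (fun T1 T2 hT1 hT2 => tr_addF h3 h4 hG hF T1 T2 hT1 hT2) (h _ φ1 hφ1) χ
  refine (congrArg (· ∈ EP (Pool.Agent.Y230.PS.tr (mQ p (hyp (addF F G)))))
    (funext fun e => ?_)).mp h5
  have hm : Measurable (fun y : (V → ℤ_[p]) × (τ → ℤ_[p]) => φ1 y.1 + ρ y.2) :=
    (hφ1.meas.comp measurable_fst).add (hρm.comp measurable_snd)
  have h7 := measurePreserving_sumPiEquivProdPi (X := fun _ : V ⊕ τ => ℤ_[p])
    (fun _ => mu p)
  rw [← Eh_mp _ _ _ h7 _ hm χ e]
  rfl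

theorem const_EP (c : ℂ) (m : ℂ → ℕ∞) (h : 1 ≤ m 1) : (fun _ : ℕ => c) ∈ EP m := by
  refine Submodule.subset_span ⟨1, one_ne_zero, 1, by exact_mod_cast h, ?_⟩
  rw [mem_K_succ]
  have : op (1 : ℂ)⁻¹ (fun _ : ℕ => c) = 0 := by
    funext e
    rw [op_apply]
    simp
  rw [this]
  exact Submodule.zero_mem _

/-- **The polynomial `G`.** -/
theorem XP_G (h1 : StW1) (h2 : StW2) (h3 : StW3) (h4 : StW4b) [Nonempty τ] (hG : IsWH G w D) :
    XP p G := by
  classical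
  obtain ⟨K1, hK1⟩ := exists_model (p := p) G
  obtain ⟨Gz, hGz⟩ := hK1 K1 le_rfl
  set ρ : (τ → ℤ_[p]) → ℤ_[p] := fun y => MvPolynomial.eval y Gz with hρ
  have hρm : Measurable ρ := (MvPolynomial.continuous_eval Gz).measurable
  have hφ : IsV G K1 ρ := fun z => model_ev hGz z
  refine XP_of K1 _ hφ fun χ => ?_
  obtain ⟨⟨C, hC, hC1⟩, e0, he0⟩ := model_W1 h1 hG hGz
  have h7 : ∀ (χ : UC p) (e : ℕ), Eh (Measure.dirac ()) (fun _ : Unit => (0 : ℤ_[p])) χ e =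
      ∫ u in un p, (starRingEnd ℂ) (χ.X (u : ℚ_[p])) ∂(mu p) := by
    intro χ e
    unfold Eh
    refine integral_congr_ae (Filter.Eventually.of_forall fun u => ?_)
    beta_reduce
    have h8 : Es (Measure.dirac ()) (fun _ : Unit => (0 : ℤ_[p])) e u = 1 := by
      unfold Es
      have h9 : ∀ y : Unit, psi p e (u * (0 : ℤ_[p])) = 1 := fun y => by
        rw [mul_zero, B3.psi_zero]
      rw [integral_congr_ae (Filter.Eventually.of_forall h9), integral_const]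
      simp
    rw [h8, mul_one]
  have h5 := h2 p (Measure.dirac ()) (Measure.pi fun _ : τ => mu p) (fun _ : Unit => (0 : ℤ_[p])) ρ
    measurable_const hρm C D (∑ i, w i) e0 hC hG.posD hC1 he0 (fun T => if T = 1 then 1 else 0)
    (Pool.Agent.Y230.PS.tr (mQ p (hyp G))) (fun T1 T2 hT1 hT2 => ?_) (fun χ => ?_) χ
  · refine (congrArg (· ∈ EP (Pool.Agent.Y230.PS.tr (mQ p (hyp G))))
      (funext fun e => ?_)).mp h5
    have hm : Measurable (fun y : Unit × (τ → ℤ_[p]) => (0 : ℤ_[p]) + ρ y.2) :=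
      measurable_const.add (hρm.comp measurable_snd)
    have h8 : MeasurePreserving (Prod.mk ()) (Measure.pi fun _ : τ => mu p)
        ((Measure.dirac ()).prod (Measure.pi fun _ : τ => mu p)) :=
      ⟨measurable_prodMk_left, (Measure.dirac_prod ()).symm⟩
    have h9 := Eh_mp _ _ _ h8 _ hm χ e
    rw [← h9]
    congr 1
    funext y
    rw [zero_add]
  · beta_reduce
    split_ifs with hT
    · rw [hT, one_mul]
      have hT2' : 1 < ‖T2‖ := norm_root T2 _ (sum_w hG) hT2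
      have h8 := FK_G h3 h4 hG
      have h9 : -(((∑ i, w i : ℕ) : ℂ) / (D : ℂ)) = ((rr p T2 : ℝ) : ℂ) := by
        rw [rr_root T2 _ hG.posD hT2]
        push_cast
        ring
      rw [h9] at h8
      unfold Pool.Agent.Y230.PS.tr
      rw [if_neg (not_le.2 hT2'), mQ_top h8]
      exact le_top
    · exact bot_le
  · refine (congrArg (· ∈ EP (fun T => if T = 1 then 1 else 0)) (funext fun e => ?_)).mp
      (const_EP (∫ u in un p, (starRingEnd ℂ) (χ.X (u : ℚ_[p])) ∂(mu p))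
        (fun T => if T = 1 then 1 else 0) (by simp))
    exact (h7 χ e).symm

theorem G_ne (h3 : StW3) (h4 : StW4b) [Nonempty τ] (hG : IsWH G w D) : G ≠ 0 := by
  rintro rfl
  have h1 := hG.iso (fun _ => 1) fun i => by rw [map_zero, map_zero]
  have h2 := congrFun h1 (Classical.arbitrary τ)
  exact one_ne_zero h2

theorem addF_ne {V : Type} {F : MvPolynomial V ℚ} (hF : F ≠ 0) (hG : IsWH G w D) :
    addF F G ≠ 0 := by
  intro h0
  apply hF
  have h1 := congrArg (MvPolynomial.aeval (Sum.elim MvPolynomial.X (fun _ => 0) :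
    V ⊕ τ → MvPolynomial V ℚ)) h0
  unfold addF at h1
  rw [map_add, MvPolynomial.aeval_rename, MvPolynomial.aeval_rename, map_zero] at h1
  have e1 : (Sum.elim MvPolynomial.X (fun _ => 0) : V ⊕ τ → MvPolynomial V ℚ) ∘ Sum.inl =
      MvPolynomial.X := rfl
  have e2 : (Sum.elim MvPolynomial.X (fun _ => 0) : V ⊕ τ → MvPolynomial V ℚ) ∘ Sum.inr =
      fun _ => 0 := rfl
  rw [e1, e2, MvPolynomial.aeval_X_left, AlgHom.id_apply, MvPolynomial.aeval_zero'] at h1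
  have h2 : MvPolynomial.constantCoeff G = 0 := by
    by_contra hne
    have h3 := hG.hom (d := 0) hne
    rw [map_zero] at h3
    exact hG.posD.ne h3
  rw [h2, map_zero, add_zero] at h1
  exact h1

end main

end Pool.Agent.N138.SU
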