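import Pool.Agent.N138.SU.Defs
import Pool.Agent.N138.PA.MainC

set_option autoImplicit false
set_option linter.unusedSectionVars false
set_option linter.unusedVariables false

/-! # Characters: the twisted norms -/

namespace Pool.Agent.N138.SU

open MeasureTheory Set Pool.Agent.W427.SMC Pool.Agent.Y230.PT
open scoped ENNReal
open Pool.Agent.Y230.RE

variable {p : ℕ} [Fact p.Prime]

attribute [local instance] msK bsK

theorem X_near (χ : UC p) {x y : ℚ_[p]} (hx : x ≠ 0) (h : ‖y - x‖ ≤ ‖x‖ * qr p ^ χ.c) :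
    χ.X y = χ.X x := by
  have e : y = x * (1 + (y - x) / x) := by field_simp; ring
  rw [e, map_mul, χ.tr (1 + (y - x) / x), mul_one]
  rw [add_sub_cancel_left, norm_div, div_le_iff₀ (norm_pos_iff.2 hx), mul_comm]
  exact h

/-- the exponent -/
theorem exists_exp (c : ℕ) (hc : 1 ≤ c) : ∃ n : ℕ, 1 ≤ n ∧ ∀ u : ℚ_[p], ‖u‖ = 1 →
    ‖u ^ n - 1‖ ≤ ((p : ℝ)⁻¹) ^ c := by
  have hz : NeZero (p ^ c) := ⟨pow_ne_zero _ (Fact.out : p.Prime).ne_zero⟩
  refine ⟨Fintype.card (ZMod (p ^ c))ˣ, Fintype.card_pos, fun u hu => ?_⟩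
  set u' : ℤ_[p] := ⟨u, hu.le⟩ with hu'
  have hun : IsUnit u' := PadicInt.isUnit_iff.2 hu
  set n := Fintype.card (ZMod (p ^ c))ˣ with hn
  have h1 : PadicInt.toZModPow c (u' ^ n - 1) = 0 := by
    rw [map_sub, map_pow, map_one]
    obtain ⟨v, hv⟩ := hun.map (PadicInt.toZModPow (p := p) c)
    rw [← hv, ← Units.val_pow_eq_pow_val, hn, pow_card_eq_one, Units.val_one, sub_self]
  rw [← RingHom.mem_ker, PadicInt.ker_toZModPow, ← PadicInt.norm_le_pow_iff_mem_span_pow] at h1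
  have h2 : ‖u ^ n - 1‖ = ‖u' ^ n - 1‖ := by
    rw [PadicInt.norm_def]
    push_cast
    rfl
  rw [h2]
  refine h1.trans_eq ?_
  rw [zpow_neg, zpow_natCast, inv_pow]

theorem X_unit (χ : UC p) : ∃ n : ℕ, 1 ≤ n ∧ ∀ u : ℚ_[p], ‖u‖ = 1 → χ.X u ^ n = 1 := by
  obtain ⟨n, hn, h⟩ := exists_exp (p := p) χ.c χ.hc
  refine ⟨n, hn, fun u hu => ?_⟩
  rw [← map_pow]
  exact χ.tr _ (h u hu)

/-- every nonzero number is a power of `p` times a unit -/
theorem exists_unit (x : ℚ_[p]) (hx : x ≠ 0) : ∃ (n : ℤ) (u : ℚ_[p]), ‖u‖ = 1 ∧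
    x = (p : ℚ_[p]) ^ n * u ∧ ‖x‖ = (p : ℝ) ^ (-n) := by
  have hp : (p : ℚ_[p]) ≠ 0 := by exact_mod_cast (Fact.out : p.Prime).ne_zero
  have hp' : (p : ℝ) ≠ 0 := by exact_mod_cast (Fact.out : p.Prime).ne_zero
  have h1 := Padic.norm_eq_zpow_neg_valuation hx
  refine ⟨x.valuation, (p : ℚ_[p]) ^ (-x.valuation) * x, ?_, ?_, h1⟩
  · rw [norm_mul, h1, norm_zpow, Padic.norm_p, zpow_neg, zpow_neg, inv_zpow, inv_inv]
    exact mul_inv_cancel₀ (zpow_ne_zero _ hp')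
  · rw [← mul_assoc, ← zpow_add₀ hp, add_neg_cancel, zpow_zero, one_mul]

theorem X_of_unit (χ : UC p) (x : ℚ_[p]) (n : ℤ) (u : ℚ_[p]) (h : x = (p : ℚ_[p]) ^ n * u) :
    χ.X x = χ.X u := by
  rw [h, map_mul, map_zpow₀, χ.one, one_zpow, one_mul]

theorem norm_X (χ : UC p) {x : ℚ_[p]} (hx : x ≠ 0) : ‖χ.X x‖ = 1 := by
  obtain ⟨n, u, hu, h1, -⟩ := exists_unit x hx
  obtain ⟨m, hm, h2⟩ := X_unit χ
  rw [X_of_unit χ x n u h1]
  have h3 := congrArg norm (h2 u hu)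
  rw [norm_pow, norm_one] at h3
  exact (pow_eq_one_iff_of_nonneg (norm_nonneg _) (by omega)).1 h3

theorem norm_X_le (χ : UC p) (x : ℚ_[p]) : ‖χ.X x‖ ≤ 1 := by
  by_cases hx : x = 0
  · rw [hx, map_zero, norm_zero]; exact zero_le_one
  · exact (norm_X χ hx).le

theorem X_meas (χ : UC p) : Measurable χ.X := by
  refine measurable_of_continuousOn_compl_singleton 0 ?_
  intro x hx
  refine ContinuousAt.continuousWithinAt ?_
  have hx' : x ≠ 0 := hx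
  have hr : 0 < ‖x‖ * qr p ^ χ.c := mul_pos (norm_pos_iff.2 hx') (pow_pos qr_pos _)
  refine ContinuousAt.congr (f := fun _ => χ.X x) continuousAt_const ?_
  filter_upwards [Metric.ball_mem_nhds x hr] with y hy
  rw [Metric.mem_ball, dist_eq_norm] at hy
  exact (X_near χ hx' hy.le).symm

/-- `χ(x) ‖x‖ ^ s` -/
noncomputable def om (χ : UC p) (s : ℝ) (x : ℚ_[p]) : ℂ := χ.X x * ((‖x‖ ^ s : ℝ) : ℂ)

/-- `‖x‖` -/
noncomputable def nx (x : ℚ_[p]) : ℂ := ((‖x‖ : ℝ) : ℂ)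

/-- the twisted weights -/
noncomputable def wx (χ : UC p) (s : ℝ) (a n : ℕ) (x : ℚ_[p]) : ℂ := om χ s x ^ a * nx x ^ (n - 1)

variable (χ : UC p)

theorem om_mul (s : ℝ) (x y : ℚ_[p]) : om χ s (x * y) = om χ s x * om χ s y := by
  unfold om
  rw [map_mul, norm_mul, Real.mul_rpow (norm_nonneg _) (norm_nonneg _)]
  push_cast
  ring

theorem om_one (s : ℝ) : om χ s 1 = 1 := by
  unfold om
  rw [map_one, norm_one, Real.one_rpow]
  simp

theorem om_pow (s : ℝ) (x : ℚ_[p]) (n : ℕ) : om χ s (x ^ n) = om χ s x ^ n := by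
  induction n with
  | zero => simp [om_one]
  | succ n ih => rw [pow_succ, pow_succ, om_mul, ih]

theorem nx_mul (x y : ℚ_[p]) : nx (x * y) = nx x * nx y := by
  unfold nx
  rw [norm_mul]
  push_cast
  rfl

theorem om_meas (s : ℝ) : Measurable (om χ s) := by
  unfold om
  exact (X_meas χ).mul (Complex.measurable_ofReal.comp (continuous_norm.measurable.pow_const s))

theorem nx_meas : Measurable (nx (p := p)) := by
  unfold nx
  exact Complex.measurable_ofReal.comp continuous_norm.measurable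

theorem wx_meas (s : ℝ) (a n : ℕ) : Measurable (wx χ s a n) :=
  ((om_meas χ s).pow_const a).mul (nx_meas.pow_const (n - 1))

theorem norm_om_le (s : ℝ) (x : ℚ_[p]) : ‖om χ s x‖ ≤ ‖x‖ ^ s := by
  unfold om
  rw [norm_mul, Complex.norm_real, Real.norm_of_nonneg (Real.rpow_nonneg (norm_nonneg _) _)]
  exact mul_le_of_le_one_left (Real.rpow_nonneg (norm_nonneg _) _) (norm_X_le χ x)

theorem norm_nx (x : ℚ_[p]) : ‖nx x‖ = ‖x‖ := by
  unfold nx
  rw [Complex.norm_real, norm_norm]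

theorem wx_zero_one (s : ℝ) (x : ℚ_[p]) : wx χ s 0 1 x = 1 := by simp [wx]

theorem wx_mul (s : ℝ) (a n : ℕ) (x y : ℚ_[p]) :
    wx χ s a n (x * y) = wx χ s a n x * wx χ s a n y := by
  unfold wx
  rw [om_mul, nx_mul, mul_pow, mul_pow]
  ring

theorem wx_add (s : ℝ) (a b n : ℕ) (x : ℚ_[p]) :
    wx χ s (a + b) n x = om χ s x ^ b * wx χ s a n x := by
  unfold wx
  rw [pow_add]
  ring

theorem wx_add' (s : ℝ) (a b n k : ℕ) (hn : 1 ≤ n) (hk : 1 ≤ k) (x : ℚ_[p]) :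
    wx χ s (a + b) (n + k) x = nx x * (wx χ s a n x * wx χ s b k x) := by
  unfold wx
  have h : n + k - 1 = (n - 1) + (k - 1) + 1 := by omega
  rw [h, pow_succ, pow_add, pow_add]
  ring

theorem wx1 (s : ℝ) (m : ℕ) (x : ℚ_[p]) : wx χ s m 1 x = om χ s (x ^ m) := by
  rw [wx, om_pow, Nat.sub_self, pow_zero, mul_one]

/-- local constancy away from the origin -/
theorem cst_near {X : Type} [TopologicalSpace X] (f : X → ℚ_[p]) (hf : Continuous f)
    (x0 : X) (h : f x0 ≠ 0) : ∃ U, IsOpen U ∧ x0 ∈ U ∧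
      ∀ x ∈ U, ‖f x‖ = ‖f x0‖ ∧ χ.X (f x) = χ.X (f x0) := by
  have hr : 0 < ‖f x0‖ * qr p ^ χ.c := mul_pos (norm_pos_iff.2 h) (pow_pos qr_pos _)
  refine ⟨f ⁻¹' Metric.ball (f x0) (‖f x0‖ * qr p ^ χ.c), Metric.isOpen_ball.preimage hf,
    Metric.mem_ball_self hr, fun x hx => ?_⟩
  rw [Set.mem_preimage, Metric.mem_ball, dist_eq_norm] at hx
  refine ⟨?_, X_near χ h hx.le⟩
  have h4 : ‖f x - f x0‖ < ‖f x0‖ := hx.trans_le
    (mul_le_of_le_one_right (norm_nonneg _) (pow_le_one₀ qr_pos.le qr_lt_one.le))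
  have h3 : f x = (f x - f x0) + f x0 := by ring
  rw [h3, Padic.add_eq_max_of_ne h4.ne, max_eq_right h4.le]

theorem om_cst {x y : ℚ_[p]} (h : ‖x‖ = ‖y‖ ∧ χ.X x = χ.X y) (s : ℝ) : om χ s x = om χ s y := by
  unfold om
  rw [h.1, h.2]

theorem wx_cst {x y : ℚ_[p]} (h : ‖x‖ = ‖y‖ ∧ χ.X x = χ.X y) (s : ℝ) (a n : ℕ) :
    wx χ s a n x = wx χ s a n y := by
  unfold wx nx
  rw [om_cst χ h, h.1]

variable {T0 : ℂ}

theorem reg_om (hT0 : T0 ≠ 0) (x : ℚ_[p]) (hx : x ≠ 0) : Reg p T0 0 (fun s => om χ s x) := by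
  refine ((Reg.const (χ.X x)).mul0 (reg_N hT0 x hx)).congr fun s _ => ?_
  rw [N_toReal]
  rfl

theorem reg_wx (hT0 : T0 ≠ 0) (a n : ℕ) (x : ℚ_[p]) (hx : x ≠ 0) :
    Reg p T0 0 (fun s => wx χ s a n x) :=
  ((reg_om χ hT0 x hx).pow a).mul0 (Reg.const _)

/-- `(a, n)` is critical for `χ` at `T0` -/
def Cr (χ : UC p) (T0 : ℂ) (a n : ℕ) : Prop :=
  Crit p T0 a n ∧ ∀ u : ℚ_[p], ‖u‖ = 1 → χ.X u ^ a = 1

theorem not_cr01 : ¬ Cr χ T0 0 1 := fun h => not_crit01 h.1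

theorem Xu_ne {u : ℚ_[p]} (hu : ‖u‖ = 1) : χ.X u ≠ 0 := by
  have : u ≠ 0 := by
    rintro rfl
    rw [norm_zero] at hu
    exact zero_ne_one hu
  intro h
  have h2 := norm_X χ this
  rw [h, norm_zero] at h2
  exact zero_ne_one h2

theorem cr_add (a0 n0 b k : ℕ) (h : Cr χ T0 a0 n0) :
    Cr χ T0 (a0 + b) (n0 + k) ↔ Cr χ T0 b k := by
  unfold Cr
  rw [crit_add a0 n0 b k h.1]
  refine and_congr_right fun _ => forall_congr' fun u => forall_congr' fun hu => ?_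
  rw [pow_add, h.2 u hu, one_mul]

end Pool.Agent.N138.SU
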