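import Pool.Agent.N138.SU.Cls1

set_option autoImplicit false
set_option linter.unusedSectionVars false
set_option linter.unusedVariables false

/-! # The suspensions -/

namespace Pool.Agent.N138.SU

open MeasureTheory Pool.Agent.W574.SM Polynomial
open Pool.Agent.Y230.PT Pool.Agent.Y230.PS Pool.Agent.Y230.TH
open Pool.Agent.W427.SMC (msZ bsZ mu)

variable {p : ℕ} [Fact p.Prime]

attribute [local instance] msK bsK msZ bsZ

section alg

theorem rr_powx (T : ℂ) (n : ℕ) : rr p (T ^ n) = n * rr p T := by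
  unfold rr
  rw [norm_pow, Real.log_pow]
  ring

theorem dvd_aux (r s : ℂ) (b' : ℂ[X]) (h : (X - C r) ^ (1 + dl r) ∣ (X + 1) * b'.comp (X - C s)) :
    (X - C (r - s)) ^ (1 + dl (r - s)) ∣ (X + 1) * b' := by
  have h1 : (X - C r) ∣ b'.comp (X - C s) := by
    have hX : (X : ℂ[X]) + 1 = X - C (-1) := by rw [C_neg, C_1]; ring
    by_cases hr : r = -1
    · rw [dl_eq, if_pos hr, hr, pow_succ, pow_one, hX] at h
      rw [hr]
      exact (mul_dvd_mul_iff_left (X_sub_C_ne_zero (-1 : ℂ))).1 h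
    · rw [dl_eq, if_neg hr, add_zero, pow_one, hX] at h
      rw [dvd_iff_isRoot, IsRoot.def, eval_mul, mul_eq_zero] at h
      rw [dvd_iff_isRoot, IsRoot.def]
      refine h.resolve_left ?_
      rw [eval_sub, eval_X, eval_C, sub_eq_zero]
      exact hr
  have h2 : (X - C (r - s)) ^ 1 ∣ b' := by
    rw [pow_one, dvd_iff_isRoot, IsRoot.def]
    rw [dvd_iff_isRoot, IsRoot.def, eval_comp, eval_sub, eval_X, eval_C] at h1
    exact h1
  exact dvd_dl _ 1 b' h2

/-- the suspension -/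
noncomputable def susp {V : Type} (F : MvPolynomial V ℚ) (c : ℚ) (N : ℕ) :
    MvPolynomial (V ⊕ Unit) ℚ :=
  MvPolynomial.rename Sum.inl F + MvPolynomial.C c * MvPolynomial.X (Sum.inr ()) ^ N

variable {V : Type} [Fintype V] {F : MvPolynomial V ℚ} (hF : F ≠ 0) {c : ℚ} (hc : c ≠ 0) {N : ℕ}
  (hN : 2 ≤ N)

include hF hc hN

theorem susp_b (b : ℂ[X]) (hb : IsFunctionalEq (hyp (susp F c N)).toC b) :
    ∃ b' : ℂ[X], b = (X + 1) * b' ∧
      IsFunctionalEq (hyp F).toC ((X + 1) * b'.comp (X - C (1 / (N : ℂ)))) := by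
  have hF0 : MvPolynomial.map (algebraMap ℚ ℂ) F ≠ 0 := fun h0 => hF
    (MvPolynomial.map_injective _ (algebraMap ℚ ℂ).injective (by rw [map_zero]; exact h0))
  have hc0 : algebraMap ℚ ℂ c ≠ 0 := by
    rw [Ne, map_eq_zero]
    exact hc
  have h1 : Pool.Agent.H628R4.TP.IsBFunction (MvPolynomial.map (algebraMap ℚ ℂ) (susp F c N)) b :=
    Pool.Agent.Y229.isB_of_single _ b hb
  have e : MvPolynomial.map (algebraMap ℚ ℂ) (susp F c N) =
      MvPolynomial.rename Sum.inl (MvPolynomial.map (algebraMap ℚ ℂ) F) +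
        MvPolynomial.C (algebraMap ℚ ℂ c) * MvPolynomial.X (Sum.inr ()) ^ N := by
    unfold susp
    rw [map_add, MvPolynomial.map_rename, map_mul, MvPolynomial.map_C, map_pow,
      MvPolynomial.map_X]
  rw [e] at h1
  obtain ⟨b', h2, h3⟩ := C.t (MvPolynomial.map (algebraMap ℚ ℂ) F) hF0 (algebraMap ℚ ℂ c) hc0 N
    hN b h1
  exact ⟨b', h2, single_of_isB _ _ h3⟩

theorem FK_susp (r : ℂ) (h : FK (hyp F) r (1 + dl r)) :
    FK (hyp (susp F c N)) (r - 1 / (N : ℂ)) (1 + dl (r - 1 / (N : ℂ))) := by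
  intro b hb
  obtain ⟨b', h1, h2⟩ := susp_b hF hc hN b hb
  rw [h1]
  exact dvd_aux r _ b' (h _ h2)

theorem FK_susp1 : FK (hyp (susp F c N)) (-1) 1 := by
  intro b hb
  obtain ⟨b', h1, h2⟩ := susp_b hF hc hN b hb
  rw [h1, pow_one]
  refine Dvd.dvd.mul_right ?_ _
  rw [C_neg, C_1, sub_neg_eq_add]

theorem tr_susp (T1 T2 : ℂ) (h1 : T1 ≠ 0) (h2 : T2 ^ N = (p : ℂ)) :
    Pool.Agent.Y230.PS.tr (mQ p (hyp F)) T1 ≤
      Pool.Agent.Y230.PS.tr (mQ p (hyp (susp F c N))) (T1 * T2) := by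
  have hp : (1 : ℝ) < p := by exact_mod_cast (Fact.out : p.Prime).one_lt
  have hT2 : 1 < ‖T2‖ := by
    by_contra hn
    have h3 : ‖T2‖ ^ N ≤ 1 := pow_le_one₀ (norm_nonneg _) (not_lt.1 hn)
    rw [← norm_pow, h2, Complex.norm_natCast] at h3
    linarith
  by_cases hT1 : ‖T1‖ ≤ 1
  · unfold Pool.Agent.Y230.PS.tr
    rw [if_pos hT1]
    exact bot_le
  · have hT1' := not_le.1 hT1
    have hT : ¬ ‖T1 * T2‖ ≤ 1 := by
      rw [norm_mul, not_le]
      exact one_lt_mul_of_lt_of_le hT1' hT2.le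
    unfold Pool.Agent.Y230.PS.tr
    rw [if_neg hT1, if_neg hT]
    by_cases hK : FK (hyp F) ((rr p T1 : ℝ) : ℂ) (1 + dl ((rr p T1 : ℝ) : ℂ))
    · have h4 := FK_susp hF hc hN _ hK
      have h5 : ((rr p T1 : ℝ) : ℂ) - 1 / (N : ℂ) = ((rr p (T1 * T2) : ℝ) : ℂ) := by
        have h6 : (N : ℝ) * rr p T2 = -1 := by
          have h7 := rr_powx (p := p) T2 N
          rw [h2, rr_self] at h7
          linarith
        have hN0 : (N : ℝ) ≠ 0 := by positivity
        have h8 : rr p T2 = - (1 / (N : ℝ)) := by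
          field_simp
          linarith
        rw [rr_mul T1 T2 hT1' hT2, h8]
        push_cast
        ring
      rw [h5] at h4
      rw [mQ_top h4]
      exact le_top
    · rw [mQ_zero hK]
      exact bot_le

end alg

section main

variable {V : Type} [Fintype V] {F : MvPolynomial V ℚ}

/-- the new variable -/
noncomputable def sumP (p : ℕ) [Fact p.Prime] (V : Type) : (V ⊕ Unit → ℤ_[p]) → (V → ℤ_[p]) × ℤ_[p] :=
  fun z => (fun v => z (Sum.inl v), z (Sum.inr ()))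

theorem sumP_mp : MeasurePreserving (sumP p V) (Measure.pi fun _ : V ⊕ Unit => mu p)
    ((Measure.pi fun _ : V => mu p).prod (mu p)) := by
  have h1 := measurePreserving_sumPiEquivProdPi (X := fun _ : V ⊕ Unit => ℤ_[p])
    (fun _ => mu p)
  have h2 := measurePreserving_funUnique (mu p) Unit
  exact ((MeasurePreserving.id _).prod h2).comp h1

theorem XP_susp (hF : F ≠ 0) {c : ℚ} (hc : c ≠ 0) {N : ℕ} (hN : 2 ≤ N) (h : XP p F) :
    XP p (susp F c N) := by
  intro K φ hφ χ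
  set φ1 : (V → ℤ_[p]) → ℤ_[p] := fun x => φ (Sum.elim x fun _ => 0) with hφ1
  set a : ℤ_[p] := φ (Sum.elim (fun _ => 0) fun _ => 1) - φ (Sum.elim (fun _ => 0) fun _ => 0)
    with ha
  have hev : ∀ z : V ⊕ Unit → ℤ_[p], inc p (φ z) = (p : ℚ_[p]) ^ K *
      (MvPolynomial.eval (fun i => inc p (z (Sum.inl i)))
        (MvPolynomial.map (algebraMap ℚ ℚ_[p]) F) +
        algebraMap ℚ ℚ_[p] c * inc p (z (Sum.inr ())) ^ N) := by
    intro z
    rw [hφ z]
    congr 1
    unfold susp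
    rw [map_add, MvPolynomial.map_rename, map_mul, MvPolynomial.map_C, map_pow,
      MvPolynomial.map_X, map_add, MvPolynomial.eval_rename, map_mul, MvPolynomial.eval_C,
      map_pow, MvPolynomial.eval_X]
    rfl
  have hN0 : N ≠ 0 := by omega
  have h1 : IsV F K φ1 := by
    intro x
    rw [hφ1, hev]
    simp only [Sum.elim_inl, Sum.elim_inr, inc_zero, zero_pow hN0, mul_zero, add_zero]
  have h2 : inc p a = (p : ℚ_[p]) ^ K * algebraMap ℚ ℚ_[p] c := by
    rw [ha, inc_sub, hev, hev]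
    simp only [Sum.elim_inl, Sum.elim_inr, inc_zero, inc_one, zero_pow hN0, mul_zero, add_zero,
      one_pow, mul_one]
    ring
  have ha0 : a ≠ 0 := by
    intro h0
    rw [h0, inc_zero] at h2
    have h3 : (p : ℚ_[p]) ≠ 0 := by exact_mod_cast (Fact.out : p.Prime).ne_zero
    refine mul_ne_zero (pow_ne_zero K h3) ?_ h2.symm
    rw [Ne, map_eq_zero]
    exact hc
  have h3 : ∀ z : V ⊕ Unit → ℤ_[p], φ z =
      (fun y : (V → ℤ_[p]) × ℤ_[p] => φ1 y.1 + a * y.2 ^ N) (sumP p V z) := by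
    intro z
    apply inc_inj
    beta_reduce
    rw [inc_add, inc_mul, inc_pow, h2, h1, hev]
    unfold sumP
    ring
  have h4 := stB2 p (Measure.pi fun _ : V => mu p) φ1 h1.meas a ha0 N (by omega)
    (Pool.Agent.Y230.PS.tr (mQ p (hyp F))) (Pool.Agent.Y230.PS.tr (mQ p (hyp (susp F c N))))
    (fun T1 T2 hT1 hT2 => tr_susp hF hc hN T1 T2 hT1 hT2) (h K φ1 h1) χ
  refine (congrArg (· ∈ EP (Pool.Agent.Y230.PS.tr (mQ p (hyp (susp F c N)))))
    (funext fun e => ?_)).mp h4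
  have hm : Measurable (fun y : (V → ℤ_[p]) × ℤ_[p] => φ1 y.1 + a * y.2 ^ N) :=
    (h1.meas.comp measurable_fst).add (measurable_const.mul (measurable_snd.pow_const N))
  rw [← Eh_mp _ _ (sumP p V) sumP_mp _ hm χ e]
  congr 1
  exact (funext h3).symm

/-- the functional equations and the zeta function -/
theorem FR_susp (hF : F ≠ 0) {c : ℚ} (hc : c ≠ 0) {N : ℕ} (hN : 2 ≤ N) (h : XP p F) :
    FR p (rG p (wR p) (hyp (susp F c N)))
      (Pool.Agent.Y230.PS.FF ((hyp (susp F c N)).toP p)) :=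
  FR_of_XP (FK_susp1 hF hc hN) (XP_susp hF hc hN h)

theorem susp_ne (hF : F ≠ 0) {c : ℚ} {N : ℕ} (hN : 2 ≤ N) : susp F c N ≠ 0 := by
  intro h0
  apply hF
  have h1 := congrArg (MvPolynomial.aeval (Sum.elim MvPolynomial.X (fun _ => 0) :
    V ⊕ Unit → MvPolynomial V ℚ)) h0
  unfold susp at h1
  rw [map_add, MvPolynomial.aeval_rename, map_mul, map_pow, MvPolynomial.aeval_X, map_zero] at h1
  simp only [Sum.elim_inr, zero_pow (by omega : N ≠ 0), mul_zero, add_zero] at h1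
  rw [← h1]
  have : (Sum.elim MvPolynomial.X (fun _ => 0) : V ⊕ Unit → MvPolynomial V ℚ) ∘ Sum.inl =
      MvPolynomial.X := rfl
  rw [this, MvPolynomial.aeval_X_left, AlgHom.id_apply]

end main

end Pool.Agent.N138.SU
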