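import Pool.Agent.N138.SU.Cls3
import Pool.Agent.N138.SU.G
import Pool.Agent.N138.SU.VP
import Pool.Agent.N138.SU.EP

set_option autoImplicit false
set_option linter.unusedSectionVars false
set_option linter.unusedVariables false

/-! # Products, further variables, renaming -/

namespace Pool.Agent.N138.SU

open MeasureTheory Pool.Agent.W574.SM
open Pool.Agent.Y230.PT Pool.Agent.Y230.PS Pool.Agent.Y230.TH
open Pool.Agent.W427.SMC (msZ bsZ mu)

variable {p : ℕ} [Fact p.Prime]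

attribute [local instance] msK bsK msZ bsZ

theorem tr_of_FK {σ τ : Type} [Fintype σ] [Fintype τ] {F : MvPolynomial σ ℚ}
    {G : MvPolynomial τ ℚ} (h : ∀ T : ℂ, 1 < ‖T‖ → ∀ m : ℕ, FK (hyp F) ((rr p T : ℝ) : ℂ) m →
      FK (hyp G) ((rr p T : ℝ) : ℂ) m) (T : ℂ) :
    Pool.Agent.Y230.PS.tr (mQ p (hyp F)) T ≤ Pool.Agent.Y230.PS.tr (mQ p (hyp G)) T := by
  unfold Pool.Agent.Y230.PS.tr
  split_ifs with hT
  · exact le_rfl
  · by_cases hK : FK (hyp F) ((rr p T : ℝ) : ℂ) (1 + dl ((rr p T : ℝ) : ℂ))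
    · rw [mQ_top (h T (not_le.1 hT) _ hK)]
      exact le_top
    · rw [mQ_zero hK]
      exact bot_le

section drop

variable {σ κ : Type} [Fintype σ] [Fintype κ]

theorem XP_drop (g : MvPolynomial σ ℚ)
    (h : XP p (MvPolynomial.rename Sum.inl g : MvPolynomial (σ ⊕ κ) ℚ)) : XP p g := by
  intro K φ hφ χ
  have h1 : IsV (MvPolynomial.rename Sum.inl g : MvPolynomial (σ ⊕ κ) ℚ) K
      (fun z => φ fun i => z (Sum.inl i)) := by
    intro z
    rw [hφ, MvPolynomial.map_rename, MvPolynomial.eval_rename]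
    rfl
  have h2 := EP_mono (fun T _ => tr_of_FK (p := p)
    (fun T _ m hm => FK_drop (κ := κ) g _ m hm) T) (h K _ h1 χ)
  refine (congrArg (· ∈ EP (Pool.Agent.Y230.PS.tr (mQ p (hyp g))))
    (funext fun e => ?_)).mp h2
  have h3 := measurePreserving_sumPiEquivProdPi (X := fun _ : σ ⊕ κ => ℤ_[p])
    (fun _ => mu p)
  have h4 := (measurePreserving_fst (μ := Measure.pi fun _ : σ => mu p)
    (ν := Measure.pi fun _ : κ => mu p)).comp h3
  exact Eh_mp _ _ _ h4 φ hφ.meas χ e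

theorem XP_equiv {τ : Type} [Fintype τ] (i : σ ≃ τ) (g : MvPolynomial σ ℚ) (h : XP p g) :
    XP p (MvPolynomial.rename i g) := by
  intro K φ hφ χ
  set Φ := MeasurableEquiv.piCongrLeft (fun _ : τ => ℤ_[p]) i with hΦ
  have hΦi : ∀ x a, Φ x (i a) = x a := fun x a => by
    rw [hΦ]
    exact Equiv.piCongrLeft_apply_apply (fun _ : τ => ℤ_[p]) i x a
  have h1 : IsV g K (fun x => φ (Φ x)) := by
    intro x
    rw [hφ, MvPolynomial.map_rename, MvPolynomial.eval_rename]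
    have e1 : (fun i => inc p (Φ x i)) ∘ ⇑i = fun i => inc p (x i) := by
      funext a
      rw [Function.comp_apply, hΦi]
    rw [e1]
  have h2 := EP_mono (fun T _ => tr_of_FK (p := p) (G := MvPolynomial.rename i g)
    (fun T _ m hm => FK_equiv (hyp g) (hyp (MvPolynomial.rename i g)) i (Equiv.refl _)
      (fun _ => rfl) _ m hm) T) (h K _ h1 χ)
  refine (congrArg (· ∈ EP (Pool.Agent.Y230.PS.tr (mQ p (hyp (MvPolynomial.rename i g)))))
    (funext fun e => ?_)).mp h2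
  have h3 := measurePreserving_piCongrLeft (fun _ : τ => mu p) i
  exact Eh_mp _ _ _ h3 φ hφ.meas χ e

end drop

section mul

variable {σ τ : Type} [Fintype σ] [Fintype τ]

/-- the product -/
noncomputable def mulF (F : MvPolynomial σ ℚ) (G : MvPolynomial τ ℚ) : MvPolynomial (σ ⊕ τ) ℚ :=
  MvPolynomial.rename Sum.inl F * MvPolynomial.rename Sum.inr G

variable {F : MvPolynomial σ ℚ} {G : MvPolynomial τ ℚ}

theorem FK_mulF (hF : F ≠ 0) (hG : G ≠ 0) (T : ℂ) (hT : 1 < ‖T‖) (m n : ℕ)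
    (h1 : FK (hyp F) ((rr p T : ℝ) : ℂ) m) (h2 : FK (hyp G) ((rr p T : ℝ) : ℂ) n) :
    FK (hyp (mulF F G)) ((rr p T : ℝ) : ℂ) (m + n) := by
  have h3 := FK_mul (hyp F) (hyp G) T hT ⟨(0 : Fin 1), hF⟩ ⟨(0 : Fin 1), hG⟩ m n h1 h2
  refine FK_equiv ((hyp F).mul (hyp G)) (hyp (mulF F G)) (Equiv.refl _)
    (Equiv.prodUnique (Fin 1) (Fin 1)) (fun j => ?_) _ _ h3
  exact (MvPolynomial.rename_id_apply _).symm

theorem FR_mulF (hF : F ≠ 0) (hG : G ≠ 0)
    (h1 : FR p (rG p (wR p) (hyp F)) (Pool.Agent.Y230.PS.FF ((hyp F).toP p)))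
    (h2 : FR p (rG p (wR p) (hyp G)) (Pool.Agent.Y230.PS.FF ((hyp G).toP p))) :
    FR p (rG p (wR p) (hyp (mulF F G))) (Pool.Agent.Y230.PS.FF ((hyp (mulF F G)).toP p)) := by
  have hM := isMltT_R (p := p) Pool.Agent.Y465.TH.tR
  have h3 := FR.mul h1 h2 (fun T hT => hM.mul (hyp F) (hyp G) T hT ⟨(0 : Fin 1), hF⟩
    ⟨(0 : Fin 1), hG⟩)
  refine (h3.mono fun T hT => hM.equiv ((hyp F).mul (hyp G)) (hyp (mulF F G)) (Equiv.refl _)
    (Equiv.prodUnique (Fin 1) (Fin 1)) (fun j =>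
      (MvPolynomial.rename_id_apply _).symm) T hT).congr fun s hs => ?_
  rw [← FF_mulK]
  refine (FF_equiv (Equiv.refl _) (Equiv.prodUnique (Fin 1) (Fin 1)) _ _ (fun j => ?_) s).symm
  change MvPolynomial.map (algebraMap ℚ ℚ_[p]) (mulF F G) =
    MvPolynomial.rename id (MvPolynomial.rename Sum.inl (MvPolynomial.map (algebraMap ℚ ℚ_[p]) F) *
      MvPolynomial.rename Sum.inr (MvPolynomial.map (algebraMap ℚ ℚ_[p]) G))
  rw [MvPolynomial.rename_id_apply, mulF, map_mul, MvPolynomial.map_rename,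
    MvPolynomial.map_rename]

theorem Vx_of_XP {V : Type} [Fintype V] {F : MvPolynomial V ℚ} (h : XP p F) {K : ℕ}
    {φ : (V → ℤ_[p]) → ℤ_[p]} (hφ : IsV F K φ) (χ : UC p) (hχ : ¬ χ.IsTr) :
    (fun k : ℕ => Vx (Measure.pi fun _ : V => mu p) φ χ k) ∈
      EP (Pool.Agent.Y230.PS.tr (mQ p (hyp F))) := by
  obtain ⟨c, g, hg, h1⟩ := G.t p χ hχ
  have h2 := Submodule.smul_mem _ g⁻¹ (EP_shift _ c _ (h K φ hφ χ))
  refine (congrArg (· ∈ EP (Pool.Agent.Y230.PS.tr (mQ p (hyp F))))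
    (funext fun k => ?_)).mp h2
  rw [Pi.smul_apply, smul_eq_mul, h1 _ φ hφ.meas k, ← mul_assoc, inv_mul_cancel₀ hg, one_mul]

/-- the products -/
theorem XP_mul (hF : F ≠ 0) (hG : G ≠ 0)
    (h1 : FR p (rG p (wR p) (hyp F)) (Pool.Agent.Y230.PS.FF ((hyp F).toP p)))
    (h2 : FR p (rG p (wR p) (hyp G)) (Pool.Agent.Y230.PS.FF ((hyp G).toP p)))
    (hXF : XP p F) (hXG : XP p G) : XP p (mulF F G) := by
  obtain ⟨K1, φ1, hφ1⟩ := exists_IsV (p := p) F
  obtain ⟨K2, φ2, hφ2⟩ := exists_IsV (p := p) G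
  set φ : (σ ⊕ τ → ℤ_[p]) → ℤ_[p] := fun z =>
    φ1 (fun i => z (Sum.inl i)) * φ2 (fun i => z (Sum.inr i)) with hφd
  have hφ : IsV (mulF F G) (K1 + K2) φ := by
    intro z
    rw [hφd, inc_mul, hφ1, hφ2, mulF, map_mul, map_mul, MvPolynomial.map_rename,
      MvPolynomial.map_rename, MvPolynomial.eval_rename, MvPolynomial.eval_rename, pow_add]
    have e1 : (fun i => inc p (z i)) ∘ Sum.inl = fun i => inc p (z (Sum.inl i)) := rfl
    have e2 : (fun i => inc p (z i)) ∘ Sum.inr = fun i => inc p (z (Sum.inr i)) := rfl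
    rw [e1, e2]
    ring
  refine XP_of (K1 + K2) φ hφ fun χ => ?_
  refine stB1 p _ φ hφ.meas _ (D_of_FR hφ (FR_mulF hF hG h1 h2)) (fun χ hχ => ?_) χ
  have h3 := Vx_of_XP hXF hφ1 χ hχ
  have h4 := Vx_of_XP hXG hφ2 χ hχ
  have h5 := EP.t _ _ (Pool.Agent.Y230.PS.tr (mQ p (hyp (mulF F G)))) _ _ (fun T hT => ?_) h3 h4
  · refine (congrArg (· ∈ Pool.Agent.Y230.PS.EP (Pool.Agent.Y230.PS.tr
      (mQ p (hyp (mulF F G))))) (funext fun k => ?_)).mp h5
    have h6 := VP.t p (Measure.pi fun _ : σ => mu p) (Measure.pi fun _ : τ => mu p) φ1 φ2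
      hφ1.meas hφ2.meas χ k
    beta_reduce
    rw [← h6]
    have h7 := measurePreserving_sumPiEquivProdPi (X := fun _ : σ ⊕ τ => ℤ_[p])
      (fun _ => mu p)
    have h9 := h7.setIntegral_preimage_emb (MeasurableEquiv.measurableEmbedding _)
      (fun y : (σ → ℤ_[p]) × (τ → ℤ_[p]) => χ.X ((φ1 y.1 * φ2 y.2 : ℤ_[p]) : ℚ_[p]))
      {y | ‖φ1 y.1 * φ2 y.2‖ = ((p : ℝ)⁻¹) ^ k}
    exact h9.symm
  · have h6 : ∀ T : ℂ, Pool.Agent.Y230.PS.tr (mQ p (hyp F)) T ≤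
        Pool.Agent.Y230.PS.tr (mQ p (hyp (mulF F G))) T :=
      tr_of_FK fun T hT m hm => FK_mulF hF hG T hT m 0 hm (FK_zero _ _)
    have h7 : ∀ T : ℂ, Pool.Agent.Y230.PS.tr (mQ p (hyp G)) T ≤
        Pool.Agent.Y230.PS.tr (mQ p (hyp (mulF F G))) T :=
      tr_of_FK fun T hT m hm => by
        have := FK_mulF hF hG T hT 0 m (FK_zero _ _) hm
        rwa [zero_add] at this
    have h8 : ∀ A : FamQ, Pool.Agent.Y230.PS.tr (mQ p A) T = 0 ∨
        Pool.Agent.Y230.PS.tr (mQ p A) T = ⊤ := by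
      intro A
      unfold Pool.Agent.Y230.PS.tr mQ
      split_ifs <;> simp
    rcases h8 (hyp F) with e1 | e1
    · rw [e1, zero_add]
      exact h7 T
    · have h9 := h6 T
      rw [e1, top_le_iff] at h9
      rw [h9]
      exact le_top

end mul

end Pool.Agent.N138.SU
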