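import Mathlib
import Pool.Agent.Y230.PS.Had
import Pool.Agent.W427.SMC.Pa1

set_option autoImplicit false

/-! # Characters of the units, exponential sums -/

namespace Pool.Agent.N138.SU

open MeasureTheory
open Pool.Agent.W427.SMC

/-- A character of finite order of the group of the units of `ℤ_p`, extended by `X(p) = 1` to a
multiplicative function on `ℚ_p` with `X(0) = 0`. -/
structure UC (p : ℕ) [Fact p.Prime] where
  X : ℚ_[p] →*₀ ℂ
  one : X (p : ℚ_[p]) = 1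
  c : ℕ
  hc : 1 ≤ c
  tr : ∀ x : ℚ_[p], ‖x - 1‖ ≤ ((p : ℝ)⁻¹) ^ c → X x = 1

/-- the character is trivial on the units -/
def UC.IsTr {p : ℕ} [Fact p.Prime] (χ : UC p) : Prop := ∀ u : ℚ_[p], ‖u‖ = 1 → χ.X u = 1

/-- the additive character `exp(2 π i x / p ^ e)` of `ℤ_p` -/
noncomputable def psi (p : ℕ) [Fact p.Prime] (e : ℕ) (x : ℤ_[p]) : ℂ :=
  haveI : NeZero (p ^ e) := ⟨pow_ne_zero e (Fact.out : p.Prime).ne_zero⟩
  ZMod.stdAddChar (N := p ^ e) (PadicInt.toZModPow e x)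

attribute [local instance] msZ bsZ

/-- the units -/
def un (p : ℕ) [Fact p.Prime] : Set ℤ_[p] := {u | ‖u‖ = 1}

section

variable {p : ℕ} [Fact p.Prime] {Y : Type} [MeasurableSpace Y] (ν : Measure Y) (φ : Y → ℤ_[p])

/-- the exponential sums `E(u / p ^ e)` -/
noncomputable def Es (e : ℕ) (u : ℤ_[p]) : ℂ := ∫ y, psi p e (u * φ y) ∂ν

/-- the component of the character `χ` of the exponential sums `E(u / p ^ e)`, `u` a unit -/
noncomputable def Eh (χ : UC p) (e : ℕ) : ℂ :=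
  ∫ u in un p, (starRingEnd ℂ) (χ.X (u : ℚ_[p])) * Es ν φ e u ∂(mu p)

/-- the volume of `|φ| ≤ p ^ (-e)` -/
noncomputable def Uo (e : ℕ) : ℂ := ((ν {y | ‖φ y‖ ≤ ((p : ℝ)⁻¹) ^ e}).toReal : ℂ)

/-- the integral of `χ(φ)` over `|φ| = p ^ (-k)` -/
noncomputable def Vx (χ : UC p) (k : ℕ) : ℂ :=
  ∫ y in {y | ‖φ y‖ = ((p : ℝ)⁻¹) ^ k}, χ.X (φ y : ℚ_[p]) ∂ν

end

end Pool.Agent.N138.SU
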