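import Pool.Agent.N138.SU.Locx
import Pool.Agent.N138.PA.Loc0
import Pool.Agent.Y230.TH.Fin

set_option autoImplicit false
set_option linter.unusedSectionVars false
set_option linter.unusedVariables false

/-! # The sequences of the twisted integrals -/

namespace Pool.Agent.N138.SU

open MeasureTheory Pool.Agent.W574.SM Pool.Agent.Y230.RE Pool.Agent.Y230.PL Polynomial
open Pool.Agent.Y230.PT Pool.Agent.Y465.TH Pool.Agent.Y230.PS Pool.Agent.Y230.TH
open Pool.Agent.W427.SMC (msZ bsZ mu tr' tr'_pos tr'_lt tr'_le Conv exists_s)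

variable {p : ℕ} [Fact p.Prime]

attribute [local instance] msK bsK msZ bsZ

section Seq

variable {Y : Type} [MeasurableSpace Y] (ν : Measure Y) [IsProbabilityMeasure ν] (φ : Y → ℤ_[p])
  (χ : UC p)

/-- the twisted zeta function -/
noncomputable def FX (s : ℝ) : ℂ := ∫ y, om χ s (inc p (φ y)) ∂ν

theorem norm_inc' (z : ℤ_[p]) : ‖inc p z‖ = ‖z‖ := rfl

theorem inc_m : Measurable (inc p) := (inc_emb p).continuous.measurable

theorem Vx_le (hφ : Measurable φ) (k : ℕ) : ‖Vx ν φ χ k‖ ≤ 1 := by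
  unfold Vx
  have h1 : ‖∫ y in {y | ‖φ y‖ = ((p : ℝ)⁻¹) ^ k}, χ.X (φ y : ℚ_[p]) ∂ν‖ ≤
      1 * ν.real {y | ‖φ y‖ = ((p : ℝ)⁻¹) ^ k} :=
    norm_setIntegral_le_of_norm_le_const (measure_lt_top _ _) fun y _ => norm_X_le χ _
  refine h1.trans ?_
  rw [one_mul]
  exact measureReal_le_one

theorem Vx_hasSum (hφ : Measurable φ) {s : ℝ} (hs : 0 < s) :
    HasSum (fun k : ℕ => Vx ν φ χ k * ((tr' p s : ℝ) : ℂ) ^ k) (FX ν φ χ s) := by
  have hp0 : (0 : ℝ) < (p : ℝ)⁻¹ := inv_pos.2 (by exact_mod_cast (Fact.out : p.Prime).pos)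
  have hp1 : (p : ℝ)⁻¹ ≠ 1 := (inv_lt_one_of_one_lt₀ (by
    exact_mod_cast (Fact.out : p.Prime).one_lt)).ne
  have hm : Measurable (fun y => om χ s (inc p (φ y))) := (om_meas χ s).comp (inc_m.comp hφ)
  have hAm : ∀ k : ℕ, MeasurableSet {y | ‖φ y‖ = ((p : ℝ)⁻¹) ^ k} := fun k =>
    measurableSet_eq_fun (continuous_norm.measurable.comp hφ) measurable_const
  have hd : Pairwise (Function.onFun Disjoint fun k : ℕ => {y | ‖φ y‖ = ((p : ℝ)⁻¹) ^ k}) := by
    intro i j hij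
    refine Set.disjoint_left.2 fun y h1 h2 => hij ?_
    have h3 : ((p : ℝ)⁻¹) ^ i = ((p : ℝ)⁻¹) ^ j := h1.symm.trans h2
    exact pow_right_injective₀ hp0 hp1 h3
  have hint : Integrable (fun y => om χ s (inc p (φ y))) ν := by
    refine (integrable_const (1 : ℝ)).mono' hm.aestronglyMeasurable
      (Filter.Eventually.of_forall fun y => ?_)
    refine (norm_om_le χ s _).trans ?_
    exact Real.rpow_le_one (norm_nonneg _) (PadicInt.norm_le_one (φ y)) hs.le
  have h1 := hasSum_integral_iUnion hAm hd hint.integrableOn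
  have h2 : ∫ y in ⋃ k : ℕ, {y | ‖φ y‖ = ((p : ℝ)⁻¹) ^ k}, om χ s (inc p (φ y)) ∂ν =
      FX ν φ χ s := by
    refine setIntegral_eq_integral_of_forall_compl_eq_zero fun y hy => ?_
    have h3 : φ y = 0 := by
      by_contra hne
      apply hy
      rw [Set.mem_iUnion]
      refine ⟨(φ y).valuation, ?_⟩
      rw [Set.mem_ofPred_eq, PadicInt.norm_eq_zpow_neg_valuation hne, inv_pow, zpow_neg,
        zpow_natCast]
    rw [h3]
    unfold om inc
    rw [PadicInt.coe_zero, map_zero, zero_mul]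
  rw [h2] at h1
  refine h1.congr_fun fun k => ?_
  unfold Vx
  rw [← integral_mul_const]
  refine setIntegral_congr_fun (hAm k) fun y hy => ?_
  have hy' : ‖φ y‖ = ((p : ℝ)⁻¹) ^ k := hy
  change χ.X (inc p (φ y)) * _ = om χ s (inc p (φ y))
  unfold om
  rw [norm_inc', hy', ← Real.rpow_pow_comm hp0.le, Real.inv_rpow (Nat.cast_nonneg _),
    ← Real.rpow_neg (Nat.cast_nonneg _)]
  push_cast
  rfl

theorem Vx_conv (hφ : Measurable φ) : Conv (ser fun k => Vx ν φ χ k)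
    (fun t => ∑' k : ℕ, Vx ν φ χ k * (t : ℂ) ^ k) := by
  intro t h0 h1
  have h2 : Summable (fun m => ‖PowerSeries.coeff m (ser fun k => Vx ν φ χ k)‖ * t ^ m) := by
    refine Summable.of_nonneg_of_le (fun m => by positivity) (fun m => ?_)
      (summable_geometric_of_lt_one h0.le h1)
    rw [coeff_ser]
    have := mul_le_mul_of_nonneg_right (Vx_le ν φ χ hφ m) (pow_nonneg h0.le m)
    rwa [one_mul] at this
  refine ⟨h2, ?_⟩
  have h3 : Summable (fun m => PowerSeries.coeff m (ser fun k => Vx ν φ χ k) * (t : ℂ) ^ m) := by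
    refine Summable.of_norm (h2.congr fun m => ?_)
    rw [norm_mul, norm_pow, Complex.norm_real, Real.norm_of_nonneg h0.le]
  have h4 := h3.hasSum
  simp only [coeff_ser] at h4 ⊢
  exact h4

/-- from the integral to the sequence -/
theorem Vx_mem (hφ : Measurable φ) {m : ℂ → ℕ∞} (h : FR p m (FX ν φ χ)) :
    (fun k => Vx ν φ χ k) ∈ EP (tr m) := by
  obtain ⟨D, P, hD, h1, h2⟩ := h.rat
  refine rat_EP _ D hD _ P ?_ h2
  rw [← sub_eq_zero]
  refine Conv.zero_of ?_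
  have h4 := ((Vx_conv ν φ χ hφ).poly_mul D).add ((Conv.poly P).C_mul (-1))
  have h5 : ((D : ℂ[X]) : PowerSeries ℂ) * ser (fun k => Vx ν φ χ k) - (P : PowerSeries ℂ) =
      ((D : ℂ[X]) : PowerSeries ℂ) * ser (fun k => Vx ν φ χ k) +
        PowerSeries.C (-1) * (P : PowerSeries ℂ) := by
    rw [map_neg, map_one]; ring
  rw [h5]
  refine h4.congr fun t h0 h1' => ?_
  obtain ⟨s, hs, rfl⟩ := exists_s p t h0 h1'
  have h7 := h1 s hs.le
  rw [(Vx_hasSum ν φ χ hφ hs).tsum_eq, h7]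
  ring

end Seq

/-! ## The plane -/

theorem map_inc : Measure.map (inc p) (mu p) = (Y230.PT.nu p).restrict (bl 0 0) := by
  rw [← comap_eq, (inc_meas p).map_comap, inc_range]
  unfold bl
  rw [pow_zero]

theorem map_plane : Measure.map (fun x : Fin 2 → ℤ_[p] => (inc p (x 0), inc p (x 1)))
    (Measure.pi fun _ : Fin 2 => mu p) = (nu2 p).restrict ub := by
  have hmp := measurePreserving_finTwoArrow (mu p)
  have h1 : Measure.map (Prod.map (inc p) (inc p)) ((mu p).prod (mu p)) =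
      (nu2 p).restrict ub := by
    rw [← Measure.map_prod_map _ _ inc_m inc_m, map_inc, Measure.prod_restrict]
    rfl
  rw [← h1, ← hmp.map_eq, Measure.map_map (inc_m.prodMap inc_m) hmp.measurable]
  rfl

theorem FX_plane (χ : UC p) (g : A ℚ_[p]) (K : ℕ) (φ : (Fin 2 → ℤ_[p]) → ℤ_[p])
    (hφ : ∀ x, inc p (φ x) = (p : ℚ_[p]) ^ K * MvPolynomial.eval (fun i => inc p (x i)) g)
    (s : ℝ) : FX (Measure.pi fun _ : Fin 2 => mu p) φ χ s =
      om χ s ((p : ℚ_[p]) ^ K) * ZXI χ (fun _ => g) s := by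
  have hm : Measurable (fun x : Fin 2 → ℤ_[p] => (inc p (x 0), inc p (x 1))) :=
    (inc_m.comp (measurable_pi_apply 0)).prodMk (inc_m.comp (measurable_pi_apply 1))
  have hG : Measurable (Hx χ (fun _ : Fin 1 => g) 0 1 0 1 s) := by
    unfold Hx
    exact ((om_meas χ s).comp (ev_cont g).measurable).mul
      (((wx_meas χ s 0 1).comp measurable_fst).mul ((wx_meas χ s 0 1).comp measurable_snd))
  unfold FX ZXI Zx
  rw [← map_plane, integral_map hm.aemeasurable hG.aestronglyMeasurable, ← integral_const_mul]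
  refine integral_congr_ae (Filter.Eventually.of_forall fun x => ?_)
  change om χ s (inc p (φ x)) = om χ s ((p : ℚ_[p]) ^ K) *
    Hx χ (fun _ : Fin 1 => g) 0 1 0 1 s (inc p (x 0), inc p (x 1))
  unfold Hx
  rw [hφ, om_mul, wx_zero_one, wx_zero_one, mul_one, mul_one]
  congr 2
  unfold ev
  congr 1
  congr 1
  funext i
  fin_cases i <;> rfl

/-- the multiplicities -/
noncomputable def mQ (p : ℕ) (A : FamQ) (T : ℂ) : ℕ∞ := open Classical in
  if FK A ((rr p T : ℝ) : ℂ) (1 + dl ((rr p T : ℝ) : ℂ)) then ⊤ else 0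

theorem mQ_top {A : FamQ} {T : ℂ} (h : FK A ((rr p T : ℝ) : ℂ) (1 + dl ((rr p T : ℝ) : ℂ))) :
    mQ p A T = ⊤ := by
  unfold mQ
  rw [if_pos h]

theorem mQ_zero {A : FamQ} {T : ℂ} (h : ¬ FK A ((rr p T : ℝ) : ℂ) (1 + dl ((rr p T : ℝ) : ℂ))) :
    mQ p A T = 0 := by
  unfold mQ
  rw [if_neg h]

theorem mQ_FK {A : FamQ} {T : ℂ} {a : ℕ} (ha : 1 ≤ a) (h : (a : ℕ∞) ≤ mQ p A T) :
    FK A ((rr p T : ℝ) : ℂ) (1 + dl ((rr p T : ℝ) : ℂ)) := by
  by_contra hn
  rw [mQ_zero hn] at h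
  have : (a : ℕ∞) = 0 := le_antisymm h bot_le
  have h2 : a = 0 := by exact_mod_cast this
  omega

/-- **The twisted zeta functions of the plane curves.** -/
theorem FR_plane (χ : UC p) (hχ : ¬ χ.IsTr) (g : MvPolynomial (Fin 2) ℚ) (hg : g ≠ 0) (K : ℕ)
    (φ : (Fin 2 → ℤ_[p]) → ℤ_[p])
    (hφ : ∀ x, inc p (φ x) = (p : ℚ_[p]) ^ K * MvPolynomial.eval (fun i => inc p (x i))
      (MvPolynomial.map (algebraMap ℚ ℚ_[p]) g)) :
    FR p (mQ p (hyp g)) (FX (Measure.pi fun _ : Fin 2 => mu p) φ χ) := by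
  obtain ⟨emb⟩ := exists_emb p
  have hemb : emb.comp (algebraMap ℚ ℚ_[p]) = algebraMap ℚ ℂ := RingHom.ext_rat _ _
  have hp0 : (p : ℚ_[p]) ≠ 0 := by exact_mod_cast (Fact.out : p.Prime).ne_zero
  set gK := MvPolynomial.map (algebraMap ℚ ℚ_[p]) g with hgK
  have hne : ∃ j : Fin 1, (fun _ : Fin 1 => gK) j ≠ 0 := ⟨0, fun h0 => hg
        (MvPolynomial.map_injective _ (algebraMap ℚ ℚ_[p]).injective (by rw [map_zero]; exact h0))⟩
  have hmp : (fun _ : Fin 1 => mp emb gK) = (hyp g).toC := by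
    funext j
    unfold mp
    rw [hgK, MvPolynomial.map_map, hemb]
    rfl
  have hReg : ∀ T0 : ℂ, T0 ≠ 0 → ∀ M : ℕ, Reg p T0 M (ZXI χ fun _ => gK) →
      Reg p T0 M (FX (Measure.pi fun _ : Fin 2 => mu p) φ χ) := fun T0 hT0 M h =>
    ((reg_om χ hT0 _ (pow_ne_zero K hp0)).mul0 h).congr fun s _ => (FX_plane χ gK K φ hφ s).symm
  intro T0 hT0
  by_cases hT1 : ‖T0‖ ≤ 1
  · refine ⟨0, by rw [Nat.cast_zero]; exact bot_le, hReg T0 hT0 0 (regx0 χ _ hne hT0 hT1)⟩
  have hT : 1 < ‖T0‖ := not_le.1 hT1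
  by_cases hF : FK (hyp g) ((rr p T0 : ℝ) : ℂ) (1 + dl ((rr p T0 : ℝ) : ℂ))
  · obtain ⟨M, hM⟩ := Pool.Agent.N138.PA.reg_fin
      (regx0 χ (fun _ : Fin 1 => gK) hne (T0 := 1) one_ne_zero (by simp)) T0
    refine ⟨M, ?_, hReg T0 hT0 M hM⟩
    unfold Pool.Agent.Y230.PS.tr
    rw [if_neg hT1, mQ_top hF]
    exact le_top
  · refine ⟨0, by rw [Nat.cast_zero]; exact bot_le, hReg T0 hT0 0 ?_⟩
    by_cases hr : ((rr p T0 : ℝ) : ℂ) = -1
    · refine regxp χ emb hχ (rr_norm T0 hT hr) _ hne ?_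
      intro hall
      apply hF
      intro b hb
      rw [dl_eq, if_pos hr, hr]
      exact hall b (by rw [hmp]; exact hb)
    · rw [dl_eq, if_neg hr] at hF
      unfold FK at hF
      push Not at hF
      obtain ⟨b, hb, hb2⟩ := hF
      rw [add_zero, pow_one, dvd_iff_isRoot] at hb2
      exact regxC χ emb _ hne hT0 ⟨b, by rw [hmp]; exact hb, hb2⟩

/-! ## The volumes -/

section Vol

variable {V : Type} [Fintype V] (F : MvPolynomial V ℚ) (K : ℕ) (φ : (V → ℤ_[p]) → ℤ_[p])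

/-- `φ` is `p ^ K F` -/
def IsV (F : MvPolynomial V ℚ) (K : ℕ) (φ : (V → ℤ_[p]) → ℤ_[p]) : Prop :=
  ∀ x, inc p (φ x) = (p : ℚ_[p]) ^ K * MvPolynomial.eval (fun i => inc p (x i))
      (MvPolynomial.map (algebraMap ℚ ℚ_[p]) F)

variable {F K φ}

theorem IsV.meas (h : IsV F K φ) : Measurable φ := by
  have h1 : Continuous (fun x => inc p (φ x)) := by
    have : (fun x => inc p (φ x)) = fun x : V → ℤ_[p] => (p : ℚ_[p]) ^ K *
        MvPolynomial.eval (fun i => inc p (x i)) (MvPolynomial.map (algebraMap ℚ ℚ_[p]) F) :=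
      funext h
    rw [this]
    exact continuous_const.mul ((MvPolynomial.continuous_eval _).comp (continuous_pi fun i =>
      (inc_emb p).continuous.comp (continuous_apply i)))
  exact ((inc_emb p).isInducing.continuous_iff.2 h1).measurable

theorem IsV.sz (h : IsV F K φ) (x : V → ℤ_[p]) : ‖φ x‖ =
    Pool.Agent.Y230.PS.sz (fun _ : Fin 1 => MvPolynomial.C ((p : ℚ_[p]) ^ K) *
      MvPolynomial.map (algebraMap ℚ ℚ_[p]) F) x := by
  rw [← norm_inc', h x]
  unfold Pool.Agent.Y230.PS.sz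
  have : (fun j : Fin 1 => MvPolynomial.eval (fun i => inc p (x i))
      (MvPolynomial.C ((p : ℚ_[p]) ^ K) * MvPolynomial.map (algebraMap ℚ ℚ_[p]) F)) =
      fun _ : Fin 1 => (p : ℚ_[p]) ^ K * MvPolynomial.eval (fun i => inc p (x i))
      (MvPolynomial.map (algebraMap ℚ ℚ_[p]) F) := by
    funext j
    rw [map_mul, MvPolynomial.eval_C]
  rw [this, Pi.norm_def]
  simp

theorem val_norm (z : ℤ_[p]) : Val p ‖z‖ := by
  by_cases hz : z = 0
  · left
    rw [hz, norm_zero]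
  · right
    refine ⟨z.valuation, ?_⟩
    rw [PadicInt.norm_eq_zpow_neg_valuation hz, inv_pow, zpow_neg, zpow_natCast]

theorem Uo_Vc {Y : Type} [MeasurableSpace Y] (ν : Measure Y) (φ : Y → ℤ_[p]) (e : ℕ) :
    Uo ν φ e = Vc ν (fun y => ‖φ y‖) p e := rfl

theorem IsV.FZ (h : IsV F K φ) : Pool.Agent.Y230.PS.FZ (Measure.pi fun _ : V => mu p)
    (fun y => ‖φ y‖) = Pool.Agent.Y230.PS.FF (fun _ : Fin 1 =>
      MvPolynomial.C ((p : ℚ_[p]) ^ K) * MvPolynomial.map (algebraMap ℚ ℚ_[p]) F) := by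
  unfold Pool.Agent.Y230.PS.FF
  congr 1
  funext y
  exact h.sz y

theorem D_of_FR (h : IsV F K φ)
    (hF : FR p (rG p (wR p) (hyp F)) (Pool.Agent.Y230.PS.FF ((hyp F).toP p))) :
    (fun e : ℕ => (p : ℂ) * Uo (Measure.pi fun _ : V => mu p) φ (e + 1) -
      Uo (Measure.pi fun _ : V => mu p) φ e) ∈ EP (Pool.Agent.Y230.PS.tr (mQ p (hyp F))) := by
  have hp0 : (p : ℂ) ≠ 0 := by exact_mod_cast (Fact.out : p.Prime).ne_zero
  have hp1 : 1 < ‖(p : ℂ)‖ := by
    rw [Complex.norm_natCast]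
    exact_mod_cast (Fact.out : p.Prime).one_lt
  have h1 : FR p (rG p (wR p) (hyp F)) (Pool.Agent.Y230.PS.FZ (Measure.pi fun _ : V => mu p)
      (fun y => ‖φ y‖)) := by
    rw [h.FZ]
    exact (FR_scaleF (fun _ : Fin 1 => MvPolynomial.map (algebraMap ℚ ℚ_[p]) F) K).2 hF
  have h2 := Vc_mem _ _ (continuous_norm.measurable.comp h.meas) (fun x => val_norm (φ x)) h1
  have h3 := EP_op _ (p : ℂ) _ h2
  have h4 : (fun e : ℕ => (p : ℂ) * Uo (Measure.pi fun _ : V => mu p) φ (e + 1) -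
      Uo (Measure.pi fun _ : V => mu p) φ e) =
      (p : ℂ) • op (p : ℂ)⁻¹ (Vc (Measure.pi fun _ : V => mu p) (fun y => ‖φ y‖) p) := by
    funext e
    rw [Pi.smul_apply, op_apply, ← Uo_Vc, ← Uo_Vc, smul_eq_mul, mul_sub, ← mul_assoc,
      mul_inv_cancel₀ hp0, one_mul]
  rw [h4]
  refine Submodule.smul_mem _ _ (EP_mono (fun T hT => ?_) h3)
  by_cases hT1 : ‖T‖ ≤ 1
  · have hne : T ≠ (p : ℂ) := by
      rintro rfl
      exact absurd hp1 (not_lt.2 hT1)
    have e0 : Pool.Agent.Y230.PS.tr (rG p (wR p) (hyp F)) T = 0 := by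
      unfold Pool.Agent.Y230.PS.tr
      rw [if_pos hT1]
    rw [if_neg hne, e0]
    simp
  · unfold Pool.Agent.Y230.PS.tr
    simp only [if_neg hT1]
    by_cases hFK : FK (hyp F) ((rr p T : ℝ) : ℂ) (1 + dl ((rr p T : ℝ) : ℂ))
    · rw [mQ_top hFK]
      exact le_top
    · have h5 : rG p (wR p) (hyp F) T ≤ ((dp p T : ℕ) : ℕ∞) := iSup_le fun k => by
        have hk : (k : ℕ) = 0 := by
          by_contra hk
          exact hFK (k.2.mono (by omega))
        unfold wR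
        rw [if_pos hk]
      split_ifs with hTp
      · rw [dp_eq, if_pos hTp] at h5
        refine le_trans (tsub_le_tsub_right h5 1) ?_
        simp
      · rw [dp_eq, if_neg hTp] at h5
        refine le_trans h5 ?_
        simp

theorem FR_of_D (h : IsV F K φ) (h1 : FK (hyp F) (-1) 1)
    (hD : (fun e : ℕ => (p : ℂ) * Uo (Measure.pi fun _ : V => mu p) φ (e + 1) -
      Uo (Measure.pi fun _ : V => mu p) φ e) ∈ EP (Pool.Agent.Y230.PS.tr (mQ p (hyp F)))) :
    FR p (rG p (wR p) (hyp F)) (Pool.Agent.Y230.PS.FF ((hyp F).toP p)) := by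
  have hp0 : (p : ℂ) ≠ 0 := by exact_mod_cast (Fact.out : p.Prime).ne_zero
  have hp1 : 1 < ‖(p : ℂ)‖ := by
    rw [Complex.norm_natCast]
    exact_mod_cast (Fact.out : p.Prime).one_lt
  have h4 : op (p : ℂ)⁻¹ (Vc (Measure.pi fun _ : V => mu p) (fun y => ‖φ y‖) p) =
      (p : ℂ)⁻¹ • (fun e : ℕ => (p : ℂ) * Uo (Measure.pi fun _ : V => mu p) φ (e + 1) -
      Uo (Measure.pi fun _ : V => mu p) φ e) := by
    funext e
    rw [Pi.smul_apply, op_apply, ← Uo_Vc, ← Uo_Vc, smul_eq_mul, mul_sub, ← mul_assoc,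
      inv_mul_cancel₀ hp0, one_mul]
  have h5 := Submodule.smul_mem _ ((p : ℂ)⁻¹) hD
  rw [← h4] at h5
  have h6 := EP_of_op _ (p : ℂ) hp0 _ h5
  have h7 : Vc (Measure.pi fun _ : V => mu p) (fun y => ‖φ y‖) p ∈
      EP (Pool.Agent.Y230.PS.tr (rG p (wR p) (hyp F))) := by
    refine EP_mono (fun T hT => ?_) h6
    by_cases hT1 : ‖T‖ ≤ 1
    · have hne : T ≠ (p : ℂ) := by
        rintro rfl
        exact absurd hp1 (not_lt.2 hT1)
      unfold Pool.Agent.Y230.PS.tr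
      rw [if_pos hT1, if_neg hne, add_zero, if_pos hT1]
    · unfold Pool.Agent.Y230.PS.tr
      rw [if_neg hT1, if_neg hT1]
      by_cases hFK : FK (hyp F) ((rr p T : ℝ) : ℂ) (1 + dl ((rr p T : ℝ) : ℂ))
      · refine le_trans ?_ (le_rG (w := wR p) hFK)
        unfold wR
        rw [if_neg one_ne_zero]
        exact le_top
      · rw [mQ_zero hFK, zero_add]
        split_ifs with hTp
        · have hr : ((rr p T : ℝ) : ℂ) = -1 := by
            rw [hTp, rr_self]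
            push_cast
            rfl
          have h8 : FK (hyp F) ((rr p T : ℝ) : ℂ) (0 + dl ((rr p T : ℝ) : ℂ)) := by
            rw [dl_eq, if_pos hr, hr, zero_add]
            exact h1
          refine le_trans ?_ (le_rG (w := wR p) h8)
          unfold wR
          rw [if_pos rfl, dp_eq, if_pos hTp]
          simp
        · exact bot_le
  have h8 := FR_of_Vc (Measure.pi fun _ : V => mu p) (fun y => ‖φ y‖)
    (continuous_norm.measurable.comp h.meas) (fun x => val_norm (φ x)) h7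
  rw [h.FZ] at h8
  exact (FR_scaleF (fun _ : Fin 1 => MvPolynomial.map (algebraMap ℚ ℚ_[p]) F) K).1 h8

end Vol

end Pool.Agent.N138.SU
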