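import Pool.Agent.N138.SU.Mux
import Pool.Agent.N138.PA.ModA

set_option autoImplicit false
set_option linter.unusedSectionVars false
set_option linter.unusedVariables false

/-! # The models at a critical exceptional curve, twisted -/

namespace Pool.Agent.N138.SU

open MeasureTheory Set Pool.Agent.W427.SMC Pool.Agent.Y230.PT
open scoped ENNReal
open Pool.Agent.Y230.RE
open Pool.Agent.N138.PA (hm hm_cont hm_c1 hm_c2 hm_of)

variable {p : ℕ} [Fact p.Prime]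

attribute [local instance] msK bsK

variable (χ : UC p) {T0 : ℂ} {M : ℕ}

theorem lreg_chartx (hT0 : T0 ≠ 0) (c : ℚ_[p]) (hc : c ≠ 0) (a1 n1 : ℕ)
    (H H' G G' : CI p) (δ : Prop)
    {V : Set (ℚ_[p] × ℚ_[p])} (hV : IsOpen V) (h0V : (0, 0) ∈ V)
    (h1 : ∀ x ∈ V, ∀ s : ℝ, 0 ≤ s → H s (x.1, c + x.2) = wx χ s a1 n1 c * H' s x)
    (h2 : δ → ∀ x ∈ V, ∀ s : ℝ, 0 ≤ s → G s (x.1, c + x.2) = wx χ s a1 n1 c * G' s x)
    (h : LReg T0 M (fun C s => Zx H' C s - crr δ (Zx G') C s) (0, 0)) :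
    LReg T0 M (fun C s => Zx H C s - crr δ (Zx G) C s) (0, c) := by
  have h3 : LReg T0 M (fun C s => Zx (fun s x => H s (x.1, c + x.2)) C s -
      crr δ (Zx (fun s x => G s (x.1, c + x.2))) C s) (0, 0) := by
    refine (h.mul (reg_wx χ hT0 a1 n1 c hc)).congr hV h0V fun C hC hCV s hs => ?_
    have hmul : ∀ (F F' : CI p),
        (∀ x ∈ V, ∀ s : ℝ, 0 ≤ s → F s (x.1, c + x.2) = wx χ s a1 n1 c * F' s x) →
        wx χ s a1 n1 c * Zx F' C s = Zx (fun s x => F s (x.1, c + x.2)) C s := by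
      intro F F' hF
      exact (Zx_mul _ _ C s F' hC fun x hx => hF x (hCV hx) s hs).symm
    by_cases hδ : δ
    · rw [crr_true hδ, crr_true hδ, mul_sub, hmul H H' h1, hmul G G' (h2 hδ)]
    · rw [crr_false hδ, crr_false hδ, sub_zero, sub_zero, hmul H H' h1]
  have h4 := LReg.homeo (F := fun C s => Zx H C s - crr δ (Zx G) C s) (shV (fun _ => c)
    continuous_const) (fun C hC s hs => ?_) h3
  · have h5 : (shV (fun _ : ℚ_[p] => c) continuous_const) ((0, 0) : ℚ_[p] × ℚ_[p]) = (0, c) := by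
      change ((0 : ℚ_[p]), c + 0) = (0, c)
      rw [add_zero]
    rwa [h5] at h4
  · have e1 := Zx_shearV H (fun _ => c) continuous_const hC s
    by_cases hδ : δ
    · have e2 := Zx_shearV G (fun _ => c) continuous_const hC s
      rw [crr_true hδ, crr_true hδ, e1, e2]
    · rw [crr_false hδ, crr_false hδ, e1]

theorem cst_add_near (c : ℚ_[p]) (hc : c ≠ 0) : ∃ V : Set (ℚ_[p] × ℚ_[p]), IsOpen V ∧
    (0, 0) ∈ V ∧ ∀ x ∈ V, ‖c + x.2‖ = ‖c‖ ∧ χ.X (c + x.2) = χ.X c := by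
  obtain ⟨V, h1, h2, h3⟩ := cst_near χ (fun x : ℚ_[p] × ℚ_[p] => c + x.2) (by fun_prop) (0, 0)
    (by simpa using hc)
  refine ⟨V, h1, h2, fun x hx => ?_⟩
  have := h3 x hx
  simpa using this

/-- two linear forms -/
noncomputable def Lfx (β : ℚ_[p]) (a0 n0 a1 n1 : ℕ) (l0 l1 : ℚ_[p] × ℚ_[p] → ℚ_[p]) : CI p :=
  fun s x => om χ s β * (wx χ s a0 n0 (l0 x) * wx χ s a1 n1 (l1 x))

theorem CO.preim {C : Set (ℚ_[p] × ℚ_[p])} (hC : CO C)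
    (τ : (ℚ_[p] × ℚ_[p]) ≃ₜ (ℚ_[p] × ℚ_[p])) : CO (τ ⁻¹' C) :=
  ⟨τ.isCompact_preimage.2 hC.cpt, hC.opn.preimage τ.continuous⟩

/-- `x` and `y - c x` -/
theorem Lfx_xc (hT0 : T0 ≠ 0) (β : ℚ_[p]) (hβ : β ≠ 0) {a0 n0 a1 n1 : ℕ} (hn0 : 1 ≤ n0)
    (hn1 : 1 ≤ n1) (h0 : ¬ Cr χ T0 a0 n0) (h1 : ¬ Cr χ T0 a1 n1) (c : ℚ_[p])
    {C : Set (ℚ_[p] × ℚ_[p])} (hC : CO C) :
    Reg p T0 0 (Zx (Lfx χ β a0 n0 a1 n1 (fun x => x.1) (fun x => x.2 - c * x.1)) C) := by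
  have hf : Continuous (fun x : ℚ_[p] => c * x) := by fun_prop
  refine (Mx_reg χ hT0 β hβ hn0 hn1 h0 h1 (CO.preim hC (shV (fun x => c * x) hf))).congr
    fun s hs => ?_
  rw [Zx_shearV _ (fun x => c * x) hf hC s]
  refine Zx_congr (CO.preim hC (shV (fun x => c * x) hf)) fun x _ => ?_
  unfold Mx Lfx
  simp only [add_sub_cancel_left]

/-- `y` and `y - c x` -/
theorem Lfx_yc (hT0 : T0 ≠ 0) (β : ℚ_[p]) (hβ : β ≠ 0) {a0 n0 a1 n1 : ℕ} (hn0 : 1 ≤ n0)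
    (hn1 : 1 ≤ n1) (h0 : ¬ Cr χ T0 a0 n0) (h1 : ¬ Cr χ T0 a1 n1) (c : ℚ_[p]) (hc : c ≠ 0)
    {C : Set (ℚ_[p] × ℚ_[p])} (hC : CO C) :
    Reg p T0 0 (Zx (Lfx χ β a0 n0 a1 n1 (fun x => x.2) (fun x => x.2 - c * x.1)) C) := by
  have hf : Continuous (fun y : ℚ_[p] => c⁻¹ * y) := by fun_prop
  have hα : -c⁻¹ ≠ 0 := neg_ne_zero.2 (inv_ne_zero hc)
  refine ((Reg.const (((N p 1 (-c⁻¹)).toReal : ℝ) : ℂ)).mul0 (Mx_reg χ hT0 β hβ hn1 hn0 h1 h0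
    (CO.preim hC (shU (-c⁻¹) hα (fun y => c⁻¹ * y) hf)))).congr fun s hs => ?_
  rw [Zx_shearU _ (-c⁻¹) hα (fun y => c⁻¹ * y) hf hC s]
  congr 1
  refine Zx_congr (CO.preim hC (shU (-c⁻¹) hα (fun y => c⁻¹ * y) hf)) fun x _ => ?_
  unfold Mx Lfx
  have e : x.2 - c * (c⁻¹ * x.2 + -c⁻¹ * x.1) = x.1 := by field_simp; ring
  simp only [e]
  ring

/-- `y - c x` and `y - c' x` -/
theorem Lfx_cc (hT0 : T0 ≠ 0) (β : ℚ_[p]) (hβ : β ≠ 0) {a0 n0 a1 n1 : ℕ} (hn0 : 1 ≤ n0)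
    (hn1 : 1 ≤ n1) (h0 : ¬ Cr χ T0 a0 n0) (h1 : ¬ Cr χ T0 a1 n1) (c c' : ℚ_[p]) (hc : c ≠ c')
    {C : Set (ℚ_[p] × ℚ_[p])} (hC : CO C) :
    Reg p T0 0 (Zx (Lfx χ β a0 n0 a1 n1 (fun x => x.2 - c * x.1) (fun x => x.2 - c' * x.1)) C) := by
  have hf : Continuous (fun x : ℚ_[p] => c * x) := by fun_prop
  refine (Lfx_yc χ hT0 β hβ hn0 hn1 h0 h1 (c' - c) (sub_ne_zero.2 hc.symm)
    (CO.preim hC (shV (fun x => c * x) hf))).congr fun s hs => ?_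
  rw [Zx_shearV _ (fun x => c * x) hf hC s]
  refine Zx_congr (CO.preim hC (shV (fun x => c * x) hf)) fun x _ => ?_
  unfold Lfx
  have e : c * x.1 + x.2 - c' * x.1 = x.2 - (c' - c) * x.1 := by ring
  simp only [add_sub_cancel_left, e]

/-- the model given by the leading form -/
noncomputable def Fx (m : ℕ) (P : Polynomial ℚ_[p]) (a0 n0 a1 n1 : ℕ) : CI p :=
  fun s x => om χ s (hm m P x) * (wx χ s a0 n0 x.1 * wx χ s a1 n1 x.2)

theorem okx_F (m : ℕ) (P : Polynomial ℚ_[p]) (a0 n0 a1 n1 : ℕ) : Okx (Fx χ m P a0 n0 a1 n1) :=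
  (okx_om χ _ (hm_cont m P)).mul
    ((okx_wx χ (fun x => x.1) continuous_fst a0 n0).mul
      (okx_wx χ (fun x => x.2) continuous_snd a1 n1))

/-- **The model is regular.** -/
theorem Fx_reg (hT0 : T0 ≠ 0) {T0' : ℂ} (hCr : ∀ a n : ℕ, Cr χ T0 a n → Crit p T0' a n)
    {P : Polynomial ℚ_[p]} {m a0 n0 a1 n1 : ℕ} (hn0 : 1 ≤ n0)
    (hn1 : 1 ≤ n1) {γ : ℚ_[p]} {μ0 : ℕ} {T : Finset ℚ_[p]} {ν : ℚ_[p] → ℕ}
    (hS : Spec T0' P m a0 n0 a1 n1 γ μ0 T ν)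
    {C : Set (ℚ_[p] × ℚ_[p])} (hC : CO C) :
    Reg p T0 0 (Zx (Fx χ m P a0 n0 a1 n1) C) := by
  classical
  set d := μ0 + ∑ c ∈ T, ν c with hd
  have hdm : d ≤ m := hS.hdeg
  have hdP : P.natDegree = d := (spec_deg hS).1
  have hP : ∀ x, hm m P x = γ * (x.1 ^ (m - d) * x.2 ^ μ0 * Pool.Agent.Y230.PT.Lp T ν x) := by
    refine hm_of m P (by omega) _ ?_ ?_
    · exact continuous_const.mul ((by fun_prop : Continuous fun x : ℚ_[p] × ℚ_[p] =>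
        x.1 ^ (m - d) * x.2 ^ μ0).mul (Lp_cont T ν))
    · intro u v
      have h1 : Pool.Agent.Y230.PT.Lp T ν (u, u * v) = u ^ (∑ c ∈ T, ν c) * ∏ c ∈ T, (v - c) ^ ν c := by
        unfold Pool.Agent.Y230.PT.Lp
        rw [← Finset.prod_pow_eq_pow_sum, ← Finset.prod_mul_distrib]
        refine Finset.prod_congr rfl fun c _ => ?_
        rw [← mul_pow]
        congr 1
        simp only
        ring
      have h2 : P.eval v = γ * (v ^ μ0 * ∏ c ∈ T, (v - c) ^ ν c) := by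
        conv_lhs => rw [hS.hP]
        rw [Polynomial.eval_mul, Polynomial.eval_C, Polynomial.eval_mul, Polynomial.eval_pow,
          Polynomial.eval_X, Polynomial.eval_prod]
        simp only [Polynomial.eval_pow, Polynomial.eval_sub, Polynomial.eval_X, Polynomial.eval_C]
      rw [h1, h2]
      simp only
      have h3 : u ^ m = u ^ (m - d) * (u ^ μ0 * u ^ (∑ c ∈ T, ν c)) := by
        rw [← pow_add, ← pow_add]
        congr 1
        omega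
      rw [h3, mul_pow]
      ring
  have hF : ∀ s x, Fx χ m P a0 n0 a1 n1 s x = om χ s γ * (wx χ s (a0 + (m - d)) n0 x.1 *
      wx χ s (a1 + μ0) n1 x.2 * om χ s (Pool.Agent.Y230.PT.Lp T ν x)) := by
    intro s x
    unfold Fx
    rw [hP, om_mul, om_mul, om_mul, om_pow, om_pow, wx_add, wx_add]
    ring
  have kI : ¬ Cr χ T0 (a0 + (m - d)) n0 := fun h => hS.hI (hCr _ _ h)
  have k0 : ¬ Cr χ T0 (a1 + μ0) n1 := fun h => hS.h0 (hCr _ _ h)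
  have kc : ∀ c ∈ T, ¬ Cr χ T0 (ν c) 1 := fun c hc h => hS.hc c hc (hCr _ _ h)
  have hcard := hS.hcard
  have hcase : T.card = 0 ∨ T.card = 1 ∨ T.card = 2 := by omega
  rcases hcase with h | h | h
  · rw [Finset.card_eq_zero] at h
    refine (Mx_reg χ hT0 γ hS.hγ hn0 hn1 kI k0 hC).congr fun s hs => ?_
    refine Zx_congr hC fun x _ => ?_
    rw [hF]
    unfold Mx Pool.Agent.Y230.PT.Lp
    rw [h, Finset.prod_empty, om_one, mul_one]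
  · have hh := hS.h1 h
    rw [← hd] at hh
    obtain ⟨c, hTc⟩ := Finset.card_eq_one.1 h
    have hcT := kc c (by rw [hTc]; exact Finset.mem_singleton_self c)
    have hc0 : c ≠ 0 := by
      rintro rfl
      refine hS.h0T ?_
      rw [hTc]
      exact Finset.mem_singleton_self _
    rcases hh with ⟨e1, e2⟩ | ⟨e1, e2⟩
    · refine (Lfx_yc χ hT0 γ hS.hγ hn1 le_rfl k0 hcT c hc0 hC).congr fun s hs => ?_
      refine Zx_congr hC fun x _ => ?_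
      rw [hF]
      unfold Lfx Pool.Agent.Y230.PT.Lp
      rw [e1, e2, wx_zero_one, one_mul, hTc, Finset.prod_singleton, wx1 χ s (ν c)]
    · refine (Lfx_xc χ hT0 γ hS.hγ hn0 le_rfl kI hcT c hC).congr fun s hs => ?_
      refine Zx_congr hC fun x _ => ?_
      rw [hF]
      unfold Lfx Pool.Agent.Y230.PT.Lp
      rw [e1, e2, wx_zero_one, mul_one, hTc, Finset.prod_singleton, wx1 χ s (ν c)]
  · obtain ⟨⟨e1, e2⟩, e3, e4⟩ := hS.h2 h
    rw [← hd] at e1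
    obtain ⟨c, c', hcc, hTc⟩ := Finset.card_eq_two.1 h
    refine (Lfx_cc χ hT0 γ hS.hγ le_rfl le_rfl (kc c (by rw [hTc]; simp))
      (kc c' (by rw [hTc]; simp)) c c' hcc hC).congr fun s hs => ?_
    refine Zx_congr hC fun x _ => ?_
    rw [hF]
    unfold Lfx Pool.Agent.Y230.PT.Lp
    rw [e1, e2, e3, e4, wx_zero_one, wx_zero_one, one_mul, one_mul, hTc, Finset.prod_pair hcc,
      wx1, wx1, om_mul]

theorem Fx_c1 (g : Fin 1 → A ℚ_[p]) (a0 n0 a1 n1 m : ℕ) (hn0 : 1 ≤ n0) (hn1 : 1 ≤ n1)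
    (g0 : Fin 1 → A ℚ_[p])
    (hg0 : ∀ j, MvPolynomial.aeval (ch 0) (g j) = MvPolynomial.X 0 ^ m * g0 j)
    (s : ℝ) (x : ℚ_[p] × ℚ_[p]) : G1 (Fx χ m (r0 (g0 0)) a0 n0 a1 n1) s x =
      om χ s ((r0 (g0 0)).eval x.2) *
        (wx χ s (a0 + a1 + m) (n0 + n1) x.1 * wx χ s a1 n1 x.2) := by
  have hdeg : (r0 (g0 0)).natDegree ≤ m := by
    rw [r0_lead (hg0 0)]
    exact om_deg _ _
  unfold G1 Fx
  rw [hm_c1 m _ hdeg x, om_mul, wx_add, wx_add' χ s a0 a1 n0 n1 hn0 hn1, om_pow]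
  change nx x.1 * (_ * (wx χ s a0 n0 x.1 * wx χ s a1 n1 (x.1 * x.2))) = _
  rw [wx_mul]
  ring

theorem Fx_c2 (g : Fin 1 → A ℚ_[p]) (a0 n0 a1 n1 m : ℕ) (hn0 : 1 ≤ n0) (hn1 : 1 ≤ n1)
    (g0 gI : Fin 1 → A ℚ_[p])
    (hg0 : ∀ j, MvPolynomial.aeval (ch 0) (g j) = MvPolynomial.X 0 ^ m * g0 j)
    (hgI : ∀ j, MvPolynomial.aeval chI (g j) = MvPolynomial.X 1 ^ m * gI j)
    (s : ℝ) (x : ℚ_[p] × ℚ_[p]) : G2 (Fx χ m (r0 (g0 0)) a0 n0 a1 n1) s x =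
      om χ s ((r1 (gI 0)).eval x.1) *
        (wx χ s a0 n0 x.1 * wx χ s (a0 + a1 + m) (n0 + n1) x.2) := by
  have hdegI : (r1 (gI 0)).natDegree ≤ m := by
    rw [r1_lead (hgI 0)]
    exact omI_deg _ _
  unfold G2 Fx
  rw [hm_c2 m _ _ (fun i hi => r1_lead' (hg0 0) (hgI 0) i hi) hdegI x, om_mul, wx_add,
    wx_add' χ s a0 a1 n0 n1 hn0 hn1, om_pow]
  change nx x.2 * (_ * (wx χ s a0 n0 (x.1 * x.2) * wx χ s a1 n1 x.2)) = _
  rw [wx_mul]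
  ring

/-- a polynomial near a point -/
theorem pol_near (h : Polynomial ℚ_[p]) (hne : h ≠ 0) (c : ℚ_[p]) :
    ∃ (ρ : ℕ) (V : Set ℚ_[p]), IsOpen V ∧ 0 ∈ V ∧
      IsO (fun _ : Fin 1 => h.comp (Polynomial.X + Polynomial.C c)) ρ ∧
      ∀ v ∈ V, ∀ s : ℝ, om χ s (h.eval (c + v)) =
        om χ s ((h.comp (Polynomial.X + Polynomial.C c)).coeff ρ) * om χ s v ^ ρ := by
  have hne' : ∃ j : Fin 1, (fun _ : Fin 1 => h.comp (Polynomial.X + Polynomial.C c)) j ≠ 0 :=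
    ⟨0, comp_ne h c hne⟩
  obtain ⟨ρ, hρ⟩ := Pool.Agent.N138.PA.exists_isO _ hne'
  obtain ⟨Q, hQ⟩ : ∃ Q : Polynomial ℚ_[p],
      h.comp (Polynomial.X + Polynomial.C c) = Polynomial.X ^ ρ * Q :=
    Polynomial.X_pow_dvd_iff.2 (hρ.1 0)
  have hQ0 : Q.eval 0 = (h.comp (Polynomial.X + Polynomial.C c)).coeff ρ := by
    rw [hQ, Polynomial.coeff_X_pow_mul', if_pos le_rfl, Nat.sub_self,
      Polynomial.coeff_zero_eq_eval_zero]
  obtain ⟨V, hV, h0V, hV2⟩ := cst_near χ (fun v : ℚ_[p] => Q.eval v) Q.continuous 0 (by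
      obtain ⟨j, hj⟩ := hρ.2
      change Q.eval 0 ≠ 0
      rw [hQ0]
      exact hj)
  refine ⟨ρ, V, hV, h0V, hρ, fun v hv s => ?_⟩
  have h1 : h.eval (c + v) = v ^ ρ * Q.eval v := by
    have h2 := congrArg (Polynomial.eval v) hQ
    rw [Polynomial.eval_comp, Polynomial.eval_mul, Polynomial.eval_pow, Polynomial.eval_X,
      Polynomial.eval_add, Polynomial.eval_X, Polynomial.eval_C] at h2
    rw [add_comm, h2]
  rw [h1, om_mul, om_cst χ (hV2 v hv) s, om_pow, mul_comm, ← hQ0]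

end Pool.Agent.N138.SU
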