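import Pool.Agent.N138.SU.Mainx
import Pool.Agent.Y465.TH.R

set_option autoImplicit false
set_option linter.unusedSectionVars false
set_option linter.unusedVariables false

/-! # The local theorems, twisted -/

namespace Pool.Agent.N138.SU

open Pool.Agent.W574.SM Pool.Agent.Y230.RE Pool.Agent.Y230.PL Polynomial
open Pool.Agent.Y230.PT Pool.Agent.Y465.TH

variable {p : ℕ} [Fact p.Prime]

attribute [local instance] msK bsK

variable (χ : UC p) {T0 : ℂ} {M : ℕ}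

theorem lreg_of_CCx {g : Fin 1 → A ℚ_[p]} (h : CCx χ T0 g 0 1 0 1) :
    LReg T0 0 (Zx (Hx χ g 0 1 0 1)) (0, 0) := by
  refine (h 0 0 (fun h => absurd h (not_cr01 χ)) (fun h => absurd h (not_cr01 χ))).congr
    isOpen_univ trivial fun C _ _ s _ => ?_
  rw [crr_false (not_cr01 χ), crr_false (not_cr01 χ), sub_zero, sub_zero]

/-- no poles in the closed unit disc -/
theorem local_x0 (hT0 : T0 ≠ 0) (hT1 : ‖T0‖ ≤ 1) (g : Fin 1 → A ℚ_[p]) (hg : ∃ j, g j ≠ 0) :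
    LReg T0 0 (Zx (Hx χ g 0 1 0 1)) (0, 0) := by
  have hT : KT g false false := exists_KT g false false hg (by simp) (by simp)
  have hn : ∀ a n : ℕ, 1 ≤ n → ¬ Cr χ T0 a n := fun a n hn h => not_crit_small hT1 a n hn h.1
  exact lreg_of_CCx χ (main_X χ hT0 (T0' := T0) (fun a n h => h.1) TC closed_TC
    (fun _ _ _ _ _ _ _ hc _ _ h => hn _ _ hc.1 h.1)
    (fun _ _ _ _ _ _ hc _ _ _ _ _ _ _ => hn _ _ le_rfl)
    (fun _ _ _ _ _ _ hc _ _ _ _ _ _ _ => hn _ _ le_rfl)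
    (fun _ _ _ _ _ _ _ _ _ _ _ _ _ _ hc h =>
      absurd h (not_crit_small hT1 _ _ (by have := hc.1; omega)))
    (fun _ _ _ _ _ _ _ hc h => absurd h (hn _ _ hc.1))
    (fun _ _ _ _ _ _ _ hc h => absurd h (hn _ _ hc.2.1))
    hT 0 1 0 1 ⟨le_rfl, le_rfl, fun _ => ⟨rfl, rfl⟩, fun _ => ⟨rfl, rfl⟩⟩)

/-- **No pole at a point.** -/
theorem local_xC (φ : ℚ_[p] →+* ℂ) (f : Fin 1 → A ℚ_[p]) (b : ℂ[X])
    (hb : IsFunctionalEq (fun j => mp φ (f j)) b) (hT0 : T0 ≠ 0)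
    (hr : b.eval ((rr p T0 : ℝ) : ℂ) ≠ 0) (P : Fin 2 → ℚ_[p]) (hne : ∃ j, f j ≠ 0) :
    LReg T0 0 (Zx (Hx χ (nd f P) 0 1 0 1)) (0, 0) := by
  set r : ℂ := ((rr p T0 : ℝ) : ℂ) with hrdef
  set g : Fin 1 → A ℚ_[p] := nd f P with hg
  have hgne : ∃ j, g j ≠ 0 := tr_ne_zero f P hne
  have hT : KT g false false := exists_KT g false false hgne (by simp) (by simp)
  have hcr : ∀ a n : ℕ, Crit p T0 a n → (n : ℂ) + r * (a : ℂ) = 0 := fun a n h => crit_r hT0 a n h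
  have hcr' : ∀ a n : ℕ, Crit p T0 a n → (n : ℂ) + (a : ℂ) * r = 0 := fun a n h => by
    rw [mul_comm]
    exact hcr a n h
  have hcurve : ∀ m : ℕ, 1 ≤ m → b.eval (-1 / (m : ℂ)) = 0 → ¬ Crit p T0 m 1 := by
    intro m hm h1 h2
    apply hr
    have hmc : (m : ℂ) ≠ 0 := Nat.cast_ne_zero.2 (by omega)
    have h3 : r = -1 / (m : ℂ) := by
      rw [eq_div_iff hmc]
      have := hcr _ _ h2
      push_cast at this
      linear_combination this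
    rw [h3]
    exact h1
  have hCC := main_X χ hT0 (T0' := T0) (fun a n h => h.1) (IC φ f r) (closed_IC φ f b hb r hr)
    (fun g d0 d1 a0 n0 a1 n1 hc j hj ⟨⟨h1, _⟩, ⟨h2, _⟩⟩ => by
      have ho : Ord0 (fun j => mp φ (g j)) 0 := ⟨fun i k hk => absurd hk (Nat.not_lt_zero k), j, by
        rw [coeff_res0, mp_cc]
        exact fun h => hj ((map_eq_zero φ).1 h)⟩
      have h3 := hc.2.hH0 (hcr' _ _ h1) 0 ho
      rw [add_zero] at h3
      exact h3 (hcr _ _ h2))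
    (fun g d0 a0 n0 m hm hc h κ hgj h0 h1 j hj hCr => by
      refine hcurve m hm ?_ hCr.1
      obtain ⟨ξ, W, W', hW, hW', hf, hJ⟩ := hc.2.geom
      refine node_curveV _ b hb ξ W W' hW hW' a0 n0 m (by omega) (mp φ h) (fun j => mp φ (κ j))
        ?_ ?_ (by rw [mp_cc, h0, map_zero]) (by
          rw [mp_pderiv, mp_cc]
          exact fun h => h1 ((map_eq_zero φ).1 h)) j (by
          rw [mp_cc]
          exact fun h => hj ((map_eq_zero φ).1 h))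
      · intro i
        rw [hf]
        beta_reduce
        rw [hgj, pow_zero, mul_one, mp_mul, mp_pow]
      · rw [hJ, Nat.sub_self, pow_zero, mul_one])
    (fun g d1 a1 n1 m hm hc h κ hgj h0 h1 j hj hCr => by
      refine hcurve m hm ?_ hCr.1
      obtain ⟨ξ, W, W', hW, hW', hf, hJ⟩ := hc.2.geom
      refine node_curveU _ b hb ξ W W' hW hW' a1 n1 m (by omega) (mp φ h) (fun j => mp φ (κ j))
        ?_ ?_ (by rw [mp_cc, h0, map_zero]) (by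
          rw [mp_pderiv, mp_cc]
          exact fun h => h1 ((map_eq_zero φ).1 h)) j (by
          rw [mp_cc]
          exact fun h => hj ((map_eq_zero φ).1 h))
      · intro i
        rw [hf]
        beta_reduce
        rw [hgj, pow_zero, one_mul, mp_mul, mp_pow]
      · rw [hJ, Nat.sub_self, pow_zero, one_mul])
    (fun g d0 d1 a0 n0 a1 n1 m gc gI hm hgc hgI hne' hc hcrit => by
      obtain ⟨j0, hj0⟩ := hne'
      have hI := hc.2
      have hP0 : res0 (gcC φ (gc 0) 0 j0) ≠ 0 := by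
        rw [gcC_0 φ hgc, ← mp_r0, Ne, Polynomial.map_eq_zero]
        exact hj0
      have hmult : IsMult (fun j => mp φ (g j)) m :=
        ⟨⟨fun j => gcC φ (gc 0) 0 j, fun j => gcC_eq φ (hgc 0) 0 j⟩,
          ⟨fun j => mp φ (gI j), fun j => chI_mp φ hgI j⟩⟩
      obtain ⟨hlam, hdeg, hA0, hAI, hAc, T, hT, hcard, h1, h2, hsum, hrel⟩ :=
        crit_struct (fun j => mp φ (f j)) b hb (fun j => mp φ (g j)) a0 n0 a1 n1 hI.hn0 hI.hn1
          hI.geom m hm (fun c j => gcC φ (gc 0) c j) (fun j => mp φ (gI j))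
          (fun c j => gcC_eq φ (hgc 0) c j) (chI_mp φ hgI) j0 hP0 (hI.hJ1 m hmult) hI.hJ2 hI.hJ2'
          hI.hz0 hI.hz1 r hr (hcr' _ _ hcrit)
      have hPP : res0 (gcC φ (gc 0) 0 j0) = (r0 (gc 0 j0)).map φ := by
        rw [gcC_0 φ hgc, ← mp_r0]
      rw [hPP] at hdeg hA0 hAI hsum hrel h1 h2
      simp only [hPP] at hAc hT hsum hrel
      obtain ⟨γ, μ0, T', μ, hS⟩ := spec_of φ T0 r hcr (r0 (gc 0 j0)) hj0 m a0 n0 a1 n1 hdeg hA0 hAI
        hAc T hT hcard h1 h2 hsum hrel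
      refine ⟨fun _ => 1, r0 (gc 0 j0), γ, μ0, T', μ, fun j => ?_, hS⟩
      rw [Subsingleton.elim j j0, map_one, one_mul])
    (fun g d0 d1 a0 n0 a1 n1 hc hcrit ρ hρ h => by
      have h3 := hc.2.hH0 (hcr' _ _ hcrit.1) ρ (ord0_mp φ hρ)
      exact h3 (hcr _ _ h.1))
    (fun g d0 d1 a0 n0 a1 n1 hc hcrit ρ hρ h => by
      have h3 := hc.2.hH1 (hcr' _ _ hcrit.1) ρ (ord1_mp φ hρ)
      exact h3 (hcr _ _ h.1))
    hT 0 1 0 1 ⟨⟨le_rfl, le_rfl, fun _ => ⟨rfl, rfl⟩, fun _ => ⟨rfl, rfl⟩⟩, by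
      have h1 : (fun j => mp φ (g j)) = fun j => W574.SM.translate (fun i => φ (P i))
          (mp φ (f j)) := by
        funext j
        exact mp_tr φ P (f j)
      rw [h1]
      exact inv_initial _ r _⟩
  exact lreg_of_CCx χ hCC

/-- the comparison point -/
theorem exists_T0' (hχ : ¬ χ.IsTr) (hT : ‖T0‖ = p) : ∃ T0' : ℂ, ‖T0'‖ = p ∧ T0' ≠ p ∧
    ∀ a n : ℕ, Cr χ T0 a n → Crit p T0' a n := by
  by_cases hne : T0 = p
  swap
  · exact ⟨T0, hT, hne, fun a n h => h.1⟩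
  have hp0 : (p : ℂ) ≠ 0 := by exact_mod_cast (Fact.out : p.Prime).ne_zero
  classical
  have hex : ∃ n : ℕ, 1 ≤ n ∧ ∀ u : ℚ_[p], ‖u‖ = 1 → χ.X u ^ n = 1 := X_unit χ
  set d := Nat.find hex with hd
  obtain ⟨hd1, hd2⟩ := Nat.find_spec hex
  rw [← hd] at hd1 hd2
  have hdne : d ≠ 1 := by
    intro h
    apply hχ
    intro u hu
    have := hd2 u hu
    rwa [h, pow_one] at this
  have hdvd : ∀ a : ℕ, (∀ u : ℚ_[p], ‖u‖ = 1 → χ.X u ^ a = 1) → d ∣ a := by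
    intro a ha
    rw [Nat.dvd_iff_mod_eq_zero]
    by_contra hmod
    refine Nat.find_min hex (m := a % d) (Nat.mod_lt _ (by omega)) ⟨by omega, fun u hu => ?_⟩
    have h1 := ha u hu
    rw [← Nat.div_add_mod a d, pow_add, pow_mul, hd2 u hu, one_pow, one_mul] at h1
    exact h1
  have hζ := Complex.isPrimitiveRoot_exp d (by omega)
  set ζ := Complex.exp (2 * Real.pi * Complex.I / d) with hζd
  have hn1 : ‖ζ‖ = 1 := Complex.norm_eq_one_of_pow_eq_one hζ.pow_eq_one (by omega)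
  refine ⟨p * ζ, ?_, ?_, ?_⟩
  · rw [norm_mul, hn1, mul_one, Complex.norm_natCast]
  · intro h
    have h2 : (p : ℂ) * ζ = p * 1 := by rw [h, mul_one]
    exact hζ.ne_one (by omega) (mul_left_cancel₀ hp0 h2)
  · intro a n h
    obtain ⟨k, hk⟩ := hdvd a h.2
    have h1 := h.1
    unfold Crit at h1 ⊢
    rw [hne] at h1
    rw [mul_pow, h1, hk, pow_mul, hζ.pow_eq_one, one_pow, mul_one]

/-- no pole at a smooth point -/
theorem smooth_x (hT0 : T0 ≠ 0) (hcr1 : ¬ Cr χ T0 1 1) (g : Fin 1 → A ℚ_[p])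
    (hs : ¬ (MvPolynomial.constantCoeff (MvPolynomial.pderiv 0 (g 0)) = 0 ∧
      MvPolynomial.constantCoeff (MvPolynomial.pderiv 1 (g 0)) = 0)) :
    LReg T0 0 (Zx (Hx χ g 0 1 0 1)) (0, 0) := by
  have hgg : ∀ j, g j = g 0 ^ 1 * (fun _ : Fin 1 => (1 : A ℚ_[p])) j := by
    intro j
    rw [Subsingleton.elim j 0, pow_one, mul_one]
  have h1 : MvPolynomial.constantCoeff ((fun _ : Fin 1 => (1 : A ℚ_[p])) 0) ≠ 0 := by
    rw [map_one]
    exact one_ne_zero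
  by_cases hu : MvPolynomial.constantCoeff (g 0) = 0
  · by_cases h0 : MvPolynomial.constantCoeff (MvPolynomial.pderiv 1 (g 0)) = 0
    · have h3 : MvPolynomial.constantCoeff (MvPolynomial.pderiv 0 (g 0)) ≠ 0 := fun h =>
        hs ⟨h, h0⟩
      exact lreg_of_CCx χ (CCx_curveU χ hT0 g 1 (g 0) (fun _ => 1) hgg hu h3 h1 le_rfl hcr1)
    · exact lreg_of_CCx χ (CCx_curveV χ hT0 g 1 (g 0) (fun _ => 1) hgg hu h0 h1 le_rfl hcr1)
  · exact lreg_of_CCx χ (CCx_unit χ hT0 g hu le_rfl le_rfl fun h => not_cr01 χ h.1)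

/-- no pole at a singular point without a crossing of critical curves -/
theorem sing_x (φ : ℚ_[p] →+* ℂ) (hT0 : T0 ≠ 0) {T0' : ℂ} (hT : ‖T0'‖ = p) (hne : T0' ≠ p)
    (hCr : ∀ a n : ℕ, Cr χ T0 a n → Crit p T0' a n) (g : Fin 1 → A ℚ_[p])
    (hg : ∃ j, g j ≠ 0)
    (s0 : MvPolynomial.constantCoeff (MvPolynomial.pderiv 0 (g 0)) = 0)
    (s1 : MvPolynomial.constantCoeff (MvPolynomial.pderiv 1 (g 0)) = 0)
    (hDZ : ¬ DZ (-1) (fun j => mp φ (g j)) 0 1 0 1) :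
    LReg T0 0 (Zx (Hx χ g 0 1 0 1)) (0, 0) := by
  have hTT : KT g false false := exists_KT g false false hg (by simp) (by simp)
  have hCC := main_X χ hT0 hCr
    (fun g d0 d1 a0 n0 a1 n1 => CR T0' g d0 d1 a0 n0 a1 n1 ∧ DC φ (-1) g d0 d1 a0 n0 a1 n1)
    (closed_and (closed_CR hT hne) (closed_DC φ (-1)))
    (fun g d0 d1 a0 n0 a1 n1 hc j hj h => hc.1.2.2.2.1 ⟨hCr _ _ h.1, hCr _ _ h.2⟩)
    (fun g d0 a0 n0 m hm hc h κ hg h0 h1 j hj hcr => not_crit1 hT hne m (hCr _ _ hcr))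
    (fun g d1 a1 n1 m hm hc h κ hg h0 h1 j hj hcr => not_crit1 hT hne m (hCr _ _ hcr))
    (fun g d0 d1 a0 n0 a1 n1 m gc gI hm hgc hgI hne' hc hcrit => by
      obtain ⟨γ, μ0, T, μ, hS⟩ := spec_CR φ hT hne g d0 d1 a0 n0 a1 n1 m gc gI hm hgc hgI hne'
        hc.1 hc.2 hcrit
      refine ⟨fun _ => 1, r0 (gc 0 0), γ, μ0, T, μ, fun j => ?_, hS⟩
      rw [Subsingleton.elim j 0, map_one, one_mul])
    (fun g d0 d1 a0 n0 a1 n1 hc hcrit ρ _ h =>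
      hH0_CR hT hne hc.1 (hCr _ _ hcrit) ρ (hCr _ _ h))
    (fun g d0 d1 a0 n0 a1 n1 hc hcrit ρ _ h =>
      hH1_CR hT hne hc.1 (hCr _ _ hcrit) ρ (hCr _ _ h))
    hTT 0 1 0 1 ⟨⟨tc0 g, by simp, by simp, fun h => not_crit01 h.1, fun _ _ => ⟨s0, s1⟩⟩,
      ⟨tc0 g, hDZ, hg, by simp, by simp⟩⟩
  exact lreg_of_CCx χ hCC

/-- **The points with `|T0| = p`.** -/
theorem local_xp (φ : ℚ_[p] →+* ℂ) (hχ : ¬ χ.IsTr) (hT : ‖T0‖ = p) (f : Fin 1 → A ℚ_[p])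
    (hne : ∃ j, f j ≠ 0)
    (hb : ¬ ∀ b : ℂ[X], IsFunctionalEq (fun j => mp φ (f j)) b → (X - C (-1)) ^ 2 ∣ b)
    (P : Fin 2 → ℚ_[p]) : LReg T0 0 (Zx (Hx χ (nd f P) 0 1 0 1)) (0, 0) := by
  obtain ⟨T0', h1, h2, hCr⟩ := exists_T0' χ hχ hT
  have hT0 : T0 ≠ 0 := ne0_of hT
  by_cases hs : MvPolynomial.constantCoeff (MvPolynomial.pderiv 0 (nd f P 0)) = 0 ∧
      MvPolynomial.constantCoeff (MvPolynomial.pderiv 1 (nd f P 0)) = 0
  · refine sing_x χ φ hT0 h1 h2 hCr _ (tr_ne_zero f P hne) hs.1 hs.2 ?_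
    intro hDZ
    apply hb
    intro b hb
    obtain ⟨Λ, hΛ, hz⟩ := hDZ
    have h4 : (fun j => mp φ (nd f P j)) = fun j => W574.SM.translate (fun i => φ (P i))
        (mp φ (f j)) := by
      funext j
      exact mp_tr φ P (f j)
    rw [h4] at hΛ
    exact zc_root (fun j => mp φ (f j)) b hb (fun i => φ (P i)) (-1) hΛ hz
  · exact smooth_x χ hT0 (fun h => not_crit1 h1 h2 1 (hCr _ _ h)) _ hs

/-! ## Gluing -/

theorem Hx_nd (f : Fin 1 → A ℚ_[p]) (P : ℚ_[p] × ℚ_[p]) (s : ℝ) (x : ℚ_[p] × ℚ_[p]) :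
    Hx χ f 0 1 0 1 s (P.1 + x.1, P.2 + x.2) = Hx χ (nd f ![P.1, P.2]) 0 1 0 1 s x := by
  unfold Hx
  rw [wx_zero_one, wx_zero_one, wx_zero_one, wx_zero_one]
  congr 2
  unfold nd
  rw [ev_aeval]
  simp only [Matrix.cons_val_zero, Matrix.cons_val_one]
  rw [map_add, map_add, ev_X0, ev_X1, ev_C, ev_C, add_comm x.1, add_comm x.2]

theorem lregx_pt (f : Fin 1 → A ℚ_[p]) (P : ℚ_[p] × ℚ_[p])
    (h : LReg T0 M (Zx (Hx χ (nd f ![P.1, P.2]) 0 1 0 1)) (0, 0)) :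
    LReg T0 M (Zx (Hx χ f 0 1 0 1)) P := by
  have h1 : LReg T0 M (Zx (fun s x => Hx χ f 0 1 0 1 s (P.1 + 1 * x.1, P.2 + x.2))) (0, 0) := by
    refine h.congr isOpen_univ trivial fun C hC _ s _ => Zx_congr hC fun x _ => ?_
    rw [one_mul, Hx_nd]
  have h2 : LReg T0 M (Zx (fun s (x : ℚ_[p] × ℚ_[p]) => Hx χ f 0 1 0 1 s (x.1, P.2 + x.2)))
      (P.1, 0) := by
    have h3 := LReg.homeo (F := Zx (fun s (x : ℚ_[p] × ℚ_[p]) =>
      Hx χ f 0 1 0 1 s (x.1, P.2 + x.2))) (shU 1 one_ne_zero (fun _ => P.1) continuous_const)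
      (fun C hC s hs => by
        rw [Zx_shearU _ 1 one_ne_zero (fun _ => P.1) continuous_const hC s, N_one,
          ENNReal.toReal_one, Complex.ofReal_one, one_mul]) h1
    have h4 : (shU (1 : ℚ_[p]) one_ne_zero (fun _ => P.1) continuous_const)
        ((0, 0) : ℚ_[p] × ℚ_[p]) = (P.1, 0) := by
      change (P.1 + 1 * 0, (0 : ℚ_[p])) = (P.1, 0)
      simp
    rwa [h4] at h3
  have h3 := LReg.homeo (F := Zx (Hx χ f 0 1 0 1)) (shV (fun _ => P.2) continuous_const)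
      (fun C hC s hs => Zx_shearV _ (fun _ => P.2) continuous_const hC s) h2
  have h4 : (shV (fun _ : ℚ_[p] => P.2) continuous_const) ((P.1, 0) : ℚ_[p] × ℚ_[p]) = P := by
    change (P.1, P.2 + 0) = P
    simp
  rwa [h4] at h3

/-- the twisted zeta function -/
noncomputable def ZXI (f : Fin 1 → A ℚ_[p]) (s : ℝ) : ℂ := Zx (Hx χ f 0 1 0 1) ub s

theorem regx0 (f : Fin 1 → A ℚ_[p]) (hne : ∃ j, f j ≠ 0) (hT0 : T0 ≠ 0) (hT1 : ‖T0‖ ≤ 1) :
    Reg p T0 0 (ZXI χ f) :=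
  LReg.glue (addF_Zx (okx_H χ f 0 1 0 1)) CO_ub fun x _ => lregx_pt χ f x
    (local_x0 χ hT0 hT1 _ (tr_ne_zero f _ hne))

theorem regxC (φ : ℚ_[p] →+* ℂ) (f : Fin 1 → A ℚ_[p]) (hne : ∃ j, f j ≠ 0) (hT0 : T0 ≠ 0)
    (hr : ∃ b : ℂ[X], IsFunctionalEq (fun j => mp φ (f j)) b ∧
      b.eval ((rr p T0 : ℝ) : ℂ) ≠ 0) : Reg p T0 0 (ZXI χ f) := by
  obtain ⟨b, hb, hr⟩ := hr
  exact LReg.glue (addF_Zx (okx_H χ f 0 1 0 1)) CO_ub fun x _ => lregx_pt χ f x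
    (local_xC χ φ f b hb hT0 hr ![x.1, x.2] hne)

theorem regxp (φ : ℚ_[p] →+* ℂ) (hχ : ¬ χ.IsTr) (hT : ‖T0‖ = p) (f : Fin 1 → A ℚ_[p])
    (hne : ∃ j, f j ≠ 0)
    (hb : ¬ ∀ b : ℂ[X], IsFunctionalEq (fun j => mp φ (f j)) b → (X - C (-1)) ^ 2 ∣ b) :
    Reg p T0 0 (ZXI χ f) :=
  LReg.glue (addF_Zx (okx_H χ f 0 1 0 1)) CO_ub fun x _ => lregx_pt χ f x
    (local_xp χ φ hχ hT f hne hb ![x.1, x.2])

end Pool.Agent.N138.SU
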