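import Pool.Agent.N138.SU.Locx

set_option autoImplicit false

/-! # Statement for the orders of the poles of the twisted zeta functions of plane curves -/

namespace Pool.Agent.N138.SU

open Pool.Agent.Y230.PT Pool.Agent.W574.SM Pool.Agent.Y230.RE

/-- Job W5: the orders of the poles of the twisted zeta functions of the plane curves. -/
def StW5 : Prop := ∀ (p : ℕ) [Fact p.Prime] (χ : UC p), ¬ χ.IsTr → ∀ (φ : ℚ_[p] →+* ℂ)
  (f : Fin 1 → A ℚ_[p]), (∃ j, f j ≠ 0) → ∀ b : Polynomial ℂ, b ≠ 0 →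
  IsFunctionalEq (fun j => mp φ (f j)) b → ∀ T0 : ℂ, 1 < ‖T0‖ →
  Reg p T0 (b.rootMultiplicity ((rr p T0 : ℝ) : ℂ)) (ZXI χ f) ∧
  (‖T0‖ = p → Reg p T0 1 (ZXI χ f))

end Pool.Agent.N138.SU
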