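import Pool.Agent.N138.SU.WD
import Pool.Agent.R852.PP.Main
import Pool.Agent.N138.SU.Stm5

set_option autoImplicit false
set_option linter.unusedSectionVars false
set_option linter.unusedVariables false

/-! # The induction -/

namespace Pool.Agent.N138.SU

open MeasureTheory MvPolynomial Pool.Agent.W427.SMC Pool.Agent.Y230.PT Pool.Agent.Y230.PS
open Pool.Agent.Y230.TH Pool.Agent.R852.PP
open scoped ENNReal
open Pool.Agent.Y230.RE Pool.Agent.W574.SM Pool.Agent.W574.RO Pool.Agent.W574.CN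

attribute [local instance] msZ bsZ

variable {p : ℕ} [Fact p.Prime]

section aff

variable {κ : Type} [Fintype κ]

theorem affF_eq [DecidableEq κ] (h : MvPolynomial (Fin 2) ℚ)
    (f : Option κ → MvPolynomial (Fin 2) ℚ) (a : ℕ) : affF h f a = Pool.Agent.N138.PA.aff h f a :=
  rfl

/-- the polynomials of degree one in all but two variables -/
theorem FR_aff (h : MvPolynomial (Fin 2) ℚ) (f : Option κ → MvPolynomial (Fin 2) ℚ) (a : ℕ)
    (ha : 1 ≤ a) (hh : h ≠ 0) (j1 : κ) (hj1 : f (some j1) ≠ 0) :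
    FR p (mR p (hyp (affF h f a))) (Pool.Agent.Y230.PS.FF ((hyp (affF h f a)).toP p)) := by
  classical
  obtain ⟨φ⟩ := exists_emb p
  have hφ : φ.comp (algebraMap ℚ ℚ_[p]) = algebraMap ℚ ℂ := RingHom.ext_rat _ _
  have hmp : ∀ q : MvPolynomial (Fin 2) ℚ, map (algebraMap ℚ ℂ) q =
      mp φ (map (algebraMap ℚ ℚ_[p]) q) := by
    intro q
    unfold mp
    rw [map_map, hφ]
  have hK : ∀ q : MvPolynomial (Fin 2) ℚ, q ≠ 0 → map (algebraMap ℚ ℚ_[p]) q ≠ 0 := by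
    intro q hq h0
    exact hq (map_injective _ (algebraMap ℚ ℚ_[p]).injective (by rw [h0, map_zero]))
  have hF : Pool.Agent.N103.FF (mp φ (map (algebraMap ℚ ℚ_[p]) h))
      (fun j => mp φ (map (algebraMap ℚ ℚ_[p]) (f j))) a ≠ 0 := by
    rw [← Pool.Agent.N138.PA.aff_FF]
    refine Pool.Agent.N138.PA.aff_ne _ _ a ?_ j1 ?_
    · rw [← hmp]
      exact fun h0 => hh (map_injective _ (algebraMap ℚ ℂ).injective (by rw [h0, map_zero]))
    · rw [← hmp]
      exact fun h0 => hj1 (map_injective _ (algebraMap ℚ ℂ).injective (by rw [h0, map_zero]))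
  have hz : ∀ s : ℝ, 0 ≤ s → Pool.Agent.N138.PA.ZF (map (algebraMap ℚ ℚ_[p]) h)
      (fun j => map (algebraMap ℚ ℚ_[p]) (f j)) a s =
      Pool.Agent.Y230.PS.FF ((hyp (affF h f a)).toP p) s := by
    intro s hs
    rw [FF_hyp, ← Pool.Agent.N138.PA.zeta_aff h f a ha s hs, zetaQ_eq]
    rfl
  have hne : ∃ j, map (algebraMap ℚ ℚ_[p]) h * (map (algebraMap ℚ ℚ_[p]) (f j)) ^ a ≠ 0 :=
    ⟨some j1, mul_ne_zero (hK h hh) (pow_ne_zero _ (hK _ hj1))⟩
  intro T0 hT0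
  by_cases hT1 : ‖T0‖ ≤ 1
  · refine ⟨0, by rw [Nat.cast_zero]; exact bot_le, ?_⟩
    exact (Pool.Agent.N138.PA.reg_ZF0 _ _ a hne hT0 hT1).congr fun s hs => hz s hs
  · unfold Pool.Agent.Y230.PS.tr
    rw [if_neg hT1]
    by_cases hf : Forced (hyp (affF h f a)).toC ((rr p T0 : ℝ) : ℂ)
    · obtain ⟨M, hM⟩ := Pool.Agent.N138.PA.reg_fin
        (Pool.Agent.N138.PA.reg_ZF0 _ _ a hne (T0 := 1) one_ne_zero (by simp)) T0
      exact ⟨M, by rw [mR_top hf]; exact le_top, hM.congr fun s hs => hz s hs⟩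
    · unfold Forced at hf
      push Not at hf
      obtain ⟨b, hb, hb2⟩ := hf
      refine ⟨0, by rw [Nat.cast_zero]; exact bot_le, ?_⟩
      have h1 : Pool.Agent.H628R4.TP.IsBFunction
          (map (algebraMap ℚ ℂ) (Pool.Agent.N138.PA.aff h f a)) b :=
        Pool.Agent.Y229.isB_of_single _ b hb
      rw [Pool.Agent.N138.PA.map_aff, Pool.Agent.N138.PA.aff_FF] at h1
      simp only [hmp] at h1
      exact (Pool.Agent.N138.PA.reg_ZF φ (map (algebraMap ℚ ℚ_[p]) h)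
        (fun j => map (algebraMap ℚ ℚ_[p]) (f j)) a ha (hK h hh) j1 (hK _ hj1) b
        (Pool.Agent.N103.heq_of_bfun _ b h1) hF hT0 hb2).congr fun s hs => hz s hs

end aff

theorem up_le {V : Type} [Fintype V] (F : MvPolynomial V ℚ)
    (hm : ∀ b : Polynomial ℂ, Pool.Agent.H628R4.TP.IsBFunction (map (algebraMap ℚ ℂ) F) b →
      (Polynomial.X + 1) ^ 2 ∣ b) (T : ℂ) :
    mI w2 p (hyp F) T ≤ rG p (wH w2 p) (hyp F) T := by
  refine iSup_le fun k => ?_
  obtain ⟨k, hk⟩ := k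
  by_cases hk0 : k = 0
  · subst hk0
    change w2 0 ≤ _
    unfold w2
    rw [if_pos rfl]
    exact bot_le
  · have h1 : FK (hyp F) ((rr p T : ℝ) : ℂ) (1 + dl ((rr p T : ℝ) : ℂ)) := by
      by_cases hr : ((rr p T : ℝ) : ℂ) = -1
      · rw [dl_eq, if_pos hr, hr]
        intro b hb
        have h2 := hm b (Pool.Agent.Y229.isB_of_single _ b hb)
        have h3 : (Polynomial.X - Polynomial.C (-1 : ℂ)) = Polynomial.X + 1 := by
          rw [map_neg, map_one, sub_neg_eq_add]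
        rw [h3]
        exact h2
      · rw [dl_eq, if_neg hr, add_zero]
        intro b hb
        exact (pow_dvd_pow _ (by omega)).trans (hk b hb)
    refine le_trans ?_ (le_rG (w := wH w2 p) h1)
    unfold wH w2
    rw [if_neg one_ne_zero, top_add]
    exact le_top

/-- what is proved for a polynomial `F` of the third class -/
def XG (w : ℕ → ℕ∞) (p : ℕ) [Fact p.Prime] {V : Type} [Fintype V] (F : MvPolynomial V ℚ) : Prop :=
  F ≠ 0 ∧ FR p (rG p (wH w p) (hyp F)) (Pool.Agent.Y230.PS.FF ((hyp F).toP p)) ∧ XW w p F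

/-- **The zeta functions and the exponential sums of the class.** -/
theorem cl_main (h1 : StW1) (h2 : StW2) (h3 : StW3) (h4 : StW4b) {strict : Bool} {w : ℕ → ℕ∞}
    (hw : IsW w) (hM : IsMltP p strict (mI w p) (rG p (wH w p)))
    (hPl : ∀ (g : MvPolynomial (Fin 2) ℚ), g ≠ 0 → ∀ χ : UC p, ¬ χ.IsTr →
      ∀ (K : ℕ) (φ : (Fin 2 → ℤ_[p]) → ℤ_[p]), IsV g K φ →
      FR p (mW w p (hyp g)) (FX (Measure.pi fun _ : Fin 2 => mu p) φ χ))
    (hAff : strict = false → w = w2) (c : Kd) (A : FamQ)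
    (h : Cl strict c A) : (∃ j, A.f j ≠ 0) ∧
      FR p (if c = Kd.ideal then mI w p A else rG p (wH w p) A)
        (Pool.Agent.Y230.PS.FF (A.toP p)) ∧
      (c = Kd.susp → ∀ j, XG w p (A.f j)) := by
  classical
  induction h with
  | curve F hF =>
    exact ⟨⟨(0 : Fin 1), hF⟩, hM.base.curve F hF, fun _ _ => ⟨hF, hM.base.curve F hF,
      XW_curve F (hM.base.curve F hF) (hPl F hF)⟩⟩
  | wh τ G wt D hG =>
    have h5 : XG w p G := ⟨G_ne h3 h4 hG, FR_of_XW (FK_G1 h3 h4 hG) (XW_G hw h1 h2 h3 h4 hG),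
      XW_G hw h1 h2 h3 h4 hG⟩
    exact ⟨⟨(0 : Fin 1), h5.1⟩, h5.2.1, fun _ _ => h5⟩
  | add V τ F G wt D hG hF ih =>
    have h5 := ih.2.2 rfl (0 : Fin 1)
    have h6 : XG w p (addF F G) := ⟨addF_ne h5.1 hG,
      FR_of_XW (FK_addF1 h3 h4 hG h5.1) (XW_addF h1 h2 h3 h4 hG h5.1 h5.2.2),
      XW_addF h1 h2 h3 h4 hG h5.1 h5.2.2⟩
    exact ⟨⟨(0 : Fin 1), h6.1⟩, h6.2.1, fun _ _ => h6⟩
  | univ A hA ihA =>
    have h5 : FR p (rG p (wH w p) A.univ) (Pool.Agent.Y230.PS.FF (A.univ.toP p)) := by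
      rw [toP_univ]
      exact FR_univK ⟨ihA.1.choose⟩ _ _ _ (fun T hT => hM.base.univ A T hT ihA.1) ihA.2.1
    refine ⟨univ_ne A ihA.1, h5, fun _ j => ⟨?_, h5, XW_univ A ihA.1 ihA.2.1⟩⟩
    obtain ⟨j', hj'⟩ := univ_ne A ihA.1
    exact hj'
  | ts c hc A τ g hA hg ihA ihg =>
    have hg0 : g ≠ 0 := by
      obtain ⟨j, hj⟩ := ihg.1
      exact hj
    have h5 : FR p (mI w p A) (Pool.Agent.Y230.PS.FF (A.toP p)) := by simpa using ihA.2.1
    have h6 : FR p (rG p (wH w p) (hyp g)) (Pool.Agent.Y230.PS.FF ((hyp g).toP p)) := by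
      have := ihg.2.1
      rwa [if_neg hc] at this
    have h7 : FR p (rG p (wH w p) (tsum A τ g)) (Pool.Agent.Y230.PS.FF ((tsum A τ g).toP p)) := by
      rw [toP_ts]
      have hι : Nonempty A.ι := ⟨ihA.1.choose⟩
      exact FR_ts Pool.Agent.Y287.TH.tZ _ _ _ _ _ (hM.base.ts A τ g ihA.1 hg0)
        (hM.base.one A τ g ihA.1 hg0) h5 h6
    refine ⟨ts_ne A τ g hg0, by rw [if_neg hc]; exact h7, fun hcs j => ?_⟩
    refine ⟨?_, h7, XW_ts hw A g ihA.1 hg0 h5 (ihg.2.2 hcs (0 : Fin 1)).2.2⟩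
    obtain ⟨j', hj'⟩ := ts_ne A τ g hg0
    exact hj'
  | mul c A B hA hB ihA ihB =>
    have h5 : FR p (if c = Kd.ideal then mI w p (A.mul B) else rG p (wH w p) (A.mul B))
        (Pool.Agent.Y230.PS.FF ((A.mul B).toP p)) := by
      rw [toP_mul]
      have h1 := ihA.2.1
      have h2 := ihB.2.1
      by_cases hc : c = Kd.ideal
      · rw [if_pos hc] at h1 h2 ⊢
        refine (FR.mul h1 h2 (fun T hT => hM.base.base.mul A B T hT ihA.1 ihB.1)).congr
          fun s hs => ?_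
        rw [FF_mulK]
      · rw [if_neg hc] at h1 h2 ⊢
        refine (FR.mul h1 h2 (fun T hT => hM.base.mul A B T hT ihA.1 ihB.1)).congr fun s hs => ?_
        rw [FF_mulK]
    refine ⟨mul_ne A B ihA.1 ihB.1, h5, fun hc j => ?_⟩
    have h6 := ihA.2.2 hc j.1
    have h7 := ihB.2.2 hc j.2
    refine ⟨?_, FRw_mulF hw h6.1 h7.1 h6.2.1 h7.2.1,
      XW_mul hw h6.1 h7.1 h6.2.1 h7.2.1 h6.2.2 h7.2.2⟩
    refine mul_ne_zero (fun h0 => h6.1 ?_) (fun h0 => h7.1 ?_)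
    · exact rename_injective _ Sum.inl_injective (by rw [h0, map_zero])
    · exact rename_injective _ Sum.inr_injective (by rw [h0, map_zero])
  | drop c hc V κ g h ih =>
    have hg0 : g ≠ 0 := by
      rintro rfl
      obtain ⟨j, hj⟩ := ih.1
      exact hj (map_zero _)
    have h5 : FR p (rG p (wH w p) (hyp g)) (Pool.Agent.Y230.PS.FF ((hyp g).toP p)) := by
      have h1 := ih.2.1
      rw [if_neg hc] at h1
      refine (h1.mono (hM.base.drop V κ g)).congr fun s hs => ?_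
      have h2 := FF_drop (κ := κ) (map (algebraMap ℚ ℚ_[p]) g) s
      refine Eq.trans ?_ h2
      congr 1
      funext j
      exact map_rename _ _ _
    exact ⟨⟨(0 : Fin 1), hg0⟩, by rw [if_neg hc]; exact h5, fun hcs j =>
      ⟨hg0, h5, XW_drop g (ih.2.2 hcs (0 : Fin 1)).2.2⟩⟩
  | equiv c A B i k h hA ihA =>
    have h3 : ∀ s : ℝ, Pool.Agent.Y230.PS.FF (A.toP p) s = Pool.Agent.Y230.PS.FF (B.toP p) s :=
      fun s => by
      rw [FF_equiv i k (A.toP p) (B.toP p) (fun j => ?_) s]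
      change map (algebraMap ℚ ℚ_[p]) (B.f (k j)) = _
      rw [h, map_rename]
      rfl
    refine ⟨equiv_ne A B i k h ihA.1, ?_, fun hc j => ?_⟩
    · have h1 := ihA.2.1
      by_cases hc : c = Kd.ideal
      · rw [if_pos hc] at h1 ⊢
        exact (h1.mono fun T hT => hM.base.base.equiv A B i k h T hT).congr fun s hs => h3 s
      · rw [if_neg hc] at h1 ⊢
        exact (h1.mono fun T hT => hM.base.equiv A B i k h T hT).congr fun s hs => h3 s
    · have h5 := ihA.2.2 hc (k.symm j)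
      have h6 : B.f j = rename i (A.f (k.symm j)) := by
        rw [← h, Equiv.apply_symm_apply]
      rw [h6]
      refine ⟨fun h0 => h5.1 (rename_injective _ i.injective (by rw [h0, map_zero])), ?_,
        XW_equiv i _ h5.2.2⟩
      refine (h5.2.1.mono fun T hT => hM.base.equiv (hyp (A.f (k.symm j)))
        (hyp (rename i (A.f (k.symm j)))) i (Equiv.refl _) (fun _ => rfl) T hT).congr
        fun s hs => ?_
      rw [FF_equiv i (Equiv.refl _) ((hyp (A.f (k.symm j))).toP p)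
        ((hyp (rename i (A.f (k.symm j)))).toP p) (fun j => ?_) s]
      exact map_rename _ _ _
  | poly A h ih => exact ⟨ih.1, by simpa using ih.2.1, fun hc => by cases hc⟩
  | form V m r a hm ha h f hA ihA =>
    have hne : ∃ J, genP a h f J ≠ 0 := ihA.1
    obtain ⟨hh, hf⟩ := genQ_ne a h f ha hne
    refine ⟨⟨(0 : Fin 1), formP_ne a h f hne ha⟩, ?_, fun hc => by cases hc⟩
    have h1 : FR p (mI w p (genQ a h f)) (Pool.Agent.Y230.PS.FF ((genQ a h f).toP p)) := by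
      simpa using ihA.2.1
    rw [genQ_toP] at h1
    rw [formQ_toP, if_neg (by decide)]
    exact FR_formK a (fun t => ⟨(hf t).choose⟩) _ _ _ _
      (fun T hT => hM.form V m r a h f hm ha hne T hT) h1
  | prin A h ih =>
    have h1 : FR p (rG p (wH w p) A) (Pool.Agent.Y230.PS.FF (A.toP p)) := by simpa using ih.2.1
    exact ⟨ih.1, by simpa using h1.mono (hM.base.hyp A), fun hc => by cases hc⟩
  | pow V g k hk h ih =>
    have hg : g ≠ 0 := by
      obtain ⟨j, hj⟩ := ih.1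
      exact hj
    have h1 : FR p (rG p (wH w p) (hyp g)) (Pool.Agent.Y230.PS.FF ((hyp g).toP p)) := by
      simpa using ih.2.1
    refine ⟨⟨(0 : Fin 1), pow_ne_zero k hg⟩, ?_, fun hc => by cases hc⟩
    rw [if_pos rfl]
    exact pow_case hk (fun T => hM.pow V g hg k hk T) (h1.mono (hM.base.hyp _))
  | sum A B hA hB ihA ihB =>
    refine ⟨sum_ne A B ihA.1, ?_, fun hc => by cases hc⟩
    rw [toP_sum, if_pos rfl]
    have h1 : FR p (mI w p A) (Pool.Agent.Y230.PS.FF (A.toP p)) := by simpa using ihA.2.1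
    have h2 : FR p (mI w p B) (Pool.Agent.Y230.PS.FF (B.toP p)) := by simpa using ihB.2.1
    exact FR_sumK _ _ _ _ _ (hM.base.base.sum A B) h1 h2
  | good A h =>
    obtain ⟨h1, h2⟩ := good_main hM.base.base A h
    refine ⟨h1, ?_, fun hc => by cases hc⟩
    have h3 := h2 (fun _ => 1) fun _ => one_ne_zero
    rw [scl_one] at h3
    simpa using h3
  | mono V ι v =>
    refine ⟨⟨Classical.arbitrary ι, ?_⟩, by simpa using hM.mono V ι v, fun hc => by cases hc⟩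
    change monomial (v _) (1 : ℚ) ≠ 0
    rw [Ne, monomial_eq_zero]
    exact one_ne_zero
  | affine hs κ h f a hh hf ha =>
    obtain ⟨j1, hj1⟩ := hf
    refine ⟨⟨(0 : Fin 1), Pool.Agent.N138.PA.aff_ne h f a hh j1 hj1⟩, ?_, fun hc => by cases hc⟩
    rw [if_pos rfl, hAff hs]
    exact (FR_aff h f a ha hh j1 hj1).mono fun T _ => le_of_eq (mI_2 _ T).symm
  | up hs V F hm h ih =>
    refine ⟨ih.1, ?_, fun hc => by cases hc⟩
    have h1 : FR p (mI w p (hyp F)) (Pool.Agent.Y230.PS.FF ((hyp F).toP p)) := by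
      simpa using ih.2.1
    rw [if_neg (by decide)]
    have hw2 := hAff hs
    subst hw2
    exact h1.mono fun T _ => up_le F hm T

/-- the plane curves, without multiplicities -/
theorem plane_2 (g : MvPolynomial (Fin 2) ℚ) (hg : g ≠ 0) (χ : UC p) (hχ : ¬ χ.IsTr)
    (K : ℕ) (φ : (Fin 2 → ℤ_[p]) → ℤ_[p]) (hφ : IsV g K φ) :
    FR p (mW w2 p (hyp g)) (FX (Measure.pi fun _ : Fin 2 => mu p) φ χ) := by
  refine (FR_plane χ hχ g hg K φ hφ).mono fun T _ => ?_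
  by_cases hK : FK (hyp g) ((rr p T : ℝ) : ℂ) (1 + dl ((rr p T : ℝ) : ℂ))
  · refine le_trans le_top (le_mW (w := w2) hK)
  · rw [mQ_zero hK]
    exact bot_le

/-- the plane curves, with multiplicities -/
theorem plane_1 (h5 : StW5) (g : MvPolynomial (Fin 2) ℚ) (hg : g ≠ 0) (χ : UC p) (hχ : ¬ χ.IsTr)
    (K : ℕ) (φ : (Fin 2 → ℤ_[p]) → ℤ_[p]) (hφ : IsV g K φ) :
    FR p (mW w1 p (hyp g)) (FX (Measure.pi fun _ : Fin 2 => mu p) φ χ) := by
  classical
  obtain ⟨emb⟩ := exists_emb p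
  have hemb : emb.comp (algebraMap ℚ ℚ_[p]) = algebraMap ℚ ℂ := RingHom.ext_rat _ _
  have hp0 : (p : ℚ_[p]) ≠ 0 := by exact_mod_cast (Fact.out : p.Prime).ne_zero
  set gK := MvPolynomial.map (algebraMap ℚ ℚ_[p]) g with hgK
  have hne : ∃ j : Fin 1, (fun _ : Fin 1 => gK) j ≠ 0 := ⟨0, fun h0 => hg
        (MvPolynomial.map_injective _ (algebraMap ℚ ℚ_[p]).injective (by rw [map_zero]; exact h0))⟩
  have hmp : (fun _ : Fin 1 => mp emb gK) = (hyp g).toC := by
    funext j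
    unfold mp
    rw [hgK, MvPolynomial.map_map, hemb]
    rfl
  have hReg : ∀ T0 : ℂ, T0 ≠ 0 → ∀ M : ℕ, Reg p T0 M (ZXI χ fun _ => gK) →
      Reg p T0 M (FX (Measure.pi fun _ : Fin 2 => mu p) φ χ) := fun T0 hT0 M h =>
    ((reg_om χ hT0 _ (pow_ne_zero K hp0)).mul0 h).congr fun s _ => (FX_plane χ gK K φ hφ s).symm
  intro T0 hT0
  by_cases hT1 : ‖T0‖ ≤ 1
  · refine ⟨0, by rw [Nat.cast_zero]; exact bot_le, hReg T0 hT0 0 (regx0 χ _ hne hT0 hT1)⟩
  have hT : 1 < ‖T0‖ := not_le.1 hT1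
  obtain ⟨a, ha⟩ := mM_nat (p := p) (hyp g) T0 ⟨(0 : Fin 1), hg⟩
  have hFa : FK (hyp g) ((rr p T0 : ℝ) : ℂ) a := le_mM.1 (le_of_eq ha.symm)
  obtain ⟨b, hb, hb0, hba⟩ : ∃ b : Polynomial ℂ, IsFunctionalEq (fun _ : Fin 1 => mp emb gK) b ∧
      b ≠ 0 ∧ b.rootMultiplicity ((rr p T0 : ℝ) : ℂ) ≤ a := by
    have h6 : ¬ FK (hyp g) ((rr p T0 : ℝ) : ℂ) (a + 1) := by
      intro h7
      have h8 : ((a + 1 : ℕ) : ℕ∞) ≤ mM p (hyp g) T0 := le_mM.2 fun b hb => h7 b hb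
      rw [ha] at h8
      have h9 : a + 1 ≤ a := by exact_mod_cast h8
      omega
    unfold FK at h6
    push Not at h6
    obtain ⟨b, hb, hb2⟩ := h6
    have hb0 : b ≠ 0 := by
      rintro rfl
      exact hb2 (dvd_zero _)
    refine ⟨b, by rw [hmp]; exact hb, hb0, ?_⟩
    by_contra hn
    exact hb2 ((Polynomial.le_rootMultiplicity_iff hb0).1 (by omega))
  obtain ⟨hW1, hW2⟩ := h5 p χ hχ emb (fun _ => gK) hne b hb0 hb T0 hT
  unfold Pool.Agent.Y230.PS.tr
  rw [if_neg hT1]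
  by_cases hr : ((rr p T0 : ℝ) : ℂ) = -1
  · by_cases hF : FK (hyp g) ((rr p T0 : ℝ) : ℂ) (1 + dl ((rr p T0 : ℝ) : ℂ))
    · exact ⟨1, le_mW (w := w1) hF, hReg T0 hT0 1 (hW2 (rr_norm T0 hT hr))⟩
    · refine ⟨0, by rw [Nat.cast_zero]; exact bot_le, hReg T0 hT0 0 ?_⟩
      refine regxp χ emb hχ (rr_norm T0 hT hr) _ hne ?_
      intro hall
      apply hF
      intro b hb
      rw [dl_eq, if_pos hr, hr]
      exact hall b (by rw [hmp]; exact hb)
  · refine ⟨_, ?_, hReg T0 hT0 _ hW1⟩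
    refine le_trans ?_ (le_mW (w := w1) (k := a) ?_)
    · unfold w1
      exact_mod_cast hba
    · rw [dl_eq, if_neg hr, add_zero]
      exact hFa

theorem isMltW_1 : IsMltP p true (mI w1 p) (rG p (wH w1 p)) := by
  have e : mI w1 p = mM p := funext fun A => funext fun T => mI_1 A T
  rw [e, wH_1]
  exact isMltP_M

theorem isMltW_2 : IsMltP p false (mI w2 p) (rG p (wH w2 p)) := by
  have e : mI w2 p = mR p := funext fun A => funext fun T => mI_2 A T
  rw [e, wH_2]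
  exact isMltP_R

/-- roots -/
theorem cl_main_2 (h1 : StW1) (h2 : StW2) (h3 : StW3) (h4 : StW4b) (c : Kd) (A : FamQ)
    (h : Cl false c A) : (∃ j, A.f j ≠ 0) ∧
      FR p (if c = Kd.ideal then mI w2 p A else rG p (wH w2 p) A)
        (Pool.Agent.Y230.PS.FF (A.toP p)) ∧
      (c = Kd.susp → ∀ j, XG w2 p (A.f j)) :=
  cl_main h1 h2 h3 h4 isW_2 isMltW_2 (fun g hg χ hχ K φ hφ => plane_2 g hg χ hχ K φ hφ)
    (fun _ => rfl) c A h

/-- roots with multiplicities -/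
theorem cl_main_1 (h1 : StW1) (h2 : StW2) (h3 : StW3) (h4 : StW4b) (h5 : StW5) (c : Kd) (A : FamQ)
    (h : Cl true c A) : (∃ j, A.f j ≠ 0) ∧
      FR p (if c = Kd.ideal then mI w1 p A else rG p (wH w1 p) A)
        (Pool.Agent.Y230.PS.FF (A.toP p)) ∧
      (c = Kd.susp → ∀ j, XG w1 p (A.f j)) :=
  cl_main h1 h2 h3 h4 isW_1 isMltW_1 (fun g hg χ hχ K φ hφ => plane_1 h5 g hg χ hχ K φ hφ)
    (fun h => by cases h) c A h

end Pool.Agent.N138.SU
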