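import Pool.Agent.N138.SU.Linx

set_option autoImplicit false
set_option linter.unusedSectionVars false
set_option linter.unusedVariables false

/-! # The induction over the tree, twisted -/

namespace Pool.Agent.N138.SU

open MeasureTheory Set Pool.Agent.W427.SMC Pool.Agent.Y230.PT
open scoped ENNReal
open Pool.Agent.Y230.RE

variable {p : ℕ} [Fact p.Prime]

attribute [local instance] msK bsK

variable (χ : UC p) {T0 : ℂ}

/-- **No poles.** -/
theorem main_X (hT0 : T0 ≠ 0) {T0' : ℂ} (hCr : ∀ a n : ℕ, Cr χ T0 a n → Crit p T0' a n)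
    (Cx : (Fin 1 → A ℚ_[p]) → Bool → Bool → ℕ → ℕ → ℕ → ℕ → Prop) (hCx : Closed Cx)
    (hunit : ∀ (g : Fin 1 → A ℚ_[p]) (d0 d1 : Bool) (a0 n0 a1 n1 : ℕ), Cx g d0 d1 a0 n0 a1 n1 →
      ∀ j, MvPolynomial.constantCoeff (g j) ≠ 0 → ¬ (Cr χ T0 a0 n0 ∧ Cr χ T0 a1 n1))
    (hV : ∀ (g : Fin 1 → A ℚ_[p]) (d0 : Bool) (a0 n0 m : ℕ), 1 ≤ m → Cx g d0 false a0 n0 0 1 →
      ∀ (h : A ℚ_[p]) (κ : Fin 1 → A ℚ_[p]), (∀ j, g j = h ^ m * κ j) →
      MvPolynomial.constantCoeff h = 0 → MvPolynomial.constantCoeff (MvPolynomial.pderiv 1 h) ≠ 0 →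
      ∀ j, MvPolynomial.constantCoeff (κ j) ≠ 0 → ¬ Cr χ T0 m 1)
    (hU : ∀ (g : Fin 1 → A ℚ_[p]) (d1 : Bool) (a1 n1 m : ℕ), 1 ≤ m → Cx g false d1 0 1 a1 n1 →
      ∀ (h : A ℚ_[p]) (κ : Fin 1 → A ℚ_[p]), (∀ j, g j = h ^ m * κ j) →
      MvPolynomial.constantCoeff h = 0 → MvPolynomial.constantCoeff (MvPolynomial.pderiv 0 h) ≠ 0 →
      ∀ j, MvPolynomial.constantCoeff (κ j) ≠ 0 → ¬ Cr χ T0 m 1)
    (hE : ∀ (g : Fin 1 → A ℚ_[p]) (d0 d1 : Bool) (a0 n0 a1 n1 m : ℕ)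
      (gc : ℚ_[p] → Fin 1 → A ℚ_[p])
      (gI : Fin 1 → A ℚ_[p]), 1 ≤ m →
      (∀ c j, MvPolynomial.aeval (ch c) (g j) = MvPolynomial.X 0 ^ m * gc c j) →
      (∀ j, MvPolynomial.aeval chI (g j) = MvPolynomial.X 1 ^ m * gI j) →
      (∃ j, r0 (gc 0 j) ≠ 0) → Cx g d0 d1 a0 n0 a1 n1 → Crit p T0' (a0 + a1 + m) (n0 + n1) →
      ∃ (lam : Fin 1 → ℚ_[p]) (P : Polynomial ℚ_[p]) (γ : ℚ_[p]) (μ0 : ℕ) (T : Finset ℚ_[p])
        (μ : ℚ_[p] → ℕ), (∀ j, r0 (gc 0 j) = Polynomial.C (lam j) * P) ∧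
        Spec T0' P m a0 n0 a1 n1 γ μ0 T μ)
    (hH0 : ∀ (g : Fin 1 → A ℚ_[p]) (d0 d1 : Bool) (a0 n0 a1 n1 : ℕ), Cx g d0 d1 a0 n0 a1 n1 →
      Cr χ T0 a0 n0 → ∀ ρ, IsO (fun j => r0 (g j)) ρ → ¬ Cr χ T0 (a1 + ρ) n1)
    (hH1 : ∀ (g : Fin 1 → A ℚ_[p]) (d0 d1 : Bool) (a0 n0 a1 n1 : ℕ), Cx g d0 d1 a0 n0 a1 n1 →
      Cr χ T0 a1 n1 → ∀ ρ, IsO (fun j => r1 (g j)) ρ → ¬ Cr χ T0 (a0 + ρ) n0)
    {g : Fin 1 → A ℚ_[p]} {d0 d1 : Bool} (hT : KT g d0 d1) : ∀ a0 n0 a1 n1 : ℕ,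
    Cx g d0 d1 a0 n0 a1 n1 → CCx χ T0 g a0 n0 a1 n1 := by
  induction hT with
  | unit g d0 d1 j hj =>
    intro a0 n0 a1 n1 hc
    obtain ⟨hn0, hn1⟩ := hCx.pos _ _ _ _ _ _ _ hc
    have hj0 := hj
    rw [Subsingleton.elim j 0] at hj0
    exact CCx_unit χ hT0 g hj0 hn0 hn1 (hunit _ _ _ _ _ _ _ hc j hj)
  | curveV g d0 m hm h κ hg h0 h1 j hj =>
    intro a0 n0 a1 n1 hc
    obtain ⟨hn0, hn1⟩ := hCx.pos _ _ _ _ _ _ _ hc
    obtain ⟨rfl, rfl⟩ := hCx.ty1 _ _ _ _ _ _ hc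
    have hj0 := hj
    rw [Subsingleton.elim j 0] at hj0
    exact CCx_curveV χ hT0 g m h κ hg h0 h1 hj0 hn0 (hV g d0 a0 n0 m hm hc h κ hg h0 h1 j hj)
  | curveU g d1 m hm h κ hg h0 h1 j hj =>
    intro a0 n0 a1 n1 hc
    obtain ⟨hn0, hn1⟩ := hCx.pos _ _ _ _ _ _ _ hc
    obtain ⟨rfl, rfl⟩ := hCx.ty0 _ _ _ _ _ _ hc
    have hj0 := hj
    rw [Subsingleton.elim j 0] at hj0
    exact CCx_curveU χ hT0 g m h κ hg h0 h1 hj0 hn1 (hU g d1 a1 n1 m hm hc h κ hg h0 h1 j hj)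
  | blowup g d0 d1 m hm gc gI hgc hgI hne h0 hcc hI ih0 ihc ihI =>
    intro a0 n0 a1 n1 hc
    obtain ⟨hn0, hn1⟩ := hCx.pos _ _ _ _ _ _ _ hc
    obtain ⟨c0, cc, cI⟩ := hCx.child g d0 d1 a0 n0 a1 n1 m gc gI hm hgc hgI hne hc
    intro ρ0 ρ1 hρ0 hρ1
    have e1 : G1 (Hx χ g a0 n0 a1 n1) = Hx χ (gc 0) (a0 + a1 + m) (n0 + n1) a1 n1 := by
      funext s x
      exact Hx_c1 χ g (gc 0) m (hgc 0) a0 n0 a1 n1 hn0 hn1 s x
    have e2 : G2 (Hx χ g a0 n0 a1 n1) = Hx χ gI a0 n0 (a0 + a1 + m) (n0 + n1) := by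
      funext s x
      exact Hx_c2 χ g gI m hgI a0 n0 a1 n1 hn0 hn1 s x
    have hr0 : ∀ j, r0 (g j) = Polynomial.X ^ m * r0 (gI j) := fun j => r0_chI (hgI j)
    have hr1 : ∀ j, r1 (g j) = Polynomial.X ^ m * r1 (gc 0 j) := fun j => r1_ch (hgc 0 j)
    have hne0 : r0 (gc 0 0) ≠ 0 := by
      obtain ⟨j, hj⟩ := hne
      rwa [Subsingleton.elim j 0] at hj
    have hneI : r1 (gI 0) ≠ 0 := by
      intro h
      apply hne0
      have hdeg : (r0 (gc 0 0)).natDegree ≤ m := by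
        rw [r0_lead (hgc 0 0)]
        exact om_deg _ _
      ext i
      rw [Polynomial.coeff_zero]
      by_cases hi : i ≤ m
      · have h3 := r1_lead' (hgc 0 0) (hgI 0) (m - i) (Nat.sub_le _ _)
        rw [h, Polynomial.coeff_zero, Nat.sub_sub_self hi] at h3
        exact h3.symm
      · exact Polynomial.coeff_eq_zero_of_natDegree_lt (by omega)
    -- the correction terms of the children
    obtain ⟨ρ0', hρ0'⟩ : ∃ ρ0', Cr χ T0 a0 n0 → ρ0 = m + ρ0' ∧ IsO (fun j => r0 (gI j)) ρ0' := by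
      by_cases h : Cr χ T0 a0 n0
      · obtain ⟨ρ', h1, h2⟩ := (hρ0 h).shift hr0
        exact ⟨ρ', fun _ => ⟨h1, h2⟩⟩
      · exact ⟨0, fun h' => absurd h' h⟩
    obtain ⟨ρ1', hρ1'⟩ : ∃ ρ1', Cr χ T0 a1 n1 → ρ1 = m + ρ1' ∧
        IsO (fun j => r1 (gc 0 j)) ρ1' := by
      by_cases h : Cr χ T0 a1 n1
      · obtain ⟨ρ', h1, h2⟩ := (hρ1 h).shift hr1
        exact ⟨ρ', fun _ => ⟨h1, h2⟩⟩
      · exact ⟨0, fun h' => absurd h' h⟩
    have hz0 : ∀ {ρ : ℕ} {h : Fin 1 → Polynomial ℚ_[p]}, IsO h ρ → (h 0).coeff ρ ≠ 0 := by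
      intro ρ h hO
      obtain ⟨j, hj⟩ := hO.2
      rwa [Subsingleton.elim j 0] at hj
    -- the model
    set Φ : CI p := Fx χ m (r0 (gc 0 0)) a0 n0 a1 n1 with hΦ
    have okΦ : Okx Φ := okx_F χ _ _ _ _ _ _
    have hΦreg : ∀ C, CO C → Reg p T0 0 (crr (Cr χ T0 (a0 + a1 + m) (n0 + n1)) (Zx Φ) C) := by
      intro C hC
      by_cases h : Cr χ T0 (a0 + a1 + m) (n0 + n1)
      · rw [crr_true h]
        obtain ⟨lam, P, γ, μ0, T, μ, h2, h3⟩ := hE g d0 d1 a0 n0 a1 n1 m gc gI hm hgc hgI hne hc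
          (hCr _ _ h)
        have hlam : lam 0 ≠ 0 := by
          intro hl
          apply hne0
          rw [h2, hl, map_zero, zero_mul]
        have hS : Spec T0' (r0 (gc 0 0)) m a0 n0 a1 n1 (lam 0 * γ) μ0 T μ :=
          { hγ := mul_ne_zero hlam h3.hγ
            hP := by
              rw [h2, map_mul, mul_assoc]
              conv_lhs => rw [h3.hP]
            h0T := h3.h0T
            hdeg := h3.hdeg
            hI := h3.hI
            h0 := h3.h0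
            hc := h3.hc
            hcard := h3.hcard
            h1 := h3.h1
            h2 := h3.h2 }
        exact Fx_reg χ hT0 hCr hn0 hn1 hS hC
      · rw [crr_false h]
        exact Reg.zero
    have hΦ1 : ∀ (s : ℝ) (x : ℚ_[p] × ℚ_[p]), G1 Φ s x =
          om χ s ((r0 (gc 0 0)).eval x.2) *
            (wx χ s (a0 + a1 + m) (n0 + n1) x.1 * wx χ s a1 n1 x.2) := fun s x =>
      Fx_c1 χ g a0 n0 a1 n1 m hn0 hn1 (gc 0) (hgc 0) s x
    have hΦ2 : ∀ (s : ℝ) (x : ℚ_[p] × ℚ_[p]), G2 Φ s x =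
          om χ s ((r1 (gI 0)).eval x.1) *
            (wx χ s a0 n0 x.1 * wx χ s (a0 + a1 + m) (n0 + n1) x.2) := fun s x =>
      Fx_c2 χ g a0 n0 a1 n1 m hn0 hn1 (gc 0) gI (hgc 0) hgI s x
    clear_value Φ
    set M0 := Mx χ ((r0 (g 0)).coeff ρ0) a0 n0 (a1 + ρ0) n1 with hM0
    set M1 := Mx χ ((r1 (g 0)).coeff ρ1) (a0 + ρ1) n0 a1 n1 with hM1
    have okH : Okx (Hx χ g a0 n0 a1 n1) := okx_H χ g a0 n0 a1 n1
    have okM0 : Okx M0 := okx_M χ _ _ _ _ _
    have okM1 : Okx M1 := okx_M χ _ _ _ _ _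
    -- regularity of the pullback of `M0`
    have hM0reg : ∀ C, CO C → Reg p T0 0 (crr (Cr χ T0 a0 n0) (Zx (G1 M0)) C) := by
      intro C hC
      by_cases h : Cr χ T0 a0 n0
      · rw [crr_true h]
        have h3 := hH0 _ _ _ _ _ _ _ hc h ρ0 (hρ0 h)
        have e : G1 M0 = Mx χ ((r0 (g 0)).coeff ρ0) (a0 + (a1 + ρ0)) (n0 + n1)
            (a1 + ρ0) n1 := by
          funext s x
          exact Mx_c1 χ _ _ _ _ _ hn0 hn1 s x
        rw [e]
        exact Mx_reg χ hT0 _ (hz0 (hρ0 h)) (by omega) hn1 (by rwa [cr_add χ a0 n0 _ _ h]) h3 hC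
      · rw [crr_false h]
        exact Reg.zero
    have hM1reg : ∀ C, CO C → Reg p T0 0 (crr (Cr χ T0 a1 n1) (Zx (G2 M1)) C) := by
      intro C hC
      by_cases h : Cr χ T0 a1 n1
      · rw [crr_true h]
        have h3 := hH1 _ _ _ _ _ _ _ hc h ρ1 (hρ1 h)
        have e : G2 M1 = Mx χ ((r1 (g 0)).coeff ρ1) (a0 + ρ1) n0 (a0 + ρ1 + a1)
            (n0 + n1) := by
          funext s x
          exact Mx_c2 χ _ _ _ _ _ hn0 hn1 s x
        rw [e]
        refine Mx_reg χ hT0 _ (hz0 (hρ1 h)) hn0 (by omega) h3 ?_ hC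
        rwa [add_comm (a0 + ρ1) a1, add_comm n0 n1, cr_add χ a1 n1 _ _ h]
      · rw [crr_false h]
        exact Reg.zero
    -- the other pullbacks
    have eM1 : Cr χ T0 a1 n1 → G1 M1 = Mx χ ((r1 (gc 0 0)).coeff ρ1')
        (a0 + a1 + m + ρ1') (n0 + n1) a1 n1 := by
      intro h
      funext s x
      rw [hM1, Mx_c1 χ _ _ _ _ _ hn0 hn1, (hρ1' h).1]
      have h3 : (r1 (g 0)).coeff (m + ρ1') = (r1 (gc 0 0)).coeff ρ1' :=
        coeff_up _ _ _ _ (hr1 0)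
      rw [h3]
      congr 1
      ring
    have eM0 : Cr χ T0 a0 n0 → G2 M0 = Mx χ ((r0 (gI 0)).coeff ρ0') a0 n0
        (a0 + a1 + m + ρ0') (n0 + n1) := by
      intro h
      funext s x
      rw [hM0, Mx_c2 χ _ _ _ _ _ hn0 hn1, (hρ0' h).1]
      have h3 : (r0 (g 0)).coeff (m + ρ0') = (r0 (gI 0)).coeff ρ0' :=
        coeff_up _ _ _ _ (hr0 0)
      rw [h3]
      congr 1
      ring
    -- the first chart
    have hF1 : ∀ c : ℚ_[p], LReg T0 0 (fun C s => Zx (G1 (Hx χ g a0 n0 a1 n1)) C s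
        - crr (Cr χ T0 a0 n0) (Zx (G1 M0)) C s - crr (Cr χ T0 a1 n1) (Zx (G1 M1)) C s
        - crr (Cr χ T0 (a0 + a1 + m) (n0 + n1)) (Zx (G1 Φ)) C s) (0, c) := by
      intro c
      obtain ⟨ρE, V, hVo, h0V, hVO, hVE⟩ := pol_near χ (r0 (gc 0 0)) hne0 c
      have hcomp : ∀ j, r0 (gc c j) = (r0 (gc 0 j)).comp (Polynomial.X + Polynomial.C c) := by
        intro j
        rw [ch_shift (hgc 0 j) (hgc c j), r0_shift]
      have hVO' : IsO (fun j => r0 (gc c j)) ρE := by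
        have : (fun j => r0 (gc c j)) =
            fun _ : Fin 1 => (r0 (gc 0 0)).comp (Polynomial.X + Polynomial.C c) := by
          funext j
          rw [Subsingleton.elim j 0, hcomp]
        rw [this]
        exact hVO
      have hVE' : ∀ v ∈ V, ∀ s : ℝ, om χ s ((r0 (gc 0 0)).eval (c + v)) =
          om χ s ((r0 (gc c 0)).coeff ρE) * om χ s v ^ ρE := by
        intro v hv s
        rw [hVE v hv s, hcomp]
      by_cases hc0 : c = 0
      · subst hc0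
        have hIH := ih0 _ _ _ _ c0 ρE ρ1' (fun h => hVO') (fun h => (hρ1' h).2)
        refine (hIH.sub (LReg.of_all _ hM0reg)).congr (hVo.preimage continuous_snd) h0V
          fun C hC hCV s hs => ?_
        have e3 : crr (Cr χ T0 a1 n1) (Zx (G1 M1)) C s = crr (Cr χ T0 a1 n1)
            (Zx (Mx χ ((r1 (gc 0 0)).coeff ρ1') (a0 + a1 + m + ρ1') (n0 + n1) a1 n1))
              C s := by
          by_cases h : Cr χ T0 a1 n1
          · rw [crr_true h, crr_true h, eM1 h]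
          · rw [crr_false h, crr_false h]
        have e4 : crr (Cr χ T0 (a0 + a1 + m) (n0 + n1)) (Zx (G1 Φ)) C s =
            crr (Cr χ T0 (a0 + a1 + m) (n0 + n1)) (Zx (Mx χ ((r0 (gc 0 0)).coeff ρE)
              (a0 + a1 + m) (n0 + n1) (a1 + ρE) n1)) C s := by
          by_cases h : Cr χ T0 (a0 + a1 + m) (n0 + n1)
          · rw [crr_true h, crr_true h]
            refine Zx_congr hC fun x hx => ?_
            have h6 := hVE' x.2 (hCV hx) s
            rw [zero_add] at h6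
            rw [hΦ1 s x, h6]
            unfold Mx
            rw [wx_add χ s a1 ρE n1]
            ring
          · rw [crr_false h, crr_false h]
        rw [e1, e3, e4]
        ring
      · have hIH := ihc c hc0 _ _ _ _ (cc c hc0) ρE 0 (fun h => hVO')
          (fun h => absurd h (not_cr01 χ))
        rw [crr_false (not_cr01 χ)] at hIH
        obtain ⟨V', hV', h0V', hV2'⟩ := cst_add_near χ c hc0
        have h5 := lreg_chartx χ hT0 (M := 0) c hc0 a1 n1 (G1 (Hx χ g a0 n0 a1 n1))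
          (Hx χ (gc c) (a0 + a1 + m) (n0 + n1) 0 1) (G1 Φ)
          (Mx χ ((r0 (gc c 0)).coeff ρE) (a0 + a1 + m) (n0 + n1) (0 + ρE) 1)
          (Cr χ T0 (a0 + a1 + m) (n0 + n1))
          (hV'.inter (hVo.preimage continuous_snd)) ⟨h0V', h0V⟩ (by
            intro x hx s _
            rw [e1]
            exact Hx_shift χ (gc 0) (gc c) c (fun j => ch_shift (hgc 0 j) (hgc c j)) _ _ _ _ s x
              (hV2' x hx.1)) (by
            intro h x hx s hs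
            have h6 := hVE' x.2 hx.2 s
            rw [hΦ1 s _]
            simp only
            rw [h6, wx_cst χ (hV2' x hx.1) s a1 n1]
            unfold Mx
            rw [wx_add χ s 0 ρE 1, wx_zero_one]
            ring) (by
            refine hIH.congr isOpen_univ trivial fun C _ _ s _ => ?_
            rw [sub_zero])
        have h6 : LReg T0 0 (fun C s => crr (Cr χ T0 a1 n1) (Zx (G1 M1)) C s) (0, c) := by
          by_cases h : Cr χ T0 a1 n1
          · rw [crr_true h, eM1 h]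
            refine Mx_lreg χ hT0 _ (hz0 (hρ1' h).2) (by omega) ?_ c hc0
            have h7 := hH1 _ _ _ _ _ _ _ hc h ρ1 (hρ1 h)
            have h8 : a0 + a1 + m + ρ1' = a1 + (a0 + ρ1) := by
              rw [(hρ1' h).1]; ring
            rw [h8, add_comm n0 n1, cr_add χ a1 n1 _ _ h]
            exact h7
          · rw [crr_false h]
            exact LReg.zero
        refine ((h5.sub h6).sub (LReg.of_all _ hM0reg)).congr isOpen_univ trivial
          fun C _ _ s _ => ?_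
        ring
    have hF2 : LReg T0 0 (fun C s => Zx (G2 (Hx χ g a0 n0 a1 n1)) C s
        - crr (Cr χ T0 a0 n0) (Zx (G2 M0)) C s - crr (Cr χ T0 a1 n1) (Zx (G2 M1)) C s
        - crr (Cr χ T0 (a0 + a1 + m) (n0 + n1)) (Zx (G2 Φ)) C s) (0, 0) := by
      obtain ⟨ρI, V, hVo, h0V, hVO, hVE⟩ := pol_near χ (r1 (gI 0)) hneI 0
      have hcomp : (r1 (gI 0)).comp (Polynomial.X + Polynomial.C (0 : ℚ_[p])) = r1 (gI 0) := by
        rw [map_zero, add_zero, Polynomial.comp_X]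
      rw [hcomp] at hVO
      simp only [hcomp, zero_add] at hVE
      have hVO' : IsO (fun j => r1 (gI j)) ρI := by
        have : (fun j => r1 (gI j)) = fun _ : Fin 1 => r1 (gI 0) := by
          funext j
          rw [Subsingleton.elim j 0]
        rw [this]
        exact hVO
      have hIH := ihI _ _ _ _ cI ρ0' ρI (fun h => (hρ0' h).2) (fun _ => hVO')
      refine (hIH.sub (LReg.of_all _ hM1reg)).congr (hVo.preimage continuous_fst) h0V
        fun C hC hCV s hs => ?_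
      have e3 : crr (Cr χ T0 a0 n0) (Zx (G2 M0)) C s = crr (Cr χ T0 a0 n0)
          (Zx (Mx χ ((r0 (gI 0)).coeff ρ0') a0 n0 (a0 + a1 + m + ρ0') (n0 + n1))) C s := by
        by_cases h : Cr χ T0 a0 n0
        · rw [crr_true h, crr_true h, eM0 h]
        · rw [crr_false h, crr_false h]
      have e4 : crr (Cr χ T0 (a0 + a1 + m) (n0 + n1)) (Zx (G2 Φ)) C s =
          crr (Cr χ T0 (a0 + a1 + m) (n0 + n1)) (Zx (Mx χ ((r1 (gI 0)).coeff ρI)
            (a0 + ρI) n0 (a0 + a1 + m) (n0 + n1))) C s := by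
        by_cases h : Cr χ T0 (a0 + a1 + m) (n0 + n1)
        · rw [crr_true h, crr_true h]
          refine Zx_congr hC fun x hx => ?_
          rw [hΦ2 s x, hVE x.1 (hCV hx) s]
          unfold Mx
          rw [wx_add χ s a0 ρI n0]
          ring
        · rw [crr_false h, crr_false h]
      rw [e2, e3, e4]
      ring
    have hblow : ∀ (δ : Prop) (F : CI p), Okx F → ∀ L C, CO C →
        ∀ s : ℝ, 0 ≤ s → crr δ (Zx F) C s = crr δ (Zx (G1 F)) (S1 L C) s +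
          crr δ (Zx (G2 F)) (S2 L C) s := by
      intro δ F hF L C hC s hs
      by_cases h : δ
      · rw [crr_true h, crr_true h, crr_true h, Zx_blow L hF hC hs]
      · rw [crr_false h, crr_false h, crr_false h, add_zero]
    have hF := LReg.blow (F := fun C s => Zx (Hx χ g a0 n0 a1 n1) C s
        - crr (Cr χ T0 a0 n0) (Zx M0) C s - crr (Cr χ T0 a1 n1) (Zx M1) C s
        - crr (Cr χ T0 (a0 + a1 + m) (n0 + n1)) (Zx Φ) C s)
      ((((addF_Zx okH.G1).sub ((addF_Zx okM0.G1).crr _)).sub ((addF_Zx okM1.G1).crr _)).sub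
        ((addF_Zx okΦ.G1).crr _)) (by
        intro L C hC s hs
        beta_reduce
        rw [Zx_blow L okH hC hs, hblow _ M0 okM0 L C hC s hs, hblow _ M1 okM1 L C hC s hs,
          hblow _ Φ okΦ L C hC s hs]
        ring) hF1 hF2
    refine (hF.add (LReg.of_all (0, 0) hΦreg)).congr isOpen_univ trivial fun C _ _ s _ => ?_
    ring

end Pool.Agent.N138.SU
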