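import Pool.Agent.N138.SU.Ix

set_option autoImplicit false
set_option linter.unusedSectionVars false
set_option linter.unusedVariables false

/-! # The twisted integrands at the nodes of the tree, and the leaves -/

namespace Pool.Agent.N138.SU

open MeasureTheory Set Pool.Agent.W427.SMC Pool.Agent.Y230.PT
open scoped ENNReal
open Pool.Agent.Y230.RE

variable {p : ℕ} [Fact p.Prime]

attribute [local instance] msK bsK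

variable (χ : UC p) {T0 : ℂ} {M : ℕ}

/-- the integrand of a node -/
noncomputable def Hx (g : Fin 1 → A ℚ_[p]) (a0 n0 a1 n1 : ℕ) (s : ℝ) (x : ℚ_[p] × ℚ_[p]) : ℂ :=
  om χ s (ev x (g 0)) * (wx χ s a0 n0 x.1 * wx χ s a1 n1 x.2)

/-- the monomial integrand -/
noncomputable def Mx (β : ℚ_[p]) (a0 n0 a1 n1 : ℕ) (s : ℝ) (x : ℚ_[p] × ℚ_[p]) : ℂ :=
  om χ s β * (wx χ s a0 n0 x.1 * wx χ s a1 n1 x.2)

theorem okx_H (g : Fin 1 → A ℚ_[p]) (a0 n0 a1 n1 : ℕ) : Okx (Hx χ g a0 n0 a1 n1) :=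
  (okx_om χ _ (ev_cont (g 0))).mul
    ((okx_wx χ (fun x => x.1) continuous_fst a0 n0).mul
      (okx_wx χ (fun x => x.2) continuous_snd a1 n1))

theorem okx_M (β : ℚ_[p]) (a0 n0 a1 n1 : ℕ) : Okx (Mx χ β a0 n0 a1 n1) :=
  (okx_const (fun s => om χ s β)).mul
    ((okx_wx χ (fun x => x.1) continuous_fst a0 n0).mul
      (okx_wx χ (fun x => x.2) continuous_snd a1 n1))

theorem Hx_c1 (g g0 : Fin 1 → A ℚ_[p]) (m : ℕ)
    (hg : ∀ j, MvPolynomial.aeval (ch 0) (g j) = MvPolynomial.X 0 ^ m * g0 j)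
    (a0 n0 a1 n1 : ℕ) (hn0 : 1 ≤ n0) (hn1 : 1 ≤ n1) (s : ℝ) (x : ℚ_[p] × ℚ_[p]) :
    G1 (Hx χ g a0 n0 a1 n1) s x = Hx χ g0 (a0 + a1 + m) (n0 + n1) a1 n1 s x := by
  unfold G1 Hx
  have h1 : ev (c1 x) (g 0) = x.1 ^ m * ev x (g0 0) := ev_c1 x (g 0) (g0 0) m (hg 0)
  rw [h1, om_mul, wx_add, wx_add' χ s a0 a1 n0 n1 hn0 hn1, om_pow]
  change nx x.1 * (_ * (wx χ s a0 n0 x.1 * wx χ s a1 n1 (x.1 * x.2))) = _
  rw [wx_mul]
  ring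

theorem Hx_c2 (g gI : Fin 1 → A ℚ_[p]) (m : ℕ)
    (hg : ∀ j, MvPolynomial.aeval chI (g j) = MvPolynomial.X 1 ^ m * gI j)
    (a0 n0 a1 n1 : ℕ) (hn0 : 1 ≤ n0) (hn1 : 1 ≤ n1) (s : ℝ) (x : ℚ_[p] × ℚ_[p]) :
    G2 (Hx χ g a0 n0 a1 n1) s x = Hx χ gI a0 n0 (a0 + a1 + m) (n0 + n1) s x := by
  unfold G2 Hx
  have h1 : ev (c2 x) (g 0) = x.2 ^ m * ev x (gI 0) := ev_c2 x (g 0) (gI 0) m (hg 0)
  rw [h1, om_mul, wx_add, wx_add' χ s a0 a1 n0 n1 hn0 hn1, om_pow]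
  change nx x.2 * (_ * (wx χ s a0 n0 (x.1 * x.2) * wx χ s a1 n1 x.2)) = _
  rw [wx_mul]
  ring

theorem Mx_c1 (β : ℚ_[p]) (a0 n0 a1 n1 : ℕ) (hn0 : 1 ≤ n0) (hn1 : 1 ≤ n1) (s : ℝ)
    (x : ℚ_[p] × ℚ_[p]) :
    G1 (Mx χ β a0 n0 a1 n1) s x = Mx χ β (a0 + a1) (n0 + n1) a1 n1 s x := by
  unfold G1 Mx
  rw [wx_add' χ s a0 a1 n0 n1 hn0 hn1]
  change nx x.1 * (_ * (wx χ s a0 n0 x.1 * wx χ s a1 n1 (x.1 * x.2))) = _
  rw [wx_mul]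
  ring

theorem Mx_c2 (β : ℚ_[p]) (a0 n0 a1 n1 : ℕ) (hn0 : 1 ≤ n0) (hn1 : 1 ≤ n1) (s : ℝ)
    (x : ℚ_[p] × ℚ_[p]) :
    G2 (Mx χ β a0 n0 a1 n1) s x = Mx χ β a0 n0 (a0 + a1) (n0 + n1) s x := by
  unfold G2 Mx
  rw [wx_add' χ s a0 a1 n0 n1 hn0 hn1]
  change nx x.2 * (_ * (wx χ s a0 n0 (x.1 * x.2) * wx χ s a1 n1 x.2)) = _
  rw [wx_mul]
  ring

/-- translation to a point of the exceptional curve -/
theorem Hx_shift (g0 gc : Fin 1 → A ℚ_[p]) (c : ℚ_[p])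
    (hg : ∀ j, gc j = MvPolynomial.aeval ![MvPolynomial.X 0, MvPolynomial.X 1 +
      MvPolynomial.C c] (g0 j)) (a n a1 n1 : ℕ) (s : ℝ) (x : ℚ_[p] × ℚ_[p])
    (hx : ‖c + x.2‖ = ‖c‖ ∧ χ.X (c + x.2) = χ.X c) :
    Hx χ g0 a n a1 n1 s (x.1, c + x.2) = wx χ s a1 n1 c * Hx χ gc a n 0 1 s x := by
  unfold Hx
  have h1 : ev (x.1, c + x.2) (g0 0) = ev x (gc 0) := by
    rw [hg, ev_shift]
  rw [h1, wx_zero_one]
  simp only
  rw [wx_cst χ hx s a1 n1]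
  ring

/-- regularity from the boxes -/
theorem reg_boxes {F : SF p} (hF : AddF F) (κ : ℕ) {C : Set (ℚ_[p] × ℚ_[p])} (hC : CO C)
    (h : ∀ y k, Reg p T0 M (F (bx κ y k))) : Reg p T0 M (F C) :=
  LReg.glue hF hC fun x _ => LReg.of_boxes hF κ isOpen_univ trivial fun y k _ => h y k

theorem Mx_box (β : ℚ_[p]) (a0 n0 a1 n1 : ℕ) (κ : ℕ) (y : ℚ_[p] × ℚ_[p])
    (l : ℕ) (s : ℝ) : Zx (Mx χ β a0 n0 a1 n1) (bx κ y l) s =
      om χ s β * (Ix χ s a0 n0 y.1 (l + κ) * Ix χ s a1 n1 y.2 l) := by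
  unfold Zx Mx
  rw [integral_const_mul, bx_prod]
  rfl

theorem Mx_reg (hT0 : T0 ≠ 0) (β : ℚ_[p]) (hβ : β ≠ 0)
    {a0 n0 a1 n1 : ℕ} (hn0 : 1 ≤ n0) (hn1 : 1 ≤ n1) (h0 : ¬ Cr χ T0 a0 n0)
    (h1 : ¬ Cr χ T0 a1 n1) {C : Set (ℚ_[p] × ℚ_[p])} (hC : CO C) :
    Reg p T0 0 (Zx (Mx χ β a0 n0 a1 n1) C) := by
  refine reg_boxes (addF_Zx (okx_M χ β a0 n0 a1 n1)) 0 hC fun y k => ?_
  refine ((reg_om χ hT0 β hβ).mul0 ((Ix_reg χ hT0 a0 n0 hn0 h0 y.1 (k + 0)).mul0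
    (Ix_reg χ hT0 a1 n1 hn1 h1 y.2 k))).congr fun s _ => ?_
  rw [Mx_box]

/-- near a point of `u = 0` other than the origin -/
theorem Mx_lreg (hT0 : T0 ≠ 0) (β : ℚ_[p]) (hβ : β ≠ 0) {a0 n0 a1 n1 : ℕ}
    (hn0 : 1 ≤ n0) (h0 : ¬ Cr χ T0 a0 n0) (c : ℚ_[p]) (hc : c ≠ 0) :
    LReg T0 0 (Zx (Mx χ β a0 n0 a1 n1)) (0, c) := by
  obtain ⟨U, hU, hcU, hU2⟩ := cst_near χ (fun x : ℚ_[p] × ℚ_[p] => x.2) continuous_snd (0, c) hc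
  refine (LReg.mul (c := fun s => wx χ s a1 n1 c) (LReg.of_all (0, c) (fun C hC =>
    Mx_reg χ hT0 β hβ (a1 := 0) (n1 := 1) hn0 le_rfl h0 (not_cr01 χ) hC))
    (reg_wx χ hT0 a1 n1 c hc)).congr hU hcU ?_
  intro C hC hCU s hs
  rw [Zx_mul (Mx χ β a0 n0 a1 n1) (wx χ s a1 n1 c) C s (Mx χ β a0 n0 0 1) hC]
  intro x hx
  unfold Mx
  rw [wx_zero_one, wx_cst χ (hU2 x (hCU hx)) s a1 n1]
  ring

theorem Hx_unit (g : Fin 1 → A ℚ_[p]) (hj : MvPolynomial.constantCoeff (g 0) ≠ 0)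
    (a0 n0 a1 n1 : ℕ) : ∃ U, IsOpen U ∧ ((0, 0) : ℚ_[p] × ℚ_[p]) ∈ U ∧ ∀ C, CO C → C ⊆ U →
      ∀ s : ℝ, Zx (Hx χ g a0 n0 a1 n1) C s =
        Zx (Mx χ (MvPolynomial.constantCoeff (g 0)) a0 n0 a1 n1) C s := by
  obtain ⟨U, hU, h0U, hU2⟩ := cst_near χ (fun x => ev x (g 0)) (ev_cont (g 0)) (0, 0)
    (by rw [ev_zero]; exact hj)
  refine ⟨U, hU, h0U, fun C hC hCU s => Zx_congr hC fun x hx => ?_⟩
  unfold Hx Mx
  rw [om_cst χ (hU2 x (hCU hx)) s]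
  simp only [ev_zero]

theorem Hx_curve (g : Fin 1 → A ℚ_[p]) (m : ℕ) (h : A ℚ_[p]) (k : Fin 1 → A ℚ_[p])
    (hg : ∀ j, g j = h ^ m * k j) (h0 : MvPolynomial.constantCoeff h = 0)
    (h1 : MvPolynomial.constantCoeff (MvPolynomial.pderiv 1 h) ≠ 0)
    (hj : MvPolynomial.constantCoeff (k 0) ≠ 0) (a0 n0 : ℕ) :
    ∃ (κ : ℕ) (U : Set (ℚ_[p] × ℚ_[p])) (B : ℚ_[p] × ℚ_[p] → ℚ_[p]), IsOpen U ∧ (0, 0) ∈ U ∧
      IsO (fun j => r0 (g j)) m ∧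
      ∀ y l, bx κ y l ⊆ U → (∀ s : ℝ, 0 ≤ s → Zx (Hx χ g a0 n0 0 1) (bx κ y l) s =
        om χ s ((r0 (g 0)).coeff m) *
          (Ix χ s a0 n0 y.1 (l + κ) * Ix χ s m 1 (B y) l)) ∧
        (‖y.1‖ ≤ qr p ^ (l + κ) → ∀ s : ℝ, Ix χ s m 1 (B y) l = Ix χ s m 1 y.2 l) := by
  set δ := MvPolynomial.constantCoeff (MvPolynomial.pderiv 1 h) with hδ
  set h' : A ℚ_[p] := MvPolynomial.C δ⁻¹ * h with hh'
  set k' : Fin 1 → A ℚ_[p] := fun j => MvPolynomial.C (δ ^ m) * k j with hk'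
  have hg' : ∀ j, g j = h' ^ m * k' j := by
    intro j
    rw [hg, hh', hk', mul_pow, ← map_pow]
    simp only
    have : (MvPolynomial.C (δ⁻¹ ^ m) : A ℚ_[p]) * MvPolynomial.C (δ ^ m) = 1 := by
      rw [← map_mul, inv_pow, inv_mul_cancel₀ (pow_ne_zero _ h1), map_one]
    linear_combination (-(h ^ m * k j)) * this
  have h0' : MvPolynomial.constantCoeff h' = 0 := by rw [hh', map_mul, h0, mul_zero]
  have h1' : MvPolynomial.constantCoeff (MvPolynomial.pderiv 1 h') = 1 := by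
    rw [hh', MvPolynomial.pderiv_C_mul, map_mul, MvPolynomial.constantCoeff_C, ← hδ,
      inv_mul_cancel₀ h1]
  have hj' : MvPolynomial.constantCoeff (k' 0) ≠ 0 := by
    rw [hk', map_mul, MvPolynomial.constantCoeff_C]
    exact mul_ne_zero (pow_ne_zero _ h1) hj
  obtain ⟨q, hq⟩ : Polynomial.X ∣ r0 h' := by
    rw [Polynomial.X_dvd_iff, r0_coeff, ← cc_eq, h0']
  have hq0 : q.coeff 0 = 1 := by
    have h2 := r0_pderiv h'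
    rw [h1', hq] at h2
    have h3 := Polynomial.coeff_X_mul q 0
    rw [zero_add] at h3
    rw [← h3, h2]
  have hres : ∀ i, r0 (g i) = (Polynomial.X * q) ^ m * r0 (k' i) := by
    intro i
    rw [hg', map_mul, map_pow, hq]
  have hcm : ∀ i, (r0 (g i)).coeff m = ev (0, 0) (k' i) := by
    intro i
    rw [hres, (pow_coeff q _ m).2, hq0, one_pow, one_mul, ev_zero, r0_coeff, cc_eq]
  have hIsO : IsO (fun j => r0 (g j)) m := by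
    refine ⟨fun i d hd => ?_, 0, ?_⟩
    · simp only
      rw [hres]
      exact (pow_coeff q _ m).1 d hd
    · simp only
      rw [hcm, ev_zero]
      exact hj'
  obtain ⟨U1, hU1, h0U1, hU12⟩ := cst_near χ (fun x => ev x (k' 0))
    (ev_cont (k' 0)) (0, 0) (by rw [ev_zero]; exact hj')
  obtain ⟨U2, hU2, h0U2, hU22⟩ := cst_near χ (fun x : ℚ_[p] × ℚ_[p] => q.eval x.2)
    (q.continuous.comp continuous_snd) (0, 0) (by
      change q.eval 0 ≠ 0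
      rw [← Polynomial.coeff_zero_eq_eval_zero, hq0]; exact one_ne_zero)
  obtain ⟨ε', hε', hεs⟩ := Metric.isOpen_iff.1 hU2 _ h0U2
  obtain ⟨ε, κ, hε, hv, hu⟩ := curve_local h' h1'
  have hq1 : ∀ v : ℚ_[p], ‖v‖ < ε' → χ.X (q.eval v) = 1 ∧ ‖q.eval v‖ = 1 := by
    intro v hv
    have hmem : ((0, v) : ℚ_[p] × ℚ_[p]) ∈ U2 := hεs (by
      rw [Metric.mem_ball, Prod.dist_eq]
      exact max_lt (by simpa using hε') (by simpa using hv))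
    have h2 := hU22 _ hmem
    have e : q.eval (0 : ℚ_[p]) = 1 := by rw [← Polynomial.coeff_zero_eq_eval_zero, hq0]
    change ‖q.eval v‖ = ‖q.eval 0‖ ∧ χ.X (q.eval v) = χ.X (q.eval 0) at h2
    rw [e, norm_one, map_one] at h2
    exact ⟨h2.2, h2.1⟩
  refine ⟨κ, (U1 ∩ (Metric.ball 0 ε ×ˢ Metric.ball 0 ε)) ∩
      (Metric.ball 0 ε' ×ˢ Metric.ball 0 ε'), fun y => ev y h',
    (hU1.inter (Metric.isOpen_ball.prod Metric.isOpen_ball)).inter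
      (Metric.isOpen_ball.prod Metric.isOpen_ball),
    ⟨⟨h0U1, ⟨Metric.mem_ball_self hε, Metric.mem_ball_self hε⟩⟩,
      ⟨Metric.mem_ball_self hε', Metric.mem_ball_self hε'⟩⟩, hIsO, fun y l hy => ⟨?_, ?_⟩⟩
  · intro s hs
    have h2 : ∀ x ∈ bx κ y l, Hx χ g a0 n0 0 1 s x = om χ s ((r0 (g 0)).coeff m) *
        (wx χ s a0 n0 x.1 * wx χ s m 1 (ev x h')) := by
      intro x hx
      unfold Hx
      have h3 : ev x (g 0) = ev x h' ^ m * ev x (k' 0) := by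
        rw [hg', map_mul, map_pow]
      rw [h3, om_mul, om_cst χ (hU12 x (hy hx).1.1) s, wx_zero_one, hcm 0, wx1]
      ring
    unfold Zx
    rw [setIntegral_congr_fun (CO_bx κ y l).meas h2, integral_const_mul,
      curve_boxx χ h' hs a0 n0 m ε κ hv hu y l
        ((hy.trans Set.inter_subset_left).trans Set.inter_subset_right)]
  · intro hy1 s
    have hmem : ∀ x ∈ bx κ y l, ‖x.1‖ < ε ∧ ‖x.2‖ < ε := by
      intro x hx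
      have := (hy hx).1.2
      rw [Set.mem_prod, Metric.mem_ball, Metric.mem_ball, dist_zero_right, dist_zero_right] at this
      exact this
    have hmem' : ∀ x ∈ bx κ y l, ‖x.2‖ < ε' := by
      intro x hx
      have := (hy hx).2
      rw [Set.mem_prod, Metric.mem_ball, Metric.mem_ball, dist_zero_right, dist_zero_right] at this
      exact this.2
    have hyB := hmem y (self_mem_bx κ y l)
    have h0B : ‖(0 : ℚ_[p])‖ < ε := by rw [norm_zero]; exact hε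
    have h2 := hu y.1 0 y.2 hyB.1 h0B hyB.2
    rw [sub_zero] at h2
    have h3 : ‖ev y h' - ev (0, y.2) h'‖ ≤ qr p ^ l := by
      rw [pow_add] at hy1
      exact le_of_mul_le_mul_right (h2.trans hy1) (pow_pos qr_pos κ)
    rw [Ix_ball χ s m 1 l (b := ev (0, y.2) h') (b' := ev y h') (by rw [mem_bl]; exact h3)]
    have hvm : ∀ v ∈ bl y.2 l, ‖v‖ < ε ∧ ‖v‖ < ε' := by
      intro v hv'
      have hx : (y.1, v) ∈ bx κ y l := ⟨self_mem_bl _ _, hv'⟩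
      exact ⟨(hmem _ hx).2, hmem' _ hx⟩
    have h4 := isom_int y.2 l (fun v => ev (0, v) h')
      ((ev_cont h').comp (by fun_prop : Continuous fun v : ℚ_[p] => ((0 : ℚ_[p]), v))).measurable
      (fun v hv1 v' hv2 => hv 0 v v' h0B (hvm v hv1).1 (hvm v' hv2).1)
      (wx χ s m 1) (wx_meas χ s m 1)
    unfold Ix
    rw [← h4]
    refine setIntegral_congr_fun (bl_meas _ _) fun v hv' => ?_
    change wx χ s m 1 (ev (0, v) h') = wx χ s m 1 v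
    have h5 : ev (0, v) h' = v * q.eval v := by
      rw [ev_r0, hq, Polynomial.eval_mul, Polynomial.eval_X]
    have h6 := hq1 v (hvm v hv').2
    rw [h5]
    refine wx_cst χ ⟨?_, ?_⟩ s m 1
    · rw [norm_mul, h6.2, mul_one]
    · rw [map_mul, h6.1, mul_one]

theorem Hx_sw (g : Fin 1 → A ℚ_[p]) (a0 n0 a1 n1 : ℕ) (s : ℝ) (x : ℚ_[p] × ℚ_[p]) :
    Hx χ (fun j => sw (g j)) a1 n1 a0 n0 s x = Hx χ g a0 n0 a1 n1 s x.swap := by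
  unfold Hx
  simp only [ev_sw]
  rw [mul_comm (wx χ s a1 n1 x.1)]
  rfl

theorem Mx_sw (β : ℚ_[p]) (a0 n0 a1 n1 : ℕ) (s : ℝ) (x : ℚ_[p] × ℚ_[p]) :
    Mx χ β a1 n1 a0 n0 s x = Mx χ β a0 n0 a1 n1 s x.swap := by
  unfold Mx
  rw [mul_comm (wx χ s a1 n1 x.1)]
  rfl

theorem Zx_Hx_sw (g : Fin 1 → A ℚ_[p]) (a0 n0 a1 n1 : ℕ) {C : Set (ℚ_[p] × ℚ_[p])} (hC : CO C)
    (s : ℝ) : Zx (Hx χ g a0 n0 a1 n1) C s =
      Zx (Hx χ (fun j => sw (g j)) a1 n1 a0 n0) (Prod.swap ⁻¹' C) s := by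
  rw [Zx_swap _ _ hC]
  unfold Zx
  simp only [Hx_sw]

theorem Zx_Mx_sw (β : ℚ_[p]) (a0 n0 a1 n1 : ℕ) {C : Set (ℚ_[p] × ℚ_[p])} (hC : CO C) (s : ℝ) :
    Zx (Mx χ β a0 n0 a1 n1) C s = Zx (Mx χ β a1 n1 a0 n0) (Prod.swap ⁻¹' C) s := by
  rw [Zx_swap _ _ hC]
  unfold Zx
  have : ∀ x, Mx χ β a1 n1 a0 n0 s x = Mx χ β a0 n0 a1 n1 s x.swap := Mx_sw χ β a0 n0 a1 n1 s
  simp only [this]

/-- regularity with the corrections -/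
def CCx (T0 : ℂ) (g : Fin 1 → A ℚ_[p]) (a0 n0 a1 n1 : ℕ) : Prop :=
  ∀ ρ0 ρ1 : ℕ, (Cr χ T0 a0 n0 → IsO (fun j => r0 (g j)) ρ0) →
    (Cr χ T0 a1 n1 → IsO (fun j => r1 (g j)) ρ1) →
    LReg T0 0 (fun C s => Zx (Hx χ g a0 n0 a1 n1) C s
      - crr (Cr χ T0 a0 n0) (Zx (Mx χ ((r0 (g 0)).coeff ρ0) a0 n0 (a1 + ρ0) n1)) C s
      - crr (Cr χ T0 a1 n1) (Zx (Mx χ ((r1 (g 0)).coeff ρ1) (a0 + ρ1) n0 a1 n1)) C s)
      (0, 0)

theorem CCx.swap {g : Fin 1 → A ℚ_[p]} {a0 n0 a1 n1 : ℕ}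
    (h : CCx χ T0 (fun j => sw (g j)) a1 n1 a0 n0) : CCx χ T0 g a0 n0 a1 n1 := by
  intro ρ0 ρ1 h0 h1
  have h2 := h ρ1 ρ0 (by simpa only [r0_sw] using h1) (by simpa only [r1_sw] using h0)
  refine lreg_swap (x := (0, 0)) ?_ h2
  intro C hC s hs
  simp only [r0_sw, r1_sw]
  rw [Zx_Hx_sw χ _ _ _ _ _ hC]
  have e0 : crr (Cr χ T0 a0 n0)
        (Zx (Mx χ ((r0 (g 0)).coeff ρ0) a0 n0 (a1 + ρ0) n1)) C s =
      crr (Cr χ T0 a0 n0) (Zx (Mx χ ((r0 (g 0)).coeff ρ0) (a1 + ρ0) n1 a0 n0))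
        (Prod.swap ⁻¹' C) s := by
    by_cases hc : Cr χ T0 a0 n0
    · rw [crr_true hc, crr_true hc, Zx_Mx_sw χ _ _ _ _ _ hC]
    · rw [crr_false hc, crr_false hc]
  have e1 : crr (Cr χ T0 a1 n1)
        (Zx (Mx χ ((r1 (g 0)).coeff ρ1) (a0 + ρ1) n0 a1 n1)) C s =
      crr (Cr χ T0 a1 n1) (Zx (Mx χ ((r1 (g 0)).coeff ρ1) a1 n1 (a0 + ρ1) n0))
        (Prod.swap ⁻¹' C) s := by
    by_cases hc : Cr χ T0 a1 n1
    · rw [crr_true hc, crr_true hc, Zx_Mx_sw χ _ _ _ _ _ hC]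
    · rw [crr_false hc, crr_false hc]
  rw [e0, e1]
  ring

theorem CCx_unit (hT0 : T0 ≠ 0) (g : Fin 1 → A ℚ_[p])
    (hj : MvPolynomial.constantCoeff (g 0) ≠ 0) {a0 n0 a1 n1 : ℕ} (hn0 : 1 ≤ n0) (hn1 : 1 ≤ n1)
    (hcr : ¬ (Cr χ T0 a0 n0 ∧ Cr χ T0 a1 n1)) : CCx χ T0 g a0 n0 a1 n1 := by
  intro ρ0 ρ1 h0 h1
  obtain ⟨U, hU, h0U, hU2⟩ := Hx_unit χ g hj a0 n0 a1 n1
  have hr0 : IsO (fun j => r0 (g j)) 0 := ⟨fun i k hk => absurd hk (Nat.not_lt_zero k), 0, by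
    simp only; rw [r0_coeff, ← cc_eq]; exact hj⟩
  have hr1 : IsO (fun j => r1 (g j)) 0 := ⟨fun i k hk => absurd hk (Nat.not_lt_zero k), 0, by
    simp only; rw [r1_coeff, ← cc_eq]; exact hj⟩
  by_cases hc0 : Cr χ T0 a0 n0
  · have hc1 : ¬ Cr χ T0 a1 n1 := fun h => hcr ⟨hc0, h⟩
    have hρ : ρ0 = 0 := (h0 hc0).unique hr0
    subst hρ
    refine LReg.zero.congr hU h0U fun C hC hCU s hs => ?_
    rw [crr_true hc0, crr_false hc1, hU2 C hC hCU s, add_zero, sub_zero]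
    simp only [r0_coeff, ← cc_eq, sub_self]
  · by_cases hc1 : Cr χ T0 a1 n1
    · have hρ : ρ1 = 0 := (h1 hc1).unique hr1
      subst hρ
      refine LReg.zero.congr hU h0U fun C hC hCU s hs => ?_
      rw [crr_true hc1, crr_false hc0, hU2 C hC hCU s, add_zero, sub_zero]
      simp only [r1_coeff, ← cc_eq, sub_self]
    · refine (LReg.of_all (0, 0) (fun C hC => Mx_reg χ hT0
        (MvPolynomial.constantCoeff (g 0)) hj hn0 hn1 hc0 hc1 hC)).congr hU h0U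
        fun C hC hCU s hs => ?_
      rw [crr_false hc0, crr_false hc1, hU2 C hC hCU s, sub_zero, sub_zero]

theorem CCx_curveV (hT0 : T0 ≠ 0) (g : Fin 1 → A ℚ_[p]) (m : ℕ) (h : A ℚ_[p])
    (k : Fin 1 → A ℚ_[p]) (hg : ∀ j, g j = h ^ m * k j) (h0 : MvPolynomial.constantCoeff h = 0)
    (h1 : MvPolynomial.constantCoeff (MvPolynomial.pderiv 1 h) ≠ 0)
    (hj : MvPolynomial.constantCoeff (k 0) ≠ 0) {a0 n0 : ℕ} (hn0 : 1 ≤ n0)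
    (hcr : ¬ Cr χ T0 m 1) : CCx χ T0 g a0 n0 0 1 := by
  intro ρ0 ρ1 hρ0 hρ1
  obtain ⟨κ, U, B, hU, h0U, hO, hbox⟩ := Hx_curve χ g m h k hg h0 h1 hj a0 n0
  have hne : (r0 (g 0)).coeff m ≠ 0 := by
    obtain ⟨j, hj⟩ := hO.2
    rwa [Subsingleton.elim j 0] at hj
  have hreg : Reg p T0 0 (fun s => om χ s ((r0 (g 0)).coeff m)) := reg_om χ hT0 _ hne
  refine LReg.of_boxes ?_ κ hU h0U fun y l hy => ?_
  · exact ((addF_Zx (okx_H χ _ _ _ _ _)).sub ((addF_Zx (okx_M χ _ _ _ _ _)).crr _)).sub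
      ((addF_Zx (okx_M χ _ _ _ _ _)).crr _)
  rw [crr_false (not_cr01 χ)]
  by_cases hc0 : Cr χ T0 a0 n0
  · have hρ : ρ0 = m := (hρ0 hc0).unique hO
    subst hρ
    rw [crr_true hc0]
    have hM : ∀ s : ℝ,
        Zx (Mx χ ((r0 (g 0)).coeff ρ0) a0 n0 (0 + ρ0) 1) (bx κ y l) s =
        om χ s ((r0 (g 0)).coeff ρ0) *
          (Ix χ s a0 n0 y.1 (l + κ) * Ix χ s ρ0 1 y.2 l) := by
      intro s
      rw [Mx_box χ, zero_add]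
    by_cases hy1 : ‖y.1‖ ≤ qr p ^ (l + κ)
    · refine Reg.zero.congr fun s hs => ?_
      rw [(hbox y l hy).1 s hs, hM s, (hbox y l hy).2 hy1 s, sub_self, sub_zero]
    · have hfar := Ix_far χ (T0 := T0) hT0 a0 n0 y.1 (l + κ) (not_le.1 hy1)
      refine ((hreg.mul0 (hfar.mul0 (Ix_reg χ hT0 ρ0 1 le_rfl hcr (B y) l))).sub
        (hreg.mul0 (hfar.mul0 (Ix_reg χ hT0 ρ0 1 le_rfl hcr y.2 l)))).congr fun s hs => ?_
      rw [(hbox y l hy).1 s hs, hM s, sub_zero]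
  · rw [crr_false hc0]
    refine (hreg.mul0 ((Ix_reg χ hT0 a0 n0 hn0 hc0 y.1 (l + κ)).mul0
      (Ix_reg χ hT0 m 1 le_rfl hcr (B y) l))).congr fun s hs => ?_
    rw [(hbox y l hy).1 s hs, sub_zero, sub_zero]

theorem CCx_curveU (hT0 : T0 ≠ 0) (g : Fin 1 → A ℚ_[p]) (m : ℕ) (h : A ℚ_[p])
    (k : Fin 1 → A ℚ_[p]) (hg : ∀ j, g j = h ^ m * k j) (h0 : MvPolynomial.constantCoeff h = 0)
    (h1 : MvPolynomial.constantCoeff (MvPolynomial.pderiv 0 h) ≠ 0)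
    (hj : MvPolynomial.constantCoeff (k 0) ≠ 0) {a1 n1 : ℕ} (hn1 : 1 ≤ n1)
    (hcr : ¬ Cr χ T0 m 1) : CCx χ T0 g 0 1 a1 n1 := by
  refine CCx.swap χ (CCx_curveV χ hT0 (fun j => sw (g j)) m (sw h) (fun j => sw (k j)) ?_ ?_ ?_ ?_
    hn1 hcr)
  · intro i
    simp only [hg, map_mul, map_pow]
  · rw [cc_sw, h0]
  · rw [pderiv_sw, cc_sw]; exact h1
  · rw [cc_sw]; exact hj

end Pool.Agent.N138.SU
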