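import Pool.Agent.N138.SU.Defs
import Pool.Agent.H628R4.TP.Defs

set_option autoImplicit false

/-! # Statements for the suspensions `f(x) + c y ^ N` -/

namespace Pool.Agent.N138.SU

open MeasureTheory
open Pool.Agent.W427.SMC
open Pool.Agent.Y230.PS (EP)

attribute [local instance] msZ bsZ

/-- Job B1: the exponential sums from the integrals of the characters. -/
def StB1 : Prop := ∀ (p : ℕ) [Fact p.Prime] {Y : Type} [MeasurableSpace Y] (ν : Measure Y)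
  [IsProbabilityMeasure ν] (φ : Y → ℤ_[p]), Measurable φ → ∀ m : ℂ → ℕ∞,
  (fun e : ℕ => (p : ℂ) * Uo ν φ (e + 1) - Uo ν φ e) ∈ EP m →
  (∀ χ : UC p, ¬ χ.IsTr → (fun k : ℕ => Vx ν φ χ k) ∈ EP m) →
  ∀ χ : UC p, (fun e : ℕ => Eh ν φ χ e) ∈ EP m

/-- Job B1': the trivial character. -/
def StB1t : Prop := ∀ (p : ℕ) [Fact p.Prime] {Y : Type} [MeasurableSpace Y] (ν : Measure Y)
  [IsProbabilityMeasure ν] (φ : Y → ℤ_[p]), Measurable φ → ∀ χ : UC p, χ.IsTr → ∀ e : ℕ,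
  (p : ℂ) * Eh ν φ χ (e + 1) = (p : ℂ) * Uo ν φ (e + 1) - Uo ν φ e

/-- Job B2a: the expansion of a locally constant function on the units in characters; `S` is the set
of all characters modulo `p ^ C`. -/
def StB2a : Prop := ∀ (p : ℕ) [Fact p.Prime] (C : ℕ), 1 ≤ C → ∃ S : Finset (UC p),
  ∀ h : ℤ_[p] → ℂ,
  (∀ u v : ℤ_[p], ‖u‖ = 1 → ‖v - 1‖ ≤ ((p : ℝ)⁻¹) ^ C → h (u * v) = h u) →
  ∀ u : ℤ_[p], ‖u‖ = 1 → ((p : ℂ) - 1) * h u = (p : ℂ) * ∑ χ ∈ S, χ.X (u : ℚ_[p]) *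
    ∫ v in un p, (starRingEnd ℂ) (χ.X (v : ℚ_[p])) * h v ∂(mu p)

/-- Job B2b: the exponential sums of `a t ^ N` as functions of the unit `u`. -/
def StB2b : Prop := ∀ (p : ℕ) [Fact p.Prime] (a : ℤ_[p]), a ≠ 0 → ∀ N : ℕ, 1 ≤ N →
  ∃ C : ℕ, 1 ≤ C ∧ ∀ (e : ℕ) (u v : ℤ_[p]), ‖v - 1‖ ≤ ((p : ℝ)⁻¹) ^ C →
    Es (mu p) (fun t => a * t ^ N) e (u * v) = Es (mu p) (fun t => a * t ^ N) e u

/-- Job B2c: the recursion of the exponential sums of `a t ^ N`. -/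
def StB2c : Prop := ∀ (p : ℕ) [Fact p.Prime] (a : ℤ_[p]), a ≠ 0 → ∀ N : ℕ, 1 ≤ N →
  ∃ e0 : ℕ, ∀ (e : ℕ) (u : ℤ_[p]), e0 ≤ e → ‖u‖ = 1 →
    (p : ℂ) * Es (mu p) (fun t => a * t ^ N) (e + N) u = Es (mu p) (fun t => a * t ^ N) e u

/-- Job B2: adding `a t ^ N`, with a further variable `t`. -/
def StB2 : Prop := ∀ (p : ℕ) [Fact p.Prime] {Y : Type} [MeasurableSpace Y] (ν : Measure Y)
  [IsProbabilityMeasure ν] (φ : Y → ℤ_[p]), Measurable φ → ∀ a : ℤ_[p], a ≠ 0 → ∀ N : ℕ, 1 ≤ N →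
  ∀ m m' : ℂ → ℕ∞, (∀ T1 T2 : ℂ, T1 ≠ 0 → T2 ^ N = (p : ℂ) → m T1 ≤ m' (T1 * T2)) →
  (∀ χ : UC p, (fun e : ℕ => Eh ν φ χ e) ∈ EP m) →
  ∀ χ : UC p, (fun e : ℕ => Eh (ν.prod (mu p)) (fun y : Y × ℤ_[p] => φ y.1 + a * y.2 ^ N) χ e) ∈
    EP m'

/-- Job B3: adding `∑ y_j ρ_j`, with further variables `y_j`. -/
def StB3 : Prop := ∀ (p : ℕ) [Fact p.Prime] {Y Y' ι : Type} [MeasurableSpace Y]
  [MeasurableSpace Y'] [Fintype ι] [DecidableEq ι] [Nonempty ι] (ν : Measure Y) (ν' : Measure Y')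
  [IsProbabilityMeasure ν] [IsProbabilityMeasure ν'] (φ : Y → ℤ_[p]) (ρ : Y' → ι → ℤ_[p]),
  Measurable φ → Measurable ρ → ∀ (χ : UC p) (e : ℕ),
  Eh (ν.prod ((Measure.pi fun _ : ι => mu p).prod ν'))
    (fun y : Y × ((ι → ℤ_[p]) × Y') => φ y.1 + ∑ j, y.2.1 j * ρ y.2.2 j) χ e =
  ((ν' {y | ∀ j, ‖ρ y j‖ ≤ ((p : ℝ)⁻¹) ^ e}).toReal : ℂ) * Eh ν φ χ e

open MvPolynomial Pool.Agent.H628R4.TP in
/-- Job C: functional equations of `g(x) + c y ^ N` (exact Thom-Sebastiani, M. Saito). -/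
def StC : Prop := ∀ {τ : Type} (g : MvPolynomial τ ℂ), g ≠ 0 → ∀ c : ℂ, c ≠ 0 → ∀ N : ℕ, 2 ≤ N →
  ∀ b : Polynomial ℂ,
  IsBFunction (rename Sum.inl g + C c * X (Sum.inr ()) ^ N : MvPolynomial (τ ⊕ Unit) ℂ) b →
  ∃ b' : Polynomial ℂ, b = (Polynomial.X + 1) * b' ∧
    IsBFunction g ((Polynomial.X + 1) * b'.comp (Polynomial.X - Polynomial.C (1 / (N : ℂ))))

end Pool.Agent.N138.SU
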