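import Pool.Agent.N138.SU.WA
import Pool.Agent.N138.SU.Cls3

set_option autoImplicit false
set_option linter.unusedSectionVars false
set_option linter.unusedVariables false

/-! # The sums `∑ y_j f_j(x) + g(z)`, with weights -/

namespace Pool.Agent.N138.SU

open MeasureTheory Pool.Agent.W574.SM
open Pool.Agent.Y230.PT Pool.Agent.Y230.PS Pool.Agent.Y230.TH
open Pool.Agent.W427.SMC (msZ bsZ mu)

variable {p : ℕ} [Fact p.Prime] {w : ℕ → ℕ∞}

attribute [local instance] msK bsK msZ bsZ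

section vol

theorem Volw_mem (A : FamQ) (hι : Nonempty A.ι) (K : ℕ) (ρ : (A.σ → ℤ_[p]) → A.ι → ℤ_[p])
    (hm : Measurable ρ) (hρ : ∀ x j, inc p (ρ x j) = (p : ℚ_[p]) ^ K *
      MvPolynomial.eval (fun i => inc p (x i)) (MvPolynomial.map (algebraMap ℚ ℚ_[p]) (A.f j)))
    (h : FR p (mI w p A) (Pool.Agent.Y230.PS.FF (A.toP p))) :
    (fun e : ℕ => ((Measure.pi fun _ : A.σ => mu p)
      {y | ∀ j, ‖ρ y j‖ ≤ ((p : ℝ)⁻¹) ^ e}).toReal : ℕ → ℂ) ∈
      EP (Pool.Agent.Y230.PS.tr (mI w p A)) := by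
  have h1 : ∀ x, ‖ρ x‖ = Pool.Agent.Y230.PS.sz
      (fun j => MvPolynomial.C ((p : ℚ_[p]) ^ K) * A.toP p j) x := by
    intro x
    unfold Pool.Agent.Y230.PS.sz
    rw [Pi.norm_def, Pi.norm_def]
    congr 2
    funext j
    rw [map_mul, MvPolynomial.eval_C]
    have h2 := hρ x j
    have h3 : ‖ρ x j‖ = ‖inc p (ρ x j)‖ := rfl
    apply NNReal.eq
    change ‖ρ x j‖ = _
    rw [h3, h2]
    rfl
  have h2 : FR p (mI w p A) (FZ (Measure.pi fun _ : A.σ => mu p) fun x => ‖ρ x‖) := by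
    have h3 := (FR_scaleF (A.toP p) K).2 h
    unfold Pool.Agent.Y230.PS.FF at h3
    refine (congrArg (FR p (mI w p A)) ?_).mp h3
    congr 1
    funext x
    exact (h1 x).symm
  have h4 := Vc_mem _ _ (hm.norm) (fun x => ?_) h2
  · refine (congrArg (· ∈ EP (Pool.Agent.Y230.PS.tr (mI w p A))) (funext fun e => ?_)).mp h4
    unfold Vc Vo
    congr 3
    ext y
    exact pi_norm_le_iff_of_nonneg (pow_nonneg (inv_nonneg.2 (Nat.cast_nonneg _)) e)
  · obtain ⟨j, hj⟩ := Finite.exists_max (fun j => ‖ρ x j‖)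
    have h5 : ‖ρ x‖ = ‖ρ x j‖ := le_antisymm
      ((pi_norm_le_iff_of_nonneg (norm_nonneg _)).2 hj) (norm_le_pi_norm _ j)
    rw [h5]
    exact val_norm _

end vol

section ts

variable {τ : Type} [Fintype τ]

theorem trw_univ (A : FamQ) (hA : ∃ j, A.f j ≠ 0) (T : ℂ) :
    Pool.Agent.Y230.PS.tr (mI w p A) T ≤ Pool.Agent.Y230.PS.tr (mW w p (hyp (uniF A))) T := by
  unfold Pool.Agent.Y230.PS.tr
  split_ifs with h
  · exact le_rfl
  · exact iSup_le fun k => le_mW (A := hyp (uniF A)) (FK_univ A hA _ k k.2)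

/-- the universal linear combinations -/
theorem XW_univ (A : FamQ) (hA : ∃ j, A.f j ≠ 0)
    (h : FR p (mI w p A) (Pool.Agent.Y230.PS.FF (A.toP p))) : XW w p (uniF A) := by
  classical
  have hι : Nonempty A.ι := ⟨hA.choose⟩
  intro K φ hφ χ
  have hev : ∀ (x : A.ι → ℤ_[p]) (y : A.σ → ℤ_[p]), inc p (φ (Sum.elim x y)) =
      (p : ℚ_[p]) ^ K * ∑ j, inc p (x j) * MvPolynomial.eval (fun i => inc p (y i))
        (MvPolynomial.map (algebraMap ℚ ℚ_[p]) (A.f j)) := fun x y => by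
    rw [hφ, uniF_eval]
  set ρ : (A.σ → ℤ_[p]) → A.ι → ℤ_[p] := fun y j => φ (Sum.elim (Pi.single j 1) y) with hρ
  have h1 : ∀ y j, inc p (ρ y j) = (p : ℚ_[p]) ^ K * MvPolynomial.eval (fun i => inc p (y i))
        (MvPolynomial.map (algebraMap ℚ ℚ_[p]) (A.f j)) := by
    intro y j
    rw [hρ]
    beta_reduce
    rw [hev]
    congr 1
    rw [Finset.sum_eq_single j]
    · rw [Pi.single_eq_same, inc_one, one_mul]
    · intro i _ hi
      rw [Pi.single_eq_of_ne hi, inc_zero, zero_mul]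
    · intro hj
      exact absurd (Finset.mem_univ j) hj
  have hm : Measurable ρ := by
    refine measurable_pi_iff.2 fun j => ?_
    refine hφ.meas.comp (measurable_pi_iff.2 fun i => ?_)
    rcases i with i | i
    · exact measurable_const
    · exact measurable_pi_apply i
  have h2 : ∀ z : A.ι ⊕ A.σ → ℤ_[p], φ z =
      0 + ∑ j, z (Sum.inl j) * ρ (fun j => z (Sum.inr j)) j := by
    intro z
    apply inc_inj
    have hz : z = Sum.elim (fun j => z (Sum.inl j)) (fun j => z (Sum.inr j)) := by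
      funext i
      rcases i with i | i <;> rfl
    rw [zero_add, inc_sum]
    conv_lhs => rw [hz, hev, Finset.mul_sum]
    refine Finset.sum_congr rfl fun j _ => ?_
    rw [inc_mul, h1]
    ring
  have h3 := Volw_mem A hι K ρ hm h1 h
  have h4 := EP_mono (fun T _ => trw_univ A hA T) h3
  have h5 := Submodule.smul_mem _
    (∫ u in un p, (starRingEnd ℂ) (χ.X (u : ℚ_[p])) ∂(mu p)) h4
  refine (congrArg (· ∈ EP (Pool.Agent.Y230.PS.tr (mW w p (hyp (uniF A)))))
    (funext fun e => ?_)).mp h5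
  have h6 := B3.t p (Measure.dirac ()) (Measure.pi fun _ : A.σ => mu p) (fun _ : Unit => (0 : ℤ_[p]))
    ρ measurable_const hm χ e
  have h7 : Eh (Measure.dirac ()) (fun _ : Unit => (0 : ℤ_[p])) χ e =
      ∫ u in un p, (starRingEnd ℂ) (χ.X (u : ℚ_[p])) ∂(mu p) := by
    unfold Eh
    refine integral_congr_ae (Filter.Eventually.of_forall fun u => ?_)
    beta_reduce
    have h8 : Es (Measure.dirac ()) (fun _ : Unit => (0 : ℤ_[p])) e u = 1 := by
      unfold Es
      have h9 : ∀ y : Unit, psi p e (u * (0 : ℤ_[p])) = 1 := fun y => by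
        rw [mul_zero, B3.psi_zero]
      rw [integral_congr_ae (Filter.Eventually.of_forall h9), integral_const]
      simp
    rw [h8, mul_one]
  rw [h7] at h6
  rw [Pi.smul_apply, smul_eq_mul, mul_comm, ← h6]
  have h8 : MeasurePreserving (Prod.mk ()) ((Measure.pi fun _ : A.ι => mu p).prod
      (Measure.pi fun _ : A.σ => mu p)) ((Measure.dirac ()).prod
      ((Measure.pi fun _ : A.ι => mu p).prod (Measure.pi fun _ : A.σ => mu p))) :=
    ⟨measurable_prodMk_left, (Measure.dirac_prod ()).symm⟩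
  have h9 := h8.comp (univ_mp (p := p) A)
  have h10 : Measurable (fun y : Unit × ((A.ι → ℤ_[p]) × (A.σ → ℤ_[p])) =>
      (0 : ℤ_[p]) + ∑ j, y.2.1 j * ρ y.2.2 j) := by
    refine measurable_const.add (Finset.measurable_sum _ fun j _ => ?_)
    exact ((measurable_pi_apply j).comp (measurable_fst.comp measurable_snd)).mul
      ((measurable_pi_apply j).comp (hm.comp (measurable_snd.comp measurable_snd)))
  rw [← Eh_mp _ _ _ h9 _ h10 χ e]
  congr 1
  exact (funext h2).symm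

theorem trw_ts (hw : IsW w) (A : FamQ) (g : MvPolynomial τ ℚ) (hA : ∃ j, A.f j ≠ 0) (hg : g ≠ 0)
    (T1 T2 : ℂ) (hT1 : T1 ≠ 0) (hT2 : T2 ≠ 0) (a b : ℕ) (ha : 1 ≤ a) (hb : 1 ≤ b)
    (h1 : (a : ℕ∞) ≤ Pool.Agent.Y230.PS.tr (mI w p A) T1)
    (h2 : (b : ℕ∞) ≤ Pool.Agent.Y230.PS.tr (mW w p (hyp g)) T2) :
    ((a + b - 1 : ℕ) : ℕ∞) ≤ Pool.Agent.Y230.PS.tr (mW w p (hyp (tsF A g))) (T1 * T2) := by
  have key : ∀ (T : ℂ) (m : ℂ → ℕ∞) (a : ℕ), 1 ≤ a → (a : ℕ∞) ≤ Pool.Agent.Y230.PS.tr m T →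
      1 < ‖T‖ ∧ (a : ℕ∞) ≤ m T := by
    intro T m a ha h
    unfold Pool.Agent.Y230.PS.tr at h
    split_ifs at h with hT
    · exfalso
      have h3 : (a : ℕ∞) = 0 := le_antisymm h bot_le
      have h4 : a = 0 := by exact_mod_cast h3
      omega
    · exact ⟨not_le.1 hT, h⟩
  obtain ⟨h3, h4⟩ := key T1 _ a ha h1
  obtain ⟨h5, h6⟩ := key T2 _ b hb h2
  obtain ⟨k, hk1, hk2, hk3⟩ := mI_FK hw ha h4
  obtain ⟨l, hl1, hl2, hl3⟩ := mW_FK hw hb h6
  have h9 := FK_tsum A τ g hA hg T1 T2 h3 h5 k l hk1 hl1 hk3 hl3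
  have h10 : w (k + l - 1) ≤ mW w p (hyp (tsF A g)) (T1 * T2) := le_mW h9
  unfold Pool.Agent.Y230.PS.tr
  rw [if_neg]
  · exact (hw.had a b k l ha hb hk2 hl2).trans h10
  · rw [norm_mul, not_le]
    exact one_lt_mul_of_lt_of_le h3 h5.le

/-- the Thom-Sebastiani sums -/
theorem XW_ts (hw : IsW w) (A : FamQ) (g : MvPolynomial τ ℚ) (hA : ∃ j, A.f j ≠ 0) (hg : g ≠ 0)
    (h : FR p (mI w p A) (Pool.Agent.Y230.PS.FF (A.toP p))) (hgX : XW w p g) : XW w p (tsF A g) := by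
  classical
  have hι : Nonempty A.ι := ⟨hA.choose⟩
  intro K φ hφ χ
  have hev : ∀ (x : A.ι → ℤ_[p]) (y : A.σ → ℤ_[p]) (z : τ → ℤ_[p]),
      inc p (φ (Sum.elim (Sum.elim x y) z)) =
      (p : ℚ_[p]) ^ K * (∑ j, inc p (x j) * MvPolynomial.eval (fun i => inc p (y i))
        (MvPolynomial.map (algebraMap ℚ ℚ_[p]) (A.f j)) +
        MvPolynomial.eval (fun i => inc p (z i)) (MvPolynomial.map (algebraMap ℚ ℚ_[p]) g)) :=
      fun x y z => by
    rw [hφ]
    congr 1
    unfold tsF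
    rw [map_add, map_add, MvPolynomial.map_rename, MvPolynomial.map_rename,
      MvPolynomial.eval_rename, MvPolynomial.eval_rename, ← uniF_eval]
    rfl
  set φ1 : (τ → ℤ_[p]) → ℤ_[p] := fun z => φ (Sum.elim (Sum.elim 0 0) z) with hφ1
  have h0 : IsV g K φ1 := by
    intro z
    rw [hφ1]
    beta_reduce
    rw [hev]
    congr 1
    rw [Finset.sum_eq_zero, zero_add]
    intro j _
    rw [Pi.zero_apply, inc_zero, zero_mul]
  set ρ : (A.σ → ℤ_[p]) → A.ι → ℤ_[p] := fun y j =>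
    φ (Sum.elim (Sum.elim (Pi.single j 1) y) 0) - φ (Sum.elim (Sum.elim 0 0) 0) with hρ
  have h1 : ∀ y j, inc p (ρ y j) = (p : ℚ_[p]) ^ K * MvPolynomial.eval (fun i => inc p (y i))
        (MvPolynomial.map (algebraMap ℚ ℚ_[p]) (A.f j)) := by
    intro y j
    rw [hρ]
    beta_reduce
    rw [inc_sub, hev, hev, Finset.sum_eq_single j, Finset.sum_eq_zero]
    · rw [Pi.single_eq_same, inc_one]
      ring
    · intro i _
      rw [Pi.zero_apply, inc_zero, zero_mul]
    · intro i _ hi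
      rw [Pi.single_eq_of_ne hi, inc_zero, zero_mul]
    · intro hj
      exact absurd (Finset.mem_univ j) hj
  have hm : Measurable ρ := by
    refine measurable_pi_iff.2 fun j => Measurable.sub ?_ measurable_const
    refine hφ.meas.comp (measurable_pi_iff.2 fun i => ?_)
    rcases i with (i | i) | i
    · exact measurable_const
    · exact measurable_pi_apply i
    · exact measurable_const
  have h2 : ∀ z : (A.ι ⊕ A.σ) ⊕ τ → ℤ_[p], φ z = φ1 (fun j => z (Sum.inr j)) +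
      ∑ j, z (Sum.inl (Sum.inl j)) * ρ (fun j => z (Sum.inl (Sum.inr j))) j := by
    intro z
    apply inc_inj
    have hz : z = Sum.elim (Sum.elim (fun j => z (Sum.inl (Sum.inl j)))
        (fun j => z (Sum.inl (Sum.inr j)))) (fun j => z (Sum.inr j)) := by
      funext i
      rcases i with (i | i) | i <;> rfl
    rw [inc_add, inc_sum, h0]
    conv_lhs => rw [hz, hev, mul_add, Finset.mul_sum]
    rw [add_comm]
    congr 1
    refine Finset.sum_congr rfl fun j _ => ?_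
    rw [inc_mul, h1]
    ring
  have h3 := Volw_mem A hι K ρ hm h1 h
  have h4 := hgX K φ1 h0 χ
  have h5 := had _ _ (Pool.Agent.Y230.PS.tr (mW w p (hyp (tsF A g))))
    (fun T1 T2 hT1 hT2 a b ha hb h1 h2 => trw_ts hw A g hA hg T1 T2 hT1 hT2 a b ha hb h1 h2) _ _ h3 h4
  refine (congrArg (· ∈ EP (Pool.Agent.Y230.PS.tr (mW w p (hyp (tsF A g)))))
    (funext fun e => ?_)).mp h5
  have h6 := B3.t p (Measure.pi fun _ : τ => mu p) (Measure.pi fun _ : A.σ => mu p) φ1
    ρ h0.meas hm χ e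
  rw [Pi.mul_apply, ← h6]
  have h7 := measurePreserving_sumPiEquivProdPi (X := fun _ : (A.ι ⊕ A.σ) ⊕ τ => ℤ_[p])
    (fun _ => mu p)
  have h8 := Measure.measurePreserving_swap (μ := Measure.pi fun _ : A.ι ⊕ A.σ => mu p)
    (ν := Measure.pi fun _ : τ => mu p)
  have h9 := ((MeasurePreserving.id (Measure.pi fun _ : τ => mu p)).prod
    (univ_mp (p := p) A)).comp (h8.comp h7)
  have h10 : Measurable (fun y : (τ → ℤ_[p]) × ((A.ι → ℤ_[p]) × (A.σ → ℤ_[p])) =>
      φ1 y.1 + ∑ j, y.2.1 j * ρ y.2.2 j) := by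
    refine (h0.meas.comp measurable_fst).add (Finset.measurable_sum _ fun j _ => ?_)
    exact ((measurable_pi_apply j).comp (measurable_fst.comp measurable_snd)).mul
      ((measurable_pi_apply j).comp (hm.comp (measurable_snd.comp measurable_snd)))
  rw [← Eh_mp _ _ _ h9 _ h10 χ e]
  congr 1
  exact (funext h2).symm

end ts

end Pool.Agent.N138.SU
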