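import Pool.Agent.N138.SU.WC
import Pool.Agent.N138.SU.Cls5

set_option autoImplicit false
set_option linter.unusedSectionVars false
set_option linter.unusedVariables false

/-! # The sums `F(x) + G(y)`, `G` weighted homogeneous with an isolated singularity, with weights -/

namespace Pool.Agent.N138.SU

open MeasureTheory Pool.Agent.W574.SM
open Pool.Agent.Y230.PT Pool.Agent.Y230.PS Pool.Agent.Y230.TH
open Pool.Agent.W427.SMC (msZ bsZ mu)
open Pool.Agent.H628R4.TP (IsBFunction)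

variable {p : ℕ} [Fact p.Prime] {w : ℕ → ℕ∞}

attribute [local instance] msK bsK msZ bsZ

section alg

open Polynomial in
theorem dvdk_aux (r s : ℂ) (k : ℕ) (b' : ℂ[X])
    (h : (X - C r) ^ (k + dl r) ∣ (X + 1) * b'.comp (X - C s)) :
    (X - C (r - s)) ^ (k + dl (r - s)) ∣ (X + 1) * b' := by
  have hX : (X : ℂ[X]) + 1 = X - C (-1) := by rw [C_neg, C_1]; ring
  have h1 : (X - C r) ^ k ∣ b'.comp (X - C s) := by
    by_cases hr : r = -1
    · rw [dl_eq, if_pos hr, hr, pow_succ', hX] at h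
      rw [hr]
      exact (mul_dvd_mul_iff_left (X_sub_C_ne_zero (-1 : ℂ))).1 h
    · rw [dl_eq, if_neg hr, add_zero, hX] at h
      refine IsCoprime.dvd_of_dvd_mul_left (IsCoprime.pow_left ?_) h
      refine isCoprime_X_sub_C_of_isUnit_sub ?_
      rw [isUnit_iff_ne_zero, sub_ne_zero]
      exact hr
  obtain ⟨q, hq⟩ := h1
  refine dvd_dl _ k b' ⟨q.comp (X + C s), ?_⟩
  have h2 := congrArg (fun Q : ℂ[X] => Q.comp (X + C s)) hq
  simp only [mul_comp, pow_comp, sub_comp, X_comp, C_comp, comp_assoc, add_sub_cancel_right,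
    comp_X] at h2
  rw [h2]
  congr 2
  rw [C_sub]
  ring

variable {τ : Type} [Fintype τ] {G : MvPolynomial τ ℚ} {wt : τ → ℕ} {D : ℕ}

theorem FKk_addF {V : Type} [Fintype V] (h3 : StW3) (h4 : StW4b) [Nonempty τ] (hG : IsWH G wt D)
    {F : MvPolynomial V ℚ} (hF : F ≠ 0) (r : ℂ) (k : ℕ) (h : FK (hyp F) r (k + dl r)) :
    FK (hyp (addF F G)) (r - ((∑ i, wt i : ℕ) : ℂ) / (D : ℂ))
      (k + dl (r - ((∑ i, wt i : ℕ) : ℂ) / (D : ℂ))) := by
  intro b hb
  obtain ⟨b', h1, h2⟩ := addF_b h3 h4 hG hF b hb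
  rw [h1]
  exact dvdk_aux r _ k b' (h _ h2)

theorem trw_addF {V : Type} [Fintype V] (h3 : StW3) (h4 : StW4b) [Nonempty τ] (hG : IsWH G wt D)
    {F : MvPolynomial V ℚ} (hF : F ≠ 0) (T1 T2 : ℂ) (h1 : T1 ≠ 0)
    (h2 : T2 ^ D = (p : ℂ) ^ (∑ i, wt i)) :
    Pool.Agent.Y230.PS.tr (mW w p (hyp F)) T1 ≤
      Pool.Agent.Y230.PS.tr (mW w p (hyp (addF F G))) (T1 * T2) := by
  have hT2 : 1 < ‖T2‖ := norm_root T2 _ (sum_w hG) h2
  by_cases hT1 : ‖T1‖ ≤ 1
  · unfold Pool.Agent.Y230.PS.tr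
    rw [if_pos hT1]
    exact bot_le
  · have hT1' := not_le.1 hT1
    have hT : ¬ ‖T1 * T2‖ ≤ 1 := by
      rw [norm_mul, not_le]
      exact one_lt_mul_of_lt_of_le hT1' hT2.le
    unfold Pool.Agent.Y230.PS.tr
    rw [if_neg hT1, if_neg hT]
    refine iSup_le fun k => ?_
    have h5 := FKk_addF h3 h4 hG hF _ k k.2
    have h6 : ((rr p T1 : ℝ) : ℂ) - ((∑ i, wt i : ℕ) : ℂ) / (D : ℂ) =
        ((rr p (T1 * T2) : ℝ) : ℂ) := by
      rw [rr_mul T1 T2 hT1' hT2, rr_root T2 _ hG.posD h2]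
      push_cast
      ring
    rw [h6] at h5
    exact le_mW h5

end alg

section main

variable {τ : Type} [Fintype τ] {G : MvPolynomial τ ℚ} {wt : τ → ℕ} {D : ℕ}

/-- **The sums `F(x) + G(y)`.** -/
theorem XW_addF (h1 : StW1) (h2 : StW2) (h3 : StW3) (h4 : StW4b) [Nonempty τ] (hG : IsWH G wt D)
    {V : Type} [Fintype V] {F : MvPolynomial V ℚ} (hF : F ≠ 0) (h : XW w p F) :
    XW w p (addF F G) := by
  obtain ⟨K0, φ0, hφ0⟩ := exists_IsV (p := p) F
  obtain ⟨K1, hK1⟩ := exists_model (p := p) G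
  obtain ⟨Gz, hGz⟩ := hK1 (K1 + K0) (Nat.le_add_right _ _)
  have hφ1 := hφ0.up K1
  set φ1 : (V → ℤ_[p]) → ℤ_[p] := fun x => (p : ℤ_[p]) ^ K1 * φ0 x with hφ1d
  set ρ : (τ → ℤ_[p]) → ℤ_[p] := fun y => MvPolynomial.eval y Gz with hρ
  have hρm : Measurable ρ := (MvPolynomial.continuous_eval Gz).measurable
  have hφ : IsV (addF F G) (K1 + K0) (fun z => φ1 (fun i => z (Sum.inl i)) +
      ρ (fun i => z (Sum.inr i))) := by
    intro z
    beta_reduce
    rw [inc_add, hφ1, hρ, model_ev hGz, ← mul_add]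
    congr 1
    unfold addF
    rw [map_add, map_add, MvPolynomial.map_rename, MvPolynomial.map_rename,
      MvPolynomial.eval_rename, MvPolynomial.eval_rename]
    rfl
  refine XW_of (K1 + K0) _ hφ fun χ => ?_
  obtain ⟨⟨C, hC, hC1⟩, e0, he0⟩ := model_W1 h1 hG hGz
  have h5 := h2 p (Measure.pi fun _ : V => mu p) (Measure.pi fun _ : τ => mu p) φ1 ρ hφ1.meas hρm
    C D (∑ i, wt i) e0 hC hG.posD hC1 he0 (Pool.Agent.Y230.PS.tr (mW w p (hyp F)))
    (Pool.Agent.Y230.PS.tr (mW w p (hyp (addF F G))))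
    (fun T1 T2 hT1 hT2 => trw_addF h3 h4 hG hF T1 T2 hT1 hT2) (h _ φ1 hφ1) χ
  refine (congrArg (· ∈ EP (Pool.Agent.Y230.PS.tr (mW w p (hyp (addF F G)))))
    (funext fun e => ?_)).mp h5
  have hm : Measurable (fun y : (V → ℤ_[p]) × (τ → ℤ_[p]) => φ1 y.1 + ρ y.2) :=
    (hφ1.meas.comp measurable_fst).add (hρm.comp measurable_snd)
  have h7 := measurePreserving_sumPiEquivProdPi (X := fun _ : V ⊕ τ => ℤ_[p])
    (fun _ => mu p)
  rw [← Eh_mp _ _ _ h7 _ hm χ e]
  rfl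

/-- **The polynomial `G`.** -/
theorem XW_G (hw : IsW w) (h1 : StW1) (h2 : StW2) (h3 : StW3) (h4 : StW4b) [Nonempty τ]
    (hG : IsWH G wt D) : XW w p G := by
  classical
  obtain ⟨K1, hK1⟩ := exists_model (p := p) G
  obtain ⟨Gz, hGz⟩ := hK1 K1 le_rfl
  set ρ : (τ → ℤ_[p]) → ℤ_[p] := fun y => MvPolynomial.eval y Gz with hρ
  have hρm : Measurable ρ := (MvPolynomial.continuous_eval Gz).measurable
  have hφ : IsV G K1 ρ := fun z => model_ev hGz z
  refine XW_of K1 _ hφ fun χ => ?_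
  obtain ⟨⟨C, hC, hC1⟩, e0, he0⟩ := model_W1 h1 hG hGz
  have h7 : ∀ (χ : UC p) (e : ℕ), Eh (Measure.dirac ()) (fun _ : Unit => (0 : ℤ_[p])) χ e =
      ∫ u in un p, (starRingEnd ℂ) (χ.X (u : ℚ_[p])) ∂(mu p) := by
    intro χ e
    unfold Eh
    refine integral_congr_ae (Filter.Eventually.of_forall fun u => ?_)
    beta_reduce
    have h8 : Es (Measure.dirac ()) (fun _ : Unit => (0 : ℤ_[p])) e u = 1 := by
      unfold Es
      have h9 : ∀ y : Unit, psi p e (u * (0 : ℤ_[p])) = 1 := fun y => by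
        rw [mul_zero, B3.psi_zero]
      rw [integral_congr_ae (Filter.Eventually.of_forall h9), integral_const]
      simp
    rw [h8, mul_one]
  have h5 := h2 p (Measure.dirac ()) (Measure.pi fun _ : τ => mu p) (fun _ : Unit => (0 : ℤ_[p])) ρ
    measurable_const hρm C D (∑ i, wt i) e0 hC hG.posD hC1 he0 (fun T => if T = 1 then 1 else 0)
    (Pool.Agent.Y230.PS.tr (mW w p (hyp G))) (fun T1 T2 hT1 hT2 => ?_) (fun χ => ?_) χ
  · refine (congrArg (· ∈ EP (Pool.Agent.Y230.PS.tr (mW w p (hyp G))))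
      (funext fun e => ?_)).mp h5
    have hm : Measurable (fun y : Unit × (τ → ℤ_[p]) => (0 : ℤ_[p]) + ρ y.2) :=
      measurable_const.add (hρm.comp measurable_snd)
    have h8 : MeasurePreserving (Prod.mk ()) (Measure.pi fun _ : τ => mu p)
        ((Measure.dirac ()).prod (Measure.pi fun _ : τ => mu p)) :=
      ⟨measurable_prodMk_left, (Measure.dirac_prod ()).symm⟩
    have h9 := Eh_mp _ _ _ h8 _ hm χ e
    rw [← h9]
    congr 1
    funext y
    rw [zero_add]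
  · split_ifs with hT
    · rw [hT, one_mul]
      have hT2' : 1 < ‖T2‖ := norm_root T2 _ (sum_w hG) hT2
      have h8 := FK_G h3 h4 hG
      have h9 : -(((∑ i, wt i : ℕ) : ℂ) / (D : ℂ)) = ((rr p T2 : ℝ) : ℂ) := by
        rw [rr_root T2 _ hG.posD hT2]
        push_cast
        ring
      rw [h9] at h8
      unfold Pool.Agent.Y230.PS.tr
      rw [if_neg (not_le.2 hT2')]
      exact hw.one.trans (le_mW h8)
    · exact bot_le
  · refine (congrArg (· ∈ EP (fun T => if T = 1 then 1 else 0)) (funext fun e => ?_)).mp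
      (const_EP (∫ u in un p, (starRingEnd ℂ) (χ.X (u : ℚ_[p])) ∂(mu p))
        (fun T => if T = 1 then 1 else 0) (by simp))
    exact (h7 χ e).symm

end main

end Pool.Agent.N138.SU
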