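import Pool.Agent.N138.SU.Char

set_option autoImplicit false
set_option linter.unusedSectionVars false
set_option linter.unusedVariables false

/-! # Integrals of complex functions over compact open subsets of `ℚ_p ^ 2` -/

namespace Pool.Agent.N138.SU

open MeasureTheory Set Pool.Agent.W427.SMC Pool.Agent.Y230.PT
open scoped ENNReal
open Pool.Agent.Y230.RE

variable {p : ℕ} [Fact p.Prime]

attribute [local instance] msK bsK

/-- complex integrands -/
abbrev CI (p : ℕ) [Fact p.Prime] := ℝ → ℚ_[p] × ℚ_[p] → ℂ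

/-- the good integrands -/
def Okx (F : CI p) : Prop :=
  ∀ s : ℝ, 0 ≤ s → Measurable (F s) ∧ ∀ C : Set (ℚ_[p] × ℚ_[p]), IsCompact C →
    ∃ B : ℝ, ∀ x ∈ C, ‖F s x‖ ≤ B

/-- the integral over a set -/
noncomputable def Zx (F : CI p) (C : Set (ℚ_[p] × ℚ_[p])) (s : ℝ) : ℂ :=
  ∫ x in C, F s x ∂(nu2 p)

theorem Okx.fin {F : CI p} (hF : Okx F) {C : Set (ℚ_[p] × ℚ_[p])} (hC : CO C)
    {s : ℝ} (hs : 0 ≤ s) : IntegrableOn (F s) C (nu2 p) := by
  obtain ⟨B, hle⟩ := (hF s hs).2 C hC.cpt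
  refine Measure.integrableOn_of_bounded (M := B) hC.cpt.measure_lt_top.ne
    (hF s hs).1.aestronglyMeasurable ?_
  exact (ae_restrict_iff' hC.meas).2 (Filter.Eventually.of_forall hle)

theorem Zx_union {F : CI p} (hF : Okx F) {A B : Set (ℚ_[p] × ℚ_[p])}
    (hA : CO A) (hB : CO B) (hd : Disjoint A B) {s : ℝ} (hs : 0 ≤ s) :
    Zx F (A ∪ B) s = Zx F A s + Zx F B s :=
  setIntegral_union hd hB.meas (hF.fin hA hs) (hF.fin hB hs)

theorem Zx_empty (F : CI p) (s : ℝ) : Zx F ∅ s = 0 := by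
  simp [Zx]

theorem Zx_congr {F G : CI p} {C : Set (ℚ_[p] × ℚ_[p])} (hC : CO C) {s : ℝ}
    (h : ∀ x ∈ C, F s x = G s x) : Zx F C s = Zx G C s :=
  setIntegral_congr_fun hC.meas h

theorem addF_Zx {F : CI p} (hF : Okx F) : AddF (Zx F) :=
  ⟨fun s _ => Zx_empty F s, fun _ _ hA hB hd _ hs => Zx_union hF hA hB hd hs⟩

theorem Okx.mul {F G : CI p} (hF : Okx F) (hG : Okx G) : Okx (fun s x => F s x * G s x) := by
  intro s hs
  refine ⟨(hF s hs).1.mul (hG s hs).1, fun C hC => ?_⟩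
  obtain ⟨B, h1⟩ := (hF s hs).2 C hC
  obtain ⟨B', h2⟩ := (hG s hs).2 C hC
  refine ⟨B * B', fun x hx => ?_⟩
  rw [norm_mul]
  exact mul_le_mul (h1 x hx) (h2 x hx) (norm_nonneg _) ((norm_nonneg _).trans (h1 x hx))

theorem okx_const (c : ℝ → ℂ) : Okx (fun s (_ : ℚ_[p] × ℚ_[p]) => c s) := by
  intro s _
  exact ⟨measurable_const, fun C _ => ⟨‖c s‖, fun _ _ => le_rfl⟩⟩

theorem Okx.pow {F : CI p} (hF : Okx F) (n : ℕ) : Okx (fun s x => F s x ^ n) := by
  induction n with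
  | zero => simpa using okx_const (p := p) (fun _ => 1)
  | succ n ih =>
    have := ih.mul hF
    simpa [pow_succ] using this

theorem okx_om (χ : UC p) (f : ℚ_[p] × ℚ_[p] → ℚ_[p]) (hf : Continuous f) :
    Okx (fun s x => om χ s (f x)) := by
  intro s hs
  refine ⟨(om_meas χ s).comp hf.measurable, fun C hC => ?_⟩
  obtain ⟨R, hR⟩ := bound_norm f hf C hC
  exact ⟨‖R‖ ^ s, fun x hx => (norm_om_le χ s _).trans
    (Real.rpow_le_rpow (norm_nonneg _) (hR x hx) hs)⟩

theorem okx_nx (f : ℚ_[p] × ℚ_[p] → ℚ_[p]) (hf : Continuous f) :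
    Okx (fun _ x => nx (f x)) := by
  intro s hs
  refine ⟨nx_meas.comp hf.measurable, fun C hC => ?_⟩
  obtain ⟨R, hR⟩ := bound_norm f hf C hC
  exact ⟨‖R‖, fun x hx => by rw [norm_nx]; exact hR x hx⟩

theorem okx_wx (χ : UC p) (f : ℚ_[p] × ℚ_[p] → ℚ_[p]) (hf : Continuous f) (a n : ℕ) :
    Okx (fun s x => wx χ s a n (f x)) :=
  ((okx_om χ f hf).pow a).mul ((okx_nx f hf).pow (n - 1))

theorem Okx.comp {F : CI p} (hF : Okx F)
    (f : ℚ_[p] × ℚ_[p] → ℚ_[p] × ℚ_[p]) (hf : Continuous f) : Okx (fun s x => F s (f x)) := by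
  intro s hs
  refine ⟨(hF s hs).1.comp hf.measurable, fun C hC => ?_⟩
  obtain ⟨B, hle⟩ := (hF s hs).2 (f '' C) (hC.image hf)
  exact ⟨B, fun x hx => hle _ (Set.mem_image_of_mem f hx)⟩

/-- the integrand in the first chart -/
noncomputable def G1 (F : CI p) : CI p := fun s x => nx x.1 * F s (c1 x)

/-- the integrand in the second chart -/
noncomputable def G2 (F : CI p) : CI p := fun s x => nx x.2 * F s (c2 x)

theorem Okx.G1 {F : CI p} (hF : Okx F) : Okx (G1 F) :=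
  (okx_nx (fun x => x.1) continuous_fst).mul (hF.comp c1 c1_cont)

theorem Okx.G2 {F : CI p} (hF : Okx F) : Okx (G2 F) :=
  (okx_nx (fun x => x.2) continuous_snd).mul (hF.comp c2 c2_cont)

theorem N1_toNN (x : ℚ_[p]) : (N p 1 x).toReal = ‖x‖ := by
  rw [N_toReal, Real.rpow_one]

/-- the measure of the blow-up -/
theorem meas_blow (L : ℕ) {C : Set (ℚ_[p] × ℚ_[p])} (hC : CO C) :
    (nu2 p).restrict C =
      Measure.map c1 (((nu2 p).restrict (S1 L C)).withDensity (fun x => N p 1 x.1)) +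
      Measure.map c2 (((nu2 p).restrict (S2 L C)).withDensity (fun x => N p 1 x.2)) := by
  ext E hE
  have hm1 : Measurable (fun x : ℚ_[p] × ℚ_[p] => N p 1 x.1) := (N_meas 1).comp measurable_fst
  have hm2 : Measurable (fun x : ℚ_[p] × ℚ_[p] => N p 1 x.2) := (N_meas 1).comp measurable_snd
  rw [Measure.add_apply, Measure.map_apply c1_cont.measurable hE,
    Measure.map_apply c2_cont.measurable hE, withDensity_apply _ (hE.preimage c1_cont.measurable),
    withDensity_apply _ (hE.preimage c2_cont.measurable), Measure.restrict_apply hE,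
    Measure.restrict_restrict (hE.preimage c1_cont.measurable),
    Measure.restrict_restrict (hE.preimage c2_cont.measurable)]
  have h1 := lint_blow L ((E ∩ C).indicator (fun _ => (1 : ℝ≥0∞)))
    (measurable_const.indicator (hE.inter hC.meas))
  rw [lintegral_indicator (hE.inter hC.meas), setLIntegral_one] at h1
  have hB1 : MeasurableSet {x : ℚ_[p] × ℚ_[p] | ‖x.2‖ * qr p ^ L ≤ 1} :=
    (isClosed_le (by fun_prop) (by fun_prop)).measurableSet
  have hB2 : MeasurableSet {x : ℚ_[p] × ℚ_[p] | ‖x.1‖ < qr p ^ L} :=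
    (isOpen_lt (by fun_prop) (by fun_prop)).measurableSet
  rw [h1, lintegral_indicator hB1, lintegral_indicator hB2]
  congr 1
  · rw [← lintegral_indicator hB1, ← lintegral_indicator
      ((hE.preimage c1_cont.measurable).inter (CO_S1 L hC).meas)]
    refine lintegral_congr fun x => ?_
    by_cases h2 : x ∈ {x : ℚ_[p] × ℚ_[p] | ‖x.2‖ * qr p ^ L ≤ 1}
    · rw [Set.indicator_of_mem h2]
      by_cases h3 : c1 x ∈ E ∩ C
      · rw [Set.indicator_of_mem h3, Set.indicator_of_mem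
          (show x ∈ c1 ⁻¹' E ∩ S1 L C from ⟨h3.1, h2, h3.2⟩), mul_one]
      · rw [Set.indicator_of_notMem h3, mul_zero, Set.indicator_of_notMem
          (show x ∉ c1 ⁻¹' E ∩ S1 L C from fun h => h3 ⟨h.1, h.2.2⟩)]
    · rw [Set.indicator_of_notMem h2, Set.indicator_of_notMem
        (show x ∉ c1 ⁻¹' E ∩ S1 L C from fun h => h2 h.2.1)]
  · rw [← lintegral_indicator hB2, ← lintegral_indicator
      ((hE.preimage c2_cont.measurable).inter (CO_S2 L hC).meas)]
    refine lintegral_congr fun x => ?_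
    by_cases h2 : x ∈ {x : ℚ_[p] × ℚ_[p] | ‖x.1‖ < qr p ^ L}
    · rw [Set.indicator_of_mem h2]
      by_cases h3 : c2 x ∈ E ∩ C
      · rw [Set.indicator_of_mem h3, Set.indicator_of_mem
          (show x ∈ c2 ⁻¹' E ∩ S2 L C from ⟨h3.1, h2, h3.2⟩), mul_one]
      · rw [Set.indicator_of_notMem h3, mul_zero, Set.indicator_of_notMem
          (show x ∉ c2 ⁻¹' E ∩ S2 L C from fun h => h3 ⟨h.1, h.2.2⟩)]
    · rw [Set.indicator_of_notMem h2, Set.indicator_of_notMem
        (show x ∉ c2 ⁻¹' E ∩ S2 L C from fun h => h2 h.2.1)]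

/-- integral of a density -/
theorem int_dens (μ : Measure (ℚ_[p] × ℚ_[p])) (f : ℚ_[p] × ℚ_[p] → ℚ_[p]) (hf : Measurable f)
    (g : ℚ_[p] × ℚ_[p] → ℂ) :
    ∫ x, g x ∂(μ.withDensity (fun x => N p 1 (f x))) = ∫ x, nx (f x) * g x ∂μ := by
  have h1 := integral_withDensity_eq_integral_toReal_smul (μ := μ)
    (f := fun x => N p 1 (f x)) ((N_meas 1).comp hf)
    (Filter.Eventually.of_forall fun x => lt_top_iff_ne_top.2 (N_ne_top _ _)) g
  rw [h1]
  refine integral_congr_ae (Filter.Eventually.of_forall fun x => ?_)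
  change (N p 1 (f x)).toReal • g x = nx (f x) * g x
  rw [N1_toNN, nx]
  rfl

theorem Zx_blow (L : ℕ) {F : CI p} (hF : Okx F) {C : Set (ℚ_[p] × ℚ_[p])}
    (hC : CO C) {s : ℝ} (hs : 0 ≤ s) :
    Zx F C s = Zx (G1 F) (S1 L C) s + Zx (G2 F) (S2 L C) s := by
  have hint : Integrable (F s) ((nu2 p).restrict C) := hF.fin hC hs
  have hmF := (hF s hs).1
  unfold Zx
  rw [meas_blow L hC] at hint ⊢
  rw [integral_add_measure hint.left_of_add_measure hint.right_of_add_measure,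
    integral_map c1_cont.measurable.aemeasurable hmF.aestronglyMeasurable,
    integral_map c2_cont.measurable.aemeasurable hmF.aestronglyMeasurable,
    int_dens _ (fun x => x.1) measurable_fst, int_dens _ (fun x => x.2) measurable_snd]
  rfl

/-- measure preserving homeomorphisms -/
theorem Zx_pres (F : CI p) (τ : (ℚ_[p] × ℚ_[p]) ≃ₜ (ℚ_[p] × ℚ_[p])) (c : ℝ≥0∞)
    (hτ : ∀ E, MeasurableSet E → nu2 p E = c * nu2 p (τ ⁻¹' E))
    {C : Set (ℚ_[p] × ℚ_[p])} (hC : CO C) (s : ℝ) :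
    Zx F C s = (c.toReal : ℂ) * Zx (fun s x => F s (τ x)) (τ ⁻¹' C) s := by
  have h1 : nu2 p = c • Measure.map τ (nu2 p) := by
    ext E hE
    rw [Measure.smul_apply, Measure.map_apply τ.continuous.measurable hE, hτ E hE, smul_eq_mul]
  unfold Zx
  conv_lhs => rw [h1]
  rw [Measure.restrict_smul, integral_smul_measure, τ.measurableEmbedding.setIntegral_map]
  rfl

theorem nu2_shV (f : ℚ_[p] → ℚ_[p]) (hf : Continuous f) (E : Set (ℚ_[p] × ℚ_[p]))
    (hE : MeasurableSet E) : nu2 p E = nu2 p (shV f hf ⁻¹' E) := by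
  have hcont : Continuous (fun x : ℚ_[p] × ℚ_[p] => ((x.1, f x.1 + x.2) : ℚ_[p] × ℚ_[p])) := by
    fun_prop
  have hm : MeasurableSet ((fun x : ℚ_[p] × ℚ_[p] => ((x.1, f x.1 + x.2) : ℚ_[p] × ℚ_[p])) ⁻¹' E) :=
    hE.preimage hcont.measurable
  have h0 : Measurable (E.indicator (fun _ => (1 : ℝ≥0∞))) := measurable_const.indicator hE
  change _ = nu2 p ((fun x : ℚ_[p] × ℚ_[p] => ((x.1, f x.1 + x.2) : ℚ_[p] × ℚ_[p])) ⁻¹' E)
  rw [← setLIntegral_one E, ← setLIntegral_one (_ ⁻¹' E), ← lintegral_indicator hE,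
    ← lintegral_indicator hm, nu2, lintegral_prod _ h0.aemeasurable, lintegral_prod]
  · refine lintegral_congr fun x => ?_
    rw [← lintegral_shift p (f x)]
    rfl
  · exact (h0.comp hcont.measurable).aemeasurable

theorem nu2_shU (α : ℚ_[p]) (hα : α ≠ 0) (f : ℚ_[p] → ℚ_[p]) (hf : Continuous f)
    (E : Set (ℚ_[p] × ℚ_[p])) (hE : MeasurableSet E) :
    nu2 p E = N p 1 α * nu2 p (shU α hα f hf ⁻¹' E) := by
  have hcont : Continuous (fun x : ℚ_[p] × ℚ_[p] => ((f x.2 + α * x.1, x.2) : ℚ_[p] × ℚ_[p])) := by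
    fun_prop
  have hm : MeasurableSet ((fun x : ℚ_[p] × ℚ_[p] =>
      ((f x.2 + α * x.1, x.2) : ℚ_[p] × ℚ_[p])) ⁻¹' E) := hE.preimage hcont.measurable
  have h0 : Measurable (E.indicator (fun _ => (1 : ℝ≥0∞))) := measurable_const.indicator hE
  change _ = _ * nu2 p ((fun x : ℚ_[p] × ℚ_[p] => ((f x.2 + α * x.1, x.2) : ℚ_[p] × ℚ_[p])) ⁻¹' E)
  rw [← setLIntegral_one E, ← setLIntegral_one (_ ⁻¹' E), ← lintegral_indicator hE,
    ← lintegral_indicator hm, nu2, lintegral_prod_symm _ h0.aemeasurable,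
    ← lintegral_const_mul' _ _ (N_ne_top _ _), lintegral_prod_symm]
  · refine lintegral_congr fun y => ?_
    rw [← lintegral_shift p (f y), ← lintegral_scale p α hα, ← lintegral_const_mul' _ _
      (N_ne_top _ _)]
    rfl
  · exact (measurable_const.mul (h0.comp hcont.measurable)).aemeasurable

/-- the swap preserves the integrals -/
theorem Zx_swap (F : CI p) (C : Set (ℚ_[p] × ℚ_[p])) (hC : CO C)
    (s : ℝ) : Zx F C s = Zx (fun s x => F s x.swap) (Prod.swap ⁻¹' C) s := by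
  have h := Zx_pres F (Homeomorph.prodComm _ _) 1 (fun E hE => by
    rw [one_mul]
    have h1 : MeasurePreserving (Prod.swap : ℚ_[p] × ℚ_[p] → ℚ_[p] × ℚ_[p]) (nu2 p) (nu2 p) :=
      Measure.measurePreserving_swap
    exact (h1.measure_preimage hE.nullMeasurableSet).symm) hC s
  rw [h, ENNReal.toReal_one, Complex.ofReal_one, one_mul]
  rfl

theorem Zx_shearV (F : CI p) (f : ℚ_[p] → ℚ_[p])
    (hf : Continuous f) {C : Set (ℚ_[p] × ℚ_[p])} (hC : CO C) (s : ℝ) :
    Zx F C s = Zx (fun s x => F s (x.1, f x.1 + x.2)) (shV f hf ⁻¹' C) s := by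
  rw [Zx_pres F (shV f hf) 1 (fun E hE => by rw [one_mul]; exact nu2_shV f hf E hE) hC s,
    ENNReal.toReal_one, Complex.ofReal_one, one_mul]
  rfl

theorem Zx_shearU (F : CI p) (α : ℚ_[p]) (hα : α ≠ 0)
    (f : ℚ_[p] → ℚ_[p]) (hf : Continuous f) {C : Set (ℚ_[p] × ℚ_[p])} (hC : CO C) (s : ℝ) :
    Zx F C s = ((N p 1 α).toReal : ℂ) * Zx (fun s x => F s (f x.2 + α * x.1, x.2))
      (shU α hα f hf ⁻¹' C) s := by
  rw [Zx_pres F (shU α hα f hf) (N p 1 α) (fun E hE => nu2_shU α hα f hf E hE) hC s]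
  rfl

theorem Zx_mul (F : CI p) (c : ℂ) (C : Set (ℚ_[p] × ℚ_[p])) (s : ℝ) (G : CI p) (hC : CO C)
    (h : ∀ x ∈ C, F s x = c * G s x) : Zx F C s = c * Zx G C s := by
  unfold Zx
  rw [setIntegral_congr_fun hC.meas h, integral_const_mul]

end Pool.Agent.N138.SU
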